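import Mathlib
import Pool.Agent.Helper278.DefsG
import Pool.Agent.Helper278.Trace

/-!
# Solid and U-solid II₁ factors: definitions

The statement of the main theorem uses only: `DiffuseIn`, `Amenable`, `resTr`, `Solid`, `USolid`
of this file and `Elt`, `IsTracialUltrapower`, `IsIIOneFactor` of `Pool/Agent/Helper278`.
-/

set_option autoImplicit false

open scoped InnerProductSpace BoundedContinuousFunction
open Filter

namespace Pool.Agent.H811R4.SD

open Pool.Agent.Helper278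

universe u

/-- The star algebra `S` of elements of `R` is diffuse: it has no minimal projection, that is, no
nonzero projection `r` in `S` such that `r S r = ℂ r`. -/
def DiffuseIn {R : Type*} [Ring R] [StarRing R] [Algebra ℂ R] (S : Set R) : Prop :=
  ∀ r ∈ S, r * r = r → star r = r → r ≠ 0 → ∃ x ∈ S, ∀ c : ℂ, r * x * r ≠ c • r

/-- The tracial von Neumann algebra `(A, τ)` is amenable: it has a hypertrace, that is, a positive
linear functional `φ` on `B(L²(A, τ))` with `φ(λ_a X) = φ(X λ_a)` and `φ(λ_a) = τ(a)` for all `a` in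
`A`, `X` in `B(L²(A, τ))`. Here `K` with the map `j : A → K` is the Hilbert space `L²(A, τ)` (the
completion of `A` for `⟨x, y⟩ = τ(x* y)`) and `λ_a` is the left multiplication by `a` on it. -/
def Amenable {A : Type u} [Ring A] [StarRing A] [Algebra ℂ A] (τ : A → ℂ) : Prop :=
  ∃ (K : Type u) (_ : NormedAddCommGroup K) (_ : InnerProductSpace ℂ K) (_ : CompleteSpace K)
    (j : A →ₗ[ℂ] K) (lam : A → K →L[ℂ] K) (φ : (K →L[ℂ] K) →ₗ[ℂ] ℂ),
    (∀ x y, ⟪j x, j y⟫_ℂ = τ (star x * y)) ∧ DenseRange j ∧ (∀ a b, lam a (j b) = j (a * b)) ∧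
    (∀ X : K →L[ℂ] K, 0 ≤ (φ (star X * X)).re ∧ (φ (star X * X)).im = 0) ∧
    (∀ a X, φ (lam a * X) = φ (X * lam a)) ∧ ∀ a, φ (lam a) = τ a

section vonNeumann

variable {H : Type u} [NormedAddCommGroup H] [InnerProductSpace ℂ H] [CompleteSpace H]

/-- The restriction of the trace `τ` of `M` to a von Neumann subalgebra `A` of `M`. -/
def resTr {M : VonNeumannAlgebra H} (τ : Elt M → ℂ) {A : VonNeumannAlgebra H}
    (h : ∀ x ∈ A, x ∈ M) (a : Elt A) : ℂ := τ ⟨a.1, h a.1 a.2⟩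

/-- `M` is solid: every von Neumann subalgebra `A` of `M` whose relative commutant `A' ∩ M` is
diffuse is amenable. -/
def Solid (M : VonNeumannAlgebra H) (τ : Elt M → ℂ) : Prop :=
  ∀ (A : VonNeumannAlgebra H) (h : ∀ x ∈ A, x ∈ M),
    DiffuseIn {x : Elt M | ∀ a ∈ A, a * (x : H →L[ℂ] H) = (x : H →L[ℂ] H) * a} →
      Amenable (resTr τ h)

/-- `M` is `U`-solid: every von Neumann subalgebra `A` of `M` whose relative commutant
`A' ∩ M^U` in the tracial ultrapower `M^U = Q` is diffuse is amenable. -/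
def USolid (M : VonNeumannAlgebra H) (τ : Elt M → ℂ) (U : Ultrafilter ℕ) : Prop :=
  ∀ (Q : Type u) [Ring Q] [StarRing Q] [Algebra ℂ Q] [StarModule ℂ Q]
    (π : (ℕ →ᵇ Elt M) →⋆ₐ[ℂ] Q) (σ : Q → ℂ), IsTracialUltrapower τ U π σ →
    ∀ (A : VonNeumannAlgebra H) (h : ∀ x ∈ A, x ∈ M),
      DiffuseIn {q : Q | ∀ a : Elt M, (a : H →L[ℂ] H) ∈ A →
        π (BoundedContinuousFunction.const ℕ a) * q =
          q * π (BoundedContinuousFunction.const ℕ a)} →
      Amenable (resTr τ h)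

end vonNeumann

/-! ### Auxiliary definitions (proof only) -/

/-- the elements commuting with `F` -/
def RC {R : Type*} [Mul R] (F : Set R) : Set R := {x | ∀ a ∈ F, a * x = x * a}

/-- closed under the involution -/
def StarClosed {R : Type*} [Star R] (F : Set R) : Prop := ∀ a ∈ F, star a ∈ F

/-- projections -/
structure Proj {R : Type*} [Mul R] [Star R] (p : R) : Prop where
  sa : star p = p
  idem : p * p = p

section aux

variable {H : Type u} [NormedAddCommGroup H] [InnerProductSpace ℂ H] [CompleteSpace H]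
variable {M : VonNeumannAlgebra H}
variable {K : Type u} [NormedAddCommGroup K] [InnerProductSpace ℂ K] [CompleteSpace K]

/-- the standard representation of `(M, τ)` -/
structure Std (T : TracialState M) (j : Elt M →ₗ[ℂ] K) (lam : Elt M →⋆ₐ[ℂ] (K →L[ℂ] K)) :
    Prop where
  inner : ∀ x y, ⟪j x, j y⟫_ℂ = T.τ (star x * y)
  dense : DenseRange j
  lam_j : ∀ a b, lam a (j b) = j (a * b)

/-- positive functionals on `B(L²(M))` that restrict to `x ↦ τ(p x p)` on `M` -/
structure Fun (T : TracialState M) (lam : Elt M →⋆ₐ[ℂ] (K →L[ℂ] K)) (p : Elt M)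
    (ψ : (K →L[ℂ] K) →ₗ[ℂ] ℂ) : Prop where
  pos : ∀ X : K →L[ℂ] K, 0 ≤ (ψ (star X * X)).re ∧ (ψ (star X * X)).im = 0
  tr : ∀ x, ψ (lam x) = T.τ (p * x * p)

/-- almost central functionals -/
def ACen (lam : Elt M →⋆ₐ[ℂ] (K →L[ℂ] K)) (F : Set (Elt M)) (ε : ℝ)
    (ψ : (K →L[ℂ] K) →ₗ[ℂ] ℂ) : Prop :=
  ∀ a ∈ F, ∀ X : K →L[ℂ] K, ‖ψ (lam a * X) - ψ (X * lam a)‖ ≤ ε * ‖X‖

/-- the elements that asymptotically commute with all unitaries that asymptotically commute
with `F` (a von Neumann algebra) -/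
def PP (T : TracialState M) (F : Set (Elt M)) : Set (Elt M) :=
  {x | ∀ ε : ℝ, 0 < ε → ∃ δ : ℝ, 0 < δ ∧ ∀ y : Elt M, star y * y = 1 → y * star y = 1 →
    (∀ a ∈ F, n2 T.τ (y * a - a * y) ≤ δ) → n2 T.τ (x * y - y * x) ≤ ε}

/-- partitions of unity into `2^m` projections of equal trace that commute with `F` up to `δ` -/
structure GoodPVM (T : TracialState M) (F : Set (Elt M)) (m : ℕ) (δ : ℝ)
    (q : Fin (2 ^ m) → Elt M) : Prop where
  pvm : PVM q
  tr : ∀ i, T.τ (q i) = 1 / 2 ^ m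
  com : ∀ i, ∀ a ∈ F, n2 T.τ (q i * a - a * q i) ≤ δ

/-- conclusion of the algebraic part: `F` is almost contained in the relative commutant of a set
`S` that generates a diffuse algebra -/
def AlgC (T : TracialState M) (F : Set (Elt M)) : Prop :=
  ∀ ε : ℝ, 0 < ε → ∃ S : Set (Elt M), StarClosed S ∧ DiffuseIn (RC (RC S)) ∧
    ∀ a ∈ F, ∃ c ∈ RC S, n2 T.τ (a - c) ≤ ε

/-- unitary elements -/
def Uni {R : Type*} [Mul R] [One R] [Star R] (y : R) : Prop := star y * y = 1 ∧ y * star y = 1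

/-- `F` acts irreducibly: its relative commutant is trivial -/
def Irr (F : Set (Elt M)) : Prop := ∀ x ∈ RC F, ∃ c : ℂ, x = c • (1 : Elt M)

/-- good partitions are almost conjugate by unitaries almost commuting with `F` -/
def CProp (T : TracialState M) (F : Set (Elt M)) : Prop :=
  ∀ (m : ℕ) (ε : ℝ), 0 < ε → ∃ δ : ℝ, 0 < δ ∧ ∀ q q' : Fin (2 ^ m) → Elt M,
    GoodPVM T F m δ q → GoodPVM T F m δ q' → ∃ v : Elt M, Uni v ∧
      (∀ i, n2 T.τ (star v * q' i * v - q i) ≤ ε) ∧ ∀ a ∈ F, n2 T.τ (v * a - a * v) ≤ ε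

/-- a sequence of projections that represents a nontrivial central projection of the relative
commutant of `F` in the ultrapower -/
structure ZSeq (T : TracialState M) (U : Ultrafilter ℕ) (F : Set (Elt M)) (e : ℕ → Elt M)
    (t : ℝ) : Prop where
  proj : ∀ n, Proj (e n)
  pos : 0 < t
  lt : t < 1
  com : ∀ a ∈ F, Tendsto (fun n => n2 T.τ (e n * a - a * e n)) U (nhds 0)
  tr : ∀ x : Elt M, Tendsto (fun n => T.τ (e n * x)) U (nhds ((t : ℂ) * T.τ x))
  cen : ∀ ε : ℝ, 0 < ε → ∃ δ : ℝ, 0 < δ ∧ ∀ᶠ n in (U : Filter ℕ), ∀ y : Elt M, Uni y →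
    (∀ a ∈ F, n2 T.τ (y * a - a * y) ≤ δ) → n2 T.τ (e n * y - y * e n) ≤ ε

/-- 2-norm closure of the convex hull -/
def NHull (T : TracialState M) (D : Set (Elt M)) : Set (Elt M) :=
  {z | ∀ ε : ℝ, 0 < ε → ∃ w ∈ convexHull ℝ D, n2 T.τ (z - w) ≤ ε}

/-- projections of `PP` that asymptotically behave like the central projection -/
def Spl (T : TracialState M) (F : Set (Elt M)) (t : ℝ) : Prop :=
  ∀ X : Set (Elt M), X.Finite → X ⊆ PP T F → ∀ ε : ℝ, 0 < ε → ∃ f ∈ PP T F, Proj f ∧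
    (∀ x ∈ X, n2 T.τ (f * x - x * f) ≤ ε) ∧ ∀ x ∈ X, ‖T.τ (f * x) - (t : ℂ) * T.τ x‖ ≤ ε

/-- the atoms of the algebra generated by commuting projections `f 0, …, f (m - 1)`, indexed by
the lists of length `m` -/
noncomputable def atom (f : ℕ → Elt M) : List Bool → Elt M
  | [] => 1
  | b :: l => atom f l * (if b then f l.length else 1 - f l.length)

/-- the elements of an algebra `Q` that commute with the images of the elements of `F` -/
def NQ {Q : Type u} [Ring Q] [StarRing Q] [Algebra ℂ Q] (π : (ℕ →ᵇ Elt M) →⋆ₐ[ℂ] Q)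
    (F : Set (Elt M)) : Set Q :=
  {q | ∀ a ∈ F, π (BoundedContinuousFunction.const ℕ a) * q =
    q * π (BoundedContinuousFunction.const ℕ a)}

/-- inclusion of a subalgebra -/
def inc {A : VonNeumannAlgebra H} (h : ∀ x ∈ A, x ∈ M) (a : Elt A) : Elt M := ⟨a.1, h a.1 a.2⟩

/-- a corner of `M`: `N` is `p M p` with the normalized trace, `ι` is the inclusion -/
structure Corn {H' : Type u} [NormedAddCommGroup H'] [InnerProductSpace ℂ H'] [CompleteSpace H']
    {N : VonNeumannAlgebra H'} (T : TracialState M) (p : Elt M) (T' : TracialState N)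
    (ι : Elt N →⋆ₙₐ[ℂ] Elt M) : Prop where
  inj : Function.Injective ι
  one : ι 1 = p
  surj : ∀ x, p * x * p = x → ∃ y, ι y = x
  tr : ∀ y, T.τ (ι y) = T.τ p * T'.τ y

end aux

end Pool.Agent.H811R4.SD
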