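import Mathlib
import Pool.Agent.H811R4.SD.Defs

/-!
# Statements of the tasks
-/

set_option autoImplicit false

open scoped InnerProductSpace BoundedContinuousFunction Topology
open Filter

namespace Pool.Agent.H811R4.SD

open Pool.Agent.Helper278

/-! ### general lemmas -/

/-- the balls of `M` are complete for the 2-norm -/
def StG0 : Prop :=
  ∀ {H : Type} [NormedAddCommGroup H] [InnerProductSpace ℂ H] [CompleteSpace H]
    {M : VonNeumannAlgebra H} (T : TracialState M) (C : ℝ) (x : ℕ → Elt M), (∀ n, ‖x n‖ ≤ C) →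
    (∀ ε : ℝ, 0 < ε → ∃ n0, ∀ n ≥ n0, ∀ m ≥ n0, n2 T.τ (x n - x m) ≤ ε) →
    ∃ y : Elt M, ‖y‖ ≤ C ∧ Tendsto (fun n => n2 T.τ (x n - y)) atTop (𝓝 0)

/-- weak limits of bounded sequences along an ultrafilter -/
def StWEAK : Prop :=
  ∀ {H : Type} [NormedAddCommGroup H] [InnerProductSpace ℂ H] [CompleteSpace H]
    {M : VonNeumannAlgebra H} (T : TracialState M) (U : Ultrafilter ℕ) (C : ℝ) (x : ℕ → Elt M), (∀ n, ‖x n‖ ≤ C) →
    ∃ b : Elt M, ∀ y : Elt M, Tendsto (fun n => T.τ (x n * y)) U (𝓝 (T.τ (b * y)))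

/-- rounding a selfadjoint element to a projection -/
def StG1 : Prop :=
  ∀ {H : Type} [NormedAddCommGroup H] [InnerProductSpace ℂ H] [CompleteSpace H]
    {M : VonNeumannAlgebra H} (T : TracialState M) (x : Elt M), star x = x → ∃ f : Elt M, Proj f ∧
    n2 T.τ (f - x) ≤ 2 * n2 T.τ (x * x - x) ∧
    ∀ ε : ℝ, 0 < ε → ∃ P : Polynomial ℂ, n2 T.τ (f - Polynomial.aeval x P) ≤ ε

/-- projections of the ultrapower lift to projections -/
def StPL : Prop :=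
  ∀ {H : Type} [NormedAddCommGroup H] [InnerProductSpace ℂ H] [CompleteSpace H]
    {M : VonNeumannAlgebra H} (T : TracialState M) {U : Ultrafilter ℕ} {Q : Type} [Ring Q] [StarRing Q] [Algebra ℂ Q] [StarModule ℂ Q]
    {π : (ℕ →ᵇ Elt M) →⋆ₐ[ℂ] Q} {σ : Q → ℂ},
    IsTracialUltrapower T.τ U π σ → ∀ z : Q, Proj z →
    ∃ e : ℕ →ᵇ Elt M, (∀ n, Proj (e n)) ∧ π e = z

/-- relative commutants that contain partitions of unity with small traces are diffuse -/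
def StDIF : Prop :=
  ∀ {H : Type} [NormedAddCommGroup H] [InnerProductSpace ℂ H] [CompleteSpace H]
    {M : VonNeumannAlgebra H} (T : TracialState M) (S : Set (Elt M)),
    (∀ η : ℝ, 0 < η → ∃ (k : ℕ) (q : Fin k → Elt M),
      (∀ i, Proj (q i) ∧ q i ∈ RC S ∧ (T.τ (q i)).re ≤ η) ∧ ∑ i, q i = 1) →
    DiffuseIn (RC S)

/-- a Haar unitary generates a diffuse algebra -/
def StG3 : Prop :=
  ∀ {H : Type} [NormedAddCommGroup H] [InnerProductSpace ℂ H] [CompleteSpace H]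
    {M : VonNeumannAlgebra H} (T : TracialState M) (y : Elt M), Uni y → (∀ k : ℕ, 1 ≤ k → T.τ (y ^ k) = 0) →
    DiffuseIn (RC (RC {y, star y}))

/-- relative commutants are von Neumann algebras -/
def StRCV : Prop :=
  ∀ {H : Type} [NormedAddCommGroup H] [InnerProductSpace ℂ H] [CompleteSpace H]
    {M : VonNeumannAlgebra H} (S : Set (Elt M)), StarClosed S →
    ∃ A : VonNeumannAlgebra H, ∀ x : H →L[ℂ] H, x ∈ A ↔
      ∃ hx : x ∈ M, (⟨x, hx⟩ : Elt M) ∈ RC S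

/-- restriction of a trace -/
def StRES : Prop :=
  ∀ {H : Type} [NormedAddCommGroup H] [InnerProductSpace ℂ H] [CompleteSpace H]
    {M : VonNeumannAlgebra H} (T : TracialState M)
    {A : VonNeumannAlgebra H} (h : ∀ x ∈ A, x ∈ M),
    ∃ TA : TracialState A, ∀ a : Elt A, TA.τ a = T.τ (inc h a)

/-- partitions with equal traces in diffuse relative commutants -/
def StDPVM : Prop :=
  ∀ {H : Type} [NormedAddCommGroup H] [InnerProductSpace ℂ H] [CompleteSpace H]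
    {M : VonNeumannAlgebra H} (T : TracialState M) (S : Set (Elt M)), StarClosed S → DiffuseIn (RC S) →
    ∀ p ∈ RC S, Proj p → ∀ m : ℕ, ∃ q : Fin (2 ^ m) → Elt M,
      (∀ i, Proj (q i) ∧ q i ∈ RC S ∧ T.τ (q i) = T.τ p / 2 ^ m) ∧
      (∀ i k, i ≠ k → q i * q k = 0) ∧ ∑ i, q i = p

/-! ### standard representations and amenability -/

/-- the standard representation exists -/
def StSTD : Prop :=
  ∀ {H : Type} [NormedAddCommGroup H] [InnerProductSpace ℂ H] [CompleteSpace H]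
    {M : VonNeumannAlgebra H} (T : TracialState M), ∃ (K : Type) (_ : NormedAddCommGroup K) (_ : InnerProductSpace ℂ K)
    (_ : CompleteSpace K) (j : Elt M →ₗ[ℂ] K) (lam : Elt M →⋆ₐ[ℂ] (K →L[ℂ] K)), Std T j lam

/-- commutation theorem: an operator that commutes with the right multiplications is a left
multiplication -/
def StCOMM : Prop :=
  ∀ {H : Type} [NormedAddCommGroup H] [InnerProductSpace ℂ H] [CompleteSpace H]
    {M : VonNeumannAlgebra H} (T : TracialState M) {K : Type} [NormedAddCommGroup K] [InnerProductSpace ℂ K] [CompleteSpace K]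
    {j : Elt M →ₗ[ℂ] K} {lam : Elt M →⋆ₐ[ℂ] (K →L[ℂ] K)}, Std T j lam →
    ∀ X : K →L[ℂ] K,
      (∀ (a : Elt M) (R : K →L[ℂ] K), (∀ b, R (j b) = j (b * a)) → X * R = R * X) →
      ∃ b, X = lam b

/-- the inclusion `L²(A) → L²(M)` -/
def StVST : Prop :=
  ∀ {H : Type} [NormedAddCommGroup H] [InnerProductSpace ℂ H] [CompleteSpace H]
    {M : VonNeumannAlgebra H} (T : TracialState M)
    {A : VonNeumannAlgebra H} (h : ∀ x ∈ A, x ∈ M) (TA : TracialState A),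
    (∀ a : Elt A, TA.τ a = T.τ (inc h a)) →
    ∀ {K : Type} [NormedAddCommGroup K] [InnerProductSpace ℂ K] [CompleteSpace K]
    {j : Elt M →ₗ[ℂ] K} {lam : Elt M →⋆ₐ[ℂ] (K →L[ℂ] K)}
    {KA : Type} [NormedAddCommGroup KA] [InnerProductSpace ℂ KA] [CompleteSpace KA]
    {jA : Elt A →ₗ[ℂ] KA} {lamA : Elt A →⋆ₐ[ℂ] (KA →L[ℂ] KA)}, Std T j lam → Std TA jA lamA →
    ∃ V : KA →L[ℂ] K, (∀ a, V (jA a) = j (inc h a)) ∧
      ContinuousLinearMap.adjoint V ∘L V = ContinuousLinearMap.id ℂ KA ∧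
      (∀ a : Elt A, lam (inc h a) ∘L V = V ∘L lamA a) ∧
      ∀ a : Elt A, lamA a ∘L ContinuousLinearMap.adjoint V =
        ContinuousLinearMap.adjoint V ∘L lam (inc h a)

/-- the conditional expectation: compressions of `M` to `L²(A)` are left multiplications -/
def StEXP : Prop :=
  ∀ {H : Type} [NormedAddCommGroup H] [InnerProductSpace ℂ H] [CompleteSpace H]
    {M : VonNeumannAlgebra H} (T : TracialState M)
    {A : VonNeumannAlgebra H} (h : ∀ x ∈ A, x ∈ M) (TA : TracialState A),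
    (∀ a : Elt A, TA.τ a = T.τ (inc h a)) →
    ∀ {K : Type} [NormedAddCommGroup K] [InnerProductSpace ℂ K] [CompleteSpace K]
    {j : Elt M →ₗ[ℂ] K} {lam : Elt M →⋆ₐ[ℂ] (K →L[ℂ] K)}
    {KA : Type} [NormedAddCommGroup KA] [InnerProductSpace ℂ KA] [CompleteSpace KA]
    {jA : Elt A →ₗ[ℂ] KA} {lamA : Elt A →⋆ₐ[ℂ] (KA →L[ℂ] KA)}, Std T j lam → Std TA jA lamA →
    ∀ V : KA →L[ℂ] K, (∀ a, V (jA a) = j (inc h a)) → ∀ x : Elt M, ∃ b : Elt A,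
      ContinuousLinearMap.adjoint V ∘L lam x ∘L V = lamA b ∧ TA.τ b = T.τ x

/-- amenability in a given standard representation -/
def StAM1 : Prop :=
  ∀ {H : Type} [NormedAddCommGroup H] [InnerProductSpace ℂ H] [CompleteSpace H]
    {M : VonNeumannAlgebra H} (T : TracialState M) {K : Type} [NormedAddCommGroup K] [InnerProductSpace ℂ K] [CompleteSpace K]
    {j : Elt M →ₗ[ℂ] K} {lam : Elt M →⋆ₐ[ℂ] (K →L[ℂ] K)}, Std T j lam → Amenable (fun a : Elt M => T.τ a) →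
    ∃ φ, Fun T lam 1 φ ∧ ACen lam Set.univ 0 φ

/-- a hypertrace gives amenability -/
def StAM2 : Prop :=
  ∀ {H : Type} [NormedAddCommGroup H] [InnerProductSpace ℂ H] [CompleteSpace H]
    {M : VonNeumannAlgebra H} (T : TracialState M) {K : Type} [NormedAddCommGroup K] [InnerProductSpace ℂ K] [CompleteSpace K]
    {j : Elt M →ₗ[ℂ] K} {lam : Elt M →⋆ₐ[ℂ] (K →L[ℂ] K)}, Std T j lam →
    ∀ φ, Fun T lam 1 φ → ACen lam Set.univ 0 φ → Amenable (fun a : Elt M => T.τ a)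

/-- amenable subalgebras have central functionals on `B(L²(M))` -/
def StFROM : Prop :=
  ∀ {H : Type} [NormedAddCommGroup H] [InnerProductSpace ℂ H] [CompleteSpace H]
    {M : VonNeumannAlgebra H} (T : TracialState M) {K : Type} [NormedAddCommGroup K] [InnerProductSpace ℂ K] [CompleteSpace K]
    {j : Elt M →ₗ[ℂ] K} {lam : Elt M →⋆ₐ[ℂ] (K →L[ℂ] K)}, Std T j lam →
    ∀ {A : VonNeumannAlgebra H} (h : ∀ x ∈ A, x ∈ M), Amenable (resTr (fun x => T.τ x) h) →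
    ∃ ψ, Fun T lam 1 ψ ∧ ACen lam {x : Elt M | (x : H →L[ℂ] H) ∈ A} 0 ψ

/-- `L²(M)` is a submodule of a multiple of `L²(A)` -/
def StISO : Prop :=
  ∀ {H : Type} [NormedAddCommGroup H] [InnerProductSpace ℂ H] [CompleteSpace H]
    {M : VonNeumannAlgebra H} (T : TracialState M)
    {A : VonNeumannAlgebra H} (h : ∀ x ∈ A, x ∈ M) (TA : TracialState A),
    (∀ a : Elt A, TA.τ a = T.τ (inc h a)) →
    ∀ {K : Type} [NormedAddCommGroup K] [InnerProductSpace ℂ K] [CompleteSpace K]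
    {j : Elt M →ₗ[ℂ] K} {lam : Elt M →⋆ₐ[ℂ] (K →L[ℂ] K)}
    {KA : Type} [NormedAddCommGroup KA] [InnerProductSpace ℂ KA] [CompleteSpace KA]
    {jA : Elt A →ₗ[ℂ] KA} {lamA : Elt A →⋆ₐ[ℂ] (KA →L[ℂ] KA)}, Std T j lam → Std TA jA lamA →
    ∃ (I : Type) (R : I → (K →L[ℂ] KA)),
      (∀ i (a : Elt A), R i ∘L lam (inc h a) = lamA a ∘L R i) ∧
      ∀ ξ : K, HasSum (fun i => ‖R i ξ‖ ^ 2) (‖ξ‖ ^ 2)

/-- central functionals on `B(L²(M))` give amenability -/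
def StTOAM : Prop :=
  ∀ {H : Type} [NormedAddCommGroup H] [InnerProductSpace ℂ H] [CompleteSpace H]
    {M : VonNeumannAlgebra H} (T : TracialState M) {K : Type} [NormedAddCommGroup K] [InnerProductSpace ℂ K] [CompleteSpace K]
    {j : Elt M →ₗ[ℂ] K} {lam : Elt M →⋆ₐ[ℂ] (K →L[ℂ] K)}, Std T j lam →
    ∀ {A : VonNeumannAlgebra H} (h : ∀ x ∈ A, x ∈ M) (ψ : (K →L[ℂ] K) →ₗ[ℂ] ℂ), Fun T lam 1 ψ →
    ACen lam {x : Elt M | (x : H →L[ℂ] H) ∈ A} 0 ψ → Amenable (resTr (fun x => T.τ x) h)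

/-- bounds for the functionals -/
def StFB : Prop :=
  ∀ {H : Type} [NormedAddCommGroup H] [InnerProductSpace ℂ H] [CompleteSpace H]
    {M : VonNeumannAlgebra H} (T : TracialState M) {K : Type} [NormedAddCommGroup K] [InnerProductSpace ℂ K] [CompleteSpace K]
    {j : Elt M →ₗ[ℂ] K} {lam : Elt M →⋆ₐ[ℂ] (K →L[ℂ] K)}, Std T j lam →
    ∀ (p : Elt M) (ψ : (K →L[ℂ] K) →ₗ[ℂ] ℂ), Proj p → Fun T lam p ψ →
    (∀ X : K →L[ℂ] K, ‖ψ X‖ ≤ (T.τ p).re * ‖X‖) ∧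
    (∀ (z : Elt M) (X : K →L[ℂ] K), ‖ψ (lam z * X)‖ ≤ n2 T.τ z * ‖X‖) ∧
    ∀ (z : Elt M) (X : K →L[ℂ] K), ‖ψ (X * lam z)‖ ≤ n2 T.τ z * ‖X‖

/-- compactness -/
def StCPT : Prop :=
  ∀ {H : Type} [NormedAddCommGroup H] [InnerProductSpace ℂ H] [CompleteSpace H]
    {M : VonNeumannAlgebra H} (T : TracialState M) {K : Type} [NormedAddCommGroup K] [InnerProductSpace ℂ K] [CompleteSpace K]
    {j : Elt M →ₗ[ℂ] K} {lam : Elt M →⋆ₐ[ℂ] (K →L[ℂ] K)}, Std T j lam → ∀ D : Set (Elt M),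
    (∀ F : Set (Elt M), F.Finite → F ⊆ D → ∀ ε : ℝ, 0 < ε →
      ∃ ψ, Fun T lam 1 ψ ∧ ACen lam F ε ψ) →
    ∃ ψ, Fun T lam 1 ψ ∧ ACen lam D 0 ψ

/-- exhaustion -/
def StEXH : Prop :=
  ∀ {H : Type} [NormedAddCommGroup H] [InnerProductSpace ℂ H] [CompleteSpace H]
    {M : VonNeumannAlgebra H} (T : TracialState M) {K : Type} [NormedAddCommGroup K] [InnerProductSpace ℂ K] [CompleteSpace K]
    {j : Elt M →ₗ[ℂ] K} {lam : Elt M →⋆ₐ[ℂ] (K →L[ℂ] K)}, Std T j lam → ∀ F : Set (Elt M),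
    F.Finite → StarClosed F →
    (∀ p ∈ RC F, Proj p → p ≠ 0 → ∃ p' ∈ RC F, Proj p' ∧ p' ≠ 0 ∧ p' * p = p' ∧
      ∀ ε : ℝ, 0 < ε → ∃ ψ, Fun T lam p' ψ ∧ ACen lam F ε ψ) →
    ∀ ε : ℝ, 0 < ε → ∃ ψ, Fun T lam 1 ψ ∧ ACen lam F ε ψ

/-- use of solidity -/
def StCOND : Prop :=
  ∀ {H : Type} [NormedAddCommGroup H] [InnerProductSpace ℂ H] [CompleteSpace H]
    {M : VonNeumannAlgebra H} (T : TracialState M) {K : Type} [NormedAddCommGroup K] [InnerProductSpace ℂ K] [CompleteSpace K]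
    {j : Elt M →ₗ[ℂ] K} {lam : Elt M →⋆ₐ[ℂ] (K →L[ℂ] K)}, Std T j lam → Solid M T.τ →
    ∀ (F S : Set (Elt M)) (p : Elt M) (ε : ℝ), Proj p → (∀ a ∈ F, a * p = p * a) →
    StarClosed S → DiffuseIn (RC (RC S)) → (∀ a ∈ F, ∃ c ∈ RC S, n2 T.τ (a * p - c) ≤ ε) →
    ∃ ψ, Fun T lam p ψ ∧ ACen lam F (2 * ε) ψ

/-! ### corners -/

/-- corners of a II₁ factor are II₁ factors -/
def StCORN : Prop :=
  ∀ {H : Type} [NormedAddCommGroup H] [InnerProductSpace ℂ H] [CompleteSpace H]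
    {M : VonNeumannAlgebra H} (T : TracialState M), IsIIOneFactor M T.τ → ∀ p : Elt M, Proj p → p ≠ 0 →
    ∃ (H' : Type) (_ : NormedAddCommGroup H') (_ : InnerProductSpace ℂ H') (_ : CompleteSpace H')
      (N : VonNeumannAlgebra H') (T' : TracialState N) (ι : Elt N →⋆ₙₐ[ℂ] Elt M),
      Corn T p T' ι ∧ IsIIOneFactor N T'.τ

/-- from the corner to the factor -/
def StCORNS : Prop :=
  ∀ {H : Type} [NormedAddCommGroup H] [InnerProductSpace ℂ H] [CompleteSpace H]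
    {M : VonNeumannAlgebra H} (T : TracialState M), IsIIOneFactor M T.τ → ∀ {p : Elt M} {H' : Type} [NormedAddCommGroup H'] [InnerProductSpace ℂ H'] [CompleteSpace H']
    {N : VonNeumannAlgebra H'} {T' : TracialState N} {ι : Elt N →⋆ₙₐ[ℂ] Elt M},
    Proj p → Corn T p T' ι → ∀ S : Set (Elt N), StarClosed S → DiffuseIn (RC (RC S)) →
    ∃ S' : Set (Elt M), StarClosed S' ∧ DiffuseIn (RC (RC S')) ∧ ∀ c ∈ RC S, ι c ∈ RC S'

/-- functional from the algebraic conclusion in the corner -/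
def StCALG : Prop :=
  ∀ {H : Type} [NormedAddCommGroup H] [InnerProductSpace ℂ H] [CompleteSpace H]
    {M : VonNeumannAlgebra H} (T : TracialState M) {K : Type} [NormedAddCommGroup K] [InnerProductSpace ℂ K] [CompleteSpace K]
    {j : Elt M →ₗ[ℂ] K} {lam : Elt M →⋆ₐ[ℂ] (K →L[ℂ] K)}, Std T j lam → IsIIOneFactor M T.τ →
    Solid M T.τ → ∀ {p : Elt M} {H' : Type} [NormedAddCommGroup H'] [InnerProductSpace ℂ H'] [CompleteSpace H']
    {N : VonNeumannAlgebra H'} {T' : TracialState N} {ι : Elt N →⋆ₙₐ[ℂ] Elt M},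
    Proj p → p ≠ 0 → Corn T p T' ι → ∀ F : Set (Elt M), p ∈ RC F →
    AlgC T' {y : Elt N | ∃ a ∈ F, ι y = a * p} → ∀ ε : ℝ, 0 < ε →
    ∃ ψ, Fun T lam p ψ ∧ ACen lam F ε ψ

/-- the case without minimal projections -/
def StNOMIN : Prop :=
  ∀ {H : Type} [NormedAddCommGroup H] [InnerProductSpace ℂ H] [CompleteSpace H]
    {M : VonNeumannAlgebra H} (T : TracialState M) {K : Type} [NormedAddCommGroup K] [InnerProductSpace ℂ K] [CompleteSpace K]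
    {j : Elt M →ₗ[ℂ] K} {lam : Elt M →⋆ₐ[ℂ] (K →L[ℂ] K)}, Std T j lam → IsIIOneFactor M T.τ →
    Solid M T.τ → ∀ F : Set (Elt M), StarClosed F → ∀ p ∈ RC F, Proj p →
    (∀ r ∈ RC F, Proj r → r ≠ 0 → r * p = r → ∃ x ∈ RC F, ∀ c : ℂ, r * x * r ≠ c • r) →
    ∃ ψ, Fun T lam p ψ ∧ ACen lam F 0 ψ

/-! ### the ultrapower -/

/-- the ultrapower is a II₁ factor -/
def StQMOD : Prop :=
  ∀ {H : Type} [NormedAddCommGroup H] [InnerProductSpace ℂ H] [CompleteSpace H]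
    {M : VonNeumannAlgebra H} (T : TracialState M), IsIIOneFactor M T.τ → ∀ {U : Ultrafilter ℕ} {Q : Type} [Ring Q] [StarRing Q] [Algebra ℂ Q] [StarModule ℂ Q]
    {π : (ℕ →ᵇ Elt M) →⋆ₐ[ℂ] Q} {σ : Q → ℂ},
    IsTracialUltrapower T.τ U π σ →
    (∀ n, {n} ∉ U) →
    ∃ (K : Type) (_ : NormedAddCommGroup K) (_ : InnerProductSpace ℂ K) (_ : CompleteSpace K)
      (N : VonNeumannAlgebra K) (e : Q ≃⋆ₐ[ℂ] Elt N) (T' : TracialState N),
      IsIIOneFactor N T'.τ ∧ ∀ q, T'.τ (e q) = σ q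

/-- partitions in the relative commutant of a finite set in the ultrapower -/
def StE0Q : Prop :=
  ∀ {H : Type} [NormedAddCommGroup H] [InnerProductSpace ℂ H] [CompleteSpace H]
    {M : VonNeumannAlgebra H} (T : TracialState M), IsIIOneFactor M T.τ → ∀ {U : Ultrafilter ℕ} {Q : Type} [Ring Q] [StarRing Q] [Algebra ℂ Q] [StarModule ℂ Q]
    {π : (ℕ →ᵇ Elt M) →⋆ₐ[ℂ] Q} {σ : Q → ℂ},
    IsTracialUltrapower T.τ U π σ →
    (∀ n, {n} ∉ U) → ∀ D F : Set (Elt M), StarClosed D → StarClosed F → F ⊆ D →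
    DiffuseIn (NQ π D) → ∀ p ∈ RC F, Proj p → ∀ m : ℕ, ∃ q : Fin (2 ^ m) → Q,
      (∀ i, Proj (q i) ∧ q i ∈ NQ π F ∧ σ (q i) = T.τ p / 2 ^ m) ∧
      (∀ i k, i ≠ k → q i * q k = 0) ∧ ∑ i, q i = π (BoundedContinuousFunction.const ℕ p)

/-- lifting partitions of a projection of `M` -/
def StLIFT : Prop :=
  ∀ {H : Type} [NormedAddCommGroup H] [InnerProductSpace ℂ H] [CompleteSpace H]
    {M : VonNeumannAlgebra H} (T : TracialState M), IsIIOneFactor M T.τ → ∀ {U : Ultrafilter ℕ} {Q : Type} [Ring Q] [StarRing Q] [Algebra ℂ Q] [StarModule ℂ Q]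
    {π : (ℕ →ᵇ Elt M) →⋆ₐ[ℂ] Q} {σ : Q → ℂ},
    IsTracialUltrapower T.τ U π σ →
    (∀ n, {n} ∉ U) → ∀ p : Elt M, Proj p → ∀ (m : ℕ) (q : Fin (2 ^ m) → Q),
    (∀ i, Proj (q i) ∧ σ (q i) = T.τ p / 2 ^ m) → (∀ i k, i ≠ k → q i * q k = 0) →
    ∑ i, q i = π (BoundedContinuousFunction.const ℕ p) →
    ∃ f : Fin (2 ^ m) → (ℕ →ᵇ Elt M), (∀ i, π (f i) = q i) ∧
      ∀ n, (∀ i, Proj (f i n) ∧ T.τ (f i n) = T.τ p / 2 ^ m) ∧
        (∀ i k, i ≠ k → f i n * f k n = 0) ∧ ∑ i, f i n = p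

/-- partitions in `M` that almost commute with a finite set -/
def StE0M : Prop :=
  ∀ {H : Type} [NormedAddCommGroup H] [InnerProductSpace ℂ H] [CompleteSpace H]
    {M : VonNeumannAlgebra H} (T : TracialState M), IsIIOneFactor M T.τ → ∀ {U : Ultrafilter ℕ} {Q : Type} [Ring Q] [StarRing Q] [Algebra ℂ Q] [StarModule ℂ Q]
    {π : (ℕ →ᵇ Elt M) →⋆ₐ[ℂ] Q} {σ : Q → ℂ},
    IsTracialUltrapower T.τ U π σ →
    (∀ n, {n} ∉ U) → ∀ D F : Set (Elt M), StarClosed D → StarClosed F → F ⊆ D → F.Finite →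
    DiffuseIn (NQ π D) → ∀ p ∈ RC F, Proj p → ∀ (m : ℕ) (δ : ℝ), 0 < δ →
    ∃ q : Fin (2 ^ m) → Elt M, (∀ i, Proj (q i) ∧ T.τ (q i) = T.τ p / 2 ^ m) ∧
      (∀ i k, i ≠ k → q i * q k = 0) ∧ ∑ i, q i = p ∧
      ∀ i, ∀ a ∈ F, n2 T.τ (q i * a - a * q i) ≤ δ

/-- partitions in the corner -/
def StGOOD : Prop :=
  ∀ {H : Type} [NormedAddCommGroup H] [InnerProductSpace ℂ H] [CompleteSpace H]
    {M : VonNeumannAlgebra H} (T : TracialState M) {p : Elt M} {H' : Type} [NormedAddCommGroup H'] [InnerProductSpace ℂ H'] [CompleteSpace H']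
    {N : VonNeumannAlgebra H'} {T' : TracialState N} {ι : Elt N →⋆ₙₐ[ℂ] Elt M},
    Proj p → p ≠ 0 → Corn T p T' ι → ∀ F : Set (Elt M), p ∈ RC F →
    (∀ (m : ℕ) (δ : ℝ), 0 < δ → ∃ q : Fin (2 ^ m) → Elt M,
      (∀ i, Proj (q i) ∧ T.τ (q i) = T.τ p / 2 ^ m) ∧ (∀ i k, i ≠ k → q i * q k = 0) ∧
      ∑ i, q i = p ∧ ∀ i, ∀ a ∈ F, n2 T.τ (q i * a - a * q i) ≤ δ) →
    ∀ (m : ℕ) (δ : ℝ), 0 < δ →
      ∃ q : Fin (2 ^ m) → Elt N, GoodPVM T' {y : Elt N | ∃ a ∈ F, ι y = a * p} m δ q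

/-- the case of a minimal projection -/
def StMINC : Prop :=
  ∀ {H : Type} [NormedAddCommGroup H] [InnerProductSpace ℂ H] [CompleteSpace H]
    {M : VonNeumannAlgebra H} (T : TracialState M) {K : Type} [NormedAddCommGroup K] [InnerProductSpace ℂ K] [CompleteSpace K]
    {j : Elt M →ₗ[ℂ] K} {lam : Elt M →⋆ₐ[ℂ] (K →L[ℂ] K)}, Std T j lam → IsIIOneFactor M T.τ →
    Solid M T.τ → ∀ {U : Ultrafilter ℕ} {Q : Type} [Ring Q] [StarRing Q] [Algebra ℂ Q] [StarModule ℂ Q]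
    {π : (ℕ →ᵇ Elt M) →⋆ₐ[ℂ] Q} {σ : Q → ℂ},
    IsTracialUltrapower T.τ U π σ →
    (∀ n, {n} ∉ U) → ∀ D F : Set (Elt M), StarClosed D → StarClosed F → F ⊆ D → F.Finite →
    DiffuseIn (NQ π D) → ∀ p ∈ RC F, Proj p → p ≠ 0 →
    (∀ x ∈ RC F, ∃ c : ℂ, p * x * p = c • p) →
    ∀ ε : ℝ, 0 < ε → ∃ ψ, Fun T lam p ψ ∧ ACen lam F ε ψ

/-! ### the algebraic part -/

/-- the relative commutant in the ultrapower has a nontrivial central projection or is a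
factor, where projections of equal trace are conjugate -/
def StMA1 : Prop :=
  ∀ {H : Type} [NormedAddCommGroup H] [InnerProductSpace ℂ H] [CompleteSpace H]
    {M : VonNeumannAlgebra H} (T : TracialState M), IsIIOneFactor M T.τ → ∀ {U : Ultrafilter ℕ} {Q : Type} [Ring Q] [StarRing Q] [Algebra ℂ Q] [StarModule ℂ Q]
    {π : (ℕ →ᵇ Elt M) →⋆ₐ[ℂ] Q} {σ : Q → ℂ},
    IsTracialUltrapower T.τ U π σ →
    (∀ n, {n} ∉ U) → ∀ F : Set (Elt M), StarClosed F →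
    (∃ z : Q, Proj z ∧ z ≠ 0 ∧ z ≠ 1 ∧ z ∈ NQ π F ∧ ∀ y ∈ NQ π F, z * y = y * z) ∨
    ∀ (ι : Type) [Fintype ι] (q q' : ι → Q), PVM q → PVM q' → (∀ i, q i ∈ NQ π F) →
      (∀ i, q' i ∈ NQ π F) → (∀ i, σ (q i) = σ (q' i)) →
      ∃ u ∈ NQ π F, Uni u ∧ ∀ i, star u * q' i * u = q i

/-- almost conjugacy of good partitions -/
def StMA2 : Prop :=
  ∀ {H : Type} [NormedAddCommGroup H] [InnerProductSpace ℂ H] [CompleteSpace H]
    {M : VonNeumannAlgebra H} (T : TracialState M), ∀ {U : Ultrafilter ℕ} {Q : Type} [Ring Q] [StarRing Q] [Algebra ℂ Q] [StarModule ℂ Q]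
    {π : (ℕ →ᵇ Elt M) →⋆ₐ[ℂ] Q} {σ : Q → ℂ},
    IsTracialUltrapower T.τ U π σ →
    (∀ n, {n} ∉ U) → ∀ F : Set (Elt M), StarClosed F → F.Finite →
    (∀ (ι : Type) [Fintype ι] (q q' : ι → Q), PVM q → PVM q' → (∀ i, q i ∈ NQ π F) →
      (∀ i, q' i ∈ NQ π F) → (∀ i, σ (q i) = σ (q' i)) →
      ∃ u ∈ NQ π F, Uni u ∧ ∀ i, star u * q' i * u = q i) →
    CProp T F

/-- a coherent sequence of good partitions -/
def StMA3a : Prop :=
  ∀ {H : Type} [NormedAddCommGroup H] [InnerProductSpace ℂ H] [CompleteSpace H]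
    {M : VonNeumannAlgebra H} (T : TracialState M) (F : Set (Elt M)), F.Finite → CProp T F →
    (∀ (m : ℕ) (δ : ℝ), 0 < δ → ∃ q : Fin (2 ^ m) → Elt M, GoodPVM T F m δ q) →
    ∀ ε : ℝ, 0 < ε → ∃ (q : (m : ℕ) → Fin (2 ^ m) → Elt M) (v : ℕ → Elt M),
      (∀ m, GoodPVM T F m (ε / 8 ^ (m + 1)) (q m)) ∧ (∀ m, Uni (v m)) ∧
      (∀ m, ∀ a ∈ F, n2 T.τ (v m * a - a * v m) ≤ ε / 8 ^ (m + 1)) ∧
      ∀ (m : ℕ) (k : Fin (2 ^ m)) (k0 k1 : Fin (2 ^ (m + 1))), (k0 : ℕ) = 2 * k →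
        (k1 : ℕ) = 2 * k + 1 →
        n2 T.τ (star (v m) * (q (m + 1) k0 + q (m + 1) k1) * v m - q m k) ≤ ε / 8 ^ (m + 1)

/-- the limit of a coherent sequence of good partitions -/
def StMA3b : Prop :=
  ∀ {H : Type} [NormedAddCommGroup H] [InnerProductSpace ℂ H] [CompleteSpace H]
    {M : VonNeumannAlgebra H} (T : TracialState M) (F : Set (Elt M)) (ε : ℝ), 0 < ε → ε ≤ 1 →
    (∃ (q : (m : ℕ) → Fin (2 ^ m) → Elt M) (v : ℕ → Elt M),
      (∀ m, GoodPVM T F m (ε / 8 ^ (m + 1)) (q m)) ∧ (∀ m, Uni (v m)) ∧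
      (∀ m, ∀ a ∈ F, n2 T.τ (v m * a - a * v m) ≤ ε / 8 ^ (m + 1)) ∧
      ∀ (m : ℕ) (k : Fin (2 ^ m)) (k0 k1 : Fin (2 ^ (m + 1))), (k0 : ℕ) = 2 * k →
        (k1 : ℕ) = 2 * k + 1 →
        n2 T.τ (star (v m) * (q (m + 1) k0 + q (m + 1) k1) * v m - q m k) ≤ ε / 8 ^ (m + 1)) →
    ∃ y : Elt M, Uni y ∧ (∀ k : ℕ, 1 ≤ k → T.τ (y ^ k) = 0) ∧
      ∀ a ∈ F, ∃ c : Elt M, c * y = y * c ∧ n2 T.τ (a - c) ≤ ε

/-- the factorial case -/
def StMA3 : Prop :=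
  ∀ {H : Type} [NormedAddCommGroup H] [InnerProductSpace ℂ H] [CompleteSpace H]
    {M : VonNeumannAlgebra H} (T : TracialState M) (F : Set (Elt M)), F.Finite → CProp T F →
    (∀ (m : ℕ) (δ : ℝ), 0 < δ → ∃ q : Fin (2 ^ m) → Elt M, GoodPVM T F m δ q) → AlgC T F

/-- a central projection gives a good sequence of projections -/
def StMA4 : Prop :=
  ∀ {H : Type} [NormedAddCommGroup H] [InnerProductSpace ℂ H] [CompleteSpace H]
    {M : VonNeumannAlgebra H} (T : TracialState M), IsIIOneFactor M T.τ → ∀ {U : Ultrafilter ℕ} {Q : Type} [Ring Q] [StarRing Q] [Algebra ℂ Q] [StarModule ℂ Q]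
    {π : (ℕ →ᵇ Elt M) →⋆ₐ[ℂ] Q} {σ : Q → ℂ},
    IsTracialUltrapower T.τ U π σ →
    (∀ n, {n} ∉ U) → ∀ F : Set (Elt M), StarClosed F → F.Finite → Irr F →
    ∀ z : Q, Proj z → z ≠ 0 → z ≠ 1 → z ∈ NQ π F → (∀ y ∈ NQ π F, z * y = y * z) →
    ∃ (e : ℕ → Elt M) (t : ℝ), ZSeq T U F e t

/-- elements of minimal norm in decreasing convex sets -/
def StMA5a : Prop :=
  ∀ {H : Type} [NormedAddCommGroup H] [InnerProductSpace ℂ H] [CompleteSpace H]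
    {M : VonNeumannAlgebra H} (T : TracialState M) (D : ℕ → Set (Elt M)), (∀ i, D (i + 1) ⊆ D i) →
    (∀ i, (D i).Nonempty) → (∀ i, ∀ x ∈ D i, star x = x ∧ ‖x‖ ≤ 1) →
    ∃ x : Elt M, star x = x ∧ ‖x‖ ≤ 1 ∧ (∀ i, x ∈ NHull T (D i)) ∧
      ∀ ε : ℝ, 0 < ε → ∃ (i : ℕ) (η : ℝ), 0 < η ∧
        ∀ z ∈ NHull T (D i), n2 T.τ z ≤ n2 T.τ x + η → n2 T.τ (z - x) ≤ ε

/-- elements of `PP` near the sequence of projections -/
def StMA5 : Prop :=
  ∀ {H : Type} [NormedAddCommGroup H] [InnerProductSpace ℂ H] [CompleteSpace H]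
    {M : VonNeumannAlgebra H} (T : TracialState M) (U : Ultrafilter ℕ) (F : Set (Elt M)) (e : ℕ → Elt M) (t : ℝ),
    StarClosed F → ZSeq T U F e t → ∀ ε : ℝ, 0 < ε →
    ∀ᶠ n in (U : Filter ℕ), ∃ x ∈ PP T F, star x = x ∧ ‖x‖ ≤ 1 ∧ n2 T.τ (x - e n) ≤ ε

/-- `PP` is a 2-norm closed star algebra that contains `F` -/
def StPP : Prop :=
  ∀ {H : Type} [NormedAddCommGroup H] [InnerProductSpace ℂ H] [CompleteSpace H]
    {M : VonNeumannAlgebra H} (T : TracialState M) (F : Set (Elt M)), StarClosed F →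
    F ⊆ PP T F ∧ (1 : Elt M) ∈ PP T F ∧ (∀ x ∈ PP T F, star x ∈ PP T F) ∧
    (∀ x ∈ PP T F, ∀ y ∈ PP T F, x + y ∈ PP T F) ∧
    (∀ x ∈ PP T F, ∀ y ∈ PP T F, x * y ∈ PP T F) ∧
    (∀ (c : ℂ), ∀ x ∈ PP T F, c • x ∈ PP T F) ∧
    ∀ x : Elt M, (∀ ε : ℝ, 0 < ε → ∃ y ∈ PP T F, n2 T.τ (x - y) ≤ ε) → x ∈ PP T F

/-- projections of `PP` that behave like the central projection -/
def StMA6 : Prop :=
  ∀ {H : Type} [NormedAddCommGroup H] [InnerProductSpace ℂ H] [CompleteSpace H]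
    {M : VonNeumannAlgebra H} (T : TracialState M) (U : Ultrafilter ℕ) (F : Set (Elt M)) (e : ℕ → Elt M) (t : ℝ),
    StarClosed F → F.Finite → ZSeq T U F e t → Spl T F t

/-- splitting a partition -/
def StMA7 : Prop :=
  ∀ {H : Type} [NormedAddCommGroup H] [InnerProductSpace ℂ H] [CompleteSpace H]
    {M : VonNeumannAlgebra H} (T : TracialState M) (F : Set (Elt M)) (t : ℝ), StarClosed F → F.Finite → 0 < t → t < 1 → Spl T F t →
    ∀ (ι : Type) [Fintype ι] (q : ι → Elt M), PVM q → (∀ i, q i ∈ PP T F) → ∀ ε : ℝ, 0 < ε →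
    ∃ f ∈ PP T F, Proj f ∧ (∀ i, f * q i = q i * f) ∧
      (∀ i, ‖T.τ (f * q i) - (t : ℂ) * T.τ (q i)‖ ≤ ε) ∧
      ∀ a ∈ F, n2 T.τ (f * a - a * f) ≤ ε

/-- a commuting sequence of projections -/
def StMA8a : Prop :=
  ∀ {H : Type} [NormedAddCommGroup H] [InnerProductSpace ℂ H] [CompleteSpace H]
    {M : VonNeumannAlgebra H} (T : TracialState M) (F : Set (Elt M)) (t : ℝ), StarClosed F → F.Finite → 0 < t → t < 1 →
    (∀ (ι : Type) [Fintype ι] (q : ι → Elt M), PVM q → (∀ i, q i ∈ PP T F) → ∀ ε : ℝ, 0 < ε →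
      ∃ f ∈ PP T F, Proj f ∧ (∀ i, f * q i = q i * f) ∧
        (∀ i, ‖T.τ (f * q i) - (t : ℂ) * T.τ (q i)‖ ≤ ε) ∧
        ∀ a ∈ F, n2 T.τ (f * a - a * f) ≤ ε) →
    ∀ ε : ℝ, 0 < ε → ∃ f : ℕ → Elt M, (∀ i, Proj (f i)) ∧ (∀ i k, f i * f k = f k * f i) ∧
      (∀ i, ∀ a ∈ F, n2 T.τ (f i * a - a * f i) ≤ ε / 2 ^ (i + 1)) ∧
      ∀ η : ℝ, 0 < η → ∃ m : ℕ, ∀ l : List Bool, l.length = m → (T.τ (atom f l)).re ≤ η

/-- the algebra generated by a commuting sequence of projections -/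
def StMA8b : Prop :=
  ∀ {H : Type} [NormedAddCommGroup H] [InnerProductSpace ℂ H] [CompleteSpace H]
    {M : VonNeumannAlgebra H} (T : TracialState M) (F : Set (Elt M)) (ε : ℝ) (f : ℕ → Elt M), 0 < ε → (∀ i, Proj (f i)) →
    (∀ i k, f i * f k = f k * f i) →
    (∀ i, ∀ a ∈ F, n2 T.τ (f i * a - a * f i) ≤ ε / 2 ^ (i + 1)) →
    (∀ η : ℝ, 0 < η → ∃ m : ℕ, ∀ l : List Bool, l.length = m → (T.τ (atom f l)).re ≤ η) →
    StarClosed (Set.range f) ∧ DiffuseIn (RC (RC (Set.range f))) ∧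
      ∀ a ∈ F, ∃ c ∈ RC (Set.range f), n2 T.τ (a - c) ≤ ε

/-- the nonfactorial case -/
def StMA8 : Prop :=
  ∀ {H : Type} [NormedAddCommGroup H] [InnerProductSpace ℂ H] [CompleteSpace H]
    {M : VonNeumannAlgebra H} (T : TracialState M) (F : Set (Elt M)) (t : ℝ), StarClosed F → F.Finite → 0 < t → t < 1 →
    Spl T F t → AlgC T F

/-- the algebraic part -/
def StMAIN : Prop :=
  ∀ {H : Type} [NormedAddCommGroup H] [InnerProductSpace ℂ H] [CompleteSpace H]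
    {M : VonNeumannAlgebra H} (T : TracialState M), IsIIOneFactor M T.τ → ∀ F : Set (Elt M), StarClosed F → F.Finite → Irr F →
    (∀ (m : ℕ) (δ : ℝ), 0 < δ → ∃ q : Fin (2 ^ m) → Elt M, GoodPVM T F m δ q) → AlgC T F

/-! ### conclusion -/

/-- `U`-solid factors are solid -/
def StBACK : Prop :=
  ∀ {H : Type} [NormedAddCommGroup H] [InnerProductSpace ℂ H] [CompleteSpace H]
    {M : VonNeumannAlgebra H} (T : TracialState M), IsIIOneFactor M T.τ → ∀ U : Ultrafilter ℕ, (∀ n, {n} ∉ U) →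
    USolid M T.τ U → Solid M T.τ

/-- solid factors are `U`-solid -/
def StFWD : Prop :=
  ∀ {H : Type} [NormedAddCommGroup H] [InnerProductSpace ℂ H] [CompleteSpace H]
    {M : VonNeumannAlgebra H} (T : TracialState M), IsIIOneFactor M T.τ → ∀ U : Ultrafilter ℕ, (∀ n, {n} ∉ U) →
    Solid M T.τ → USolid M T.τ U

end Pool.Agent.H811R4.SD
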