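import Mathlib
import Pool.Agent.H811R4.SD.Stubs

set_option autoImplicit false

open scoped InnerProductSpace BoundedContinuousFunction Topology
open Filter

namespace Pool.Agent.H811R4.SD

open Pool.Agent.Helper278

theorem solid_iff (hB : StBACK) (hF : StFWD) {H : Type} [NormedAddCommGroup H]
    [InnerProductSpace ℂ H] [CompleteSpace H] (M : VonNeumannAlgebra H) (τ : Elt M → ℂ)
    (h : IsIIOneFactor M τ) (U : Ultrafilter ℕ) (hU : ∀ n, {n} ∉ U) :
    Solid M τ ↔ USolid M τ U := by
  let T : TracialState M := mkState M τ h.normal h.trace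
  have hT : (fun x => T.τ x) = τ := by
    funext x
    exact mkState_apply M τ h.normal h.trace x
  have hM : IsIIOneFactor M T.τ := by
    show IsIIOneFactor M (fun x => T.τ x)
    rw [hT]
    exact h
  constructor
  · intro hs
    have h1 : Solid M (fun x => T.τ x) := by rw [hT]; exact hs
    have h2 : USolid M (fun x => T.τ x) U := hF T hM U hU h1
    rw [hT] at h2
    exact h2
  · intro hs
    have h1 : USolid M (fun x => T.τ x) U := by rw [hT]; exact hs
    have h2 : Solid M (fun x => T.τ x) := hB T hM U hU h1
    rw [hT] at h2
    exact h2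

end Pool.Agent.H811R4.SD
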