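import Pool.Agent.H811R4.SD.Stubs

/-! AM2: a hypertrace gives amenability. -/

set_option autoImplicit false

open scoped InnerProductSpace BoundedContinuousFunction
open Filter

namespace Pool.Agent.H811R4.SD

open Pool.Agent.Helper278

theorem am2_holds : StAM2 := by
  intro H _ _ _ M T K _ _ _ j lam hS φ hF hA
  refine ⟨K, inferInstance, inferInstance, inferInstance, j, lam, φ, hS.inner, hS.dense,
    hS.lam_j, hF.pos, ?_, ?_⟩
  · intro a X
    have h := hA a (Set.mem_univ _) X
    rw [zero_mul] at h
    exact sub_eq_zero.1 (norm_le_zero_iff.1 h)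
  · intro a
    have h := hF.tr a
    rw [h, one_mul, mul_one]

end Pool.Agent.H811R4.SD
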