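import Pool.Agent.H811R4.SD.Stubs
import Pool.Agent.Helper278.Model

/-!
# `U`-solid factors are solid
-/

set_option autoImplicit false

open scoped InnerProductSpace BoundedContinuousFunction Topology
open Filter

namespace Pool.Agent.H811R4.SD

open Pool.Agent.Helper278

theorem back_holds (hQMOD : StQMOD) (hDPVM : StDPVM) (hDIF : StDIF) : StBACK := by
  intro H _ _ _ M T hM U hU hUS A h hdiff
  obtain ⟨Q, iR, iS, iA, iSM, π, σ, hup⟩ := exists_ultrapower T U
  refine hUS Q π σ hup A h ?_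
  obtain ⟨K, _, _, _, N, e, T', hN, htr⟩ := hQMOD T hM hup hU
  obtain ⟨SA, hSA⟩ : ∃ SA : Set (Elt M), SA = {a : Elt M | (a : H →L[ℂ] H) ∈ A} := ⟨_, rfl⟩
  have hst : StarClosed SA := by
    intro a ha
    rw [hSA] at ha ⊢
    exact star_mem (s := A) ha
  have hRC : RC SA = {x : Elt M | ∀ a ∈ A, a * (x : H →L[ℂ] H) = (x : H →L[ℂ] H) * a} := by
    ext x
    constructor
    · intro hx a ha
      have := hx ⟨a, h a ha⟩ (by rw [hSA]; exact ha)
      exact congrArg Subtype.val this
    · intro hx a ha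
      rw [hSA] at ha
      exact Subtype.ext (hx a.1 ha)
  have hdiff' : DiffuseIn (RC SA) := by
    rw [hRC]
    exact hdiff
  have h1RC : (1 : Elt M) ∈ RC SA := fun a _ => by rw [mul_one, one_mul]
  have h1P : Proj (1 : Elt M) := ⟨star_one _, mul_one _⟩
  have hpart := hDPVM T SA hst hdiff' 1 h1RC h1P
  obtain ⟨c, hc⟩ : ∃ c : Elt M → Q, c = fun a => π (BoundedContinuousFunction.const ℕ a) :=
    ⟨_, rfl⟩
  have cmul : ∀ a b, c (a * b) = c a * c b := by
    intro a b
    rw [hc]
    simp only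
    rw [← map_mul]
    congr 1
  have cstar : ∀ a, c (star a) = star (c a) := by
    intro a
    rw [hc]
    simp only
    rw [← map_star]
    congr 1
  have cone : c 1 = 1 := by
    rw [hc]
    simp only
    rw [← map_one π]
    congr 1
  have cadd : ∀ a b, c (a + b) = c a + c b := by
    intro a b
    rw [hc]
    simp only
    rw [← map_add]
    congr 1
  have czero : c 0 = 0 := by
    rw [hc]
    simp only
    rw [← map_zero π]
    congr 1
  have csum : ∀ (k : ℕ) (q : Fin k → Elt M), c (∑ i, q i) = ∑ i, c (q i) := by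
    intro k q
    exact map_sum (⟨⟨c, czero⟩, cadd⟩ : Elt M →+ Q) q Finset.univ
  have ctr : ∀ a, σ (c a) = T.τ a := by
    intro a
    have h1 := hup.trace (BoundedContinuousFunction.const ℕ a)
    have h2 : Tendsto (fun _ : ℕ => T.τ a) U (𝓝 (T.τ a)) := tendsto_const_nhds
    rw [hc]
    exact tendsto_nhds_unique h1 h2
  obtain ⟨S', hS'⟩ : ∃ S' : Set (Elt N), S' = (fun a => e (c a)) '' SA := ⟨_, rfl⟩
  have hd : DiffuseIn (RC S') := by
    apply hDIF T' S'
    intro η hη
    obtain ⟨m, hm⟩ := exists_pow_lt_of_lt_one hη (by norm_num : (1 / 2 : ℝ) < 1)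
    obtain ⟨q, hq1, hq2, hq3⟩ := hpart m
    refine ⟨2 ^ m, fun i => e (c (q i)), fun i => ⟨⟨?_, ?_⟩, ?_, ?_⟩, ?_⟩
    · rw [← map_star, ← cstar, (hq1 i).1.sa]
    · rw [← map_mul, ← cmul, (hq1 i).1.idem]
    · intro x hx
      rw [hS'] at hx
      obtain ⟨a, ha, rfl⟩ := hx
      simp only
      rw [← map_mul, ← map_mul, ← cmul, ← cmul, (hq1 i).2.1 a ha]
    · rw [htr, ctr, (hq1 i).2.2, T.map_one]
      have : (1 / 2 ^ m : ℂ) = (((1 / 2 : ℝ) ^ m : ℝ) : ℂ) := by
        push_cast
        rw [one_div_pow]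
      rw [this, Complex.ofReal_re]
      exact hm.le
    · rw [← map_sum, ← csum, hq3, cone, map_one]
  intro r hr hrr hrs hr0
  obtain ⟨x, hx, hxc⟩ := hd (e r) (by
    intro y hy
    rw [hS'] at hy
    obtain ⟨a, ha, rfl⟩ := hy
    simp only
    rw [hSA] at ha
    have := hr a ha
    rw [← map_mul, ← map_mul, hc]
    simp only
    rw [this]) (by rw [← map_mul, hrr]) (by rw [← map_star, hrs]) (by
      intro h0
      exact hr0 ((map_eq_zero_iff e e.injective).mp h0))
  refine ⟨e.symm x, ?_, fun z hz => hxc z ?_⟩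
  · intro a ha
    have h1 := hx (e (c a)) (by
      rw [hS']
      exact ⟨a, by rw [hSA]; exact ha, rfl⟩)
    rw [hc] at h1
    have h2 : e (π (BoundedContinuousFunction.const ℕ a) * e.symm x) =
        e (e.symm x * π (BoundedContinuousFunction.const ℕ a)) := by
      rw [map_mul, map_mul, e.apply_symm_apply]
      exact h1
    exact e.injective h2
  · have h2 := congrArg e hz
    rw [map_mul, map_mul, e.apply_symm_apply, map_smul] at h2
    exact h2

end Pool.Agent.H811R4.SD
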