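import Mathlib
import Pool.Agent.H811R4.SD.Stubs

set_option autoImplicit false

open scoped InnerProductSpace BoundedContinuousFunction Topology ComplexOrder
open Filter

namespace Pool.Agent.H811R4.SD

open Pool.Agent.Helper278

theorem calg_tau_proj {H : Type} [NormedAddCommGroup H] [InnerProductSpace ℂ H] [CompleteSpace H]
    {M : VonNeumannAlgebra H} (T : TracialState M) {p : Elt M} (hp : Proj p) :
    0 ≤ (T.τ p).re ∧ (T.τ p).re ≤ 1 ∧ (T.τ p).im = 0 := by
  have h1 := (trAlg T).nonneg p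
  rw [hp.sa, hp.idem] at h1
  have h2 := (trAlg T).nonneg (1 - p)
  have h3 : star (1 - p) * (1 - p) = 1 - p := by
    rw [star_sub, star_one, hp.sa, mul_sub, mul_one, sub_mul, one_mul, hp.idem, sub_self, sub_zero]
  rw [h3, map_sub, T.map_one] at h2
  rw [Complex.le_def] at h1 h2
  simp only [Complex.zero_re, Complex.zero_im, Complex.sub_re, Complex.one_re] at h1 h2
  exact ⟨h1.1, by linarith [h2.1], h1.2.symm⟩

theorem calg_holds (hCORNS : StCORNS) (hCOND : StCOND) : StCALG := by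
  intro H _ _ _ M T K _ _ _ j lam hS hII hSol p H' _ _ _ N T' ι hp hp0 hC F hpF hAlg ε hε
  obtain ⟨S, hSs, hSd, hSa⟩ := hAlg (ε / 2) (by linarith)
  obtain ⟨S', hS's, hS'd, hS'c⟩ := hCORNS T hII hp hC S hSs hSd
  obtain ⟨ht0, ht1, hti⟩ := calg_tau_proj T hp
  have hle : ∀ z : Elt N, n2 T.τ (ι z) ≤ n2 T'.τ z := by
    intro z
    unfold n2
    apply Real.sqrt_le_sqrt
    rw [← map_star, ← map_mul, hC.tr, Complex.mul_re, hti, zero_mul, sub_zero]
    have h5 := (trAlg T').re_nonneg z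
    nlinarith
  have key : ∀ a ∈ F, ∃ c ∈ RC S', n2 T.τ (a * p - c) ≤ ε / 2 := by
    intro a ha
    have hap : a * p = p * a := hpF a ha
    have hpp : p * (a * p) * p = a * p := by
      rw [mul_assoc p, mul_assoc a, hp.idem, hap, ← mul_assoc, hp.idem]
    obtain ⟨y, hy⟩ := hC.surj (a * p) hpp
    obtain ⟨c, hc, hyc⟩ := hSa y ⟨a, ha, hy⟩
    refine ⟨ι c, hS'c c hc, ?_⟩
    rw [← hy, ← map_sub]
    exact (hle _).trans hyc
  obtain ⟨ψ, h1, h2⟩ := hCOND T hS hSol F S' p (ε / 2) hp (fun a ha => hpF a ha) hS's hS'd key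
  refine ⟨ψ, h1, ?_⟩
  have h3 : 2 * (ε / 2) = ε := by ring
  rwa [h3] at h2

end Pool.Agent.H811R4.SD
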