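import Mathlib
import Pool.Agent.H811R4.SD.Stubs
import Pool.Agent.Helper278.CEStd
import Pool.Agent.Helper278.CEBall

set_option autoImplicit false
set_option linter.unusedSectionVars false

open scoped InnerProductSpace ComplexOrder Topology
open Filter

namespace Pool.Agent.H811R4.SD

open Pool.Agent.Helper278 Pool.Agent.Helper278.CE

namespace COMM

universe u

section std

variable {A : Type u} [Ring A] [StarRing A] [Algebra ℂ A] [StarModule ℂ A] {τ : A →ₗ[ℂ] ℂ}
variable {K : Type u} [NormedAddCommGroup K] [InnerProductSpace ℂ K] [CompleteSpace K]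
variable (h : TrAlg τ) {j : A →ₗ[ℂ] K} (hd : DenseRange j)
  (hj : ∀ x y, ⟪j x, j y⟫_ℂ = τ (star x * y)) {B : Set A} (hB : Ball τ B)

include h hj hB hd in
/-- Operators of norm at most one that commute with the right multiplications are left
multiplications by elements of the ball. -/
theorem exists_of_comm (T : K →L[ℂ] K) (hcomm : ∀ b, Rm j b * T = T * Rm j b) (hT1 : ‖T‖ ≤ 1) :
    ∃ a ∈ B, T = Lm j a := by
  set η := T (j 1) with hη
  have hj1 : ‖j (1 : A)‖ = 1 := by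
    rw [norm_j hj]
    unfold n2
    rw [star_one, one_mul, h.one, Complex.one_re, Real.sqrt_one]
  have hη1 : ‖η‖ ≤ 1 := by
    have := T.le_of_opNorm_le hT1 (j 1)
    rwa [hj1, one_mul] at this
  have hBn : ∀ a ∈ B, ‖j a‖ ≤ 1 := by
    intro a ha
    have := hB.contr a ha 1
    rw [mul_one] at this
    rw [norm_j hj]
    refine this.trans ?_
    rw [← norm_j hj, hj1]
  have hcl : η ∈ closure (j '' B) := by
    by_contra hcon
    have hconv : Convex ℝ (closure (j '' B)) := by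
      apply Convex.closure
      rintro _ ⟨a, ha, rfl⟩ _ ⟨b, hb, rfl⟩ s t hs ht hst
      refine ⟨(s : ℂ) • a + ((1 - s : ℝ) : ℂ) • b, hB.conv a ha b hb s hs (by linarith), ?_⟩
      rw [map_add, map_smul, map_smul]
      have : 1 - s = t := by linarith
      rw [this]
      rfl
    obtain ⟨f, u, hf1, hf2⟩ :=
      RCLike.geometric_hahn_banach_closed_point (𝕜 := ℂ) hconv isClosed_closure hcon
    set ζ := (InnerProductSpace.toDual ℂ K).symm f with hζ
    have hfζ : ∀ x, f x = ⟪ζ, x⟫_ℂ := by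
      intro x
      rw [hζ, InnerProductSpace.toDual_symm_apply]
    have hgpos : 0 < (⟪ζ, η⟫_ℂ).re - u := by
      have : u < (f η).re := hf2
      rw [hfζ] at this
      linarith
    set g := (⟪ζ, η⟫_ℂ).re - u with hg
    obtain ⟨z, hz⟩ : ∃ z : A, ‖ζ - j z‖ < g / 4 := by
      have := Metric.denseRange_iff.1 hd ζ (g / 4) (by positivity)
      obtain ⟨z, hz⟩ := this
      exact ⟨z, by rwa [dist_eq_norm] at hz⟩
    obtain ⟨v, hv, k, hk, hzk, hτ⟩ := hB.polar z (g / 4) (by positivity)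
    have e1 : (⟪j z, η⟫_ℂ).re ≤ (τ (k * k)).re := by
      have e2 : j z = Rm j k (j (v * k)) := by
        rw [Rm_j h hd hj hB, hzk, mul_assoc]
      have e3 : ⟪j z, η⟫_ℂ = ⟪Lm j v (j k), T (j k)⟫_ℂ := by
        rw [e2, ← ContinuousLinearMap.adjoint_inner_right, ← ContinuousLinearMap.star_eq_adjoint,
          star_Rm h hd hj hB, hk, hη, Lm_j h hd hj hB]
        have e4 : Rm j k (T (j 1)) = T (Rm j k (j 1)) :=
          congrArg (fun w : K →L[ℂ] K => w (j 1)) (hcomm k)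
        rw [e4, Rm_j h hd hj hB, one_mul]
      have e5 : ‖Lm j v (j k)‖ ≤ ‖j k‖ := by
        rw [Lm_j h hd hj hB, norm_j hj, norm_j hj]
        exact hB.contr v hv k
      have e6 : ‖T (j k)‖ ≤ ‖j k‖ := by
        have := T.le_of_opNorm_le hT1 (j k)
        rwa [one_mul] at this
      have e7 : (τ (k * k)).re = ‖j k‖ ^ 2 := by
        rw [norm_j hj, h.n2_sq, hk]
      rw [e3, e7]
      refine (Complex.re_le_norm _).trans ((norm_inner_le_norm _ _).trans ?_)
      rw [sq]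
      exact mul_le_mul e5 e6 (norm_nonneg _) (norm_nonneg _)
    have e8 : (τ (star z * v)).re = (⟪j z, j v⟫_ℂ).re := by rw [hj]
    have e9 : (⟪ζ, j v⟫_ℂ).re < u := by
      have : (f (j v)).re < u := hf1 _ (subset_closure ⟨v, hv, rfl⟩)
      rwa [hfζ] at this
    have e10 : (⟪j z, j v⟫_ℂ).re ≤ (⟪ζ, j v⟫_ℂ).re + g / 4 := by
      have h1 : ⟪ζ - j z, j v⟫_ℂ = ⟪ζ, j v⟫_ℂ - ⟪j z, j v⟫_ℂ := inner_sub_left _ _ _
      have h2 : ‖⟪ζ - j z, j v⟫_ℂ‖ ≤ g / 4 * 1 :=
        (norm_inner_le_norm _ _).trans (mul_le_mul hz.le (hBn v hv) (norm_nonneg _) (by positivity))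
      have h3 := (Complex.abs_re_le_norm _).trans h2
      rw [h1, Complex.sub_re, abs_le] at h3
      linarith [h3.1]
    have e11 : (⟪ζ, η⟫_ℂ).re ≤ (⟪j z, η⟫_ℂ).re + g / 4 := by
      have h1 : ⟪ζ - j z, η⟫_ℂ = ⟪ζ, η⟫_ℂ - ⟪j z, η⟫_ℂ := inner_sub_left _ _ _
      have h2 : ‖⟪ζ - j z, η⟫_ℂ‖ ≤ g / 4 * 1 :=
        (norm_inner_le_norm _ _).trans (mul_le_mul hz.le hη1 (norm_nonneg _) (by positivity))
      have h3 := (Complex.abs_re_le_norm _).trans h2
      rw [h1, Complex.sub_re, abs_le] at h3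
      linarith [h3.2]
    linarith
  have hseq : ∀ n : ℕ, ∃ a ∈ B, ‖η - j a‖ < (1 / 2) ^ n / 4 := by
    intro n
    obtain ⟨_, ⟨a, ha, rfl⟩, hd'⟩ := Metric.mem_closure_iff.1 hcl ((1 / 2) ^ n / 4) (by positivity)
    exact ⟨a, ha, by rwa [dist_eq_norm] at hd'⟩
  choose x hxB hx using hseq
  obtain ⟨y, hy, hxy⟩ := hB.complete x hxB (by
    intro n
    rw [← norm_j hj, map_sub]
    have h1 : j (x n) - j (x (n + 1)) = (η - j (x (n + 1))) - (η - j (x n)) := by abel
    rw [h1]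
    refine (norm_sub_le _ _).trans ?_
    have h2 := hx n
    have h3 := hx (n + 1)
    rw [pow_succ] at h3
    have h4 : (0 : ℝ) < (1 / 2) ^ n := by positivity
    linarith)
  have hηy : η = j y := by
    have h1 : Tendsto (fun _ : ℕ => ‖η - j y‖) atTop (𝓝 0) := by
      have h2 : Tendsto (fun n : ℕ => ((1 : ℝ) / 2) ^ n / 4 + n2 τ (x n - y)) atTop (𝓝 0) := by
        have h3 : Tendsto (fun n : ℕ => ((1 : ℝ) / 2) ^ n) atTop (𝓝 0) :=
          tendsto_pow_atTop_nhds_zero_of_lt_one (by norm_num) (by norm_num)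
        have h4 := (h3.div_const 4).add hxy
        simpa using h4
      refine squeeze_zero (fun n => norm_nonneg _) (fun n => ?_) h2
      have h5 : η - j y = (η - j (x n)) + j (x n - y) := by
        rw [map_sub]
        abel
      rw [h5]
      refine (norm_add_le _ _).trans ?_
      rw [norm_j hj]
      linarith [hx n]
    have h2 : ‖η - j y‖ = 0 :=
      tendsto_nhds_unique (tendsto_const_nhds (x := ‖η - j y‖) (f := (atTop : Filter ℕ))) h1
    exact sub_eq_zero.1 (norm_eq_zero.1 h2)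
  refine ⟨y, hy, ?_⟩
  apply ext_j hd
  intro b
  rw [Lm_j h hd hj hB]
  have h1 : j b = Rm j b (j 1) := by rw [Rm_j h hd hj hB, one_mul]
  have h2 : T (Rm j b (j 1)) = Rm j b (T (j 1)) :=
    (congrArg (fun w : K →L[ℂ] K => w (j 1)) (hcomm b)).symm
  rw [h1, h2, ← hη, hηy, Rm_j h hd hj hB]

end std

section vn

variable {H : Type} [NormedAddCommGroup H] [InnerProductSpace ℂ H] [CompleteSpace H]
variable {M : VonNeumannAlgebra H}
variable {K : Type} [NormedAddCommGroup K] [InnerProductSpace ℂ K] [CompleteSpace K]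

theorem ball (hG0 : StG0) (T : TracialState M) {j : Elt M →ₗ[ℂ] K}
    (hj : ∀ x y, ⟪j x, j y⟫_ℂ = T.τ (star x * y)) : Ball T.τ {x : Elt M | ‖x‖ ≤ 1} := by
  have hA := trAlg T
  refine ⟨?_, ?_, ?_, ?_, ?_, ?_⟩
  · intro a ha b
    refine (n2_mul_le T a b).trans ?_
    have h1 : ‖(a : H →L[ℂ] H)‖ ≤ 1 := ha
    have h2 : 0 ≤ n2 T.τ b := Real.sqrt_nonneg _
    nlinarith
  · intro a ha b hb s hs hs1
    rw [Set.mem_ofPred_eq] at ha hb ⊢
    calc ‖(s : ℂ) • a + ((1 - s : ℝ) : ℂ) • b‖ ≤ ‖(s : ℂ) • a‖ + ‖((1 - s : ℝ) : ℂ) • b‖ :=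
          norm_add_le _ _
      _ = s * ‖a‖ + (1 - s) * ‖b‖ := by
          rw [norm_smul, norm_smul, Complex.norm_real, Complex.norm_real, Real.norm_of_nonneg hs,
            Real.norm_of_nonneg (by linarith)]
      _ ≤ 1 := by nlinarith
  · simp
  · intro x hx hxs
    have hc : CauchySeq fun n => j (x n) := by
      refine cauchySeq_of_le_geometric (1 / 2) 1 (by norm_num) fun n => ?_
      rw [dist_eq_norm, ← map_sub, norm_j hj, one_mul]
      exact hxs n
    obtain ⟨y, hy, hlim⟩ := hG0 T 1 x hx (by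
      intro ε hε
      obtain ⟨n0, hn0⟩ := Metric.cauchySeq_iff.1 hc ε hε
      refine ⟨n0, fun n hn m hm => ?_⟩
      have := hn0 n hn m hm
      rw [dist_eq_norm, ← map_sub, norm_j hj] at this
      exact this.le)
    exact ⟨y, hy, hlim⟩
  · intro z δ hδ
    obtain ⟨v, k, hv, hk, hz, -, hτ⟩ := polar_term T z δ hδ
    exact ⟨v, hv, k, hk, hz, hτ⟩
  · intro a
    refine ⟨(‖a‖ + 1)⁻¹, by positivity, ?_⟩
    rw [Set.mem_ofPred_eq, norm_smul, Complex.norm_real, Real.norm_of_nonneg (by positivity),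
      inv_mul_le_iff₀ (by positivity)]
    linarith [norm_nonneg a]

end vn

end COMM

/-- COMM: the commutation theorem. -/
theorem comm_holds (hG0 : StG0) : StCOMM := by
  intro H _ _ _ M T K _ _ _ j lam hstd X hX
  have hA := trAlg T
  have hB := COMM.ball hG0 T hstd.inner
  have hd := hstd.dense
  have hj := hstd.inner
  have hc : (0 : ℝ) < ‖X‖ + 1 := by positivity
  have hcC : (((‖X‖ + 1 : ℝ)) : ℂ) ≠ 0 := by exact_mod_cast hc.ne'
  obtain ⟨a, -, ha⟩ := COMM.exists_of_comm hA hd hj hB ((((‖X‖ + 1 : ℝ)) : ℂ)⁻¹ • X) (by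
    intro b
    have := hX b (Rm j b) (fun c => Rm_j hA hd hj hB b c)
    rw [mul_smul_comm, smul_mul_assoc, this]) (by
    rw [norm_smul, norm_inv, Complex.norm_real, Real.norm_of_nonneg hc.le,
      inv_mul_le_iff₀ hc]
    linarith)
  refine ⟨(((‖X‖ + 1 : ℝ)) : ℂ) • a, ?_⟩
  have h1 : X = (((‖X‖ + 1 : ℝ)) : ℂ) • Lm j a := by
    rw [← ha, smul_smul, mul_inv_cancel₀ hcC, one_smul]
  have h2 : Lm j a = lam a := by
    apply ext_j hd
    intro b
    rw [Lm_j hA hd hj hB, hstd.lam_j]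
  rw [map_smul, ← h2]
  exact h1

end Pool.Agent.H811R4.SD
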