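import Pool.Agent.H811R4.SD.Stubs

set_option autoImplicit false

open scoped InnerProductSpace BoundedContinuousFunction
open Filter

namespace Pool.Agent.H811R4.SD

open Pool.Agent.Helper278

theorem cond_holds (hRCV : StRCV) (hFROM : StFROM) (hFB : StFB) : StCOND := by
  intro H _ _ _ M T K _ _ _ j lam hstd hsolid F S p ε hp hFp hS hdiff hap
  obtain ⟨A, hA⟩ := hRCV S hS
  have h : ∀ x ∈ A, x ∈ M := fun x hx => ((hA x).1 hx).1
  have hset : {x : Elt M | ∀ a ∈ A, a * (x : H →L[ℂ] H) = (x : H →L[ℂ] H) * a} =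
      RC (RC S) := by
    ext x
    constructor
    · intro hx a ha
      apply Subtype.ext
      exact hx a.1 ((hA a.1).2 ⟨a.2, ha⟩)
    · intro hx a ha
      obtain ⟨h1, h2⟩ := (hA a).1 ha
      have := hx ⟨a, h1⟩ h2
      exact congrArg Subtype.val this
  have hAm : Amenable (resTr (fun x => T.τ x) h) := by
    apply hsolid A h
    rw [hset]
    exact hdiff
  obtain ⟨ψ0, hfun, hcen⟩ := hFROM T hstd h hAm
  have hp1 : Proj (1 : Elt M) := ⟨star_one _, mul_one _⟩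
  obtain ⟨-, hb1, hb2⟩ := hFB T hstd 1 ψ0 hp1 hfun
  have hlp : star (lam p) = lam p := by rw [← map_star, hp.sa]
  have hlpp : lam p * lam p = lam p := by rw [← map_mul, hp.idem]
  have hnorm : ‖lam p‖ ≤ 1 := by
    have h1 : ‖star (lam p) * lam p‖ = ‖lam p‖ * ‖lam p‖ := CStarRing.norm_star_mul_self
    rw [hlp, hlpp] at h1
    by_contra hc
    push Not at hc
    nlinarith
  refine ⟨ψ0 ∘ₗ (LinearMap.mulLeft ℂ (lam p)) ∘ₗ (LinearMap.mulRight ℂ (lam p)), ⟨?_, ?_⟩, ?_⟩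
  · intro X
    have e : (ψ0 ∘ₗ (LinearMap.mulLeft ℂ (lam p)) ∘ₗ (LinearMap.mulRight ℂ (lam p))) (star X * X) =
        ψ0 (star (X * lam p) * (X * lam p)) := by
      simp only [LinearMap.comp_apply, LinearMap.mulLeft_apply, LinearMap.mulRight_apply, star_mul,
        hlp, mul_assoc]
    rw [e]
    exact hfun.pos _
  · intro x
    have e : (ψ0 ∘ₗ (LinearMap.mulLeft ℂ (lam p)) ∘ₗ (LinearMap.mulRight ℂ (lam p))) (lam x) =
        ψ0 (lam (p * x * p)) := by
      simp only [LinearMap.comp_apply, LinearMap.mulLeft_apply, LinearMap.mulRight_apply, map_mul,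
        mul_assoc]
    rw [e, hfun.tr, one_mul, mul_one]
  · intro a ha X
    obtain ⟨c, hc, hac⟩ := hap a ha
    have hε : 0 ≤ ε := (n2_nonneg T.τ _).trans hac
    obtain ⟨Y, hY⟩ : ∃ Y : K →L[ℂ] K, Y = lam p * X * lam p := ⟨_, rfl⟩
    have hYn : ‖Y‖ ≤ ‖X‖ := by
      rw [hY]
      calc ‖lam p * X * lam p‖ ≤ ‖lam p * X‖ * ‖lam p‖ := norm_mul_le _ _
        _ ≤ ‖lam p‖ * ‖X‖ * ‖lam p‖ := by gcongr; exact norm_mul_le _ _
        _ ≤ 1 * ‖X‖ * 1 := by gcongr
        _ = ‖X‖ := by ring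
    have e1 : (ψ0 ∘ₗ (LinearMap.mulLeft ℂ (lam p)) ∘ₗ (LinearMap.mulRight ℂ (lam p))) (lam a * X) =
        ψ0 (lam (a * p) * Y) := by
      have : lam p * (lam a * X * lam p) = lam (a * p) * Y := by
        rw [hY, ← mul_assoc, ← mul_assoc, ← mul_assoc, ← mul_assoc, ← map_mul, ← map_mul,
          mul_assoc a p p, hp.idem, hFp a ha]
      simp only [LinearMap.comp_apply, LinearMap.mulLeft_apply, LinearMap.mulRight_apply]
      rw [this]
    have e2 : (ψ0 ∘ₗ (LinearMap.mulLeft ℂ (lam p)) ∘ₗ (LinearMap.mulRight ℂ (lam p))) (X * lam a) =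
        ψ0 (Y * lam (a * p)) := by
      have : lam p * (X * lam a * lam p) = Y * lam (a * p) := by
        rw [hY, mul_assoc (lam p * X), ← map_mul, ← mul_assoc p a p, ← hFp a ha, mul_assoc a p p,
          hp.idem, mul_assoc X, ← map_mul, mul_assoc]
      simp only [LinearMap.comp_apply, LinearMap.mulLeft_apply, LinearMap.mulRight_apply]
      rw [this]
    have hcA : (c : H →L[ℂ] H) ∈ A := (hA c.1).2 ⟨c.2, hc⟩
    have h0 := hcen c hcA Y
    rw [zero_mul] at h0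
    have h0' : ψ0 (lam c * Y) - ψ0 (Y * lam c) = 0 := norm_le_zero_iff.mp h0
    have e3 : ψ0 (lam (a * p) * Y) - ψ0 (Y * lam (a * p)) =
        ψ0 (lam (a * p - c) * Y) - ψ0 (Y * lam (a * p - c)) := by
      rw [map_sub lam, sub_mul, mul_sub, map_sub, map_sub]
      linear_combination h0'
    rw [e1, e2, e3]
    have b1 := hb1 (a * p - c) Y
    have b2 := hb2 (a * p - c) Y
    have b3 : n2 T.τ (a * p - c) * ‖Y‖ ≤ ε * ‖X‖ :=
      mul_le_mul hac hYn (norm_nonneg _) hε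
    calc ‖ψ0 (lam (a * p - c) * Y) - ψ0 (Y * lam (a * p - c))‖
        ≤ ‖ψ0 (lam (a * p - c) * Y)‖ + ‖ψ0 (Y * lam (a * p - c))‖ := norm_sub_le _ _
      _ ≤ ε * ‖X‖ + ε * ‖X‖ := add_le_add (b1.trans b3) (b2.trans b3)
      _ = 2 * ε * ‖X‖ := by ring

end Pool.Agent.H811R4.SD
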