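import Pool.Agent.H811R4.SD.Stubs
import Pool.Agent.H710R2.Corner2
import Pool.Agent.Helper278.GroupMain
import Pool.Agent.Helper278.CEProj

/-!
# Corners of II₁ factors are II₁ factors (task CORN)
-/

set_option autoImplicit false

open scoped InnerProductSpace BoundedContinuousFunction ComplexOrder
open Filter

namespace Pool.Agent.H811R4.SD

open Pool.Agent.Helper278

namespace CORNaux

open Pool.Agent.H710R2 (Pj rg cr jc jc_inj jc_one jc_surj jc_mul jc_add jc_smul jc_star jc_zero
  jc_sub jc_left jc_right ctr ctr_normal ctr_faithful)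

variable {H : Type} [NormedAddCommGroup H] [InnerProductSpace ℂ H] [CompleteSpace H]
  {M : VonNeumannAlgebra H}

theorem pos_tr (T : TracialState M) {p : Elt M} (hE : Pj p) (hp0 : p ≠ 0) :
    0 < (T.τ p).re := by
  have hA := trAlg T
  have h1 := hA.re_nonneg p
  have h2 := hA.im_zero p
  rw [hE.sa, hE.idem] at h1 h2
  refine lt_of_le_of_ne h1 fun h3 => hp0 ?_
  apply hA.faithful
  rw [hE.sa, hE.idem]
  exact Complex.ext h3.symm h2

theorem comp_idem {p : Elt M} (hE : Pj p) (x : Elt M) : p * (p * x * p) * p = p * x * p := by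
  calc p * (p * x * p) * p = (p * p) * x * (p * p) := by noncomm_ring
    _ = _ := by rw [hE.idem]

theorem center_corner (hM : HasTrivialCenter M) {p : Elt M} (hE : Pj p) :
    HasTrivialCenter (cr hE) := by
  intro z hz hzc
  by_contra hcon
  push Not at hcon
  obtain ⟨P, hP1, hP2, hP3, hP4, hP5⟩ := CE.exists_proj
    ((cr hE : Set (rg (p : H →L[ℂ] H) →L[ℂ] rg (p : H →L[ℂ] H))) ∪
      Set.centralizer (cr hE : Set (rg (p : H →L[ℂ] H) →L[ℂ] rg (p : H →L[ℂ] H)))) (by
      rintro t (ht | ht)
      · exact Or.inl (star_mem ht)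
      · refine Or.inr fun m hm => ?_
        have h1 := congrArg star (ht (star m) (star_mem hm))
        rw [star_mul, star_mul, star_star] at h1
        exact h1.symm) z (by
      rintro t (ht | ht)
      · exact (hzc t ht).symm
      · exact (ht z hz).symm) hcon
  have hPN : P ∈ cr hE := by
    have h1 : P ∈ Set.centralizer (Set.centralizer
        (cr hE : Set (rg (p : H →L[ℂ] H) →L[ℂ] rg (p : H →L[ℂ] H)))) :=
      fun t ht => hP5 t (Or.inr ht)
    rw [VonNeumannAlgebra.centralizer_centralizer] at h1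
    exact h1
  let P' : Elt (cr hE) := ⟨P, hPN⟩
  have hPP : P' * P' = P' := Subtype.ext hP1
  have hPc : ∀ y : Elt (cr hE), y * P' = P' * y := fun y => Subtype.ext (hP5 y (Or.inl y.2))
  have hef : ∀ x : Elt M, jc hE P' * x * jc hE (1 - P') = 0 := by
    intro x
    obtain ⟨y, hy⟩ := jc_surj hE (p * x * p) (comp_idem hE x)
    calc jc hE P' * x * jc hE (1 - P')
        = (jc hE P' * p) * x * (p * jc hE (1 - P')) := by rw [jc_right, jc_left]
      _ = jc hE P' * (p * x * p) * jc hE (1 - P') := by noncomm_ring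
      _ = jc hE (P' * y * (1 - P')) := by rw [← hy, ← jc_mul, ← jc_mul]
      _ = 0 := by
        rw [← hPc, mul_sub, mul_one, mul_assoc, hPP, sub_self, jc_zero]
  rcases factor_corner M hM ((jc hE P' : Elt M) : H →L[ℂ] H)
    ((jc hE (1 - P') : Elt M) : H →L[ℂ] H) (jc hE P').2 (jc hE (1 - P')).2
    (fun x hx => congrArg Subtype.val (hef ⟨x, hx⟩)) with h | h
  · have h1 : jc hE P' = 0 := Subtype.ext h
    rw [← jc_zero hE] at h1
    exact hP3 (congrArg Subtype.val (jc_inj hE h1))
  · have h1 : jc hE (1 - P') = 0 := Subtype.ext h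
    rw [← jc_zero hE] at h1
    have h2 := jc_inj hE h1
    rw [sub_eq_zero] at h2
    exact hP4 (congrArg Subtype.val h2).symm

theorem infinite_corner (T : TracialState M) (hM : IsIIOneFactor M T.τ) {p : Elt M} (hE : Pj p)
    (hp0 : p ≠ 0) : ¬ FiniteDimensional ℂ (Elt (cr hE)) := by
  intro hfd
  have hd : IsDiffuse M := diffuse_of_factor T hM.center hM.infinite
  have hL := lyapProp T hd
  obtain ⟨D, hSD, hDc, hD⟩ := hL {p} (by
      rintro x rfl
      rw [hE.sa]
      rfl) (by
      rintro x rfl y rfl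
      rfl)
  obtain ⟨n, hn⟩ : ∃ n : ℕ, n = Module.finrank ℂ (Elt (cr hE)) + 1 := ⟨_, rfl⟩
  have hn0 : (n : ℂ) ≠ 0 := by
    rw [hn]
    exact Nat.cast_ne_zero.2 (Nat.succ_ne_zero (Module.finrank ℂ (Elt (cr hE))))
  obtain ⟨q, hqD, hq, hqτ⟩ := hD (Fin n) Unit (fun _ => (((n : ℝ)⁻¹ : ℝ) : ℂ) • (1 : Elt M))
    (fun _ => p) (fun _ => D.smul_mem D.one_mem _)
    (fun _ => pos_proj (star_one _) (mul_one 1) _ (by positivity)) (by
      rw [Finset.sum_const, Finset.card_univ, Fintype.card_fin, ← Nat.cast_smul_eq_nsmul ℂ,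
        smul_smul]
      push_cast
      rw [mul_inv_cancel₀ hn0, one_smul])
  have hcomm : ∀ i, q i * p = p * q i := fun i => hDc _ (hqD i) _ (hSD p rfl)
  have hτp : T.τ p ≠ 0 := by
    intro h0
    have := pos_tr T hE hp0
    rw [h0, Complex.zero_re] at this
    exact lt_irrefl _ this
  have hne : ∀ i, q i * p ≠ 0 := by
    intro i h0
    have h1 := hqτ i ()
    rw [h0, map_zero, smul_mul_assoc, one_mul, map_smul, smul_eq_mul] at h1
    push_cast at h1
    exact mul_ne_zero (inv_ne_zero hn0) hτp h1.symm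
  have hcomp : ∀ i, p * (q i * p) * p = q i * p := by
    intro i
    calc p * (q i * p) * p = (p * q i) * (p * p) := by noncomm_ring
      _ = q i * (p * p) := by rw [← hcomm, hE.idem, mul_assoc, hE.idem]
      _ = q i * p := by rw [hE.idem]
  choose R hR using fun i => jc_surj hE (q i * p) (hcomp i)
  have hlin : LinearIndependent ℂ R := by
    rw [Fintype.linearIndependent_iff]
    intro g hg i
    have h1 : ∑ j, g j • (q j * p) = 0 := by
      have h2 := congrArg (jc hE) hg
      rw [map_sum, jc_zero] at h2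
      rw [← h2]
      refine Finset.sum_congr rfl fun j _ => ?_
      rw [jc_smul, hR]
    have h3 : q i * ∑ j, g j • (q j * p) = g i • (q i * p) := by
      rw [Finset.mul_sum, Finset.sum_eq_single i]
      · rw [mul_smul_comm, ← mul_assoc, hq.idem]
      · intro j _ hj
        rw [mul_smul_comm, ← mul_assoc, hq.orth i j (Ne.symm hj), zero_mul, smul_zero]
      · intro hi
        exact absurd (Finset.mem_univ i) hi
    rw [h1, mul_zero] at h3
    exact (smul_eq_zero.1 h3.symm).resolve_right (hne i)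
  have h4 := hlin.fintype_card_le_finrank
  rw [Fintype.card_fin] at h4
  omega

end CORNaux

open CORNaux in
open Pool.Agent.H710R2 (Pj rg cr jc jc_inj jc_one jc_surj ctr ctr_normal ctr_faithful) in
/-- corners of a II₁ factor are II₁ factors -/
theorem corn_holds : StCORN := by
  intro H _ _ _ M T hM p hp hp0
  have hE : Pj p := ⟨hp.sa, hp.idem⟩
  have hpos := pos_tr T hE hp0
  have hn : IsNormalPositive M (fun x => T.τ x) := T.normal
  have hτp : T.τ p ≠ 0 := by
    intro h0
    rw [h0, Complex.zero_re] at hpos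
    exact lt_irrefl _ hpos
  refine ⟨rg (p : H →L[ℂ] H), inferInstance, inferInstance, inferInstance, cr hE,
    mkState (cr hE) (ctr hE T.τ) (ctr_normal hE hn (trAlg T) hpos)
      (ctr_faithful hE (trAlg T) hpos), jc hE,
    ⟨jc_inj hE, jc_one hE, jc_surj hE, ?_⟩,
    ⟨center_corner hM.center hE, infinite_corner T hM hE hp0,
      ctr_faithful hE (trAlg T) hpos, ctr_normal hE hn (trAlg T) hpos⟩⟩
  intro y
  show T.τ (jc hE y) = T.τ p * (T.τ (jc hE y) / T.τ p)
  rw [mul_div_cancel₀ _ hτp]

end Pool.Agent.H811R4.SD
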