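import Pool.Agent.H811R4.SD.Stubs
import Pool.Agent.Helper278.GroupMain

/-! Task CORNS: from the corner to the factor. -/

set_option autoImplicit false

open scoped InnerProductSpace BoundedContinuousFunction
open Filter

namespace Pool.Agent.H811R4.SD

open Pool.Agent.Helper278

theorem corns_holds : StCORNS := by
  intro H _ _ _ M T hM p H' _ _ _ N T' ι hp hι S hS hD
  have hd := diffuse_of_factor T hM.center hM.infinite
  have hpp : p * p = p := hp.idem
  have hps : star p = p := hp.sa
  have hpι : ∀ y, p * ι y = ι y := by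
    intro y
    rw [← hι.one, ← map_mul, one_mul]
  have hιp : ∀ y, ι y * p = ι y := by
    intro y
    rw [← hι.one, ← map_mul, mul_one]
  have hq1 : (1 - p) * p = 0 := by rw [sub_mul, one_mul, hpp, sub_self]
  have hq2 : p * (1 - p) = 0 := by rw [mul_sub, mul_one, hpp, sub_self]
  have hqq : (1 - p) * (1 - p) = 1 - p := by rw [mul_sub, mul_one, hq1, sub_zero]
  have hqι : ∀ y, (1 - p) * ι y = 0 := by
    intro y
    rw [← hpι y, ← mul_assoc, hq1, zero_mul]
  have hιq : ∀ y, ι y * (1 - p) = 0 := by
    intro y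
    rw [← hιp y, mul_assoc, hq2, mul_zero]
  set S' : Set (Elt M) := ι '' S ∪ {z | ∃ y : Elt M, z = (1 - p) * y * (1 - p)} with hS'
  have hRC : ∀ c ∈ RC S, ι c ∈ RC S' := by
    intro c hc a ha
    rcases ha with ⟨s, hs, rfl⟩ | ⟨y, rfl⟩
    · rw [← map_mul, ← map_mul, hc s hs]
    · rw [mul_assoc, hqι, mul_zero, ← mul_assoc, ← mul_assoc, hιq, zero_mul, zero_mul]
  have hsub : ∀ s ∈ S', s ∈ RC (RC S') := by
    intro s hs a ha
    exact (ha s hs).symm
  have h1p : (1 - p) ∈ S' := Or.inr ⟨1, by rw [mul_one, hqq]⟩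
  have hcomm : ∀ a ∈ RC S', p * a = a * p := by
    intro a ha
    have h1 := ha _ h1p
    rw [sub_mul, mul_sub, one_mul, mul_one] at h1
    exact sub_right_injective h1
  have hpRR : p ∈ RC (RC S') := fun a ha => (hcomm a ha).symm
  have hpR : p ∈ RC S' := by
    intro a ha
    rcases ha with ⟨s, hs, rfl⟩ | ⟨y, rfl⟩
    · rw [hιp, hpι]
    · rw [mul_assoc, hq1, mul_zero, ← mul_assoc, ← mul_assoc, hq2, zero_mul, zero_mul]
  refine ⟨S', ?_, ?_, hRC⟩
  · intro a ha
    rcases ha with ⟨s, hs, rfl⟩ | ⟨y, rfl⟩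
    · exact Or.inl ⟨star s, hS s hs, map_star ι s⟩
    · refine Or.inr ⟨star y, ?_⟩
      rw [star_mul, star_mul, star_sub, star_one, hps, mul_assoc]
  · intro r hr hrr hrs hr0
    have hrp : p * r = r * p := hr p hpR
    by_cases hA : r * p = 0
    · -- `r ≤ 1 - p`
      have h1 : r * (1 - p) = r := by rw [mul_sub, mul_one, hA, sub_zero]
      have h2 : (1 - p) * r = r := by rw [sub_mul, one_mul, hrp, hA, sub_zero]
      obtain ⟨y, hy, hyc⟩ := hd r.1 r.2 (congrArg Subtype.val hrr) (congrArg Subtype.val hrs)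
        (fun h => hr0 (Subtype.ext h))
      refine ⟨(1 - p) * ⟨y, hy⟩ * (1 - p), hsub _ (Or.inr ⟨_, rfl⟩), fun c hc => ?_⟩
      apply hyc c
      have h3 : r * ((1 - p) * ⟨y, hy⟩ * (1 - p)) * r = r * ⟨y, hy⟩ * r := by
        calc r * ((1 - p) * ⟨y, hy⟩ * (1 - p)) * r
            = (r * (1 - p)) * ⟨y, hy⟩ * ((1 - p) * r) := by noncomm_ring
          _ = _ := by rw [h1, h2]
      rw [h3] at hc
      exact congrArg Subtype.val hc
    · by_cases hB : r * (1 - p) = 0
      · -- `r ≤ p`
        have h1 : r * p = r := by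
          rw [mul_sub, mul_one, sub_eq_zero] at hB
          exact hB.symm
        have h2 : p * r = r := hrp.trans h1
        obtain ⟨r0, hr0e⟩ := hι.surj r (by rw [h2, h1])
        have hr00 : r0 * r0 = r0 := hι.inj (by rw [map_mul, hr0e, hrr])
        have hr0s : star r0 = r0 := hι.inj (by rw [map_star, hr0e, hrs])
        have hr0n : r0 ≠ 0 := by
          rintro rfl
          rw [map_zero] at hr0e
          exact hr0 hr0e.symm
        have hr0R : r0 ∈ RC (RC S) := by
          intro x0 hx0
          apply hι.inj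
          rw [map_mul, map_mul, hr0e]
          exact hr _ (hRC x0 hx0)
        obtain ⟨x0, hx0, hx0c⟩ := hD r0 hr0R hr00 hr0s hr0n
        refine ⟨ι x0, ?_, fun c hc => ?_⟩
        · intro z hz
          have hzp : p * z = z * p := hcomm z hz
          have hpzp : p * z * p = z * p := by rw [hzp, mul_assoc, hpp]
          obtain ⟨z0, hz0⟩ := hι.surj (p * z * p) (by
            calc p * (p * z * p) * p = (p * p) * z * (p * p) := by noncomm_ring
              _ = p * z * p := by rw [hpp])
          have hz0R : z0 ∈ RC S := by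
            intro s hs
            apply hι.inj
            rw [map_mul, map_mul, hz0, hpzp]
            have h3 : ι s * z = z * ι s := hz _ (Or.inl ⟨s, hs, rfl⟩)
            rw [← mul_assoc, h3, mul_assoc, mul_assoc, hιp, hpι]
          have h4 := hx0 z0 hz0R
          have h5 : ι (z0 * x0) = z * ι x0 := by
            rw [map_mul, hz0, hpzp, mul_assoc, hpι]
          have h6 : ι (x0 * z0) = ι x0 * z := by
            rw [map_mul, hz0, mul_assoc p z p, ← mul_assoc, hιp, ← hzp, ← mul_assoc, hιp]
          rw [← h5, ← h6, h4]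
        · apply hx0c c
          apply hι.inj
          rw [map_mul, map_mul, hr0e, map_smul, hr0e]
          exact hc
      · refine ⟨p, hpRR, fun c hc => ?_⟩
        have h1 : r * p * r = r * p := by rw [mul_assoc, hrp, ← mul_assoc, hrr]
        rw [h1] at hc
        have h2 : c • (r * (1 - p)) = 0 := by
          rw [← smul_mul_assoc, ← hc, mul_assoc, hq2, mul_zero]
        rcases smul_eq_zero.1 h2 with h | h
        · apply hA
          rw [hc, h, zero_smul]
        · exact hB h

end Pool.Agent.H811R4.SD
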