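import Pool.Agent.H811R4.SD.Stubs

/-!
# Compactness of the set of functionals
-/

set_option autoImplicit false

open scoped InnerProductSpace BoundedContinuousFunction Topology
open Filter

namespace Pool.Agent.H811R4.SD

open Pool.Agent.Helper278

theorem cpt_holds (hFB : StFB) : StCPT := by
  intro H _ _ _ M T K _ _ _ j lam hS D hD
  classical
  have hch : ∀ i : Finset D × ℕ, ∃ ψ, Fun T lam 1 ψ ∧
      ACen lam ((fun a : D => (a : Elt M)) '' (i.1 : Set D)) (1 / ((i.2 : ℝ) + 1)) ψ := by
    intro i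
    refine hD _ (i.1.finite_toSet.image _) ?_ _ (by positivity)
    rintro _ ⟨a, -, rfl⟩
    exact a.2
  choose ψ hψ hA using hch
  let W : Ultrafilter (Finset D × ℕ) := Ultrafilter.of atTop
  have hW : (W : Filter (Finset D × ℕ)) ≤ atTop := Ultrafilter.of_le _
  have hP : Proj (1 : Elt M) := ⟨star_one _, one_mul _⟩
  have hb : ∀ i (X : K →L[ℂ] K), ‖ψ i X‖ ≤ ‖X‖ := by
    intro i X
    have h := (hFB T hS 1 (ψ i) hP (hψ i)).1 X
    rwa [T.map_one, Complex.one_re, one_mul] at h
  have hlim : ∀ X : K →L[ℂ] K, ∃ z, Tendsto (fun i => ψ i X) (W : Filter (Finset D × ℕ)) (𝓝 z) := by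
    intro X
    have hc : IsCompact (Metric.closedBall (0 : ℂ) ‖X‖) := isCompact_closedBall _ _
    obtain ⟨z, -, hz⟩ := hc.ultrafilter_le_nhds (W.map fun i => ψ i X) (by
      rw [Ultrafilter.coe_map]
      exact tendsto_principal.2 (Eventually.of_forall fun i =>
        mem_closedBall_zero_iff.2 (hb i X)))
    exact ⟨z, hz⟩
  choose L hL using hlim
  let φ : (K →L[ℂ] K) →ₗ[ℂ] ℂ :=
    { toFun := L
      map_add' := by
        intro X Y
        refine tendsto_nhds_unique (hL (X + Y)) ?_
        have h := (hL X).add (hL Y)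
        refine h.congr fun i => ?_
        rw [map_add]
      map_smul' := by
        intro c X
        refine tendsto_nhds_unique (hL (c • X)) ?_
        have h := (hL X).const_mul c
        refine h.congr fun i => ?_
        rw [map_smul, smul_eq_mul] }
  have hφ : ∀ X, φ X = L X := fun _ => rfl
  refine ⟨φ, ⟨?_, ?_⟩, ?_⟩
  · intro X
    rw [hφ]
    constructor
    · have h1 : Tendsto (fun i => (ψ i (star X * X)).re) (W : Filter (Finset D × ℕ))
          (𝓝 (L (star X * X)).re) := (Complex.continuous_re.tendsto _).comp (hL _)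
      exact ge_of_tendsto h1 (Eventually.of_forall fun i => ((hψ i).pos X).1)
    · have h1 : Tendsto (fun i => (ψ i (star X * X)).im) (W : Filter (Finset D × ℕ))
          (𝓝 (L (star X * X)).im) := (Complex.continuous_im.tendsto _).comp (hL _)
      refine tendsto_nhds_unique h1 ?_
      refine tendsto_const_nhds.congr fun i => ?_
      exact ((hψ i).pos X).2.symm
  · intro x
    rw [hφ]
    refine tendsto_nhds_unique (hL (lam x)) ?_
    refine tendsto_const_nhds.congr fun i => ?_
    exact ((hψ i).tr x).symm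
  · intro a ha X
    rw [zero_mul, hφ, hφ]
    have h1 : Tendsto (fun i => ‖ψ i (lam a * X) - ψ i (X * lam a)‖)
        (W : Filter (Finset D × ℕ)) (𝓝 ‖L (lam a * X) - L (X * lam a)‖) :=
      ((hL _).sub (hL _)).norm
    have h2 : Tendsto (fun i : Finset D × ℕ => 1 / ((i.2 : ℝ) + 1) * ‖X‖)
        (W : Filter (Finset D × ℕ)) (𝓝 (0 * ‖X‖)) := by
      refine Tendsto.mul_const _ ?_
      have h3 : Tendsto (fun i : Finset D × ℕ => i.2) (W : Filter (Finset D × ℕ)) atTop := by
        refine Tendsto.mono_left ?_ hW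
        rw [← prod_atTop_atTop_eq]
        exact tendsto_snd
      exact tendsto_one_div_add_atTop_nhds_zero_nat.comp h3
    rw [zero_mul] at h2
    refine le_of_tendsto_of_tendsto h1 h2 ?_
    have h4 : ∀ᶠ i : Finset D × ℕ in (W : Filter (Finset D × ℕ)), (({⟨a, ha⟩} : Finset D), 0) ≤ i :=
      hW (eventually_ge_atTop _)
    filter_upwards [h4] with i hi
    refine hA i a ?_ X
    exact ⟨⟨a, ha⟩, Finset.mem_coe.2 (hi.1 (Finset.mem_singleton_self _)), rfl⟩

end Pool.Agent.H811R4.SD
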