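import Pool.Agent.H811R4.SD.Stubs

/-! Task DIF of h811c_tasks (helper48): partitions of unity with small traces in the relative
commutant imply that the relative commutant is diffuse. -/

set_option autoImplicit false

open scoped InnerProductSpace BoundedContinuousFunction
open Filter

namespace Pool.Agent.H811R4.SD

open Pool.Agent.Helper278

theorem dif_alg {A : Type*} [Ring A] [StarRing A] [Algebra ℂ A] [StarModule ℂ A] {τ : A →ₗ[ℂ] ℂ}
    (h : TrAlg τ) (r q : A) (γ : ℂ) (hr : r * r = r) (hrs : star r = r) (hr0 : r ≠ 0)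
    (hq : q * q = q) (hqs : star q = q) (hγ : r * q * r = γ • r) (hγ0 : γ ≠ 0) :
    (τ r).re ≤ (τ q).re := by
  have htr : (τ r).im = 0 := by
    have := h.im_zero r
    rwa [hrs, hr] at this
  have htr1 : 0 ≤ (τ r).re := by
    have := h.re_nonneg r
    rwa [hrs, hr] at this
  have htr0 : (τ r).re ≠ 0 := by
    intro h0
    have h1 : τ (star r * r) = 0 := by
      rw [hrs, hr]
      exact Complex.ext h0 htr
    exact hr0 (h.faithful r h1)
  have htreal : τ r = ((τ r).re : ℂ) := Complex.ext rfl htr
  -- γ is real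
  have h1 : star (q * r) * (q * r) = r * q * r := by
    rw [star_mul, hqs, hrs, mul_assoc r q (q * r), ← mul_assoc q q r, hq, mul_assoc]
  have h2 : (τ (r * q * r)).im = 0 := by
    have := h.im_zero (q * r)
    rwa [h1] at this
  have h3 : γ.im = 0 := by
    rw [hγ, map_smul, smul_eq_mul, htreal, Complex.im_mul_ofReal] at h2
    rcases mul_eq_zero.1 h2 with h4 | h4
    · exact h4
    · exact absurd h4 htr0
  have hγc : star γ = γ := by
    apply Complex.ext
    · simp
    · simp [h3]
  have hγc' : star γ⁻¹ = γ⁻¹ := by rw [star_inv₀, hγc]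
  set g : A := γ⁻¹ • (q * r * q) with hg
  have hgs : star g = g := by
    rw [hg, star_smul, hγc', star_mul, star_mul, hqs, hrs, mul_assoc]
  have hqrq : (q * r * q) * (q * r * q) = γ • (q * r * q) := by
    calc (q * r * q) * (q * r * q) = q * (r * (q * q) * r) * q := by simp only [mul_assoc]
      _ = q * (r * q * r) * q := by rw [hq]
      _ = γ • (q * r * q) := by rw [hγ, mul_smul_comm, smul_mul_assoc]
  have hgg : g * g = g := by
    rw [hg, smul_mul_smul_comm, hqrq, smul_smul]
    congr 1
    field_simp
  have hqg : q * g = g := by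
    rw [hg, mul_smul_comm, ← mul_assoc, ← mul_assoc, hq]
  have hgq : g * q = g := by
    rw [hg, smul_mul_assoc, mul_assoc (q * r) q q, hq]
  have hτg : τ g = τ r := by
    have h4 : τ (q * r * q) = γ * τ r := by
      calc τ (q * r * q) = τ (q * (q * r)) := h.comm _ _
        _ = τ (q * r) := by rw [← mul_assoc, hq]
        _ = τ (q * (r * r)) := by rw [hr]
        _ = τ (r * (q * r)) := by rw [← mul_assoc, h.comm]
        _ = γ * τ r := by rw [← mul_assoc, hγ, map_smul, smul_eq_mul]
    rw [hg, map_smul, smul_eq_mul, h4]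
    field_simp
  have h5 : star (q - g) * (q - g) = q - g := by
    rw [star_sub, hqs, hgs, sub_mul, mul_sub, mul_sub, hq, hqg, hgq, hgg]
    abel
  have h6 := h.re_nonneg (q - g)
  rw [h5, map_sub, hτg, Complex.sub_re] at h6
  linarith

theorem dif_holds : StDIF := by
  intro H _ _ _ M T S hS r hrS hr hrs hr0
  by_contra hcon
  push Not at hcon
  have h := trAlg T
  have htr : (T.τ r).im = 0 := by
    have := h.im_zero r
    rwa [hrs, hr] at this
  have htr1 : 0 ≤ (T.τ r).re := by
    have := h.re_nonneg r
    rwa [hrs, hr] at this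
  have htr0 : (T.τ r).re ≠ 0 := by
    intro h0
    have h1 : T.τ (star r * r) = 0 := by
      rw [hrs, hr]
      exact Complex.ext h0 htr
    exact hr0 (T.faithful r h1)
  have htpos : 0 < (T.τ r).re := lt_of_le_of_ne htr1 (Ne.symm htr0)
  obtain ⟨k, q, hq, hsum⟩ := hS ((T.τ r).re / 2) (by linarith)
  have hc : ∀ i, ∃ c : ℂ, r * q i * r = c • r := fun i => hcon (q i) (hq i).2.1
  choose c hc using hc
  have hex : ∃ i, c i ≠ 0 := by
    by_contra hno
    push Not at hno
    apply hr0
    calc r = r * (∑ i, q i) * r := by rw [hsum, mul_one, hr]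
      _ = ∑ i, r * q i * r := by rw [Finset.mul_sum, Finset.sum_mul]
      _ = 0 := by
        apply Finset.sum_eq_zero
        intro i _
        rw [hc i, hno i, zero_smul]
  obtain ⟨i, hi⟩ := hex
  have h1 := dif_alg h r (q i) (c i) hr hrs hr0 (hq i).1.idem (hq i).1.sa (hc i) hi
  have h2 := (hq i).2.2
  linarith

end Pool.Agent.H811R4.SD
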