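import Mathlib
import Pool.Agent.H811R4.SD.Stubs

/-!
# Task DPVM: partitions with equal traces in diffuse relative commutants
-/

set_option autoImplicit false

open scoped InnerProductSpace BoundedContinuousFunction Topology
open Filter

namespace Pool.Agent.H811R4.SD

open Pool.Agent.Helper278

theorem dpvm_holds (hRCV : StRCV) (hRES : StRES) : StDPVM := by
  intro H _ _ _ M T S hS hdiff p hp hproj m
  obtain ⟨A, hA⟩ := hRCV S hS
  have hAM : ∀ x ∈ A, x ∈ M := fun x hx => ((hA x).1 hx).1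
  obtain ⟨TA, hTA⟩ := hRES T hAM
  have hRC : ∀ a : Elt A, inc hAM a ∈ RC S := by
    intro a
    obtain ⟨h1, h2⟩ := (hA a.1).1 a.2
    exact h2
  have hdiffA : IsDiffuse A := by
    intro r hr h1 h2 h3
    obtain ⟨hrM, hrS⟩ := (hA r).1 hr
    obtain ⟨x, hx, hxc⟩ := hdiff ⟨r, hrM⟩ hrS (Subtype.ext h1) (Subtype.ext h2)
      (fun h => h3 (congrArg Subtype.val h))
    exact ⟨x.1, (hA x.1).2 ⟨x.2, hx⟩, fun c hc => hxc c (Subtype.ext hc)⟩
  have hL := lyapProp TA hdiffA
  let p' : Elt A := ⟨p.1, (hA p.1).2 ⟨p.2, hp⟩⟩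
  have hp'inc : inc hAM p' = p := rfl
  have hs0 : star (p : H →L[ℂ] H) = p := congrArg Subtype.val hproj.sa
  have hi0 : (p : H →L[ℂ] H) * p = p := congrArg Subtype.val hproj.idem
  have hp's : star p' = p' := Subtype.ext hs0
  have hp'i : p' * p' = p' := Subtype.ext hi0
  obtain ⟨D, hD1, hD2, hD3⟩ := hL {p'} (by
    rintro x hx
    rw [Set.mem_singleton_iff] at hx ⊢
    rw [hx, hp's]) (by
    rintro x hx y hy
    rw [Set.mem_singleton_iff] at hx hy
    rw [hx, hy])
  have hpos : (0 : ℝ) ≤ 1 / 2 ^ m := by positivity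
  obtain ⟨P, hPD, hP, hPt⟩ := hD3 (Fin (2 ^ m)) Unit
    (fun _ => (((1 / 2 ^ m : ℝ) : ℝ) : ℂ) • (1 : Elt A)) (fun _ => p')
    (fun _ => D.smul_mem D.one_mem _)
    (fun _ => pos_proj (star_one _) (mul_one _) _ hpos) (by
      rw [Finset.sum_const, Finset.card_univ, Fintype.card_fin, ← Nat.cast_smul_eq_nsmul ℂ,
        smul_smul]
      have : (((2 ^ m : ℕ) : ℂ)) * ((1 / 2 ^ m : ℝ) : ℂ) = 1 := by
        push_cast
        field_simp
      rw [this, one_smul])
  have hcom : ∀ i, P i * p' = p' * P i := fun i => hD2 _ (hPD i) _ (hD1 p' rfl)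
  refine ⟨fun i => inc hAM (P i * p'), fun i => ⟨⟨?_, ?_⟩, hRC _, ?_⟩, ?_, ?_⟩
  · have : star (P i * p') = P i * p' := by
      rw [star_mul, hp's, hP.star_eq, hcom]
    exact congrArg (inc hAM) this
  · have : P i * p' * (P i * p') = P i * p' := by
      calc P i * p' * (P i * p') = P i * (p' * P i) * p' := by noncomm_ring
        _ = P i * (P i * p') * p' := by rw [hcom]
        _ = (P i * P i) * (p' * p') := by noncomm_ring
        _ = _ := by rw [hP.idem, hp'i]
    exact congrArg (inc hAM) this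
  · have h1 := hPt i ()
    rw [smul_mul_assoc, one_mul, map_smul, hTA, hTA, hp'inc] at h1
    rw [h1, smul_eq_mul]
    push_cast
    ring
  · intro i k hik
    have : P i * p' * (P k * p') = 0 := by
      calc P i * p' * (P k * p') = P i * (p' * P k) * p' := by noncomm_ring
        _ = P i * (P k * p') * p' := by rw [hcom]
        _ = (P i * P k) * (p' * p') := by noncomm_ring
        _ = _ := by rw [hP.orth i k hik, zero_mul]
    have h2 := congrArg (inc hAM) this
    exact h2
  · have h1 : ∑ i, P i * p' = p' := by rw [← Finset.sum_mul, hP.sum, one_mul]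
    apply Subtype.ext
    have h2 := congrArg Subtype.val h1
    rw [AddSubmonoidClass.coe_finsetSum] at h2 ⊢
    exact h2

end Pool.Agent.H811R4.SD
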