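import Pool.Agent.H811R4.SD.Stubs

set_option autoImplicit false

open scoped InnerProductSpace BoundedContinuousFunction
open Filter

namespace Pool.Agent.H811R4.SD

open Pool.Agent.Helper278

theorem e0m_holds (h1 : StE0Q) (h2 : StLIFT) : StE0M := by
  intro H _ _ _ M T hII U Q _ _ _ _ π σ hπ hU D F hD hF hFD hfin hdiff p hp hpp m δ hδ
  obtain ⟨q, hq1, hq2, hq3⟩ := h1 T hII hπ hU D F hD hF hFD hdiff p hp hpp m
  obtain ⟨f, hf1, hf2⟩ := h2 T hII hπ hU p hpp m q (fun i => ⟨(hq1 i).1, (hq1 i).2.2⟩) hq2 hq3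
  have key : ∀ i, ∀ a ∈ F, ∀ᶠ n in (U : Filter ℕ), n2 T.τ (f i n * a - a * f i n) ≤ δ := by
    intro i a ha
    set z : ℕ →ᵇ Elt M := f i * BoundedContinuousFunction.const ℕ a -
      BoundedContinuousFunction.const ℕ a * f i with hz
    have hz0 : π z = 0 := by
      rw [hz, map_sub, map_mul, map_mul, hf1, (hq1 i).2.1 a ha, sub_self]
    have h3 := (hπ.ker z).1 hz0
    have h4 : Tendsto (fun n => Real.sqrt (T.τ (star (z n) * z n)).re) U (nhds 0) := by
      have h5 := (Complex.continuous_re.tendsto 0).comp h3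
      have h6 := (Real.continuous_sqrt.tendsto _).comp h5
      simpa [Function.comp_def] using h6
    have h7 := h4.eventually (Iic_mem_nhds hδ)
    filter_upwards [h7] with n hn
    exact hn
  have hall : ∀ᶠ n in (U : Filter ℕ), ∀ i, ∀ a ∈ F, n2 T.τ (f i n * a - a * f i n) ≤ δ := by
    rw [Filter.eventually_all]
    intro i
    rw [Filter.eventually_all_finite hfin]
    intro a ha
    exact key i a ha
  obtain ⟨n, hn⟩ := hall.exists
  obtain ⟨h8, h9, h10⟩ := hf2 n
  exact ⟨fun i => f i n, h8, h9, h10, hn⟩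

end Pool.Agent.H811R4.SD
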