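import Pool.Agent.H811R4.SD.Stubs

/-! StE0Q: partitions in the ultrapower (helper493) -/

set_option autoImplicit false

open scoped InnerProductSpace BoundedContinuousFunction Topology
open Filter

namespace Pool.Agent.H811R4.SD

open Pool.Agent.Helper278

theorem e0q_holds (hQMOD : StQMOD) (hDPVM : StDPVM) (hDIF : StDIF) : StE0Q := by
  intro H _ _ _ M T hM U Q _ _ _ _ π σ hπ hU D F hD hF hFD hdiff p hp hpp m
  obtain ⟨K, _, _, _, N, e, T', hN, hT'⟩ := hQMOD T hM hπ hU
  have einj : Function.Injective (fun q : Q => e q) := EquivLike.injective e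
  have esurj : Function.Surjective (fun q : Q => e q) := EquivLike.surjective e
  have einj' : ∀ {x y : Q}, e x = e y → x = y := fun h => einj h
  let ca : Elt M → Elt N := fun a => e (π (BoundedContinuousFunction.const ℕ a))
  have hcas : ∀ a, star (ca a) = ca (star a) := by
    intro a
    show star (e (π (BoundedContinuousFunction.const ℕ a))) = _
    rw [← map_star, ← map_star]
    rfl
  have hcam : ∀ a b, ca a * ca b = ca (a * b) := by
    intro a b
    show e (π (BoundedContinuousFunction.const ℕ a)) * e (π (BoundedContinuousFunction.const ℕ b)) = _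
    rw [← map_mul, ← map_mul]
    rfl
  have hsc : ∀ S : Set (Elt M), StarClosed S → StarClosed (ca '' S) := by
    rintro S hS _ ⟨a, ha, rfl⟩
    exact ⟨star a, hS a ha, (hcas a).symm⟩
  have hmem : ∀ (S : Set (Elt M)) (q : Q), q ∈ NQ π S ↔ e q ∈ RC (ca '' S) := by
    intro S q
    constructor
    · rintro hq _ ⟨a, ha, rfl⟩
      show e _ * e q = e q * e _
      rw [← map_mul, ← map_mul, hq a ha]
    · intro hq a ha
      have h1 := hq (ca a) ⟨a, ha, rfl⟩
      have h2 : e (π (BoundedContinuousFunction.const ℕ a) * q) =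
          e (q * π (BoundedContinuousFunction.const ℕ a)) := by
        rw [map_mul, map_mul]
        exact h1
      exact einj' h2
  -- diffuseness for D
  have hdD : DiffuseIn (RC (ca '' D)) := by
    intro r hr hrr hrs hr0
    obtain ⟨r', hr'⟩ := esurj r
    simp only at hr'
    subst hr'
    have h1 : r' * r' = r' := einj' (by rw [map_mul]; exact hrr)
    have h2 : star r' = r' := einj' (by rw [map_star]; exact hrs)
    have h3 : r' ≠ 0 := by
      rintro rfl
      exact hr0 (map_zero e)
    obtain ⟨x, hx, hxc⟩ := hdiff r' ((hmem D r').2 hr) h1 h2 h3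
    refine ⟨e x, (hmem D x).1 hx, fun c hc => hxc c ?_⟩
    apply einj'
    rw [map_mul, map_mul, hc, map_smul]
  -- diffuseness for F
  have h1D : (1 : Elt N) ∈ RC (ca '' D) := by
    intro a _
    rw [mul_one, one_mul]
  have h1P : Proj (1 : Elt N) := ⟨star_one _, mul_one _⟩
  have hsub : ∀ x ∈ RC (ca '' D), x ∈ RC (ca '' F) := by
    intro x hx a ha
    exact hx a (Set.image_mono hFD ha)
  have hdF : DiffuseIn (RC (ca '' F)) := by
    apply hDIF T'
    intro η hη
    obtain ⟨k, hk⟩ := exists_pow_lt_of_lt_one hη (by norm_num : (1 / 2 : ℝ) < 1)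
    obtain ⟨q, hq1, _, hq3⟩ := hDPVM T' (ca '' D) (hsc D hD) hdD 1 h1D h1P k
    refine ⟨2 ^ k, q, fun i => ⟨(hq1 i).1, hsub _ (hq1 i).2.1, ?_⟩, hq3⟩
    rw [(hq1 i).2.2, T'.map_one]
    have h4 : ((1 : ℂ) / 2 ^ k) = (((1 / 2 : ℝ) ^ k : ℝ) : ℂ) := by
      push_cast
      rw [div_pow, one_pow]
    rw [h4, Complex.ofReal_re]
    exact hk.le
  -- the partition
  have hpF : ca p ∈ RC (ca '' F) := by
    rintro _ ⟨a, ha, rfl⟩
    rw [hcam, hcam, hp a ha]
  have hpP : Proj (ca p) := ⟨by rw [hcas, hpp.sa], by rw [hcam, hpp.idem]⟩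
  obtain ⟨q, hq1, hq2, hq3⟩ := hDPVM T' (ca '' F) (hsc F hF) hdF (ca p) hpF hpP m
  have htr : T'.τ (ca p) = T.τ p := by
    show T'.τ (e _) = _
    rw [hT']
    have h1 := hπ.trace (BoundedContinuousFunction.const ℕ p)
    have h2 : (fun n => T.τ (BoundedContinuousFunction.const ℕ p n)) = fun _ => T.τ p := rfl
    rw [h2] at h1
    exact tendsto_nhds_unique h1 tendsto_const_nhds
  have hqs : ∀ i, e (e.symm (q i)) = q i := fun i => e.apply_symm_apply (q i)
  refine ⟨fun i => e.symm (q i), fun i => ⟨⟨?_, ?_⟩, ?_, ?_⟩, fun i k hik => ?_, ?_⟩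
  · apply einj'
    show _ = _
    simp only
    rw [map_star, hqs]
    exact (hq1 i).1.sa
  · apply einj'
    show _ = _
    simp only
    rw [map_mul, hqs]
    exact (hq1 i).1.idem
  · rw [hmem, hqs]
    exact (hq1 i).2.1
  · rw [← hT', hqs, (hq1 i).2.2, htr]
  · apply einj'
    show _ = _
    simp only
    rw [map_mul, hqs, hqs, hq2 i k hik, map_zero]
  · apply einj'
    show _ = _
    simp only
    rw [map_sum]
    simp only [hqs]
    exact hq3

end Pool.Agent.H811R4.SD
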