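import Mathlib
import Pool.Agent.H811R4.SD.Stubs

/-!
# Exhaustion
-/

set_option autoImplicit false

open scoped InnerProductSpace BoundedContinuousFunction Topology
open Filter

namespace Pool.Agent.H811R4.SD.EXH

open Pool.Agent.Helper278

section

variable {H : Type} [NormedAddCommGroup H] [InnerProductSpace ℂ H] [CompleteSpace H]
variable {M : VonNeumannAlgebra H}
variable {K : Type} [NormedAddCommGroup K] [InnerProductSpace ℂ K] [CompleteSpace K]

/-- good projections -/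
def Good (T : TracialState M) (lam : Elt M →⋆ₐ[ℂ] (K →L[ℂ] K)) (F : Set (Elt M)) (g : Elt M) :
    Prop :=
  g ∈ RC F ∧ Proj g ∧ ∀ ε : ℝ, 0 < ε → ∃ ψ, Fun T lam g ψ ∧ ACen lam F ε ψ

theorem good_zero (T : TracialState M) (lam : Elt M →⋆ₐ[ℂ] (K →L[ℂ] K)) (F : Set (Elt M)) :
    Good T lam F 0 := by
  refine ⟨fun a _ => by simp, ⟨star_zero _, by simp⟩, fun ε hε => ⟨0, ⟨fun X => by simp, fun x => by simp⟩, ?_⟩⟩
  intro a _ X
  simp
  positivity

theorem good_add {T : TracialState M} {lam : Elt M →⋆ₐ[ℂ] (K →L[ℂ] K)} {F : Set (Elt M)}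
    {g g' : Elt M} (hg : Good T lam F g) (hg' : Good T lam F g') (h0 : g * g' = 0) :
    Good T lam F (g + g') := by
  obtain ⟨h1, h2, h3⟩ := hg
  obtain ⟨h1', h2', h3'⟩ := hg'
  have h0' : g' * g = 0 := by
    have := congrArg star h0
    rwa [star_mul, h2.sa, h2'.sa, star_zero] at this
  refine ⟨fun a ha => ?_, ⟨?_, ?_⟩, fun ε hε => ?_⟩
  · rw [mul_add, add_mul, h1 a ha, h1' a ha]
  · rw [star_add, h2.sa, h2'.sa]
  · rw [mul_add, add_mul, add_mul, h2.idem, h2'.idem, h0, h0']; simp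
  · obtain ⟨ψ, hψ, hc⟩ := h3 (ε / 2) (by positivity)
    obtain ⟨ψ', hψ', hc'⟩ := h3' (ε / 2) (by positivity)
    refine ⟨ψ + ψ', ⟨fun X => ?_, fun x => ?_⟩, ?_⟩
    · have e1 := hψ.pos X
      have e2 := hψ'.pos X
      simp only [LinearMap.add_apply, Complex.add_re, Complex.add_im]
      exact ⟨add_nonneg e1.1 e2.1, by rw [e1.2, e2.2, add_zero]⟩
    · rw [LinearMap.add_apply, hψ.tr, hψ'.tr]
      have e : (g + g') * x * (g + g') = g * x * g + g' * x * g' + (g * x * g' + g' * x * g) := by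
        noncomm_ring
      rw [e, map_add, map_add, map_add]
      have e1 : T.τ (g * x * g') = 0 := by
        rw [T.tracial, ← mul_assoc, h0', zero_mul, map_zero]
      have e2 : T.τ (g' * x * g) = 0 := by
        rw [T.tracial, ← mul_assoc, h0, zero_mul, map_zero]
      rw [e1, e2]; simp
    · intro a ha X
      have e1 := hc a ha X
      have e2 := hc' a ha X
      simp only [LinearMap.add_apply]
      calc ‖ψ (lam a * X) + ψ' (lam a * X) - (ψ (X * lam a) + ψ' (X * lam a))‖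
          = ‖(ψ (lam a * X) - ψ (X * lam a)) + (ψ' (lam a * X) - ψ' (X * lam a))‖ := by
            congr 1; ring
        _ ≤ _ := norm_add_le _ _
        _ ≤ ε / 2 * ‖X‖ + ε / 2 * ‖X‖ := add_le_add e1 e2
        _ = ε * ‖X‖ := by ring

theorem proj_n2 (T : TracialState M) {g : Elt M} (hg : Proj g) : n2 T.τ g ^ 2 = (T.τ g).re := by
  rw [(trAlg T).n2_sq, hg.sa, hg.idem]

theorem proj_compl {g : Elt M} (hg : Proj g) : Proj (1 - g) := by
  refine ⟨by rw [star_sub, star_one, hg.sa], ?_⟩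
  have : (1 - g) * (1 - g) = 1 - g - g + g * g := by noncomm_ring
  rw [this, hg.idem]; abel

theorem proj_le_one (T : TracialState M) {g : Elt M} (hg : Proj g) : (T.τ g).re ≤ 1 := by
  have h1 := proj_n2 T (proj_compl hg)
  rw [map_sub, T.map_one, Complex.sub_re, Complex.one_re] at h1
  nlinarith [sq_nonneg (n2 T.τ (1 - g))]

theorem proj_nonneg (T : TracialState M) {g : Elt M} (hg : Proj g) : 0 ≤ (T.τ g).re := by
  rw [← proj_n2 T hg]; positivity

theorem eq_zero_of_n2 (T : TracialState M) {x : Elt M} (hx : n2 T.τ x = 0) : x = 0 := by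
  have h := trAlg T
  apply h.faithful
  have h1 := h.n2_sq x
  rw [hx] at h1
  apply Complex.ext
  · rw [← h1]; simp
  · rw [h.im_zero]; simp

theorem proj_norm {g : Elt M} (hg : Proj g) : ‖g‖ ≤ 1 := by
  have h1 : ‖star g * g‖ = ‖g‖ * ‖g‖ := CStarRing.norm_star_mul_self
  rw [hg.sa, hg.idem] at h1
  nlinarith [norm_nonneg g]

theorem exists_next (T : TracialState M) (lam : Elt M →⋆ₐ[ℂ] (K →L[ℂ] K)) (F : Set (Elt M))
    (g : Elt M) (hg : Good T lam F g) (η : ℝ) (hη : 0 < η) :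
    ∃ g', Good T lam F g' ∧ g' * g = g ∧
      ∀ g'', Good T lam F g'' → g'' * g = g → (T.τ g'').re ≤ (T.τ g').re + η := by
  set S : Set ℝ := {t | ∃ g', Good T lam F g' ∧ g' * g = g ∧ t = (T.τ g').re} with hS
  have hb : BddAbove S := ⟨1, by
    rintro t ⟨g', h1, h2, rfl⟩
    exact proj_le_one T h1.2.1⟩
  have hne : S.Nonempty := ⟨(T.τ g).re, g, hg, hg.2.1.idem, rfl⟩
  obtain ⟨t, ⟨g', h1, h2, rfl⟩, h3⟩ := exists_lt_of_lt_csSup hne (show sSup S - η < sSup S by linarith)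
  refine ⟨g', h1, h2, fun g'' e1 e2 => ?_⟩
  have := le_csSup hb (show (T.τ g'').re ∈ S from ⟨g'', e1, e2, rfl⟩)
  linarith

/-- vector functionals -/
noncomputable def vf (ξ : K) : (K →L[ℂ] K) →ₗ[ℂ] ℂ where
  toFun X := ⟪ξ, X ξ⟫_ℂ
  map_add' X Y := by simp
  map_smul' c X := by simp

theorem vf_apply (ξ : K) (X : K →L[ℂ] K) : vf ξ X = ⟪ξ, X ξ⟫_ℂ := rfl

theorem norm_j {T : TracialState M} {j : Elt M →ₗ[ℂ] K} {lam : Elt M →⋆ₐ[ℂ] (K →L[ℂ] K)}
    (hS : Std T j lam) (x : Elt M) : ‖j x‖ = n2 T.τ x := by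
  have h1 : ‖j x‖ ^ 2 = n2 T.τ x ^ 2 := by
    rw [(trAlg T).n2_sq, ← hS.inner x x, inner_self_eq_norm_sq_to_K]
    norm_cast
  exact (pow_left_inj₀ (norm_nonneg _) (n2_nonneg _ _) two_ne_zero).1 h1

theorem vf_fun {T : TracialState M} {j : Elt M →ₗ[ℂ] K} {lam : Elt M →⋆ₐ[ℂ] (K →L[ℂ] K)}
    (hS : Std T j lam) {r : Elt M} (hr : Proj r) : Fun T lam r (vf (j r)) := by
  refine ⟨fun X => ?_, fun x => ?_⟩
  · have : vf (j r) (star X * X) = ((‖X (j r)‖ ^ 2 : ℝ) : ℂ) := by
      rw [vf_apply]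
      show ⟪j r, (star X) (X (j r))⟫_ℂ = _
      rw [ContinuousLinearMap.star_eq_adjoint, ContinuousLinearMap.adjoint_inner_right,
        inner_self_eq_norm_sq_to_K]
      push_cast
      rfl
    rw [this]
    exact ⟨by rw [Complex.ofReal_re]; positivity, Complex.ofReal_im _⟩
  · rw [vf_apply, hS.lam_j, hS.inner, hr.sa, mul_assoc]

theorem vf_acen {T : TracialState M} {j : Elt M →ₗ[ℂ] K} {lam : Elt M →⋆ₐ[ℂ] (K →L[ℂ] K)}
    (hS : Std T j lam) (r a : Elt M) (X : K →L[ℂ] K) :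
    ‖vf (j r) (lam a * X) - vf (j r) (X * lam a)‖ ≤ 2 * ‖a‖ * n2 T.τ r ^ 2 * ‖X‖ := by
  have h1 : ‖vf (j r) (lam a * X)‖ ≤ ‖a‖ * n2 T.τ r ^ 2 * ‖X‖ := by
    have e : vf (j r) (lam a * X) = ⟪j (star a * r), X (j r)⟫_ℂ := by
      rw [vf_apply]
      show ⟪j r, lam a (X (j r))⟫_ℂ = _
      rw [← ContinuousLinearMap.adjoint_inner_left, ← ContinuousLinearMap.star_eq_adjoint,
        ← map_star, hS.lam_j]
    rw [e]
    refine (norm_inner_le_norm _ _).trans ?_
    have e1 : ‖j (star a * r)‖ ≤ ‖a‖ * n2 T.τ r := by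
      rw [norm_j hS]
      have := n2_mul_le T (star a) r
      have e2 : ‖((star a : Elt M) : H →L[ℂ] H)‖ = ‖a‖ := by
        have : ((star a : Elt M) : H →L[ℂ] H) = star (a : H →L[ℂ] H) := rfl
        rw [this, norm_star]; rfl
      rwa [e2] at this
    have e3 : ‖X (j r)‖ ≤ ‖X‖ * n2 T.τ r := by
      rw [← norm_j hS r]; exact X.le_opNorm _
    calc ‖j (star a * r)‖ * ‖X (j r)‖ ≤ (‖a‖ * n2 T.τ r) * (‖X‖ * n2 T.τ r) :=
          mul_le_mul e1 e3 (norm_nonneg _) (mul_nonneg (norm_nonneg _) (n2_nonneg _ _))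
      _ = _ := by ring
  have h2 : ‖vf (j r) (X * lam a)‖ ≤ ‖a‖ * n2 T.τ r ^ 2 * ‖X‖ := by
    have e : vf (j r) (X * lam a) = ⟪j r, X (j (a * r))⟫_ℂ := by
      rw [vf_apply]
      show ⟪j r, X (lam a (j r))⟫_ℂ = _
      rw [hS.lam_j]
    rw [e]
    refine (norm_inner_le_norm _ _).trans ?_
    have e1 : ‖j (a * r)‖ ≤ ‖a‖ * n2 T.τ r := by
      rw [norm_j hS]
      exact n2_mul_le T a r
    have e3 : ‖X (j (a * r))‖ ≤ ‖X‖ * (‖a‖ * n2 T.τ r) :=
      (X.le_opNorm _).trans (mul_le_mul_of_nonneg_left e1 (norm_nonneg _))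
    rw [norm_j hS]
    calc n2 T.τ r * ‖X (j (a * r))‖ ≤ n2 T.τ r * (‖X‖ * (‖a‖ * n2 T.τ r)) :=
          mul_le_mul_of_nonneg_left e3 (n2_nonneg _ _)
      _ = _ := by ring
  calc _ ≤ ‖vf (j r) (lam a * X)‖ + ‖vf (j r) (X * lam a)‖ := norm_sub_le _ _
    _ ≤ _ := add_le_add h1 h2
    _ = _ := by ring

end

end Pool.Agent.H811R4.SD.EXH

namespace Pool.Agent.H811R4.SD

open Pool.Agent.Helper278 EXH

theorem exh_holds (hG0 : StG0) : StEXH := by
  intro H _ _ _ M T K _ _ _ j lam hS F hF hFs hyp ε hε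
  have h := trAlg T
  -- the sequence
  choose nx nx1 nx2 nx3 using fun (g : {g : Elt M // Good T lam F g}) (n : ℕ) =>
    exists_next T lam F g.1 g.2 (1 / ((n : ℝ) + 1)) (by positivity)
  let G : ℕ → {g : Elt M // Good T lam F g} :=
    fun n => Nat.rec ⟨0, good_zero T lam F⟩ (fun n g => ⟨nx g n, nx1 g n⟩) n
  have hG1 : ∀ n, (G (n + 1)).1 * (G n).1 = (G n).1 := fun n => nx2 (G n) n
  have hG2 : ∀ n g'', Good T lam F g'' → g'' * (G n).1 = (G n).1 →
      (T.τ g'').re ≤ (T.τ (G (n + 1)).1).re + 1 / ((n : ℝ) + 1) := fun n => nx3 (G n) n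
  have hP : ∀ n, Proj (G n).1 := fun n => (G n).2.2.1
  have hle : ∀ n k, (G (n + k)).1 * (G n).1 = (G n).1 := by
    intro n k
    induction k with
    | zero => exact (hP n).idem
    | succ k ih =>
      calc (G (n + (k + 1))).1 * (G n).1 = (G (n + k + 1)).1 * ((G (n + k)).1 * (G n).1) := by
            rw [ih]; rfl
        _ = (G n).1 := by rw [← mul_assoc, hG1, ih]
  have hle' : ∀ n m, n ≤ m → (G m).1 * (G n).1 = (G n).1 := by
    intro n m hnm
    obtain ⟨k, rfl⟩ := Nat.exists_eq_add_of_le hnm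
    exact hle n k
  have hle2 : ∀ n m, n ≤ m → (G n).1 * (G m).1 = (G n).1 := by
    intro n m hnm
    have := congrArg star (hle' n m hnm)
    rwa [star_mul, (hP n).sa, (hP m).sa] at this
  have hdist : ∀ n m, n ≤ m → n2 T.τ ((G m).1 - (G n).1) ^ 2 =
      (T.τ (G m).1).re - (T.τ (G n).1).re := by
    intro n m hnm
    have hpr : Proj ((G m).1 - (G n).1) := by
      refine ⟨by rw [star_sub, (hP n).sa, (hP m).sa], ?_⟩
      have : ((G m).1 - (G n).1) * ((G m).1 - (G n).1) =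
        (G m).1 * (G m).1 - (G m).1 * (G n).1 - (G n).1 * (G m).1 + (G n).1 * (G n).1 := by
        noncomm_ring
      rw [this, hle' n m hnm, hle2 n m hnm, (hP n).idem, (hP m).idem]; abel
    rw [proj_n2 T hpr, map_sub, Complex.sub_re]
  set t : ℕ → ℝ := fun n => (T.τ (G n).1).re with ht
  have hmono : Monotone t := by
    intro n m hnm
    have := hdist n m hnm
    have h2 := sq_nonneg (n2 T.τ ((G m).1 - (G n).1))
    show (T.τ (G n).1).re ≤ (T.τ (G m).1).re
    linarith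
  have hbdd : BddAbove (Set.range t) := ⟨1, by
    rintro _ ⟨n, rfl⟩
    exact proj_le_one T (hP n)⟩
  have hconv : Tendsto t atTop (𝓝 (⨆ i, t i)) := tendsto_atTop_ciSup hmono hbdd
  have hcau : CauchySeq t := hconv.cauchySeq
  -- the limit
  obtain ⟨L, hL1, hL2⟩ := hG0 T 1 (fun n => (G n).1) (fun n => proj_norm (hP n)) (by
    intro δ hδ
    obtain ⟨n0, hn0⟩ := Metric.cauchySeq_iff.1 hcau (δ ^ 2) (by positivity)
    have key : ∀ n m, n0 ≤ n → n ≤ m → n2 T.τ ((G m).1 - (G n).1) ≤ δ := by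
      intro n m h1 h2
      have e1 := hn0 m (h1.trans h2) n h1
      rw [Real.dist_eq] at e1
      have e2 := hdist n m h2
      have e3 : n2 T.τ ((G m).1 - (G n).1) ^ 2 ≤ δ ^ 2 := by
        rw [e2]; exact (le_abs_self _).trans e1.le
      exact (pow_le_pow_iff_left₀ (n2_nonneg _ _) hδ.le two_ne_zero).1 e3
    refine ⟨n0, fun n hn m hm => ?_⟩
    rcases le_total n m with h1 | h1
    · rw [h.n2_sub_comm]; exact key n m hn h1
    · exact key m n hm h1)
  -- general principle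
  have hlim0 : ∀ (x : Elt M) (C : ℝ), (∀ n, n2 T.τ x ≤ C * n2 T.τ ((G n).1 - L)) → x = 0 := by
    intro x C hx
    apply eq_zero_of_n2 T
    refine le_antisymm ?_ (n2_nonneg _ _)
    have e1 : Tendsto (fun n => C * n2 T.τ ((G n).1 - L)) atTop (𝓝 (C * 0)) := hL2.const_mul C
    rw [mul_zero] at e1
    exact ge_of_tendsto' e1 hx
  have hlim1 : ∀ (x : Elt M) (C : ℝ) (n0 : ℕ), (∀ n, n0 ≤ n → n2 T.τ x ≤ C * n2 T.τ ((G n).1 - L)) →
      x = 0 := by
    intro x C n0 hx
    apply eq_zero_of_n2 T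
    refine le_antisymm ?_ (n2_nonneg _ _)
    have e1 : Tendsto (fun n => C * n2 T.τ ((G n).1 - L)) atTop (𝓝 (C * 0)) := hL2.const_mul C
    rw [mul_zero] at e1
    refine ge_of_tendsto e1 ?_
    filter_upwards [eventually_ge_atTop n0] with n hn using hx n hn
  have hLsa : star L = L := by
    have : star L - L = 0 := by
      refine hlim0 _ 2 fun n => ?_
      have e1 : star L - L = star (L - (G n).1) + ((G n).1 - L) := by
        rw [star_sub, (hP n).sa]; abel
      rw [e1]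
      refine (h.n2_add_le _ _).trans ?_
      rw [h.n2_star, h.n2_sub_comm]
      linarith
    exact sub_eq_zero.1 this
  have hmulL : ∀ (a x : Elt M), n2 T.τ (a * x) ≤ ‖a‖ * n2 T.τ x := fun a x => n2_mul_le T a x
  have hmulR : ∀ (x a : Elt M), n2 T.τ (x * a) ≤ ‖a‖ * n2 T.τ x := fun x a => n2_mul_le' T x a
  have hLid : L * L = L := by
    have : L * L - L = 0 := by
      refine hlim0 _ 3 fun n => ?_
      have e1 : L * L - L = (L - (G n).1) * L + (G n).1 * (L - (G n).1) + ((G n).1 - L) := by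
        have := (hP n).idem
        have e2 : (L - (G n).1) * L + (G n).1 * (L - (G n).1) + ((G n).1 - L) =
          L * L - (G n).1 * (G n).1 + (G n).1 - L := by noncomm_ring
        rw [e2, this]; abel
      rw [e1]
      have e2 := hmulR (L - (G n).1) L
      have e3 := hmulL (G n).1 (L - (G n).1)
      have e4 := proj_norm (hP n)
      have e5 := h.n2_sub_comm L (G n).1
      have e6 := h.n2_add_le ((L - (G n).1) * L + (G n).1 * (L - (G n).1)) ((G n).1 - L)
      have e7 := h.n2_add_le ((L - (G n).1) * L) ((G n).1 * (L - (G n).1))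
      have e8 := n2_nonneg (fun x => T.τ x) ((G n).1 - L)
      rw [e5] at e2 e3
      have e9 : ‖L‖ * n2 T.τ ((G n).1 - L) ≤ 1 * n2 T.τ ((G n).1 - L) :=
        mul_le_mul_of_nonneg_right hL1 (n2_nonneg _ _)
      have e10 : ‖(G n).1‖ * n2 T.τ ((G n).1 - L) ≤ 1 * n2 T.τ ((G n).1 - L) :=
        mul_le_mul_of_nonneg_right e4 (n2_nonneg _ _)
      linarith
    exact sub_eq_zero.1 this
  have hLF : L ∈ RC F := by
    intro a ha
    have : a * L - L * a = 0 := by
      refine hlim0 _ (2 * ‖a‖) fun n => ?_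
      have e0 := (G n).2.1 a ha
      have e1 : a * L - L * a = a * (L - (G n).1) + ((G n).1 - L) * a := by
        have e2 : a * (L - (G n).1) + ((G n).1 - L) * a =
          a * L - L * a - (a * (G n).1 - (G n).1 * a) := by noncomm_ring
        rw [e2, e0]; simp
      rw [e1]
      have e2 := hmulL a (L - (G n).1)
      have e3 := hmulR ((G n).1 - L) a
      have e6 := h.n2_add_le (a * (L - (G n).1)) (((G n).1 - L) * a)
      rw [h.n2_sub_comm L] at e2
      linarith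
    exact sub_eq_zero.1 this
  have hLG : ∀ n, L * (G n).1 = (G n).1 := by
    intro n
    have : (G n).1 - L * (G n).1 = 0 := by
      refine hlim1 _ 1 n fun m hm => ?_
      have e1 : (G n).1 - L * (G n).1 = ((G m).1 - L) * (G n).1 := by
        rw [sub_mul, hle' n m hm]
      rw [e1]
      refine (hmulR _ _).trans ?_
      exact mul_le_mul_of_nonneg_right (proj_norm (hP n)) (n2_nonneg _ _)
    exact (sub_eq_zero.1 this).symm
  have hLP : Proj L := ⟨hLsa, hLid⟩
  have hL : 1 - L = 0 := by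
    by_contra hne
    have hq : Proj (1 - L) := proj_compl hLP
    have hqF : (1 - L) ∈ RC F := by
      intro a ha
      rw [mul_sub, sub_mul, hLF a ha, mul_one, one_mul]
    obtain ⟨p', hp'F, hp'P, hp'0, hp'p, hp'g⟩ := hyp (1 - L) hqF hq hne
    have hgood : Good T lam F p' := ⟨hp'F, hp'P, hp'g⟩
    have hz : ∀ n, p' * (G n).1 = 0 := by
      intro n
      rw [← hp'p, mul_assoc, sub_mul, hLG n, one_mul, sub_self, mul_zero]
    have hz' : ∀ n, (G n).1 * p' = 0 := by
      intro n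
      have := congrArg star (hz n)
      rwa [star_mul, (hP n).sa, hp'P.sa, star_zero] at this
    have hpos : 0 < (T.τ p').re := by
      rcases (proj_nonneg T hp'P).lt_or_eq with h1 | h1
      · exact h1
      · exfalso
        apply hp'0
        apply eq_zero_of_n2 T
        have := proj_n2 T hp'P
        rw [← h1] at this
        exact pow_eq_zero_iff two_ne_zero |>.1 this
    have hb : ∀ n : ℕ, (T.τ p').re ≤ t (n + 1) - t n + 1 / ((n : ℝ) + 1) := by
      intro n
      have e1 := hG2 n ((G n).1 + p') (good_add (G n).2 hgood (hz' n)) (by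
        rw [add_mul, (hP n).idem, hz n, add_zero])
      rw [map_add, Complex.add_re] at e1
      show (T.τ p').re ≤ (T.τ (G (n + 1)).1).re - (T.τ (G n).1).re + 1 / ((n : ℝ) + 1)
      linarith
    have hlim : Tendsto (fun n : ℕ => t (n + 1) - t n + 1 / ((n : ℝ) + 1)) atTop (𝓝 0) := by
      have e1 := ((tendsto_add_atTop_iff_nat 1).2 hconv).sub hconv
      have e2 := e1.add (tendsto_one_div_add_atTop_nhds_zero_nat (𝕜 := ℝ))
      simpa using e2
    have := ge_of_tendsto' hlim hb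
    linarith
  have hL' : L = 1 := (sub_eq_zero.1 hL).symm
  subst hL'
  -- the final functional
  obtain ⟨C, hC⟩ : ∃ C : ℝ, ∀ a ∈ F, ‖a‖ ≤ C := by
    obtain ⟨C, hC⟩ := (hF.image (fun a => ‖a‖)).bddAbove
    exact ⟨C, fun a ha => hC ⟨a, ha, rfl⟩⟩
  have hsm : Tendsto (fun n => 2 * |C| * n2 T.τ ((G n).1 - 1) ^ 2) atTop (𝓝 0) := by
    have := (hL2.pow 2).const_mul (2 * |C|)
    simpa using this
  obtain ⟨n, hn⟩ := (hsm.eventually (gt_mem_nhds (show (0 : ℝ) < ε / 2 by positivity))).exists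
  obtain ⟨ψ, hψ, hψc⟩ := (G n).2.2.2 (ε / 2) (by positivity)
  have hr := proj_compl (hP n)
  have hv := vf_fun hS hr
  refine ⟨ψ + vf (j (1 - (G n).1)), ⟨fun X => ?_, fun x => ?_⟩, ?_⟩
  · have e1 := hψ.pos X
    have e2 := hv.pos X
    simp only [LinearMap.add_apply, Complex.add_re, Complex.add_im]
    exact ⟨add_nonneg e1.1 e2.1, by rw [e1.2, e2.2, add_zero]⟩
  · rw [LinearMap.add_apply, hψ.tr, hv.tr, T.tracial (_ * x), T.tracial (_ * x), ← mul_assoc,
      ← mul_assoc, (hP n).idem, hr.idem, ← map_add, sub_mul, one_mul]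
    congr 1
    rw [mul_one]
    abel
  · intro a ha X
    have e1 := hψc a ha X
    have e2 := vf_acen hS (1 - (G n).1) a X
    have e3 : 2 * ‖a‖ * n2 T.τ (1 - (G n).1) ^ 2 * ‖X‖ ≤ ε / 2 * ‖X‖ := by
      refine mul_le_mul_of_nonneg_right ?_ (norm_nonneg _)
      refine le_trans ?_ hn.le
      rw [h.n2_sub_comm]
      refine mul_le_mul_of_nonneg_right ?_ (sq_nonneg _)
      have := (hC a ha).trans (le_abs_self C)
      linarith
    simp only [LinearMap.add_apply]
    calc ‖ψ (lam a * X) + vf (j (1 - (G n).1)) (lam a * X) -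
          (ψ (X * lam a) + vf (j (1 - (G n).1)) (X * lam a))‖
        = ‖(ψ (lam a * X) - ψ (X * lam a)) + (vf (j (1 - (G n).1)) (lam a * X) -
            vf (j (1 - (G n).1)) (X * lam a))‖ := by
          congr 1; ring
      _ ≤ _ := norm_add_le _ _
      _ ≤ ε / 2 * ‖X‖ + ε / 2 * ‖X‖ := add_le_add e1 (e2.trans e3)
      _ = ε * ‖X‖ := by ring

end Pool.Agent.H811R4.SD
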