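import Pool.Agent.H811R4.SD.Stubs

/-!
# Task EXP (author helper171): the conditional expectation as a compression
-/

set_option autoImplicit false

open scoped InnerProductSpace BoundedContinuousFunction
open Filter

namespace Pool.Agent.H811R4.SD

open Pool.Agent.Helper278

theorem EXP_ext {K : Type} [NormedAddCommGroup K] [InnerProductSpace ℂ K] {A : Type} {j : A → K}
    (hd : DenseRange j) (u v : K) (h : ∀ c, ⟪j c, u⟫_ℂ = ⟪j c, v⟫_ℂ) : u = v := by
  have h1 : (fun y : K => ⟪y, u⟫_ℂ) = fun y : K => ⟪y, v⟫_ℂ :=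
    hd.equalizer (by fun_prop) (by fun_prop) (funext h)
  exact ext_inner_left ℂ fun y => congrFun h1 y

theorem exp_holds (hC : StCOMM) : StEXP := by
  intro H _ _ _ M T A h TA hTA K _ _ _ j lam KA _ _ _ jA lamA hs hsA V hV x
  set X : KA →L[ℂ] KA := ContinuousLinearMap.adjoint V ∘L lam x ∘L V with hX
  have hinner : ∀ c b : Elt A, ⟪jA c, X (jA b)⟫_ℂ = T.τ (star (inc h c) * (x * inc h b)) := by
    intro c b
    have e1 : X (jA b) = ContinuousLinearMap.adjoint V (lam x (V (jA b))) := rfl
    rw [e1, ContinuousLinearMap.adjoint_inner_right, hV, hV, hs.lam_j, hs.inner]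
  have hcomm : ∀ (a : Elt A) (R : KA →L[ℂ] KA), (∀ b, R (jA b) = jA (b * a)) →
      X * R = R * X := by
    intro a R hR
    have hRa : ∀ c : Elt A, ContinuousLinearMap.adjoint R (jA c) = jA (c * star a) := by
      intro c
      have h2 : ∀ d : Elt A, ⟪jA d, ContinuousLinearMap.adjoint R (jA c)⟫_ℂ =
          ⟪jA d, jA (c * star a)⟫_ℂ := by
        intro d
        rw [ContinuousLinearMap.adjoint_inner_right, hR, hsA.inner, hsA.inner, star_mul]
        rw [mul_assoc, TA.tracial, mul_assoc]
      exact EXP_ext hsA.dense _ _ h2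
    apply ContinuousLinearMap.ext
    have h3 : (fun y : KA => (X * R) y) = fun y : KA => (R * X) y := by
      refine hsA.dense.equalizer (ContinuousLinearMap.continuous _)
        (ContinuousLinearMap.continuous _) ?_
      funext b
      apply EXP_ext hsA.dense
      intro c
      have e1 : ((fun y : KA => (X * R) y) ∘ jA) b = X (R (jA b)) := rfl
      have e2 : ((fun y : KA => (R * X) y) ∘ jA) b = R (X (jA b)) := rfl
      rw [e1, e2, hR, hinner, ← ContinuousLinearMap.adjoint_inner_left, hRa, hinner]
      have e3 : inc h (b * a) = inc h b * inc h a := rfl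
      have e4 : star (inc h (c * star a)) = inc h a * star (inc h c) := by
        have : inc h (c * star a) = inc h c * star (inc h a) := rfl
        rw [this, star_mul, star_star]
      rw [e3, e4, mul_assoc, T.tracial (inc h a)]
      simp only [mul_assoc]
    exact fun y => congrFun h3 y
  obtain ⟨b, hb⟩ := hC TA hsA X hcomm
  refine ⟨b, hb, ?_⟩
  have h4 := hinner 1 1
  rw [hb, hsA.lam_j, hsA.inner] at h4
  have e5 : inc h (1 : Elt A) = 1 := rfl
  rw [e5] at h4
  simpa using h4

end Pool.Agent.H811R4.SD
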