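import Mathlib
import Pool.Agent.H811R4.SD.Stubs

/-!
# Task FB: bounds for the functionals
-/

set_option autoImplicit false

open scoped InnerProductSpace BoundedContinuousFunction Topology
open Filter

namespace Pool.Agent.H811R4.SD

open Pool.Agent.Helper278

section FB

variable {K : Type} [NormedAddCommGroup K] [InnerProductSpace ℂ K] [CompleteSpace K]

theorem FB_symm (ψ : (K →L[ℂ] K) →ₗ[ℂ] ℂ)
    (pos : ∀ X : K →L[ℂ] K, 0 ≤ (ψ (star X * X)).re ∧ (ψ (star X * X)).im = 0)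
    (X Y : K →L[ℂ] K) : star (ψ (star Y * X)) = ψ (star X * Y) := by
  have h1 := (pos (X + Y)).2
  have h2 := (pos (X + Complex.I • Y)).2
  have hX := (pos X).2
  have hY := (pos Y).2
  have e1 : star (X + Y) * (X + Y) = star X * X + star Y * Y + (star X * Y + star Y * X) := by
    rw [star_add]; noncomm_ring
  have e2 : star (X + Complex.I • Y) * (X + Complex.I • Y) =
      star X * X + star Y * Y + Complex.I • (star X * Y - star Y * X) := by
    rw [star_add, star_smul, add_mul, mul_add, mul_add, smul_mul_assoc, smul_mul_assoc,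
      mul_smul_comm, mul_smul_comm, smul_smul]
    have : star Complex.I * Complex.I = 1 := by
      simp
    rw [this, one_smul, smul_sub]
    have h3 : star Complex.I = -Complex.I := by simp
    rw [h3, neg_smul]
    abel
  rw [e1] at h1
  rw [e2] at h2
  simp only [map_add, map_sub, map_smul, smul_eq_mul, Complex.add_im, Complex.mul_im,
    Complex.sub_re, Complex.sub_im, Complex.I_re, Complex.I_im, hX, hY] at h1 h2
  apply Complex.ext
  · simp
    linarith
  · simp
    linarith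

/-- the inner product given by a positive functional -/
@[instance_reducible]
noncomputable def FB_core (ψ : (K →L[ℂ] K) →ₗ[ℂ] ℂ)
    (pos : ∀ X : K →L[ℂ] K, 0 ≤ (ψ (star X * X)).re ∧ (ψ (star X * X)).im = 0) :
    PreInnerProductSpace.Core ℂ (K →L[ℂ] K) where
  inner X Y := ψ (star X * Y)
  conj_inner_symm X Y := FB_symm ψ pos X Y
  re_inner_nonneg X := (pos X).1
  add_left x y z := by rw [star_add, add_mul, map_add]
  smul_left x y r := by
    rw [star_smul, smul_mul_assoc, map_smul]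
    rfl

theorem FB_cauchy (ψ : (K →L[ℂ] K) →ₗ[ℂ] ℂ)
    (pos : ∀ X : K →L[ℂ] K, 0 ≤ (ψ (star X * X)).re ∧ (ψ (star X * X)).im = 0)
    (X Y : K →L[ℂ] K) :
    ‖ψ (star X * Y)‖ ≤ Real.sqrt (ψ (star X * X)).re * Real.sqrt (ψ (star Y * Y)).re := by
  let _ := FB_core ψ pos
  exact InnerProductSpace.Core.norm_inner_le_norm (𝕜 := ℂ) X Y

theorem FB_bound (ψ : (K →L[ℂ] K) →ₗ[ℂ] ℂ)
    (pos : ∀ X : K →L[ℂ] K, 0 ≤ (ψ (star X * X)).re ∧ (ψ (star X * X)).im = 0)
    (X : K →L[ℂ] K) : (ψ (star X * X)).re ≤ ‖X‖ ^ 2 * (ψ 1).re := by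
  have h1 : star X * X ≤ algebraMap ℝ (K →L[ℂ] K) (‖X‖ ^ 2) :=
    CStarAlgebra.star_mul_le_algebraMap_norm_sq
  obtain ⟨S, hS⟩ := CStarAlgebra.nonneg_iff_eq_star_mul_self.mp (sub_nonneg.mpr h1)
  have h2 := (pos S).1
  rw [← hS, map_sub, Complex.sub_re] at h2
  have h3 : algebraMap ℝ (K →L[ℂ] K) (‖X‖ ^ 2) = ((‖X‖ ^ 2 : ℝ) : ℂ) • (1 : K →L[ℂ] K) := by
    rw [Algebra.algebraMap_eq_smul_one]
    exact (RCLike.real_smul_eq_coe_smul (K := ℂ) (‖X‖ ^ 2) (1 : K →L[ℂ] K))
  rw [h3, map_smul, smul_eq_mul, Complex.re_ofReal_mul] at h2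
  linarith

end FB

theorem fb_holds : StFB := by
  intro H _ _ _ M T K _ _ _ j lam hstd p ψ hp hψ
  have hT := trAlg T
  have hone : ψ 1 = T.τ p := by
    have := hψ.tr 1
    rw [map_one, mul_one, hp.idem] at this
    exact this
  have hpn : ‖((p : Elt M) : H →L[ℂ] H)‖ ≤ 1 := by
    apply IsStarProjection.norm_le
    refine ⟨?_, ?_⟩
    · have := congrArg (Subtype.val) hp.idem
      exact this
    · have := congrArg (Subtype.val) hp.sa
      exact this
  have hmulp : ∀ z : Elt M, n2 T.τ (z * p) ≤ n2 T.τ z := by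
    intro z
    have h1 := n2_mul_le' T z p
    have h2 := n2_nonneg T.τ z
    nlinarith
  have hn1 : n2 T.τ (1 : Elt M) = 1 := by
    unfold n2
    rw [star_one, mul_one, T.map_one]
    simp
  have hpp : (T.τ p).re = n2 T.τ p ^ 2 := by
    rw [hT.n2_sq, hp.sa, hp.idem]
  have hp0 : 0 ≤ (T.τ p).re := by
    rw [hpp]
    positivity
  have hp1 : (T.τ p).re ≤ 1 := by
    have h1 := hmulp 1
    rw [one_mul, hn1] at h1
    have h2 := n2_nonneg T.τ p
    rw [hpp]
    nlinarith
  have hzz : ∀ z : Elt M, Real.sqrt (ψ (star (lam z) * lam z)).re ≤ n2 T.τ z := by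
    intro z
    have h1 : ψ (star (lam z) * lam z) = T.τ (star (z * p) * (z * p)) := by
      rw [← map_star, ← map_mul, hψ.tr, star_mul, hp.sa]
      simp only [mul_assoc]
    rw [h1]
    exact hmulp z
  have hXX : ∀ X : K →L[ℂ] K, Real.sqrt (ψ (star X * X)).re ≤ ‖X‖ * Real.sqrt (T.τ p).re := by
    intro X
    have h1 := FB_bound ψ hψ.pos X
    rw [hone] at h1
    calc Real.sqrt (ψ (star X * X)).re ≤ Real.sqrt (‖X‖ ^ 2 * (T.τ p).re) := Real.sqrt_le_sqrt h1
      _ = ‖X‖ * Real.sqrt (T.τ p).re := by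
          rw [Real.sqrt_mul (by positivity), Real.sqrt_sq (norm_nonneg X)]
  have hsp : Real.sqrt (T.τ p).re ≤ 1 := by
    rw [Real.sqrt_le_left (by norm_num)]
    simpa using hp1
  have hXX' : ∀ X : K →L[ℂ] K, Real.sqrt (ψ (star X * X)).re ≤ ‖X‖ := by
    intro X
    have h1 := hXX X
    have h2 := norm_nonneg X
    nlinarith
  refine ⟨?_, ?_, ?_⟩
  · intro X
    have h1 := FB_cauchy ψ hψ.pos 1 X
    rw [star_one, one_mul, one_mul, hone] at h1
    have h2 := hXX X
    have h3 := Real.sqrt_nonneg (T.τ p).re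
    have h4 := Real.mul_self_sqrt hp0
    calc ‖ψ X‖ ≤ Real.sqrt (T.τ p).re * Real.sqrt (ψ (star X * X)).re := h1
      _ ≤ Real.sqrt (T.τ p).re * (‖X‖ * Real.sqrt (T.τ p).re) :=
          mul_le_mul_of_nonneg_left h2 h3
      _ = (Real.sqrt (T.τ p).re * Real.sqrt (T.τ p).re) * ‖X‖ := by ring
      _ = (T.τ p).re * ‖X‖ := by rw [h4]
  · intro z X
    have h1 := FB_cauchy ψ hψ.pos (lam (star z)) X
    have h2 : star (lam (star z)) = lam z := by rw [← map_star, star_star]
    have h3 := hzz (star z)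
    rw [hT.n2_star] at h3
    have h4 := hXX' X
    have h5 := n2_nonneg T.τ z
    calc ‖ψ (lam z * X)‖ = ‖ψ (star (lam (star z)) * X)‖ := by rw [h2]
      _ ≤ Real.sqrt (ψ (star (lam (star z)) * lam (star z))).re * Real.sqrt (ψ (star X * X)).re := h1
      _ ≤ n2 T.τ z * ‖X‖ := mul_le_mul h3 h4 (Real.sqrt_nonneg _) h5
  · intro z X
    have h1 := FB_cauchy ψ hψ.pos (star X) (lam z)
    rw [star_star] at h1
    have h3 := hzz z
    have h4 := hXX' (star X)
    rw [star_star, norm_star] at h4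
    calc ‖ψ (X * lam z)‖ ≤ Real.sqrt (ψ (X * star X)).re *
          Real.sqrt (ψ (star (lam z) * lam z)).re := h1
      _ ≤ ‖X‖ * n2 T.τ z := mul_le_mul h4 h3 (Real.sqrt_nonneg _) (norm_nonneg _)
      _ = n2 T.τ z * ‖X‖ := mul_comm _ _

end Pool.Agent.H811R4.SD
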