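import Mathlib
import Pool.Agent.H811R4.SD.Stubs

/-!
# Amenable subalgebras have central functionals on `B(L²(M))`
-/

set_option autoImplicit false

open scoped InnerProductSpace BoundedContinuousFunction Topology
open Filter

namespace Pool.Agent.H811R4.SD

open Pool.Agent.Helper278

section fromAux

variable {K KA : Type} [NormedAddCommGroup K] [InnerProductSpace ℂ K] [CompleteSpace K]
  [NormedAddCommGroup KA] [InnerProductSpace ℂ KA] [CompleteSpace KA]

/-- compression by `V` followed by `φ` -/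
noncomputable def fromPsi (V : KA →L[ℂ] K) (φ : (KA →L[ℂ] KA) →ₗ[ℂ] ℂ) :
    (K →L[ℂ] K) →ₗ[ℂ] ℂ where
  toFun X := φ (ContinuousLinearMap.adjoint V ∘L X ∘L V)
  map_add' X Y := by
    rw [← map_add]
    congr 1
    ext x
    simp
  map_smul' c X := by
    rw [← map_smul]
    congr 1
    ext x
    simp

theorem fromPsi_apply (V : KA →L[ℂ] K) (φ : (KA →L[ℂ] KA) →ₗ[ℂ] ℂ) (X : K →L[ℂ] K) :
    fromPsi V φ X = φ (ContinuousLinearMap.adjoint V ∘L X ∘L V) := rfl

theorem from_sq (V : KA →L[ℂ] K) (X : K →L[ℂ] K) :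
    ∃ S : KA →L[ℂ] KA, ContinuousLinearMap.adjoint V ∘L (star X * X) ∘L V = star S * S := by
  have hP : (ContinuousLinearMap.adjoint V ∘L (star X * X) ∘L V).IsPositive := by
    have h1 : ContinuousLinearMap.adjoint V ∘L (star X * X) ∘L V =
        ContinuousLinearMap.adjoint (X ∘L V) ∘L (X ∘L V) := by
      rw [ContinuousLinearMap.adjoint_comp]
      ext x
      simp [ContinuousLinearMap.star_eq_adjoint]
    rw [h1]
    exact ContinuousLinearMap.isPositive_adjoint_comp_self _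
  rw [← ContinuousLinearMap.nonneg_iff_isPositive] at hP
  exact CStarAlgebra.nonneg_iff_eq_star_mul_self.mp hP

end fromAux

theorem from_holds (hRES : StRES) (hSTD : StSTD) (hAM1 : StAM1) (hVST : StVST) (hEXP : StEXP) :
    StFROM := by
  intro H _ _ _ M T K _ _ _ j lam hStd A h hAm
  obtain ⟨TA, hTA⟩ := hRES T h
  obtain ⟨KA, i1, i2, i3, jA, lamA, hStdA⟩ := hSTD TA
  have hAm' : Amenable (fun a : Elt A => TA.τ a) := by
    have h0 : (resTr (fun x => T.τ x) h) = fun a : Elt A => TA.τ a := by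
      funext a
      rw [hTA]
      rfl
    rw [← h0]
    exact hAm
  obtain ⟨φ, hφ, hφc⟩ := hAM1 TA hStdA hAm'
  obtain ⟨V, hVj, hVV, hlV, hVl⟩ := hVST T h TA hTA hStd hStdA
  refine ⟨fromPsi V φ, ⟨?_, ?_⟩, ?_⟩
  · intro X
    rw [fromPsi_apply]
    obtain ⟨S, hS⟩ := from_sq V X
    rw [hS]
    exact hφ.pos S
  · intro x
    rw [fromPsi_apply]
    obtain ⟨b, hb, hbt⟩ := hEXP T h TA hTA hStd hStdA V hVj x
    rw [hb, hφ.tr, one_mul, mul_one, one_mul, mul_one]
    exact hbt
  · intro a ha X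
    rw [fromPsi_apply, fromPsi_apply]
    have ha' : inc h ⟨(a : H →L[ℂ] H), ha⟩ = a := rfl
    have e1 : ContinuousLinearMap.adjoint V ∘L (lam a * X) ∘L V =
        lamA ⟨(a : H →L[ℂ] H), ha⟩ * (ContinuousLinearMap.adjoint V ∘L X ∘L V) := by
      have h1 := hVl ⟨(a : H →L[ℂ] H), ha⟩
      rw [ha'] at h1
      have h2 : ContinuousLinearMap.adjoint V ∘L (lam a * X) ∘L V =
          (ContinuousLinearMap.adjoint V ∘L lam a) ∘L X ∘L V := rfl
      rw [h2, ← h1]
      rfl
    have e2 : ContinuousLinearMap.adjoint V ∘L (X * lam a) ∘L V =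
        (ContinuousLinearMap.adjoint V ∘L X ∘L V) * lamA ⟨(a : H →L[ℂ] H), ha⟩ := by
      have h1 := hlV ⟨(a : H →L[ℂ] H), ha⟩
      rw [ha'] at h1
      have h2 : ContinuousLinearMap.adjoint V ∘L (X * lam a) ∘L V =
          (ContinuousLinearMap.adjoint V ∘L X) ∘L (lam a ∘L V) := rfl
      rw [h2, h1]
      rfl
    rw [e1, e2]
    have := hφc ⟨(a : H →L[ℂ] H), ha⟩ (Set.mem_univ _)
      (ContinuousLinearMap.adjoint V ∘L X ∘L V)
    simpa using this

end Pool.Agent.H811R4.SD
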