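import Pool.Agent.H811R4.SD.Stubs

/-! Task FWD: solid implies `U`-solid. -/

set_option autoImplicit false

open scoped InnerProductSpace BoundedContinuousFunction Topology
open Filter

namespace Pool.Agent.H811R4.SD

open Pool.Agent.Helper278

theorem fwd_holds (hSTD : StSTD) (hTOAM : StTOAM) (hCPT : StCPT) (hEXH : StEXH)
    (hMINC : StMINC) (hNOMIN : StNOMIN) : StFWD := by
  classical
  intro H _ _ _ M T hII U hU hSolid Q _ _ _ _ π σ hUP A h hDiff
  obtain ⟨K, _, _, _, j, lam, hS⟩ := hSTD T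
  set D : Set (Elt M) := {x : Elt M | (x : H →L[ℂ] H) ∈ A} with hD
  have hDiff' : DiffuseIn (NQ π D) := hDiff
  have hDstar : StarClosed D := by
    intro a ha
    have ha' : (a : H →L[ℂ] H) ∈ A := ha
    have h2 : star (a : H →L[ℂ] H) ∈ A := star_mem ha'
    exact h2
  have hkey : ∃ ψ, Fun T lam 1 ψ ∧ ACen lam D 0 ψ := by
    refine hCPT T hS D fun F₀ hF₀ hF₀D ε hε => ?_
    set F : Set (Elt M) := F₀ ∪ star '' F₀ with hF
    have hFfin : F.Finite := hF₀.union (hF₀.image _)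
    have hFstar : StarClosed F := by
      intro a ha
      rcases ha with ha | ⟨b, hb, rfl⟩
      · exact Or.inr ⟨a, ha, rfl⟩
      · refine Or.inl ?_
        rw [star_star]
        exact hb
    have hFD : F ⊆ D := by
      intro a ha
      rcases ha with ha | ⟨b, hb, rfl⟩
      · exact hF₀D ha
      · exact hDstar b (hF₀D hb)
    obtain ⟨ψ, h1, h2⟩ := hEXH T hS F hFfin hFstar (fun p hp hpP hp0 => by
      by_cases hmin : ∃ r ∈ RC F, Proj r ∧ r ≠ 0 ∧ r * p = r ∧
          ∀ x ∈ RC F, ∃ c : ℂ, r * x * r = c • r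
      · obtain ⟨r, hr, hrP, hr0, hrp, hrx⟩ := hmin
        exact ⟨r, hr, hrP, hr0, hrp, fun ε' hε' =>
          hMINC T hS hII hSolid hUP hU D F hDstar hFstar hFD hFfin hDiff' r hr hrP hr0 hrx ε' hε'⟩
      · push Not at hmin
        refine ⟨p, hp, hpP, hp0, hpP.idem, fun ε' hε' => ?_⟩
        obtain ⟨ψ, h3, h4⟩ := hNOMIN T hS hII hSolid F hFstar p hp hpP
          (fun r hr hrP hr0 hrp => hmin r hr hrP hr0 hrp)
        refine ⟨ψ, h3, fun a ha X => (h4 a ha X).trans ?_⟩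
        rw [zero_mul]
        positivity) ε hε
    exact ⟨ψ, h1, fun a ha X => h2 a (Or.inl ha) X⟩
  obtain ⟨ψ, h1, h2⟩ := hkey
  exact hTOAM T hS h ψ h1 h2

end Pool.Agent.H811R4.SD
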