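import Pool.Agent.H811R4.SD.Stubs

/-!
# G0: the balls of `M` are complete for the 2-norm
-/

set_option autoImplicit false

open scoped InnerProductSpace Topology BoundedContinuousFunction
open Filter

namespace Pool.Agent.H811R4.SD

open Pool.Agent.Helper278

namespace TG0

universe u

variable {H : Type u} [NormedAddCommGroup H] [InnerProductSpace ℂ H] [CompleteSpace H]

/-- weak limits of bounded sequences of operators along an ultrafilter -/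
theorem wlim (G : Ultrafilter ℕ) (C : ℝ) (X : ℕ → H →L[ℂ] H) (hX : ∀ n, ‖X n‖ ≤ C) :
    ∃ Y : H →L[ℂ] H, ‖Y‖ ≤ C ∧ ∀ a b : H, Tendsto (fun n => ⟪a, X n b⟫_ℂ) G (𝓝 ⟪a, Y b⟫_ℂ) := by
  have hC0 : 0 ≤ C := (norm_nonneg _).trans (hX 0)
  rcases hC0.eq_or_lt with h0 | h0
  · refine ⟨0, by simp [hC0], fun a b => ?_⟩
    have : ∀ n, X n = 0 := fun n => by
      have := hX n
      rw [← h0] at this
      exact norm_le_zero_iff.1 this
    simp [this]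
  · let S : ℕ → H →WOT[ℂ] H := fun n => ContinuousLinearMapWOT.ofCLM ((C⁻¹ : ℂ) • X n)
    have hS : ∀ n, ‖(S n).toCLM‖ ≤ 1 := by
      intro n
      show ‖(C⁻¹ : ℂ) • X n‖ ≤ 1
      rw [norm_smul, norm_inv, Complex.norm_real, Real.norm_of_nonneg hC0, inv_mul_le_iff₀ h0]
      simpa using hX n
    have hle : ((G.map S : Ultrafilter (H →WOT[ℂ] H)) : Filter (H →WOT[ℂ] H)) ≤
        𝓟 {T : H →WOT[ℂ] H | ‖T.toCLM‖ ≤ 1} := by
      rw [Ultrafilter.coe_map, le_principal_iff, mem_map]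
      exact Filter.univ_mem' hS
    obtain ⟨T, hT1, hT2⟩ := (isCompact_iff_ultrafilter_le_nhds.1 isCompact_wot_ball) _ hle
    refine ⟨(C : ℂ) • T.toCLM, ?_, fun a b => ?_⟩
    · rw [norm_smul, Complex.norm_real, Real.norm_of_nonneg hC0]
      have : ‖T.toCLM‖ ≤ 1 := hT1
      nlinarith
    · rw [ContinuousLinearMapWOT.le_nhds_iff_forall_inner_apply_le_nhds] at hT2
      have h1 : Tendsto (fun n => ⟪a, S n b⟫_ℂ) G (𝓝 ⟪a, T b⟫_ℂ) := by
        have := hT2 b a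
        rw [Ultrafilter.coe_map, Filter.map_map] at this
        exact this
      have h2 := h1.const_mul (C : ℂ)
      have e1 : (C : ℂ) * ⟪a, T b⟫_ℂ = ⟪a, ((C : ℂ) • T.toCLM) b⟫_ℂ := by
        show _ = ⟪a, (C : ℂ) • (T.toCLM b)⟫_ℂ
        rw [inner_smul_right]; rfl
      rw [e1] at h2
      refine h2.congr fun n => ?_
      have e2 : S n b = (C⁻¹ : ℂ) • X n b := rfl
      rw [e2, inner_smul_right, ← mul_assoc, mul_inv_cancel₀ (by exact_mod_cast h0.ne'), one_mul]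

/-- von Neumann algebras are closed under weak limits -/
theorem wlim_mem (G : Ultrafilter ℕ) (M : VonNeumannAlgebra H) (X : ℕ → H →L[ℂ] H)
    (hX : ∀ n, X n ∈ M) (Y : H →L[ℂ] H)
    (hY : ∀ a b : H, Tendsto (fun n => ⟪a, X n b⟫_ℂ) G (𝓝 ⟪a, Y b⟫_ℂ)) : Y ∈ M := by
  have h0 : Y ∈ Set.centralizer (Set.centralizer (M : Set (H →L[ℂ] H))) := by
    rw [Set.mem_centralizer_iff]
    intro m hm
    rw [Set.mem_centralizer_iff] at hm
    ext b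
    refine ext_inner_left ℂ fun a => ?_
    have h1 : Tendsto (fun n => ⟪ContinuousLinearMap.adjoint m a, X n b⟫_ℂ) G
        (𝓝 ⟪ContinuousLinearMap.adjoint m a, Y b⟫_ℂ) := hY _ _
    have h2 : Tendsto (fun n => ⟪a, X n (m b)⟫_ℂ) G (𝓝 ⟪a, Y (m b)⟫_ℂ) := hY _ _
    have h3 : ∀ n, ⟪ContinuousLinearMap.adjoint m a, X n b⟫_ℂ = ⟪a, X n (m b)⟫_ℂ := by
      intro n
      rw [ContinuousLinearMap.adjoint_inner_left]
      have := hm (X n) (hX n)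
      have := congrArg (fun Z : H →L[ℂ] H => Z b) this
      simp only [ContinuousLinearMap.mul_apply] at this
      rw [this]
    simp only [h3] at h1
    have h4 := tendsto_nhds_unique h1 h2
    rw [ContinuousLinearMap.adjoint_inner_left] at h4
    exact h4
  rw [M.centralizer_centralizer] at h0
  exact h0

variable {M : VonNeumannAlgebra H}

/-- lower semicontinuity -/
theorem lsc (G : Ultrafilter ℕ) (ξ : ℕ → H) (Z : H →L[ℂ] H) (W : ℕ → H →L[ℂ] H) (ε : ℝ)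
    (hZ : ∀ a b : H, Tendsto (fun n => ⟪a, W n b⟫_ℂ) G (𝓝 ⟪a, Z b⟫_ℂ))
    (hW : ∀ᶠ m in (G : Filter ℕ), ∀ K : ℕ, ∑ k ∈ Finset.range K, ‖W m (ξ k)‖ ^ 2 ≤ ε) (K : ℕ) :
    ∑ k ∈ Finset.range K, ‖Z (ξ k)‖ ^ 2 ≤ ε := by
  have h1 : Tendsto (fun m => ∑ k ∈ Finset.range K, (⟪Z (ξ k), W m (ξ k)⟫_ℂ).re) G
      (𝓝 (∑ k ∈ Finset.range K, (⟪Z (ξ k), Z (ξ k)⟫_ℂ).re)) :=
    tendsto_finsetSum _ fun k _ => (Complex.continuous_re.tendsto _).comp (hZ _ _)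
  have h2 : ∀ᶠ m in (G : Filter ℕ), ∑ k ∈ Finset.range K, (⟪Z (ξ k), W m (ξ k)⟫_ℂ).re ≤
      (∑ k ∈ Finset.range K, ‖Z (ξ k)‖ ^ 2 + ε) / 2 := by
    filter_upwards [hW] with m hm
    have h3 : ∑ k ∈ Finset.range K, (⟪Z (ξ k), W m (ξ k)⟫_ℂ).re ≤
        ∑ k ∈ Finset.range K, (‖Z (ξ k)‖ ^ 2 + ‖W m (ξ k)‖ ^ 2) / 2 := by
      refine Finset.sum_le_sum fun k _ => ?_
      have h4 : (⟪Z (ξ k), W m (ξ k)⟫_ℂ).re ≤ ‖Z (ξ k)‖ * ‖W m (ξ k)‖ :=
        (Complex.re_le_norm _).trans (norm_inner_le_norm _ _)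
      nlinarith [sq_nonneg (‖Z (ξ k)‖ - ‖W m (ξ k)‖)]
    refine h3.trans ?_
    rw [← Finset.sum_div, Finset.sum_add_distrib]
    have := hm K
    linarith
  have h5 := le_of_tendsto h1 h2
  have h6 : ∑ k ∈ Finset.range K, (⟪Z (ξ k), Z (ξ k)⟫_ℂ).re =
      ∑ k ∈ Finset.range K, ‖Z (ξ k)‖ ^ 2 := by
    refine Finset.sum_congr rfl fun k _ => ?_
    rw [inner_self_eq_norm_sq_to_K]
    norm_cast
  rw [h6] at h5
  linarith

theorem main (T : TracialState M) (C : ℝ) (x : ℕ → Elt M) (hx : ∀ n, ‖x n‖ ≤ C)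
    (hc : ∀ ε : ℝ, 0 < ε → ∃ n0, ∀ n ≥ n0, ∀ m ≥ n0, n2 T.τ (x n - x m) ≤ ε) :
    ∃ y : Elt M, ‖y‖ ≤ C ∧ Tendsto (fun n => n2 T.τ (x n - y)) atTop (𝓝 0) := by
  obtain ⟨ξ, hξ, hT⟩ := T.normal
  let G : Ultrafilter ℕ := Ultrafilter.of atTop
  have hG : (G : Filter ℕ) ≤ atTop := Ultrafilter.of_le atTop
  obtain ⟨Y, hY1, hY2⟩ := wlim G C (fun n => (x n : H →L[ℂ] H)) hx
  have hYM : Y ∈ M := wlim_mem G M _ (fun n => (x n).2) Y hY2
  have hn2 : ∀ z : Elt M, n2 T.τ z = Real.sqrt (∑' k, ‖(z : H →L[ℂ] H) (ξ k)‖ ^ 2) := by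
    intro z
    unfold n2
    rw [tau_star_mul T ξ hξ hT, Complex.ofReal_re]
  refine ⟨⟨Y, hYM⟩, hY1, ?_⟩
  rw [Metric.tendsto_atTop]
  intro ε hε
  obtain ⟨n0, hn0⟩ := hc (ε / 2) (by positivity)
  refine ⟨n0, fun n hn => ?_⟩
  rw [Real.dist_eq, sub_zero, abs_of_nonneg (n2_nonneg _ _)]
  refine lt_of_le_of_lt ?_ (half_lt_self hε)
  rw [hn2]
  refine Real.sqrt_le_iff.2 ⟨by positivity, ?_⟩
  refine Real.tsum_le_of_sum_range_le (fun k => sq_nonneg _) fun K => ?_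
  refine lsc G ξ ((x n : H →L[ℂ] H) - Y) (fun m => (x n : H →L[ℂ] H) - (x m : H →L[ℂ] H))
    ((ε / 2) ^ 2) ?_ ?_ K
  · intro a b
    simp only [ContinuousLinearMap.sub_apply, inner_sub_right]
    exact tendsto_const_nhds.sub (hY2 a b)
  · refine hG ?_
    filter_upwards [eventually_ge_atTop n0] with m hm K
    have h1 := hn0 n hn m hm
    rw [hn2] at h1
    have h2 : ∑' k, ‖((x n - x m : Elt M) : H →L[ℂ] H) (ξ k)‖ ^ 2 ≤ (ε / 2) ^ 2 := by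
      rwa [Real.sqrt_le_left (by positivity)] at h1
    refine le_trans ?_ h2
    exact Summable.sum_le_tsum _ (fun k _ => sq_nonneg _) (summable_norm_apply ξ hξ _)

end TG0

theorem g0_holds : StG0 := by
  intro H _ _ _ M T C x hx hc
  exact TG0.main T C x hx hc

end Pool.Agent.H811R4.SD
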