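import Pool.Agent.H811R4.SD.Stubs

/-!
# Rounding a selfadjoint element to a projection
-/

set_option autoImplicit false

open scoped InnerProductSpace Topology
open Filter

namespace Pool.Agent.H811R4.SD

open Pool.Agent.Helper278

namespace G1

theorem closedM {H : Type} [NormedAddCommGroup H] [InnerProductSpace ℂ H] [CompleteSpace H]
    (M : VonNeumannAlgebra H) : IsClosed (M.toStarSubalgebra : Set (H →L[ℂ] H)) := by
  have h := M.centralizer_centralizer
  have h2 : (M.toStarSubalgebra : Set (H →L[ℂ] H)) = (M : Set (H →L[ℂ] H)) := rfl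
  rw [h2, ← h]
  exact Set.isClosed_centralizer _

/-! ### scalar functions -/

/-- approximations of the indicator function of `[1/2, ∞)` -/
noncomputable def hf (n : ℕ) (t : ℝ) : ℝ := min 1 (max 0 (1 - (n : ℝ) * (1 / 2 - t)))

theorem hf_cont (n : ℕ) : Continuous (hf n) := by
  unfold hf
  fun_prop

theorem hf_nonneg (n : ℕ) (t : ℝ) : 0 ≤ hf n t := le_min zero_le_one (le_max_left _ _)

theorem hf_le_one (n : ℕ) (t : ℝ) : hf n t ≤ 1 := min_le_left _ _

theorem hf_anti {n m : ℕ} (hnm : n ≤ m) (t : ℝ) : hf m t ≤ hf n t := by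
  unfold hf
  have h : (n : ℝ) ≤ m := by exact_mod_cast hnm
  rcases le_total (1 / 2) t with ht | ht
  · have h1 : (1 : ℝ) ≤ max 0 (1 - (n : ℝ) * (1 / 2 - t)) := by
      refine le_trans ?_ (le_max_right _ _)
      have : (0 : ℝ) ≤ n * (t - 1 / 2) := mul_nonneg (Nat.cast_nonneg _) (by linarith)
      linarith
    rw [min_eq_left h1]
    exact min_le_left _ _
  · refine min_le_min_left _ (max_le_max_left _ ?_)
    have : (n : ℝ) * (1 / 2 - t) ≤ m * (1 / 2 - t) := mul_le_mul_of_nonneg_right h (by linarith)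
    linarith

theorem hf_two (n : ℕ) (t : ℝ) : hf (2 * n) t ≤ hf n t * hf n t := by
  unfold hf
  push_cast
  rcases le_total (1 / 2) t with ht | ht
  · have h1 : (1 : ℝ) ≤ max 0 (1 - (n : ℝ) * (1 / 2 - t)) := by
      refine le_trans ?_ (le_max_right _ _)
      have : (0 : ℝ) ≤ n * (t - 1 / 2) := mul_nonneg (Nat.cast_nonneg _) (by linarith)
      linarith
    rw [min_eq_left h1, one_mul]
    exact min_le_left _ _
  · have h0 : (0 : ℝ) ≤ n * (1 / 2 - t) := mul_nonneg (Nat.cast_nonneg _) (by linarith)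
    set s : ℝ := n * (1 / 2 - t) with hs
    have e : 2 * (n : ℝ) * (1 / 2 - t) = 2 * s := by rw [hs]; ring
    rw [e]
    have a1 : max 0 (1 - 2 * s) ≤ 1 := max_le zero_le_one (by linarith)
    have a2 : max 0 (1 - s) ≤ 1 := max_le zero_le_one (by linarith)
    rw [min_eq_right a1, min_eq_right a2]
    rcases le_total s 1 with hs1 | hs1
    · rw [max_eq_right (by linarith : (0 : ℝ) ≤ 1 - s)]
      refine max_le (mul_nonneg (by linarith) (by linarith)) ?_
      nlinarith [sq_nonneg s]
    · rw [max_eq_left (by linarith : 1 - s ≤ 0), max_eq_left (by linarith : 1 - 2 * s ≤ 0)]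
      simp

theorem hf_near (n : ℕ) (hn : 1 ≤ n) (t : ℝ) : |hf n t - t| ≤ 2 * |t * t - t| + 3 / n := by
  have hn' : (1 : ℝ) ≤ n := by exact_mod_cast hn
  have hn0 : (0 : ℝ) < n := by linarith
  have h3 : (0 : ℝ) ≤ 3 / n := by positivity
  have e : t * t - t = t * (t - 1) := by ring
  rw [e, abs_mul]
  rcases le_total (1 / 2) t with ht | ht
  · have h1 : (1 : ℝ) ≤ max 0 (1 - (n : ℝ) * (1 / 2 - t)) := by
      refine le_trans ?_ (le_max_right _ _)
      have : (0 : ℝ) ≤ n * (t - 1 / 2) := mul_nonneg (Nat.cast_nonneg _) (by linarith)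
      linarith
    unfold hf
    rw [min_eq_left h1, abs_sub_comm, abs_of_nonneg (by linarith : (0 : ℝ) ≤ t)]
    nlinarith [abs_nonneg (t - 1)]
  · set r : ℝ := 1 / 2 - t with hr
    have hr0 : 0 ≤ r := by linarith
    have htr : t = 1 / 2 - r := by linarith
    have hs0 : (0 : ℝ) ≤ n * r := mul_nonneg hn0.le hr0
    have a2 : max 0 (1 - (n : ℝ) * r) ≤ 1 := max_le zero_le_one (by linarith)
    have eh : hf n t = max 0 (1 - (n : ℝ) * r) := by
      unfold hf
      rw [← hr, min_eq_right a2]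
    rw [eh, abs_of_nonpos (by linarith : t - 1 ≤ 0)]
    rcases le_total 1 (n * r) with hs1 | hs1
    · rw [max_eq_left (by linarith : 1 - (n : ℝ) * r ≤ 0), zero_sub, abs_neg]
      nlinarith [abs_nonneg t]
    · rw [max_eq_right (by linarith : (0 : ℝ) ≤ 1 - n * r)]
      have hr1 : r ≤ 1 / n := by
        rw [le_div_iff₀ hn0]
        linarith
      have h1n : 1 / (n : ℝ) ≤ 1 := by
        rw [div_le_one hn0]
        exact hn'
      have hr2 : r * r ≤ 1 / n := by nlinarith
      have h3n : 3 / (n : ℝ) = 3 * (1 / n) := by ring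
      have hA : |1 - (n : ℝ) * r - t| ≤ 1 / 2 + r := by
        rw [abs_le]
        constructor <;> linarith
      have hB : 1 / 4 - r * r ≤ |t| * (-(t - 1)) := by
        have h4 : t * (-(t - 1)) ≤ |t| * (-(t - 1)) :=
          mul_le_mul_of_nonneg_right (le_abs_self t) (by linarith)
        have h5 : t * (-(t - 1)) = 1 / 4 - r * r := by rw [htr]; ring
        linarith
      rw [h3n]
      linarith

/-! ### the functional calculus and the trace -/

section

variable {A : Type} [CStarAlgebra A] {τ : A →ₗ[ℂ] ℂ}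

/-- the spectral measure of `x` -/
noncomputable def phi (τ : A →ₗ[ℂ] ℂ) (x : A) (g : ℝ → ℝ) : ℝ := (τ (cfc g x)).re

theorem phi_sub (τ : A →ₗ[ℂ] ℂ) (x : A) (f g : ℝ → ℝ) (hf : Continuous f) (hg : Continuous g) :
    phi τ x (fun t => f t - g t) = phi τ x f - phi τ x g := by
  unfold phi
  rw [cfc_sub f g x hf.continuousOn hg.continuousOn, map_sub, Complex.sub_re]

theorem n2_cfc (h : TrAlg τ) (x : A) (f : ℝ → ℝ) (hf : Continuous f) :
    n2 τ (cfc f x) ^ 2 = phi τ x (fun t => f t * f t) := by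
  have h1 : star (cfc f x) = cfc f x := (cfc_predicate f x).star_eq
  rw [h.n2_sq, h1, ← cfc_mul f f x hf.continuousOn hf.continuousOn]
  rfl

theorem phi_nonneg (h : TrAlg τ) (x : A) (f : ℝ → ℝ) (hf : Continuous f)
    (h0 : ∀ t ∈ spectrum ℝ x, 0 ≤ f t) : 0 ≤ phi τ x f := by
  have h1 : phi τ x f = phi τ x (fun t => Real.sqrt (f t) * Real.sqrt (f t)) := by
    unfold phi
    congr 2
    exact cfc_congr fun t ht => (Real.mul_self_sqrt (h0 t ht)).symm
  rw [h1, ← n2_cfc h x _ (by fun_prop)]
  exact sq_nonneg _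

theorem phi_mono (h : TrAlg τ) (x : A) (f g : ℝ → ℝ) (hf : Continuous f) (hg : Continuous g)
    (h0 : ∀ t ∈ spectrum ℝ x, f t ≤ g t) : phi τ x f ≤ phi τ x g := by
  have h1 := phi_nonneg h x (fun t => g t - f t) (hg.sub hf) fun t ht => sub_nonneg.2 (h0 t ht)
  rw [phi_sub τ x g f hg hf] at h1
  linarith

theorem n2_cfc_mono (h : TrAlg τ) (x : A) (f g : ℝ → ℝ) (hf : Continuous f) (hg : Continuous g)
    (h0 : ∀ t ∈ spectrum ℝ x, |f t| ≤ g t) : n2 τ (cfc f x) ≤ n2 τ (cfc g x) := by
  refine (pow_le_pow_iff_left₀ (n2_nonneg _ _) (n2_nonneg _ _) two_ne_zero).1 ?_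
  rw [n2_cfc h x f hf, n2_cfc h x g hg]
  refine phi_mono h x _ _ (hf.mul hf) (hg.mul hg) fun t ht => ?_
  rw [← abs_mul_abs_self (f t)]
  exact mul_self_le_mul_self (abs_nonneg _) (h0 t ht)

theorem n2_const (h : TrAlg τ) (c : ℝ) (hc : 0 ≤ c) (x : A) (hx : IsSelfAdjoint x) :
    n2 τ (cfc (fun _ : ℝ => c) x) = c := by
  have h1 : n2 τ (cfc (fun _ : ℝ => c) x) ^ 2 = c ^ 2 := by
    rw [n2_cfc h x _ continuous_const]
    unfold phi
    rw [cfc_const (c * c) x]
    have h2 : (algebraMap ℝ A) (c * c) = ((c * c : ℝ) : ℂ) • (1 : A) := by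
      rw [Algebra.algebraMap_eq_smul_one]
      rfl
    rw [h2, map_smul, h.one, smul_eq_mul, mul_one, Complex.ofReal_re]
    ring
  exact (pow_left_inj₀ (n2_nonneg _ _) hc two_ne_zero).1 h1

theorem main (h : TrAlg τ) (hml : ∀ a x : A, n2 τ (a * x) ≤ ‖a‖ * n2 τ x)
    (hmr : ∀ a x : A, n2 τ (x * a) ≤ ‖a‖ * n2 τ x)
    (hG0 : ∀ (C : ℝ) (x : ℕ → A), (∀ n, ‖x n‖ ≤ C) →
      (∀ ε : ℝ, 0 < ε → ∃ n0, ∀ n ≥ n0, ∀ m ≥ n0, n2 τ (x n - x m) ≤ ε) →
      ∃ y : A, ‖y‖ ≤ C ∧ Tendsto (fun n => n2 τ (x n - y)) atTop (𝓝 0))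
    (x : A) (hx : star x = x) : ∃ f : A, Proj f ∧
    n2 τ (f - x) ≤ 2 * n2 τ (x * x - x) ∧
    ∀ ε : ℝ, 0 < ε → ∃ P : Polynomial ℂ, n2 τ (f - Polynomial.aeval x P) ≤ ε := by
  have hsa : IsSelfAdjoint x := hx
  have hnt : Nontrivial A := ⟨1, 0, fun h1 => by
    have h2 := h.one
    rw [h1, map_zero] at h2
    exact zero_ne_one h2⟩
  have hn1 : NormOneClass A := ⟨CStarRing.norm_one⟩
  set e : ℕ → A := fun n => cfc (hf n) x with he
  have hen : ∀ n, ‖e n‖ ≤ 1 := fun n => by
    refine norm_cfc_le zero_le_one fun t _ => ?_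
    rw [Real.norm_eq_abs, abs_of_nonneg (hf_nonneg n t)]
    exact hf_le_one n t
  have hestar : ∀ n, star (e n) = e n := fun n => (cfc_predicate (hf n) x).star_eq
  -- the sequence of traces
  have hanti : Antitone (fun n => phi τ x (hf n)) := fun n m hnm =>
    phi_mono h x _ _ (hf_cont m) (hf_cont n) fun t _ => hf_anti hnm t
  have hbdd : BddBelow (Set.range (fun n => phi τ x (hf n))) := by
    refine ⟨0, ?_⟩
    rintro _ ⟨n, rfl⟩
    exact phi_nonneg h x _ (hf_cont n) fun t _ => hf_nonneg n t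
  have hlim := tendsto_atTop_ciInf hanti hbdd
  have hcau := hlim.cauchySeq
  rw [Metric.cauchySeq_iff] at hcau
  have hdiff : ∀ n m : ℕ, n ≤ m →
      n2 τ (e n - e m) ^ 2 ≤ phi τ x (hf n) - phi τ x (hf m) := by
    intro n m hnm
    have h1 : e n - e m = cfc (fun t => hf n t - hf m t) x := by
      rw [cfc_sub (hf n) (hf m) x (hf_cont n).continuousOn (hf_cont m).continuousOn]
    rw [h1, n2_cfc h x (fun t => hf n t - hf m t) ((hf_cont n).sub (hf_cont m)),
      ← phi_sub τ x _ _ (hf_cont n) (hf_cont m)]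
    refine phi_mono h x _ _ (((hf_cont n).sub (hf_cont m)).mul ((hf_cont n).sub (hf_cont m)))
      ((hf_cont n).sub (hf_cont m)) fun t _ => ?_
    have a1 := hf_anti hnm t
    have a2 := hf_le_one n t
    have a3 := hf_nonneg m t
    nlinarith
  have hCau : ∀ ε : ℝ, 0 < ε → ∃ n0, ∀ n ≥ n0, ∀ m ≥ n0, n2 τ (e n - e m) ≤ ε := by
    intro ε hε
    obtain ⟨n0, hn0⟩ := hcau (ε ^ 2) (by positivity)
    have key : ∀ n ≥ n0, ∀ m ≥ n0, n ≤ m → n2 τ (e n - e m) ≤ ε := by
      intro n hn m hm hnm
      have h1 := hn0 n hn m hm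
      rw [Real.dist_eq] at h1
      have h2 := hdiff n m hnm
      have h3 := le_abs_self (phi τ x (hf n) - phi τ x (hf m))
      exact (pow_le_pow_iff_left₀ (n2_nonneg _ _) hε.le two_ne_zero).1 (by linarith)
    refine ⟨n0, fun n hn m hm => ?_⟩
    rcases le_total n m with hnm | hnm
    · exact key n hn m hm hnm
    · rw [h.n2_sub_comm]
      exact key m hm n hn hnm
  obtain ⟨f, hf1, hft⟩ := hG0 1 e hen hCau
  -- star f = f
  have hlimsub : ∀ z : A, (∀ ε : ℝ, 0 < ε → n2 τ z ≤ ε) → z = 0 := by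
    intro z hz
    have h1 : n2 τ z = 0 := le_antisymm (le_of_forall_pos_le_add fun ε hε => by
      rw [zero_add]; exact hz ε hε) (n2_nonneg _ _)
    apply h.faithful
    apply Complex.ext
    · rw [← h.n2_sq, h1]
      simp
    · rw [h.im_zero]
      simp
  have hfstar : star f = f := by
    have h1 : star f - f = 0 := by
      refine hlimsub _ fun ε hε => ?_
      have h2 := hft.eventually (gt_mem_nhds (by positivity : (0 : ℝ) < ε / 2))
      obtain ⟨n, hn⟩ := h2.exists
      have h3 : n2 τ (star f - e n) = n2 τ (e n - f) := by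
        have h4 : star f - e n = star (f - e n) := by rw [star_sub, hestar]
        rw [h4, h.n2_star, h.n2_sub_comm]
      have h5 := h.n2_tri (star f) (e n) f
      rw [h3] at h5
      linarith
    exact sub_eq_zero.1 h1
  have hfidem : f * f = f := by
    have h1 : f * f - f = 0 := by
      refine hlimsub _ fun ε hε => ?_
      have h2 := hft.eventually (gt_mem_nhds (by positivity : (0 : ℝ) < ε / 6))
      obtain ⟨N1, hN1⟩ := eventually_atTop.1 h2
      obtain ⟨n0, hn0⟩ := hcau ((ε / 2) ^ 2) (by positivity)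
      set n := max N1 n0 with hn
      have hA := hN1 n (le_max_left _ _)
      have hB : n2 τ (e n * e n - e n) ≤ ε / 2 := by
        have h3 : e n * e n - e n = cfc (fun t => hf n t * hf n t - hf n t) x := by
          rw [cfc_sub (fun t => hf n t * hf n t) (hf n) x
            ((hf_cont n).mul (hf_cont n)).continuousOn (hf_cont n).continuousOn,
            cfc_mul (hf n) (hf n) x (hf_cont n).continuousOn (hf_cont n).continuousOn]
        have h4 : n2 τ (e n * e n - e n) ^ 2 ≤ phi τ x (hf n) - phi τ x (hf (2 * n)) := by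
          rw [h3, n2_cfc h x (fun t => hf n t * hf n t - hf n t)
            (((hf_cont n).mul (hf_cont n)).sub (hf_cont n)),
            ← phi_sub τ x _ _ (hf_cont n) (hf_cont (2 * n))]
          refine phi_mono h x _ _ ((((hf_cont n).mul (hf_cont n)).sub (hf_cont n)).mul
            (((hf_cont n).mul (hf_cont n)).sub (hf_cont n)))
            ((hf_cont n).sub (hf_cont (2 * n))) fun t _ => ?_
          have a1 := hf_two n t
          have a2 := hf_le_one n t
          have a3 := hf_nonneg n t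
          have a4 : 0 ≤ hf n t - hf n t * hf n t := by nlinarith
          have a5 : hf n t - hf n t * hf n t ≤ 1 := by nlinarith
          have a6 : (hf n t * hf n t - hf n t) * (hf n t * hf n t - hf n t) =
            (hf n t - hf n t * hf n t) * (hf n t - hf n t * hf n t) := by ring
          rw [a6]
          nlinarith
        have h5 := hn0 n (le_max_right _ _) (2 * n)
          (le_trans (le_max_right N1 n0) (by rw [hn]; omega))
        rw [Real.dist_eq] at h5
        have h6 := le_abs_self (phi τ x (hf n) - phi τ x (hf (2 * n)))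
        exact (pow_le_pow_iff_left₀ (n2_nonneg _ _) (by positivity) two_ne_zero).1 (by linarith)
      have hC : n2 τ (f * f - e n * f) ≤ ε / 6 := by
        rw [← sub_mul]
        refine (hmr f (f - e n)).trans ?_
        rw [h.n2_sub_comm]
        calc ‖f‖ * n2 τ (e n - f) ≤ 1 * n2 τ (e n - f) :=
              mul_le_mul_of_nonneg_right hf1 (n2_nonneg _ _)
          _ ≤ ε / 6 := by rw [one_mul]; exact hA.le
      have hD : n2 τ (e n * f - e n * e n) ≤ ε / 6 := by
        rw [← mul_sub]
        refine (hml (e n) (f - e n)).trans ?_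
        rw [h.n2_sub_comm]
        calc ‖e n‖ * n2 τ (e n - f) ≤ 1 * n2 τ (e n - f) :=
              mul_le_mul_of_nonneg_right (hen n) (n2_nonneg _ _)
          _ ≤ ε / 6 := by rw [one_mul]; exact hA.le
      have t1 := h.n2_tri (f * f) (e n * f) f
      have t2 := h.n2_tri (e n * f) (e n * e n) f
      have t3 := h.n2_tri (e n * e n) (e n) f
      linarith
    exact sub_eq_zero.1 h1
  refine ⟨f, ⟨hfstar, hfidem⟩, ?_, ?_⟩
  · -- the distance to x
    refine le_of_forall_pos_le_add fun ε hε => ?_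
    have h2 := hft.eventually (gt_mem_nhds (by positivity : (0 : ℝ) < ε / 2))
    obtain ⟨N1, hN1⟩ := eventually_atTop.1 h2
    obtain ⟨N2, hN2⟩ := exists_nat_gt (6 / ε)
    set n := max N1 (max N2 1) with hn
    have hA := hN1 n (le_max_left _ _)
    have hn1 : 1 ≤ n := le_trans (le_max_right N2 1) (le_max_right _ _)
    have hn2 : N2 ≤ n := le_trans (le_max_left N2 1) (le_max_right _ _)
    have hn0 : (0 : ℝ) < n := by exact_mod_cast hn1
    have hn3 : 3 / (n : ℝ) ≤ ε / 2 := by
      have h3 : 6 / ε ≤ n := hN2.le.trans (by exact_mod_cast hn2)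
      rw [div_le_iff₀ hε] at h3
      rw [div_le_iff₀ hn0]
      linarith
    have hcid : cfc (fun t : ℝ => t) x = x := cfc_id' ℝ x
    have hB : n2 τ (e n - x) ≤ 2 * n2 τ (x * x - x) + 3 / n := by
      have e1 : e n - x = cfc (fun t => hf n t - t) x := by
        rw [cfc_sub (hf n) (fun t => t) x (hf_cont n).continuousOn continuous_id.continuousOn,
          hcid]
      have e2 : x * x - x = cfc (fun t : ℝ => t * t - t) x := by
        rw [cfc_sub (fun t : ℝ => t * t) (fun t => t) x (by fun_prop) (by fun_prop),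
          cfc_mul (fun t : ℝ => t) (fun t => t) x (by fun_prop) (by fun_prop), hcid]
      have e3 : n2 τ (cfc (fun t : ℝ => |t * t - t|) x) = n2 τ (x * x - x) := by
        rw [e2]
        refine (pow_left_inj₀ (n2_nonneg _ _) (n2_nonneg _ _) two_ne_zero).1 ?_
        rw [n2_cfc h x _ (by fun_prop), n2_cfc h x _ (by fun_prop)]
        congr 1
        funext t
        exact abs_mul_abs_self _
      rw [e1]
      refine (n2_cfc_mono h x _ (fun t => (|t * t - t| + |t * t - t|) + 3 / (n : ℝ))
        ((hf_cont n).sub continuous_id) (by fun_prop) fun t _ => ?_).trans ?_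
      · have := hf_near n hn1 t
        show |hf n t - t| ≤ _
        linarith
      · rw [cfc_add (fun t : ℝ => |t * t - t| + |t * t - t|) (fun _ => 3 / (n : ℝ))
          (a := x) (by fun_prop) (by fun_prop),
          cfc_add (fun t : ℝ => |t * t - t|) (fun t : ℝ => |t * t - t|) (a := x)
          (by fun_prop) (by fun_prop)]
        refine (h.n2_add_le _ _).trans ?_
        rw [n2_const h _ (by positivity) x hsa]
        have := h.n2_add_le (cfc (fun t : ℝ => |t * t - t|) x) (cfc (fun t : ℝ => |t * t - t|) x)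
        rw [e3] at this
        linarith
    have t1 := h.n2_tri f (e n) x
    rw [h.n2_sub_comm f (e n)] at t1
    linarith
  · intro ε hε
    have h2 := hft.eventually (gt_mem_nhds (by positivity : (0 : ℝ) < ε / 2))
    obtain ⟨n, hn⟩ := h2.exists
    obtain ⟨p, hp⟩ := exists_polynomial_near_of_continuousOn (-‖x‖) ‖x‖ (hf n)
      (hf_cont n).continuousOn (ε / 2) (by positivity)
    refine ⟨p.map (algebraMap ℝ ℂ), ?_⟩
    have e1 : Polynomial.aeval x (p.map (algebraMap ℝ ℂ)) = cfc (fun t => p.eval t) x := by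
      rw [cfc_polynomial p x hsa, Polynomial.aeval_map_algebraMap]
    have e2 : e n - Polynomial.aeval x (p.map (algebraMap ℝ ℂ)) =
        cfc (fun t => hf n t - p.eval t) x := by
      rw [e1, cfc_sub (hf n) (fun t => p.eval t) x (hf_cont n).continuousOn
        p.continuous.continuousOn]
    have e3 : n2 τ (e n - Polynomial.aeval x (p.map (algebraMap ℝ ℂ))) ≤ ε / 2 := by
      rw [e2]
      refine (n2_cfc_mono h x _ (fun _ => ε / 2) ((hf_cont n).sub p.continuous)
        continuous_const fun t ht => ?_).trans (n2_const h _ (by positivity) x hsa).le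
      have h3 : ‖t‖ ≤ ‖x‖ := by
        have := spectrum.norm_le_norm_of_mem ht
        exact this
      rw [Real.norm_eq_abs, abs_le] at h3
      have h4 := hp t ⟨h3.1, h3.2⟩
      show |hf n t - p.eval t| ≤ _
      rw [abs_sub_comm]
      exact h4.le
    have t1 := h.n2_tri f (e n) (Polynomial.aeval x (p.map (algebraMap ℝ ℂ)))
    rw [h.n2_sub_comm f (e n)] at t1
    linarith

end

end G1

theorem g1_holds (hG0 : StG0) : StG1 := by
  intro H _ _ _ M T x hx
  have : IsClosed (M.toStarSubalgebra : Set (H →L[ℂ] H)) := G1.closedM M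
  exact G1.main (A := Elt M) (τ := T.τ) (trAlg T) (fun a x => n2_mul_le T a x)
    (fun a x => n2_mul_le' T x a) (fun C x h1 h2 => hG0 T C x h1 h2) x hx

end Pool.Agent.H811R4.SD
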