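import Mathlib
import Pool.Agent.H811R4.SD.Stubs

/-!
# G3: a Haar unitary generates a diffuse algebra
-/

set_option autoImplicit false

open scoped InnerProductSpace BoundedContinuousFunction Topology ComplexOrder
open Filter

namespace Pool.Agent.H811R4.SD

open Pool.Agent.Helper278

theorem G3_sum {A : Type*} [Ring A] [StarRing A] [Algebra ℂ A] [StarModule ℂ A] {τ : A →ₗ[ℂ] ℂ}
    (h : TrAlg τ) (u : A) (hu : star u * u = 1) (h0 : ∀ k : ℕ, 1 ≤ k → τ (u ^ k) = 0) (n : ℕ) :
    τ (star (∑ k ∈ Finset.range n, u ^ k) * ∑ k ∈ Finset.range n, u ^ k) = n := by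
  induction n with
  | zero => simp
  | succ n ih =>
    set S := ∑ k ∈ Finset.range n, u ^ k with hS
    have e1 : ∑ k ∈ Finset.range (n + 1), u ^ k = 1 + u * S := by
      rw [Finset.sum_range_succ', pow_zero, hS, Finset.mul_sum, add_comm]
      congr 1
      refine Finset.sum_congr rfl fun k _ => ?_
      rw [pow_succ']
    have e2 : τ (u * S) = 0 := by
      rw [hS, Finset.mul_sum, map_sum]
      refine Finset.sum_eq_zero fun k _ => ?_
      rw [← pow_succ']
      exact h0 (k + 1) (by omega)
    have e3 : τ (star (u * S)) = 0 := by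
      rw [h.conj, e2, star_zero]
    have e4 : star (u * S) * (u * S) = star S * S := by
      rw [star_mul]
      calc star S * star u * (u * S) = star S * (star u * u) * S := by noncomm_ring
        _ = star S * S := by rw [hu, mul_one]
    have e5 : star (1 + u * S) * (1 + u * S) =
        1 + u * S + star (u * S) + star (u * S) * (u * S) := by
      rw [star_add, star_one]; noncomm_ring
    rw [e1, e5, map_add, map_add, map_add, e2, e3, e4, ih, h.one]
    push_cast
    ring

theorem G3_abs {A : Type*} [Ring A] [StarRing A] [Algebra ℂ A] [StarModule ℂ A] {τ : A →ₗ[ℂ] ℂ}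
    (h : TrAlg τ) (u r : A) (hu : star u * u = 1) (h0 : ∀ k : ℕ, 1 ≤ k → τ (u ^ k) = 0)
    (hrr : r * r = r) (hrs : star r = r) (hr0 : r ≠ 0) (hru : r * u = r) : False := by
  have hpow : ∀ k : ℕ, r * u ^ k = r := by
    intro k
    induction k with
    | zero => rw [pow_zero, mul_one]
    | succ k ih => rw [pow_succ, ← mul_assoc, ih, hru]
  have hrr' : star r * r = r := by rw [hrs, hrr]
  set t := (τ r).re with ht
  have hτr : τ r = (t : ℂ) := by
    apply Complex.ext
    · simp [ht]
    · have := h.im_zero r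
      rw [hrr'] at this
      simp [this]
  have ht0 : 0 < t := by
    have h1 : 0 ≤ t := by
      have := h.re_nonneg r
      rwa [hrr'] at this
    rcases h1.lt_or_eq with h2 | h2
    · exact h2
    · exfalso
      refine hr0 (h.faithful r ?_)
      rw [hrr', hτr, ← h2]
      simp
  have key : ∀ n : ℕ, (n : ℝ) * t ≤ 1 := by
    intro n
    rcases Nat.eq_zero_or_pos n with rfl | hn
    · simp
    have hn' : (0 : ℝ) < n := by exact_mod_cast hn
    set S := ∑ k ∈ Finset.range n, u ^ k with hS
    have h1 := h.cauchy r S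
    have h2 : τ (star r * S) = (n : ℂ) * t := by
      rw [hrs, hS, Finset.mul_sum, map_sum]
      simp only [hpow, hτr, Finset.sum_const, Finset.card_range, nsmul_eq_mul]
    have h3 : ‖τ (star r * S)‖ = n * t := by
      rw [h2]
      have : ((n : ℂ) * t) = (((n : ℝ) * t : ℝ) : ℂ) := by push_cast; ring
      rw [this, Complex.norm_real, Real.norm_eq_abs, abs_of_pos (by positivity)]
    have h4 : n2 τ r ^ 2 = t := by rw [h.n2_sq, hrr']
    have h5 : n2 τ S ^ 2 = n := by
      rw [h.n2_sq, hS, G3_sum h u hu h0 n]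
      simp
    rw [h3] at h1
    have h6 : ((n : ℝ) * t) ^ 2 ≤ (n2 τ r * n2 τ S) ^ 2 := by
      refine pow_le_pow_left₀ (by positivity) h1 2
    rw [mul_pow (n2 τ r), h4, h5] at h6
    have h7 : (n : ℝ) * t * (n * t) ≤ 1 * (n * t) := by nlinarith
    exact le_of_mul_le_mul_right h7 (by positivity)
  obtain ⟨n, hn⟩ := exists_nat_gt (1 / t)
  have h1 := key n
  rw [div_lt_iff₀ ht0] at hn
  linarith

theorem g3_holds : StG3 := by
  intro H _ _ _ M T y hy hk r hr hrr hrs hr0
  by_contra hcon
  push Not at hcon
  have hyW : y ∈ RC (RC {y, star y}) := by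
    intro a ha
    exact (ha y (by simp)).symm
  obtain ⟨c, hc⟩ := hcon y hyW
  have hyy : star y * y = 1 := hy.1
  have hyy' : y * star y = 1 := hy.2
  have hyR : y ∈ RC {y, star y} := by
    intro a ha
    rcases ha with rfl | ha
    · rfl
    · rw [Set.mem_singleton_iff] at ha
      rw [ha, hyy, hyy']
  have hcomm : y * r = r * y := hr y hyR
  have hry : r * y = c • r := by
    rw [← hc, mul_assoc, hcomm, ← mul_assoc, hrr]
  have hc1 : c * star c = 1 := by
    have h1 : (r * y) * star (r * y) = r := by
      rw [star_mul, hrs]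
      calc r * y * (star y * r) = r * (y * star y) * r := by noncomm_ring
        _ = r := by rw [hyy', mul_one, hrr]
    rw [hry, star_smul, hrs, smul_mul_smul_comm, hrr] at h1
    have h2 : (c * star c - 1) • r = 0 := by rw [sub_smul, h1, one_smul, sub_self]
    rcases smul_eq_zero.1 h2 with h3 | h3
    · exact sub_eq_zero.1 h3
    · exact absurd h3 hr0
  refine G3_abs (trAlg T) (star c • y) r ?_ ?_ hrr hrs hr0 ?_
  · rw [star_smul, star_star, smul_mul_smul_comm, hc1, one_smul, hyy]
  · intro k hk'
    rw [smul_pow, map_smul, hk k hk', smul_zero]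
  · rw [mul_smul_comm, hry, smul_smul, mul_comm, hc1, one_smul]

end Pool.Agent.H811R4.SD
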