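import Mathlib
import Pool.Agent.H811R4.SD.Stubs

/-!
# Task GOOD: partitions in the corner
-/

set_option autoImplicit false

open scoped InnerProductSpace BoundedContinuousFunction Topology
open Filter

namespace Pool.Agent.H811R4.SD

open Pool.Agent.Helper278

theorem good_holds : StGOOD := by
  intro H _ _ _ M T p H' _ _ _ N T' ι hp hp0 hC F hpF hpart m δ hδ
  have hA := trAlg T
  have hA' := trAlg T'
  -- the trace of `p`
  have hpp : T.τ (star p * p) = T.τ p := by rw [hp.sa, hp.idem]
  have him : (T.τ p).im = 0 := by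
    have := hA.im_zero p
    rwa [hpp] at this
  have hre0 : 0 ≤ (T.τ p).re := by
    have := hA.re_nonneg p
    rwa [hpp] at this
  have hne : T.τ p ≠ 0 := by
    intro h
    apply hp0
    apply hA.faithful
    rw [hpp, h]
  have hre : 0 < (T.τ p).re := by
    refine lt_of_le_of_ne hre0 fun h => hne ?_
    apply Complex.ext
    · rw [← h, Complex.zero_re]
    · rw [him, Complex.zero_im]
  obtain ⟨q, hq1, hq2, hq3, hq4⟩ := hpart m (δ * √(T.τ p).re) (by positivity)
  have hqp : ∀ i, q i * p = q i := by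
    intro i
    rw [← hq3, Finset.mul_sum, Finset.sum_eq_single i]
    · exact (hq1 i).1.idem
    · intro k _ hki
      exact hq2 i k (Ne.symm hki)
    · intro h
      exact absurd (Finset.mem_univ i) h
  have hpq : ∀ i, p * q i = q i := by
    intro i
    have h1 := congrArg star (hqp i)
    rwa [star_mul, hp.sa, (hq1 i).1.sa] at h1
  have hex : ∀ i, ∃ y : Elt N, ι y = q i := fun i => hC.surj (q i) (by rw [hpq, hqp])
  choose q' hq' using hex
  refine ⟨q', ⟨?_, ?_, ?_, ?_⟩, ?_, ?_⟩
  · intro i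
    apply hC.inj
    rw [map_star, hq', (hq1 i).1.sa]
  · intro i
    apply hC.inj
    rw [map_mul, hq', (hq1 i).1.idem]
  · intro i k hik
    apply hC.inj
    rw [map_mul, hq', hq', hq2 i k hik, map_zero]
  · apply hC.inj
    rw [map_sum, hC.one, ← hq3]
    exact Finset.sum_congr rfl fun i _ => hq' i
  · intro i
    have h1 := hC.tr (q' i)
    rw [hq', (hq1 i).2] at h1
    have h2 : T.τ p * T'.τ (q' i) = T.τ p * (1 / 2 ^ m) := by
      rw [← h1]
      ring
    exact mul_left_cancel₀ hne h2
  · rintro i y ⟨a, ha, hy⟩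
    have hap : a * p = p * a := hpF a ha
    have h1 : ι (q' i * y - y * q' i) = q i * a - a * q i := by
      rw [map_sub, map_mul, map_mul, hq', hy, mul_assoc a p (q i), hpq, hap, ← mul_assoc, hqp]
    have h2 : T.τ (star (q i * a - a * q i) * (q i * a - a * q i)) =
        T.τ p * T'.τ (star (q' i * y - y * q' i) * (q' i * y - y * q' i)) := by
      rw [← h1, ← map_star, ← map_mul, hC.tr]
    have h3 : n2 T.τ (q i * a - a * q i) ^ 2 =
        (T.τ p).re * n2 T'.τ (q' i * y - y * q' i) ^ 2 := by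
      rw [hA.n2_sq, hA'.n2_sq, h2, Complex.mul_re, him]
      ring
    have h4 := hq4 i a ha
    have h5 : n2 T.τ (q i * a - a * q i) ^ 2 ≤ (δ * √(T.τ p).re) ^ 2 :=
      pow_le_pow_left₀ (n2_nonneg _ _) h4 2
    rw [h3, mul_pow, Real.sq_sqrt hre0] at h5
    have h6 : n2 T'.τ (q' i * y - y * q' i) ^ 2 ≤ δ ^ 2 := by
      have h7 : (T.τ p).re * n2 T'.τ (q' i * y - y * q' i) ^ 2 ≤ (T.τ p).re * δ ^ 2 := by
        linarith
      exact le_of_mul_le_mul_left h7 hre
    exact (pow_le_pow_iff_left₀ (n2_nonneg _ _) hδ.le two_ne_zero).1 h6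

end Pool.Agent.H811R4.SD
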