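import Mathlib
import Pool.Agent.H811R4.SD.Stubs
import Pool.Agent.Helper278.CEStd

/-!
# StISO: `L²(M)` is a submodule of a multiple of `L²(A)`
-/

set_option autoImplicit false
set_option linter.unusedSectionVars false

open scoped InnerProductSpace BoundedContinuousFunction Topology ComplexOrder
open Filter

namespace Pool.Agent.H811R4.SD

open Pool.Agent.Helper278

namespace ISOaux

section abs

variable {K KA : Type} [NormedAddCommGroup K] [InnerProductSpace ℂ K] [CompleteSpace K]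
  [NormedAddCommGroup KA] [InnerProductSpace ℂ KA] [CompleteSpace KA]

/-- subfamilies with bounded sums of squares -/
def Bd (Y : Set (ℕ × (K →L[ℂ] KA))) : Prop :=
  ∀ s : Finset (ℕ × (K →L[ℂ] KA)), (s : Set (ℕ × (K →L[ℂ] KA))) ⊆ Y →
    ∀ ξ : K, ∑ p ∈ s, ‖p.2 ξ‖ ^ 2 ≤ ‖ξ‖ ^ 2

theorem Bd.sum_le {Y : Set (ℕ × (K →L[ℂ] KA))} (hY : Bd Y) (ξ : K) (u : Finset Y) :
    ∑ p ∈ u, ‖p.1.2 ξ‖ ^ 2 ≤ ‖ξ‖ ^ 2 := by
  classical
  have h1 := hY (u.map (Function.Embedding.subtype _)) (by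
    intro p hp
    simp only [Finset.coe_map, Set.mem_image, Finset.mem_coe] at hp
    obtain ⟨q, _, rfl⟩ := hp
    exact q.2) ξ
  rw [Finset.sum_map] at h1
  exact h1

theorem Bd.summable {Y : Set (ℕ × (K →L[ℂ] KA))} (hY : Bd Y) (ξ : K) :
    Summable (fun p : Y => ‖p.1.2 ξ‖ ^ 2) :=
  summable_of_sum_le (fun _ => by positivity) (hY.sum_le ξ)

theorem exists_W {Y : Set (ℕ × (K →L[ℂ] KA))} (hY : Bd Y) :
    ∃ W : K →L[ℂ] lp (fun _ : Y => KA) 2, ∀ (ξ : K) (p : Y), W ξ p = p.1.2 ξ := by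
  have hmem : ∀ ξ : K, Memℓp (fun p : Y => p.1.2 ξ) 2 := by
    intro ξ
    apply memℓp_gen
    have := hY.summable ξ
    simpa using this
  let W0 : K →ₗ[ℂ] lp (fun _ : Y => KA) 2 :=
    { toFun := fun ξ => ⟨fun p : Y => p.1.2 ξ, hmem ξ⟩
      map_add' := by
        intro x y
        ext p
        simp
      map_smul' := by
        intro c x
        ext p
        simp }
  have hW0 : ∀ ξ p, W0 ξ p = p.1.2 ξ := fun ξ p => rfl
  refine ⟨W0.mkContinuous 1 ?_, ?_⟩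
  · intro ξ
    have h1 := lp.hasSum_norm (p := 2) (by norm_num) (W0 ξ)
    have h2 : HasSum (fun p : Y => ‖p.1.2 ξ‖ ^ 2) (‖W0 ξ‖ ^ 2) := by
      simpa [hW0] using h1
    have h3 : ‖W0 ξ‖ ^ 2 ≤ ‖ξ‖ ^ 2 := by
      rw [← h2.tsum_eq]
      exact h2.summable.tsum_le_of_sum_le (hY.sum_le ξ)
    rw [one_mul]
    exact (sq_le_sq₀ (norm_nonneg _) (norm_nonneg _)).1 h3
  · intro ξ p
    rfl

theorem hasSum_W {Y : Set (ℕ × (K →L[ℂ] KA))} {W : K →L[ℂ] lp (fun _ : Y => KA) 2}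
    (hW : ∀ (ξ : K) (p : Y), W ξ p = p.1.2 ξ) (ξ : K) :
    HasSum (fun p : Y => ‖p.1.2 ξ‖ ^ 2) (‖W ξ‖ ^ 2) := by
  have h1 := lp.hasSum_norm (p := 2) (by norm_num) (W ξ)
  simpa [hW] using h1

/-- the operator `1 - W† W` -/
theorem tt_inner {Y : Set (ℕ × (K →L[ℂ] KA))} (W : K →L[ℂ] lp (fun _ : Y => KA) 2) (ξ : K) :
    ⟪(1 - ContinuousLinearMap.adjoint W ∘L W) ξ, ξ⟫_ℂ = ((‖ξ‖ ^ 2 - ‖W ξ‖ ^ 2 : ℝ) : ℂ) := by
  have h1 : (1 - ContinuousLinearMap.adjoint W ∘L W) ξ =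
      ξ - ContinuousLinearMap.adjoint W (W ξ) := rfl
  rw [h1, inner_sub_left, ContinuousLinearMap.adjoint_inner_left, inner_self_eq_norm_sq_to_K,
    inner_self_eq_norm_sq_to_K]
  push_cast
  rfl

variable {α : Type}

theorem W_comm {L : α → K →L[ℂ] K} {LA : α → KA →L[ℂ] KA} {st : α → α}
    (hL : ∀ a, ContinuousLinearMap.adjoint (L a) = L (st a))
    (hLA : ∀ a, ContinuousLinearMap.adjoint (LA a) = LA (st a))
    {Y : Set (ℕ × (K →L[ℂ] KA))} {W : K →L[ℂ] lp (fun _ : Y => KA) 2}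
    (hW : ∀ (ξ : K) (p : Y), W ξ p = p.1.2 ξ)
    (hY : ∀ p ∈ Y, ∀ a, p.2 ∘L L a = LA a ∘L p.2) (a : α) :
    Commute (1 - ContinuousLinearMap.adjoint W ∘L W) (L a) := by
  have hR : ∀ (p : Y) (b : α) (η : K), p.1.2 (L b η) = LA b (p.1.2 η) := by
    intro p b η
    exact congrArg (fun f : K →L[ℂ] KA => f η) (hY p.1 p.2 b)
  have key : ∀ ξ η : K, ⟪W (L a ξ), W η⟫_ℂ = ⟪W ξ, W (L (st a) η)⟫_ℂ := by
    intro ξ η
    rw [lp.inner_eq_tsum, lp.inner_eq_tsum]
    congr 1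
    funext p
    rw [hW, hW, hW, hW, hR, hR, ← hLA, ContinuousLinearMap.adjoint_inner_right]
  have h2 : (ContinuousLinearMap.adjoint W ∘L W) ∘L L a =
      L a ∘L (ContinuousLinearMap.adjoint W ∘L W) := by
    ext ξ
    refine ext_inner_right ℂ fun η => ?_
    show ⟪ContinuousLinearMap.adjoint W (W (L a ξ)), η⟫_ℂ =
      ⟪L a (ContinuousLinearMap.adjoint W (W ξ)), η⟫_ℂ
    rw [ContinuousLinearMap.adjoint_inner_left, key, ← hL,
      ← ContinuousLinearMap.adjoint_inner_left, ContinuousLinearMap.adjoint_inner_right]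
  show (1 - ContinuousLinearMap.adjoint W ∘L W) * L a =
    L a * (1 - ContinuousLinearMap.adjoint W ∘L W)
  rw [sub_mul, mul_sub, one_mul, mul_one]
  congr 1

theorem exists_decomp (L : α → K →L[ℂ] K) (LA : α → KA →L[ℂ] KA) (st : α → α)
    (hL : ∀ a, ContinuousLinearMap.adjoint (L a) = L (st a))
    (hLA : ∀ a, ContinuousLinearMap.adjoint (LA a) = LA (st a))
    {X : Type} (G : X → K →L[ℂ] KA) (hG : ∀ x a, G x ∘L L a = LA a ∘L G x)
    (hker : ∀ ξ, (∀ x, G x ξ = 0) → ξ = 0) :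
    ∃ (I : Type) (R : I → K →L[ℂ] KA), (∀ i a, R i ∘L L a = LA a ∘L R i) ∧
      ∀ ξ, HasSum (fun i => ‖R i ξ‖ ^ 2) (‖ξ‖ ^ 2) := by
  classical
  let Good : Set (Set (ℕ × (K →L[ℂ] KA))) :=
    {Y | (∀ p ∈ Y, ∀ a, p.2 ∘L L a = LA a ∘L p.2) ∧ Bd Y}
  have h0 : (∅ : Set (ℕ × (K →L[ℂ] KA))) ∈ Good := by
    refine ⟨fun p hp => hp.elim, ?_⟩
    intro s hs ξ
    have : s = ∅ := by
      rw [← Finset.coe_eq_empty]
      exact Set.subset_empty_iff.1 hs
    subst this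
    simp only [Finset.sum_empty]
    positivity
  obtain ⟨Y, -, hmax⟩ := zorn_subset_nonempty Good (by
    intro c hc hch hne
    refine ⟨⋃₀ c, ⟨?_, ?_⟩, fun s hs => Set.subset_sUnion_of_mem hs⟩
    · intro p hp a
      obtain ⟨Y, hY, hpY⟩ := hp
      exact (hc hY).1 p hpY a
    · intro s hs ξ
      have h1 : ∃ Y ∈ c, (s : Set (ℕ × (K →L[ℂ] KA))) ⊆ Y := by
        refine DirectedOn.exists_mem_subset_of_finset_subset_biUnion (f := fun Y => Y) hne
          hch.directedOn ?_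
        rw [← Set.sUnion_eq_biUnion]
        exact hs
      obtain ⟨Y, hY, hsY⟩ := h1
      exact (hc hY).2 s hsY ξ) ∅ h0
  obtain ⟨hYc, hYb⟩ := hmax.prop
  obtain ⟨W, hW⟩ := exists_W hYb
  set Tt : K →L[ℂ] K := 1 - ContinuousLinearMap.adjoint W ∘L W with hTt
  have hWle : ∀ ξ, ‖W ξ‖ ^ 2 ≤ ‖ξ‖ ^ 2 := by
    intro ξ
    rw [← (hasSum_W hW ξ).tsum_eq]
    exact (hasSum_W hW ξ).summable.tsum_le_of_sum_le (hYb.sum_le ξ)
  have hpos : 0 ≤ Tt := by
    rw [ContinuousLinearMap.nonneg_iff_isPositive, ContinuousLinearMap.isPositive_iff_complex]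
    intro ξ
    rw [hTt, tt_inner]
    refine ⟨?_, ?_⟩
    · rw [show RCLike.re (((‖ξ‖ ^ 2 - ‖W ξ‖ ^ 2 : ℝ)) : ℂ) = (‖ξ‖ ^ 2 - ‖W ξ‖ ^ 2 : ℝ) from
        Complex.ofReal_re _]
    have := hWle ξ
    simp only [RCLike.re_to_complex, Complex.ofReal_re]
    linarith
  set B : K →L[ℂ] K := CFC.sqrt Tt with hB
  have hBB : B * B = Tt := CFC.sqrt_mul_sqrt_self Tt hpos
  have hBsa : IsSelfAdjoint B := IsSelfAdjoint.of_nonneg (CFC.sqrt_nonneg Tt)
  have hBc : ∀ a, B ∘L L a = L a ∘L B := by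
    intro a
    exact (W_comm hL hLA hW hYc a).cfcₙ_nnreal NNReal.sqrt
  have hBn : ∀ ξ, ‖B ξ‖ ^ 2 = ‖ξ‖ ^ 2 - ‖W ξ‖ ^ 2 := by
    intro ξ
    have h1 : ⟪B ξ, B ξ⟫_ℂ = ⟪Tt ξ, ξ⟫_ℂ := by
      rw [← hBB]
      show _ = ⟪B (B ξ), ξ⟫_ℂ
      have h2 := ContinuousLinearMap.adjoint_inner_left B ξ (B ξ)
      rw [← ContinuousLinearMap.star_eq_adjoint, hBsa.star_eq] at h2
      exact h2.symm
    rw [hTt, tt_inner, inner_self_eq_norm_sq_to_K] at h1
    have h3 : ((‖B ξ‖ ^ 2 : ℝ) : ℂ) = ((‖ξ‖ ^ 2 - ‖W ξ‖ ^ 2 : ℝ) : ℂ) := by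
      rw [← h1]
      push_cast
      rfl
    exact Complex.ofReal_injective h3
  -- all the products `G x B` vanish
  have hGB : ∀ x, G x ∘L B = 0 := by
    intro x
    by_contra hne
    set c : ℝ := (‖G x‖ + 1)⁻¹ with hc
    have hcpos : 0 < c := by positivity
    set R : K →L[ℂ] KA := (c : ℂ) • (G x ∘L B) with hR
    have hRne : R ≠ 0 := by
      rw [hR]
      exact smul_ne_zero (by exact_mod_cast hcpos.ne') hne
    have hRle : ∀ ξ, ‖R ξ‖ ^ 2 ≤ ‖B ξ‖ ^ 2 := by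
      intro ξ
      have h1 : ‖R ξ‖ = c * ‖G x (B ξ)‖ := by
        show ‖(c : ℂ) • G x (B ξ)‖ = _
        rw [norm_smul, Complex.norm_real, Real.norm_of_nonneg hcpos.le]
      have h2 : ‖G x (B ξ)‖ ≤ ‖G x‖ * ‖B ξ‖ := (G x).le_opNorm _
      have h3 : c * ‖G x‖ ≤ 1 := by
        rw [hc, inv_mul_le_iff₀ (by positivity)]
        linarith
      have h4 : ‖R ξ‖ ≤ ‖B ξ‖ := by
        rw [h1]
        calc c * ‖G x (B ξ)‖ ≤ c * (‖G x‖ * ‖B ξ‖) := mul_le_mul_of_nonneg_left h2 hcpos.le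
          _ = (c * ‖G x‖) * ‖B ξ‖ := by ring
          _ ≤ 1 * ‖B ξ‖ := mul_le_mul_of_nonneg_right h3 (norm_nonneg _)
          _ = ‖B ξ‖ := one_mul _
      exact pow_le_pow_left₀ (norm_nonneg _) h4 2
    have hRc : ∀ a, R ∘L L a = LA a ∘L R := by
      intro a
      rw [hR, ContinuousLinearMap.smul_comp, ContinuousLinearMap.comp_smul,
        ContinuousLinearMap.comp_assoc, hBc, ← ContinuousLinearMap.comp_assoc, hG,
        ContinuousLinearMap.comp_assoc]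
    -- a fresh index
    obtain ⟨n, hn⟩ : ∃ n : ℕ, (n, R) ∉ Y := by
      by_contra hall
      push Not at hall
      obtain ⟨ξ, hξ⟩ : ∃ ξ, R ξ ≠ 0 := by
        by_contra h
        push Not at h
        exact hRne (ContinuousLinearMap.ext h)
      have hξ' : 0 < ‖R ξ‖ ^ 2 := by
        have := norm_pos_iff.2 hξ
        positivity
      obtain ⟨k, hk⟩ := exists_nat_gt (‖ξ‖ ^ 2 / ‖R ξ‖ ^ 2)
      have h1 := hYb ((Finset.range k).image (fun i => (i, R))) (by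
        intro p hp
        simp only [Finset.coe_image, Set.mem_image] at hp
        obtain ⟨i, _, rfl⟩ := hp
        exact hall i) ξ
      rw [Finset.sum_image (by
        intro i _ k _ hik
        exact (Prod.ext_iff.1 hik).1)] at h1
      change ∑ _x ∈ Finset.range k, ‖R ξ‖ ^ 2 ≤ ‖ξ‖ ^ 2 at h1
      rw [Finset.sum_const, Finset.card_range, nsmul_eq_mul] at h1
      rw [div_lt_iff₀ hξ'] at hk
      linarith
    have hY' : insert (n, R) Y ∈ Good := by
      refine ⟨?_, ?_⟩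
      · intro p hp a
        rcases hp with rfl | hp
        · exact hRc a
        · exact hYc p hp a
      · intro s hs ξ
        have hsub : ((s.erase (n, R) : Finset (ℕ × (K →L[ℂ] KA))) :
            Set (ℕ × (K →L[ℂ] KA))) ⊆ Y := by
          intro p hp
          have hp' := Finset.mem_coe.1 hp
          rw [Finset.mem_erase] at hp'
          rcases hs hp'.2 with h | h
          · exact absurd h hp'.1
          · exact h
        have h1 : ∑ p ∈ s.erase (n, R), ‖p.2 ξ‖ ^ 2 ≤ ‖W ξ‖ ^ 2 := by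
          have h2 := (hasSum_W hW ξ).summable.sum_le_tsum
            ((s.erase (n, R)).subtype (fun p => p ∈ Y)) (fun _ _ => by positivity)
          rw [(hasSum_W hW ξ).tsum_eq] at h2
          have h3 : ∑ p ∈ (s.erase (n, R)).subtype (fun p => p ∈ Y), ‖p.1.2 ξ‖ ^ 2 =
              ∑ p ∈ s.erase (n, R), ‖p.2 ξ‖ ^ 2 := by
            rw [Finset.sum_subtype_eq_sum_filter (f := fun p : ℕ × (K →L[ℂ] KA) => ‖p.2 ξ‖ ^ 2),
              Finset.filter_true_of_mem]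
            intro p hp
            exact hsub hp
          rw [← h3]
          exact h2
        by_cases hmem : (n, R) ∈ s
        · rw [← Finset.add_sum_erase s _ hmem]
          have h4 := hRle ξ
          have h5 := hBn ξ
          show ‖R ξ‖ ^ 2 + _ ≤ _
          linarith
        · rw [Finset.erase_eq_of_notMem hmem] at h1
          exact h1.trans (hWle ξ)
    exact hn (hmax.le_of_ge hY' (Set.subset_insert _ _) (Set.mem_insert _ _))
  have hB0 : ∀ ξ, B ξ = 0 := by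
    intro ξ
    refine hker _ fun x => ?_
    exact congrArg (fun f : K →L[ℂ] KA => f ξ) (hGB x)
  refine ⟨Y, fun p => p.1.2, fun p a => hYc p.1 p.2 a, fun ξ => ?_⟩
  have h1 := hBn ξ
  rw [hB0, norm_zero] at h1
  have h2 : ‖ξ‖ ^ 2 = ‖W ξ‖ ^ 2 := by linarith
  rw [h2]
  exact hasSum_W hW ξ

end abs

theorem iso_holds (hVST : StVST) : StISO := by
  intro H _ _ _ M T A h TA hTA K _ _ _ j lam KA _ _ _ jA lamA hS hSA
  obtain ⟨V, hV1, hV2, hV3, hV4⟩ := hVST T h TA hTA hS hSA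
  -- right multiplications
  have hnj : ∀ x, ‖j x‖ = n2 T.τ x := fun x => CE.norm_j hS.inner x
  have hRm : ∀ x : Elt M, ∃ R : K →L[ℂ] K, ∀ y, R (j y) = j (y * x) := by
    intro x
    refine ⟨(j ∘ₗ LinearMap.mulRight ℂ x).extendOfNorm j, fun y => ?_⟩
    rw [LinearMap.extendOfNorm_eq hS.dense ⟨‖x‖, fun y => ?_⟩]
    · rfl
    · show ‖j (y * x)‖ ≤ ‖x‖ * ‖j y‖
      rw [hnj, hnj]
      exact n2_mul_le' T y x
  choose Rm hRm using hRm
  have hRmc : ∀ x a, Rm x ∘L lam a = lam a ∘L Rm x := by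
    intro x a
    apply CE.ext_j hS.dense
    intro y
    show Rm x (lam a (j y)) = lam a (Rm x (j y))
    rw [hS.lam_j, hRm, hRm, hS.lam_j, mul_assoc]
  have hRmi : ∀ x η, ⟪j 1, Rm x η⟫_ℂ = ⟪j (star x), η⟫_ℂ := by
    intro x η
    refine hS.dense.induction_on (p := fun η => ⟪j 1, Rm x η⟫_ℂ = ⟪j (star x), η⟫_ℂ) η
      (isClosed_eq (by fun_prop) (by fun_prop)) ?_
    intro y
    rw [hRm, hS.inner, hS.inner, star_one, one_mul, star_star, T.tracial]
  have hlam : ∀ a : Elt A, ContinuousLinearMap.adjoint (lam (inc h a)) =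
      lam (inc h (star a)) := by
    intro a
    rw [← ContinuousLinearMap.star_eq_adjoint, ← map_star]
    rfl
  have hlamA : ∀ a : Elt A, ContinuousLinearMap.adjoint (lamA a) = lamA (star a) := by
    intro a
    rw [← ContinuousLinearMap.star_eq_adjoint, ← map_star]
  refine exists_decomp (fun a : Elt A => lam (inc h a)) (fun a : Elt A => lamA a) star hlam hlamA
    (X := Elt M) (fun x => ContinuousLinearMap.adjoint V ∘L Rm x) ?_ ?_
  · intro x a
    rw [ContinuousLinearMap.comp_assoc, hRmc, ← ContinuousLinearMap.comp_assoc, ← hV4,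
      ContinuousLinearMap.comp_assoc]
  · intro ξ hξ
    refine hS.dense.eq_zero_of_inner_right ℂ ?_
    intro x
    have h1 : ⟪jA 1, ContinuousLinearMap.adjoint V (Rm (star x) ξ)⟫_ℂ = 0 := by
      have := hξ (star x)
      rw [ContinuousLinearMap.comp_apply] at this
      rw [this, inner_zero_right]
    rw [ContinuousLinearMap.adjoint_inner_right, hV1] at h1
    have h2 : inc h (1 : Elt A) = 1 := rfl
    rw [h2, hRmi, star_star] at h1
    exact h1

end ISOaux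

theorem iso_holds (hVST : StVST) : StISO := ISOaux.iso_holds hVST

end Pool.Agent.H811R4.SD
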