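import Pool.Agent.H811R4.SD.Stubs
import Pool.Agent.Helper278.Factor
import Pool.Agent.Helper278.Conj
import Pool.Agent.Helper278.CEProj

set_option autoImplicit false

open scoped InnerProductSpace BoundedContinuousFunction
open Filter

namespace Pool.Agent.H811R4.SD

open Pool.Agent.Helper278

/-- a von Neumann algebra without trivial center has a nontrivial central projection -/
theorem ma1_central {K : Type} [NormedAddCommGroup K] [InnerProductSpace ℂ K] [CompleteSpace K]
    (P : VonNeumannAlgebra K) (hP : ¬ HasTrivialCenter P) :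
    ∃ p ∈ P, p * p = p ∧ star p = p ∧ p ≠ 0 ∧ p ≠ 1 ∧ ∀ t ∈ P, t * p = p * t := by
  unfold HasTrivialCenter at hP
  push Not at hP
  obtain ⟨z0, hz0, hcen, hns⟩ := hP
  obtain ⟨p, h1, h2, h3, h4, h5⟩ := CE.exists_proj
    ({t | t ∈ P} ∪ {t | t ∈ P.commutant}) (by
      rintro t (ht | ht)
      · exact Or.inl (star_mem (s := P) ht)
      · exact Or.inr (star_mem (s := P.commutant) ht)) z0 (by
      rintro t (ht | ht)
      · exact (hcen t ht).symm
      · exact ((VonNeumannAlgebra.mem_commutant_iff.1 ht) z0 hz0).symm) hns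
  refine ⟨p, ?_, h1, h2, h3, h4, fun t ht => h5 t (Or.inl ht)⟩
  rw [← P.commutant_commutant, VonNeumannAlgebra.mem_commutant_iff]
  intro t ht
  exact h5 t (Or.inr ht)

theorem ma1_holds (hQMOD : StQMOD) (hRCV : StRCV) (hRES : StRES) : StMA1 := by
  intro H _ _ _ M T hM U Q _ _ _ _ π σ hπ hU F hF
  obtain ⟨K, _, _, _, N, e, T', hN, hT'⟩ := hQMOD T hM hπ hU
  have hei : ∀ x y : Q, e x = e y → x = y := fun x y h => EquivLike.injective e h
  obtain ⟨SF, hSFdef⟩ : ∃ SF : Set (Elt N), SF =
      {y | ∃ a ∈ F, y = e (π (BoundedContinuousFunction.const ℕ a))} := ⟨_, rfl⟩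
  have hSF : StarClosed SF := by
    intro y hy
    rw [hSFdef] at hy ⊢
    obtain ⟨a, ha, rfl⟩ := hy
    refine ⟨star a, hF a ha, ?_⟩
    rw [← map_star, ← map_star]
    rfl
  obtain ⟨P, hP⟩ := hRCV SF hSF
  have hPN : ∀ x ∈ P, x ∈ N := fun x hx => ((hP x).1 hx).1
  obtain ⟨TP, hTP⟩ := hRES T' hPN
  have key : ∀ q : Q, q ∈ NQ π F ↔ ((e q : Elt N) : K →L[ℂ] K) ∈ P := by
    intro q
    rw [hP]
    have e1 : e q ∈ RC SF ↔ q ∈ NQ π F := by
      constructor
      · intro h a ha
        apply hei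
        rw [map_mul, map_mul]
        exact h _ (by rw [hSFdef]; exact ⟨a, ha, rfl⟩)
      · intro h y hy
        rw [hSFdef] at hy
        obtain ⟨a, ha, rfl⟩ := hy
        rw [← map_mul, ← map_mul, h a ha]
    rw [← e1]
    constructor
    · intro h
      exact ⟨(e q).2, h⟩
    · rintro ⟨_, h⟩
      exact h
  have key' : ∀ x : Elt P, e.symm (inc hPN x) ∈ NQ π F := by
    intro x
    rw [key, StarAlgEquiv.apply_symm_apply]
    exact x.2
  by_cases hcen : HasTrivialCenter P
  · right
    intro ι _ q q' hq hq' hqF hq'F hσ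
    obtain ⟨pq, hpq⟩ : ∃ pq : ι → Elt P, ∀ i, inc hPN (pq i) = e (q i) :=
      ⟨fun i => ⟨(e (q i) : Elt N), (key _).1 (hqF i)⟩, fun i => rfl⟩
    obtain ⟨pq', hpq'⟩ : ∃ pq' : ι → Elt P, ∀ i, inc hPN (pq' i) = e (q' i) :=
      ⟨fun i => ⟨(e (q' i) : Elt N), (key _).1 (hq'F i)⟩, fun i => rfl⟩
    have hinj : ∀ x y : Elt P, inc hPN x = inc hPN y → x = y := by
      intro x y h
      exact Subtype.ext (congrArg (fun z : Elt N => (z : K →L[ℂ] K)) h)
    have imul : ∀ x y : Elt P, inc hPN (x * y) = inc hPN x * inc hPN y := fun _ _ => rfl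
    have istar : ∀ x : Elt P, inc hPN (star x) = star (inc hPN x) := fun _ => rfl
    have ione : inc hPN (1 : Elt P) = 1 := rfl
    have izero : inc hPN (0 : Elt P) = 0 := rfl
    have isum : ∀ f : ι → Elt P, inc hPN (∑ i, f i) = ∑ i, inc hPN (f i) := by
      intro f
      let g : Elt P →+ Elt N := AddMonoidHom.mk' (inc hPN) (fun _ _ => rfl)
      exact map_sum g f Finset.univ
    have pvm : ∀ (f : ι → Elt P) (r : ι → Q), PVM r → (∀ i, inc hPN (f i) = e (r i)) → PVM f := by
      intro f r hr hf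
      refine ⟨fun i => hinj _ _ ?_, fun i => hinj _ _ ?_, fun i j hij => hinj _ _ ?_,
        hinj _ _ ?_⟩
      · rw [istar, hf, ← map_star, hr.star_eq]
      · rw [imul, hf, ← map_mul, hr.idem]
      · rw [imul, hf, hf, ← map_mul, hr.orth i j hij, map_zero, izero]
      · rw [isum, Finset.sum_congr rfl fun i _ => hf i, ← map_sum, hr.sum, map_one, ione]
    have h1 := pvm pq q hq hpq
    have h2 := pvm pq' q' hq' hpq'
    obtain ⟨w, hw1, hw2, hw3⟩ := (trAlg TP).conj_pvm pq pq' h1 h2 (fun i =>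
      exists_equiv TP hcen (pq i) (pq' i) (h1.star_eq i) (h1.idem i) (h2.star_eq i) (h2.idem i) (by
        rw [hTP, hTP, hpq, hpq', hT', hT', hσ]))
    have hu1 : star (e.symm (inc hPN w)) * e.symm (inc hPN w) = 1 := by
      rw [← map_star, ← map_mul, ← istar, ← imul, hw1, ione, map_one]
    have hu2 : e.symm (inc hPN w) * star (e.symm (inc hPN w)) = 1 := by
      rw [← map_star, ← map_mul, ← istar, ← imul, hw2, ione, map_one]
    refine ⟨e.symm (inc hPN w), key' w, ⟨hu1, hu2⟩, fun i => ?_⟩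
    have h3 : q' i = e.symm (inc hPN w) * q i * star (e.symm (inc hPN w)) := by
      apply hei
      rw [map_mul, map_mul, map_star, StarAlgEquiv.apply_symm_apply, ← hpq, ← hpq', ← istar,
        ← imul, ← imul, hw3]
    rw [h3]
    calc star (e.symm (inc hPN w)) * (e.symm (inc hPN w) * q i * star (e.symm (inc hPN w))) *
          e.symm (inc hPN w)
        = (star (e.symm (inc hPN w)) * e.symm (inc hPN w)) * q i *
          (star (e.symm (inc hPN w)) * e.symm (inc hPN w)) := by noncomm_ring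
      _ = q i := by rw [hu1, one_mul, mul_one]
  · left
    obtain ⟨p, hp, h1, h2, h3, h4, h5⟩ := ma1_central P hcen
    obtain ⟨pP, hpP⟩ : ∃ pP : Elt P, (pP : K →L[ℂ] K) = p := ⟨⟨p, hp⟩, rfl⟩
    have hez : e (e.symm (inc hPN pP)) = inc hPN pP := StarAlgEquiv.apply_symm_apply _ _
    have hval : ((inc hPN pP : Elt N) : K →L[ℂ] K) = p := hpP
    refine ⟨e.symm (inc hPN pP), ⟨?_, ?_⟩, ?_, ?_, key' pP, ?_⟩
    · apply hei
      rw [map_star, hez]
      apply Subtype.ext
      show star ((inc hPN pP : Elt N) : K →L[ℂ] K) = _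
      rw [hval, h2]
    · apply hei
      rw [map_mul, hez]
      apply Subtype.ext
      show ((inc hPN pP : Elt N) : K →L[ℂ] K) * ((inc hPN pP : Elt N) : K →L[ℂ] K) = _
      rw [hval, h1]
    · intro h
      apply h3
      have := congrArg e h
      rw [hez, map_zero] at this
      rw [← hval, this]
      rfl
    · intro h
      apply h4
      have := congrArg e h
      rw [hez, map_one] at this
      rw [← hval, this]
      rfl
    · intro y hy
      apply hei
      rw [map_mul, map_mul, hez]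
      apply Subtype.ext
      show ((inc hPN pP : Elt N) : K →L[ℂ] K) * ((e y : Elt N) : K →L[ℂ] K) =
        ((e y : Elt N) : K →L[ℂ] K) * ((inc hPN pP : Elt N) : K →L[ℂ] K)
      rw [hval]
      exact (h5 _ ((key y).1 hy)).symm

end Pool.Agent.H811R4.SD
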