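import Pool.Agent.H811R4.SD.Stubs
import Pool.Agent.Helper278.Lift

/-! StMA2: almost conjugacy of good partitions (helper493) -/

set_option autoImplicit false

open scoped InnerProductSpace BoundedContinuousFunction Topology
open Filter

namespace Pool.Agent.H811R4.SD

open Pool.Agent.Helper278

namespace MA2

section

variable {H : Type} [NormedAddCommGroup H] [InnerProductSpace ℂ H] [CompleteSpace H]
  {M : VonNeumannAlgebra H}

theorem norm_proj_le (p : Elt M) (h1 : star p = p) (h2 : p * p = p) : ‖p‖ ≤ 1 := by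
  have h3 : ‖star (p : H →L[ℂ] H) * (p : H →L[ℂ] H)‖ = ‖(p : H →L[ℂ] H)‖ * ‖(p : H →L[ℂ] H)‖ :=
    CStarRing.norm_star_mul_self
  have h4 : star (p : H →L[ℂ] H) * (p : H →L[ℂ] H) = (p : H →L[ℂ] H) := by
    have : star p * p = p := by rw [h1, h2]
    exact congrArg Subtype.val this
  rw [h4] at h3
  show ‖(p : H →L[ℂ] H)‖ ≤ 1
  by_contra hc
  push Not at hc
  nlinarith

/-- bounded sequences -/
noncomputable def bs (x : ℕ → Elt M) (h : ∀ n, ‖x n‖ ≤ 1) : ℕ →ᵇ Elt M :=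
  BoundedContinuousFunction.ofNormedAddCommGroupDiscrete x 1 h

theorem bs_apply (x : ℕ → Elt M) (h : ∀ n, ‖x n‖ ≤ 1) (n : ℕ) : bs x h n = x n := rfl

theorem U_le {U : Ultrafilter ℕ} (hU : ∀ n, {n} ∉ U) : (U : Filter ℕ) ≤ atTop := by
  rcases Ultrafilter.le_cofinite_or_eq_pure U with h1 | ⟨n, hn⟩
  · rwa [Nat.cofinite_eq_atTop] at h1
  · exfalso
    apply hU n
    rw [hn]
    exact Ultrafilter.mem_pure.2 rfl

end

section

variable {H : Type} [NormedAddCommGroup H] [InnerProductSpace ℂ H] [CompleteSpace H]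
  {M : VonNeumannAlgebra H} (T : TracialState M) {U : Ultrafilter ℕ}
  {Q : Type} [Ring Q] [StarRing Q] [Algebra ℂ Q] [StarModule ℂ Q]
  {π : (ℕ →ᵇ Elt M) →⋆ₐ[ℂ] Q} {σ : Q → ℂ}

/-- the partition of the ultrapower given by a sequence of partitions -/
theorem mk_pvm (hπ : IsTracialUltrapower T.τ U π σ) (hU : ∀ n, {n} ∉ U) (F : Set (Elt M))
    (m : ℕ) (q : ℕ → Fin (2 ^ m) → Elt M) (hq : ∀ n : ℕ, GoodPVM T F m (1 / ((n : ℝ) + 1)) (q n))
    (hn : ∀ i n, ‖q n i‖ ≤ 1) :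
    PVM (fun i => π (bs (fun n => q n i) (hn i))) ∧
    (∀ i, π (bs (fun n => q n i) (hn i)) ∈ NQ π F) ∧
    ∀ i, σ (π (bs (fun n => q n i) (hn i))) = 1 / 2 ^ m := by
  refine ⟨⟨?_, ?_, ?_, ?_⟩, ?_, ?_⟩
  · intro i
    rw [← map_star]
    congr 1
    ext n : 1
    exact (hq n).pvm.star_eq i
  · intro i
    rw [← map_mul]
    congr 1
    ext n : 1
    exact (hq n).pvm.idem i
  · intro i j hij
    rw [← map_mul]
    have : (bs (fun n => q n i) (hn i)) * (bs (fun n => q n j) (hn j)) = 0 := by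
      ext n : 1
      exact (hq n).pvm.orth i j hij
    rw [this, map_zero]
  · rw [← map_sum]
    have : ∑ i, bs (fun n => q n i) (hn i) = 1 := by
      ext n : 1
      rw [BoundedContinuousFunction.sum_apply]
      exact (hq n).pvm.sum
    rw [this, map_one]
  · intro i a ha
    rw [← map_mul, ← map_mul, pi_eq_iff hπ]
    refine squeeze_zero (fun n => n2_nonneg _ _) (fun n => ?_)
      ((tendsto_one_div_add_atTop_nhds_zero_nat (𝕜 := ℝ)).mono_left (U_le hU))
    have h1 := (hq n).com i a ha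
    rw [(trAlg T).n2_sub_comm] at h1
    exact h1
  · intro i
    have h1 := hπ.trace (bs (fun n => q n i) (hn i))
    have h2 : (fun n => T.τ (bs (fun n => q n i) (hn i) n)) = fun _ => (1 / 2 ^ m : ℂ) := by
      funext n
      exact (hq n).tr i
    rw [h2] at h1
    exact tendsto_nhds_unique h1 tendsto_const_nhds

end

end MA2

open MA2

theorem ma2_holds : StMA2 := by
  intro H _ _ _ M T U Q _ _ _ _ π σ hπ hU F hF hFf hyp m ε hε
  by_contra hcon
  push Not at hcon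
  have hc := fun n : ℕ => hcon (1 / ((n : ℝ) + 1)) (by positivity)
  choose q q' hq hq' hbad using hc
  have hn : ∀ i n, ‖q n i‖ ≤ 1 := fun i n =>
    norm_proj_le _ ((hq n).pvm.star_eq i) ((hq n).pvm.idem i)
  have hn' : ∀ i n, ‖q' n i‖ ≤ 1 := fun i n =>
    norm_proj_le _ ((hq' n).pvm.star_eq i) ((hq' n).pvm.idem i)
  obtain ⟨a1, a2, a3⟩ := mk_pvm T hπ hU F m q hq hn
  obtain ⟨b1, b2, b3⟩ := mk_pvm T hπ hU F m q' hq' hn'
  obtain ⟨u, hu1, hu2, hu3⟩ := hyp (Fin (2 ^ m)) _ _ a1 b1 a2 b2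
    (fun i => (a3 i).trans (b3 i).symm)
  obtain ⟨a, rfl⟩ := exists_unitary_lift hπ u (Unitary.mem_iff.2 hu2)
  have e1 : ∀ i, ∀ᶠ n in (U : Filter ℕ),
      n2 T.τ (star (a n : Elt M) * q' n i * (a n : Elt M) - q n i) ≤ ε := by
    intro i
    have h1 := hu3 i
    rw [← map_star, ← map_mul, ← map_mul, pi_eq_iff hπ] at h1
    exact (h1.eventually (gt_mem_nhds hε)).mono fun n hn => hn.le
  have e2 : ∀ b ∈ F, ∀ᶠ n in (U : Filter ℕ),
      n2 T.τ ((a n : Elt M) * b - b * (a n : Elt M)) ≤ ε := by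
    intro b hb
    have h1 := hu1 b hb
    rw [← map_mul, ← map_mul, pi_eq_iff hπ] at h1
    refine (h1.eventually (gt_mem_nhds hε)).mono fun n hn => ?_
    rw [(trAlg T).n2_sub_comm]
    exact hn.le
  have e3 : ∀ᶠ n in (U : Filter ℕ), ∀ i,
      n2 T.τ (star (a n : Elt M) * q' n i * (a n : Elt M) - q n i) ≤ ε :=
    Filter.eventually_all.2 e1
  have e4 : ∀ᶠ n in (U : Filter ℕ), ∀ b ∈ F,
      n2 T.τ ((a n : Elt M) * b - b * (a n : Elt M)) ≤ ε :=
    (Filter.eventually_all_finite hFf).2 e2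
  obtain ⟨n, hn1, hn2⟩ := (e3.and e4).exists
  obtain ⟨b, hb, hlt⟩ := hbad n (a n : Elt M) (Unitary.mem_iff.1 (a n).2) hn1
  exact absurd (hn2 b hb) (not_le.2 hlt)

end Pool.Agent.H811R4.SD
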