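import Pool.Agent.H811R4.SD.Stubs

/-! MA3: the factorial case. -/

set_option autoImplicit false

open scoped InnerProductSpace BoundedContinuousFunction
open Filter

namespace Pool.Agent.H811R4.SD

open Pool.Agent.Helper278

theorem ma3_holds (hG3 : StG3) (hMA3a : StMA3a) (hMA3b : StMA3b) : StMA3 := by
  intro H _ _ _ M T F hF hC hG ε hε
  obtain ⟨y, hy, hyt, hc⟩ := hMA3b T F (min ε 1) (lt_min hε one_pos) (min_le_right _ _)
    (hMA3a T F hF hC hG (min ε 1) (lt_min hε one_pos))
  refine ⟨{y, star y}, ?_, hG3 T y hy hyt, ?_⟩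
  · rintro a (rfl | rfl)
    · right; rfl
    · left; exact star_star y
  · intro a ha
    obtain ⟨c, hcy, hcn⟩ := hc a ha
    refine ⟨c, ?_, hcn.trans (min_le_left _ _)⟩
    rintro b (rfl | rfl)
    · exact hcy.symm
    · calc star y * c = star y * c * (y * star y) := by rw [hy.2, mul_one]
        _ = star y * (c * y) * star y := by simp only [mul_assoc]
        _ = star y * (y * c) * star y := by rw [hcy]
        _ = (star y * y) * c * star y := by simp only [mul_assoc]
        _ = c * star y := by rw [hy.1, one_mul]

end Pool.Agent.H811R4.SD
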