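import Mathlib
import Pool.Agent.H811R4.SD.Stubs

/-!
# A coherent sequence of good partitions
-/

set_option autoImplicit false

open scoped InnerProductSpace BoundedContinuousFunction Topology
open Filter

namespace Pool.Agent.H811R4.SD

open Pool.Agent.Helper278

namespace TMA3a

theorem sum_pairs_range {A : Type*} [AddCommMonoid A] (g : ℕ → A) (n : ℕ) :
    ∑ i ∈ Finset.range (2 * n), g i = ∑ k ∈ Finset.range n, (g (2 * k) + g (2 * k + 1)) := by
  induction n with
  | zero => simp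
  | succ n ih =>
    rw [show 2 * (n + 1) = 2 * n + 1 + 1 by ring, Finset.sum_range_succ, Finset.sum_range_succ, ih,
      Finset.sum_range_succ, add_assoc]

theorem sum_pairs {A : Type*} [AddCommMonoid A] {N n : ℕ} (h : N = 2 * n) (f : Fin N → A) :
    ∑ k : Fin n, (f ⟨2 * k, by omega⟩ + f ⟨2 * k + 1, by omega⟩) = ∑ i, f i := by
  obtain ⟨g, hg⟩ : ∃ g : ℕ → A, ∀ (i : ℕ) (hi : i < N), g i = f ⟨i, hi⟩ :=
    ⟨fun i => if hi : i < N then f ⟨i, hi⟩ else 0, fun i hi => dif_pos hi⟩
  have h1 : ∑ i, f i = ∑ i ∈ Finset.range N, g i := by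
    rw [← Fin.sum_univ_eq_sum_range]
    exact Finset.sum_congr rfl fun i _ => (hg i i.isLt).symm
  have h2 : ∑ k : Fin n, (f ⟨2 * k, by omega⟩ + f ⟨2 * k + 1, by omega⟩) =
      ∑ k ∈ Finset.range n, (g (2 * k) + g (2 * k + 1)) := by
    rw [← Fin.sum_univ_eq_sum_range (fun k => g (2 * k) + g (2 * k + 1)) n]
    exact Finset.sum_congr rfl fun k _ => by
      rw [hg (2 * k) (by omega), hg (2 * k + 1) (by omega)]
  rw [h1, h2, h, sum_pairs_range]

variable {H : Type} [NormedAddCommGroup H] [InnerProductSpace ℂ H] [CompleteSpace H]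
  {M : VonNeumannAlgebra H}

theorem good_mono {T : TracialState M} {F : Set (Elt M)} {m : ℕ} {δ δ' : ℝ} (h : δ ≤ δ')
    {q : Fin (2 ^ m) → Elt M} (hq : GoodPVM T F m δ q) : GoodPVM T F m δ' q :=
  ⟨hq.pvm, hq.tr, fun i a ha => (hq.com i a ha).trans h⟩

/-- coarse graining -/
theorem coarse {T : TracialState M} {F : Set (Elt M)} {m : ℕ} {δ δ' : ℝ} (h : 2 * δ ≤ δ')
    {q : Fin (2 ^ (m + 1)) → Elt M} (hq : GoodPVM T F (m + 1) δ q) :
    GoodPVM T F m δ' (fun k => q ⟨2 * k, by have := k.isLt; rw [pow_succ]; omega⟩ +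
      q ⟨2 * k + 1, by have := k.isLt; rw [pow_succ]; omega⟩) := by
  have hT := trAlg T
  refine ⟨⟨fun k => ?_, fun k => ?_, fun k l hkl => ?_, ?_⟩, fun k => ?_, fun k a ha => ?_⟩
  · rw [star_add, hq.pvm.star_eq, hq.pvm.star_eq]
  · rw [add_mul, mul_add, mul_add, hq.pvm.idem, hq.pvm.idem, hq.pvm.orth _ _ (by
      intro h'
      have := congrArg Fin.val h'
      simp only at this
      omega), hq.pvm.orth _ _ (by
      intro h'
      have := congrArg Fin.val h'
      simp only at this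
      omega), add_zero, zero_add]
  · have hkl' : (k : ℕ) ≠ l := fun h' => hkl (Fin.ext h')
    rw [add_mul, mul_add, mul_add, hq.pvm.orth _ _ (by
      intro h'
      have := congrArg Fin.val h'
      simp only at this
      omega), hq.pvm.orth _ _ (by
      intro h'
      have := congrArg Fin.val h'
      simp only at this
      omega), hq.pvm.orth _ _ (by
      intro h'
      have := congrArg Fin.val h'
      simp only at this
      omega), hq.pvm.orth _ _ (by
      intro h'
      have := congrArg Fin.val h'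
      simp only at this
      omega), add_zero, add_zero]
  · rw [← hq.pvm.sum]
    exact sum_pairs (pow_succ' 2 m) q
  · rw [map_add, hq.tr, hq.tr, pow_succ]
    ring
  · have h1 := hq.com ⟨2 * k, by have := k.isLt; rw [pow_succ]; omega⟩ a ha
    have h2 := hq.com ⟨2 * k + 1, by have := k.isLt; rw [pow_succ]; omega⟩ a ha
    have h3 := hT.n2_add_le (q ⟨2 * k, by have := k.isLt; rw [pow_succ]; omega⟩ * a -
      a * q ⟨2 * k, by have := k.isLt; rw [pow_succ]; omega⟩)
      (q ⟨2 * k + 1, by have := k.isLt; rw [pow_succ]; omega⟩ * a -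
      a * q ⟨2 * k + 1, by have := k.isLt; rw [pow_succ]; omega⟩)
    have e : (q ⟨2 * k, by have := k.isLt; rw [pow_succ]; omega⟩ +
        q ⟨2 * k + 1, by have := k.isLt; rw [pow_succ]; omega⟩) * a -
        a * (q ⟨2 * k, by have := k.isLt; rw [pow_succ]; omega⟩ +
        q ⟨2 * k + 1, by have := k.isLt; rw [pow_succ]; omega⟩) =
        (q ⟨2 * k, by have := k.isLt; rw [pow_succ]; omega⟩ * a -
        a * q ⟨2 * k, by have := k.isLt; rw [pow_succ]; omega⟩) +
        (q ⟨2 * k + 1, by have := k.isLt; rw [pow_succ]; omega⟩ * a -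
        a * q ⟨2 * k + 1, by have := k.isLt; rw [pow_succ]; omega⟩) := by
      rw [add_mul, mul_add]
      abel
    rw [e]
    linarith

end TMA3a

theorem ma3a_holds : StMA3a := by
  intro H _ _ _ M T F hF hC hG ε hε
  have he : ∀ m : ℕ, 0 < ε / 8 ^ (m + 1) := fun m => by positivity
  choose δ hδ hδ' using fun m : ℕ => hC m (ε / 8 ^ (m + 1)) (he m)
  obtain ⟨d, hd⟩ : ∃ d : ℕ → ℝ, ∀ m, d m = min (min (ε / 8 ^ (m + 1)) (δ m)) (δ (m - 1) / 2) :=
    ⟨_, fun _ => rfl⟩
  have hd0 : ∀ m, 0 < d m := by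
    intro m
    rw [hd]
    exact lt_min (lt_min (he m) (hδ m)) (half_pos (hδ (m - 1)))
  choose q hq using fun m : ℕ => hG m (d m) (hd0 m)
  have h1 : ∀ m, d m ≤ ε / 8 ^ (m + 1) := by
    intro m
    rw [hd]
    exact (min_le_left _ _).trans (min_le_left _ _)
  have h2 : ∀ m, d m ≤ δ m := by
    intro m
    rw [hd]
    exact (min_le_left _ _).trans (min_le_right _ _)
  have h3 : ∀ m, 2 * d (m + 1) ≤ δ m := by
    intro m
    have h4 : d (m + 1) ≤ δ (m + 1 - 1) / 2 := by
      rw [hd]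
      exact min_le_right _ _
    rw [Nat.add_sub_cancel] at h4
    linarith
  choose v hv1 hv2 hv3 using fun m : ℕ =>
    hδ' m (q m) _ (TMA3a.good_mono (h2 m) (hq m)) (TMA3a.coarse (h3 m) (hq (m + 1)))
  refine ⟨q, v, fun m => TMA3a.good_mono (h1 m) (hq m), hv1, hv3, ?_⟩
  intro m k k0 k1 hk0 hk1
  have h4 := hv2 m k
  have e0 : k0 = ⟨2 * k, by have := k.isLt; rw [pow_succ]; omega⟩ := Fin.ext hk0
  have e1 : k1 = ⟨2 * k + 1, by have := k.isLt; rw [pow_succ]; omega⟩ := Fin.ext hk1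
  rw [e0, e1]
  exact h4

end Pool.Agent.H811R4.SD
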