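import Mathlib
import Pool.Agent.H811R4.SD.Stubs

/-!
# The limit of a coherent sequence of good partitions (StMA3b)
-/

set_option autoImplicit false
set_option linter.unusedSectionVars false

open scoped InnerProductSpace BoundedContinuousFunction Topology
open Filter

namespace Pool.Agent.H811R4.SD

open Pool.Agent.Helper278

namespace MA3b

section alg

variable {A : Type*} [Ring A] [StarRing A] [Algebra ℂ A] [StarModule ℂ A] {τ : A →ₗ[ℂ] ℂ}

theorem n2_uni_mul {u : A} (hu : star u * u = 1) (x : A) : n2 τ (u * x) = n2 τ x := by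
  unfold n2
  congr 3
  rw [star_mul, mul_assoc, ← mul_assoc (star u), hu, one_mul]

theorem n2_mul_uni (h : TrAlg τ) {u : A} (hu : u * star u = 1) (x : A) :
    n2 τ (x * u) = n2 τ x := by
  rw [← h.n2_star, star_mul, n2_uni_mul (by rw [star_star]; exact hu), h.n2_star]

theorem n2_conj (h : TrAlg τ) {u : A} (h2 : u * star u = 1) (x : A) :
    n2 τ (star u * x * u) = n2 τ x := by
  rw [n2_mul_uni h h2, n2_uni_mul (by rw [star_star]; exact h2)]

theorem n2_smul (h : TrAlg τ) (c : ℂ) (x : A) : n2 τ (c • x) = ‖c‖ * n2 τ x := by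
  have h1 : n2 τ (c • x) ^ 2 = (‖c‖ * n2 τ x) ^ 2 := by
    rw [mul_pow, h.n2_sq, h.n2_sq, star_smul, smul_mul_smul_comm, map_smul, smul_eq_mul]
    have : star c * c = ((‖c‖ ^ 2 : ℝ) : ℂ) := by
      rw [Complex.star_def, mul_comm, Complex.mul_conj, Complex.normSq_eq_norm_sq]
    rw [this, Complex.re_ofReal_mul]
  exact (pow_left_inj₀ (n2_nonneg _ _) (mul_nonneg (norm_nonneg _) (n2_nonneg _ _))
    two_ne_zero).1 h1

theorem n2_sum_le (h : TrAlg τ) {ι : Type*} (s : Finset ι) (f : ι → A) :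
    n2 τ (∑ i ∈ s, f i) ≤ ∑ i ∈ s, n2 τ (f i) := by
  classical
  induction s using Finset.induction_on with
  | empty => simp [h.n2_zero]
  | insert a s ha ih =>
    rw [Finset.sum_insert ha, Finset.sum_insert ha]
    exact (h.n2_add_le _ _).trans (add_le_add le_rfl ih)

theorem eq_zero_of_n2 (h : TrAlg τ) (x : A) (hx : n2 τ x ≤ 0) : x = 0 := by
  apply h.faithful
  have h1 : n2 τ x = 0 := le_antisymm hx (n2_nonneg _ _)
  have h2 := h.n2_sq x
  rw [h1] at h2
  apply Complex.ext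
  · simpa using h2.symm
  · simpa using h.im_zero x

theorem tele (h : TrAlg τ) (x : ℕ → A) (C : ℝ)
    (hx : ∀ k, n2 τ (x (k + 1) - x k) ≤ C / 2 ^ k) (n m : ℕ) (hnm : n ≤ m) :
    n2 τ (x m - x n) ≤ 2 * C / 2 ^ n - 2 * C / 2 ^ m := by
  induction m, hnm using Nat.le_induction with
  | base => simp [h.n2_zero]
  | succ m hm ih =>
    have h1 := h.n2_tri (x (m + 1)) (x m) (x n)
    have h2 := hx m
    have h3 : 2 * C / 2 ^ m - 2 * C / 2 ^ (m + 1) = C / 2 ^ m := by
      rw [pow_succ]; field_simp; ring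
    linarith

theorem cauchy_of (h : TrAlg τ) (x : ℕ → A) (C : ℝ) (hC : 0 ≤ C)
    (hx : ∀ k, n2 τ (x (k + 1) - x k) ≤ C / 2 ^ k) :
    ∀ ε : ℝ, 0 < ε → ∃ n0, ∀ n ≥ n0, ∀ m ≥ n0, n2 τ (x n - x m) ≤ ε := by
  intro ε hε
  obtain ⟨n0, hn0⟩ : ∃ n0 : ℕ, 4 * C / ε < 2 ^ n0 := pow_unbounded_of_one_lt _ (by norm_num)
  refine ⟨n0, fun n hn m hm => ?_⟩
  have h1 := tele h x C hx n0 n hn
  have h2 := tele h x C hx n0 m hm
  have h3 := h.n2_tri (x n) (x n0) (x m)
  rw [h.n2_sub_comm (x n0)] at h3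
  have h4 : 0 ≤ 2 * C / 2 ^ n := by positivity
  have h5 : 0 ≤ 2 * C / 2 ^ m := by positivity
  have h6 : 4 * C / 2 ^ n0 ≤ ε := by
    rw [div_le_iff₀ (by positivity)]
    rw [div_lt_iff₀ hε] at hn0
    linarith
  have h7 : 2 * C / 2 ^ n0 + 2 * C / 2 ^ n0 = 4 * C / 2 ^ n0 := by ring
  linarith

/-! ### combinations of a partition -/

section comb

variable {ι : Type*} [Fintype ι] {q : ι → A}

theorem comb_mul (hq : PVM q) (a b : ι → ℂ) :
    (∑ i, a i • q i) * (∑ i, b i • q i) = ∑ i, (a i * b i) • q i := by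
  classical
  rw [Finset.sum_mul_sum]
  refine Finset.sum_congr rfl fun i _ => ?_
  rw [Finset.sum_eq_single i]
  · rw [smul_mul_smul_comm, hq.idem]
  · intro j _ hj
    rw [smul_mul_smul_comm, hq.orth i j (Ne.symm hj), smul_zero]
  · intro hi
    exact absurd (Finset.mem_univ i) hi

theorem comb_star (hq : PVM q) (a : ι → ℂ) :
    star (∑ i, a i • q i) = ∑ i, (star (a i)) • q i := by
  rw [star_sum]
  refine Finset.sum_congr rfl fun i _ => ?_
  rw [star_smul, hq.star_eq]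

theorem comb_one (hq : PVM q) : ∑ i, (1 : ℂ) • q i = 1 := by
  simp only [one_smul]
  exact hq.sum

theorem comb_pow (hq : PVM q) (a : ι → ℂ) (l : ℕ) :
    (∑ i, a i • q i) ^ l = ∑ i, (a i ^ l) • q i := by
  induction l with
  | zero => simp only [pow_zero]; exact (comb_one hq).symm
  | succ l ih => rw [pow_succ, ih, comb_mul hq]; simp only [pow_succ]

theorem star_mul_norm_one {c : ℂ} (hc : ‖c‖ = 1) : star c * c = 1 := by
  rw [Complex.star_def, mul_comm, Complex.mul_conj, Complex.normSq_eq_norm_sq, hc]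
  norm_num

theorem comb_uni (hq : PVM q) (a : ι → ℂ) (ha : ∀ i, ‖a i‖ = 1) :
    Uni (∑ i, a i • q i) := by
  constructor
  · rw [comb_star hq, comb_mul hq]
    simp only [fun i => star_mul_norm_one (ha i)]
    exact comb_one hq
  · rw [comb_star hq, comb_mul hq]
    simp only [fun i => (mul_comm (a i) (star (a i))).trans (star_mul_norm_one (ha i))]
    exact comb_one hq

end comb

theorem comb_n2 (h : TrAlg τ) {m : ℕ} {q : Fin (2 ^ m) → A} (hq : PVM q)
    (ht : ∀ i, τ (q i) = 1 / 2 ^ m) (c : Fin (2 ^ m) → ℂ) (C : ℝ) (hC : 0 ≤ C)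
    (hc : ∀ i, ‖c i‖ ≤ C) : n2 τ (∑ i, c i • q i) ≤ C := by
  refine le_of_sq_le_sq ?_ hC
  rw [h.n2_sq, comb_star hq, comb_mul hq, map_sum]
  have h1 : ∀ i, τ ((star (c i) * c i) • q i) = ((‖c i‖ ^ 2 / 2 ^ m : ℝ) : ℂ) := by
    intro i
    rw [map_smul, ht, smul_eq_mul, Complex.star_def, mul_comm ((starRingEnd ℂ) (c i)),
      Complex.mul_conj, Complex.normSq_eq_norm_sq]
    push_cast
    ring
  simp only [h1]
  rw [← Complex.ofReal_sum, Complex.ofReal_re]
  have h2 : ∀ i ∈ (Finset.univ : Finset (Fin (2 ^ m))), ‖c i‖ ^ 2 / 2 ^ m ≤ C ^ 2 / 2 ^ m := by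
    intro i _
    have := pow_le_pow_left₀ (norm_nonneg _) (hc i) 2
    gcongr
  refine (Finset.sum_le_sum h2).trans ?_
  rw [Finset.sum_const, Finset.card_univ, Fintype.card_fin, nsmul_eq_mul]
  push_cast
  rw [mul_div_assoc']
  rw [div_le_iff₀ (by positivity)]
  linarith

end alg

/-! ### sums and roots of unity -/

theorem sum_split (m : ℕ) {B : Type*} [AddCommMonoid B] (f : Fin (2 ^ (m + 1)) → B) :
    ∑ i, f i = ∑ k : Fin (2 ^ m),
      (f ⟨2 * k, by have := k.2; rw [pow_succ]; omega⟩ +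
        f ⟨2 * k + 1, by have := k.2; rw [pow_succ]; omega⟩) := by
  have h1 : ∑ i, f i = ∑ x : Fin (2 ^ m) × Fin 2, f (finProdFinEquiv (m := 2 ^ m) (n := 2) x) :=
    (Equiv.sum_comp (finProdFinEquiv (m := 2 ^ m) (n := 2)) f).symm
  rw [h1, Fintype.sum_prod_type]
  refine Finset.sum_congr rfl fun k _ => ?_
  rw [Fin.sum_univ_two]
  congr 1
  · congr 1
    apply Fin.ext
    simp [finProdFinEquiv]
  · congr 1
    apply Fin.ext
    simp [finProdFinEquiv]
    ring

/-- the standard primitive root of unity of order `2^m` -/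
noncomputable def zt (m : ℕ) : ℂ := Complex.exp (2 * Real.pi * Complex.I / ((2 ^ m : ℕ) : ℂ))

theorem zt_prim (m : ℕ) : IsPrimitiveRoot (zt m) (2 ^ m) :=
  Complex.isPrimitiveRoot_exp (2 ^ m) (by positivity)

theorem zt_norm (m : ℕ) : ‖zt m‖ = 1 :=
  Complex.norm_eq_one_of_pow_eq_one (zt_prim m).pow_eq_one (by positivity)

theorem zt_sq (m : ℕ) : zt (m + 1) ^ 2 = zt m := by
  unfold zt
  rw [← Complex.exp_nat_mul]
  congr 1
  push_cast
  rw [pow_succ]
  field_simp

theorem zt_sub (m : ℕ) : ‖zt m - 1‖ ≤ 2 * Real.pi / 2 ^ m := by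
  have h1 : zt m = Complex.exp (Complex.I * ((2 * Real.pi / 2 ^ m : ℝ) : ℂ)) := by
    unfold zt
    congr 1
    push_cast
    ring
  rw [h1]
  refine Real.norm_exp_I_mul_ofReal_sub_one_le.trans ?_
  rw [Real.norm_of_nonneg (by positivity)]

theorem zt_sum (m l : ℕ) (hl : l ≠ 0) (hl2 : l < 2 ^ m) :
    ∑ i : Fin (2 ^ m), (zt m ^ (i : ℕ)) ^ l = 0 := by
  have h1 : zt m ^ l ≠ 1 := (zt_prim m).pow_ne_one_of_pos_of_lt hl hl2
  have h2 : ∑ i : Fin (2 ^ m), (zt m ^ (i : ℕ)) ^ l = ∑ i ∈ Finset.range (2 ^ m), (zt m ^ l) ^ i := by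
    rw [Finset.sum_range]
    refine Finset.sum_congr rfl fun i _ => ?_
    rw [← pow_mul, ← pow_mul, mul_comm]
  have h3 := geom_sum_mul (zt m ^ l) (2 ^ m)
  rw [← pow_mul, mul_comm l, pow_mul, (zt_prim m).pow_eq_one, one_pow, sub_self] at h3
  rw [h2]
  exact (mul_eq_zero.1 h3).resolve_right (sub_ne_zero.2 h1)

theorem zt_coef (m i : ℕ) : ‖zt (m + 1) ^ i - zt m ^ (i / 2)‖ ≤ 2 * Real.pi / 2 ^ (m + 1) := by
  have h1 : zt (m + 1) ^ i = zt m ^ (i / 2) * zt (m + 1) ^ (i % 2) := by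
    conv_lhs => rw [← Nat.div_add_mod i 2]
    rw [pow_add, pow_mul, zt_sq]
  have h2 : zt (m + 1) ^ i - zt m ^ (i / 2) = zt m ^ (i / 2) * (zt (m + 1) ^ (i % 2) - 1) := by
    rw [h1]; ring
  rw [h2, norm_mul, norm_pow, zt_norm, one_pow, one_mul]
  rcases Nat.mod_two_eq_zero_or_one i with h3 | h3
  · rw [h3, pow_zero, sub_self, norm_zero]
    positivity
  · rw [h3, pow_one]
    exact zt_sub (m + 1)

section main

variable {H : Type} [NormedAddCommGroup H] [InnerProductSpace ℂ H] [CompleteSpace H]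
  {M : VonNeumannAlgebra H}

/-- partial products of the unitaries -/
noncomputable def vv (v : ℕ → Elt M) : ℕ → Elt M
  | 0 => 1
  | m + 1 => v m * vv v m

theorem vv_uni (v : ℕ → Elt M) (hv : ∀ m, Uni (v m)) (m : ℕ) : Uni (vv v m) := by
  induction m with
  | zero => simp [vv, Uni]
  | succ m ih =>
    constructor
    · rw [vv, star_mul, mul_assoc, ← mul_assoc (star (v m)), (hv m).1, one_mul, ih.1]
    · rw [vv, star_mul, mul_assoc, ← mul_assoc (vv v m), ih.2, one_mul, (hv m).2]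

/-- conjugates by the partial products -/
noncomputable def cj (v : ℕ → Elt M) (m : ℕ) (a : Elt M) : Elt M := star (vv v m) * a * vv v m

theorem cj_mul (v : ℕ → Elt M) (hv : ∀ m, Uni (v m)) (m : ℕ) (a b : Elt M) :
    cj v m (a * b) = cj v m a * cj v m b := by
  unfold cj
  have h1 := (vv_uni v hv m).2
  calc star (vv v m) * (a * b) * vv v m = star (vv v m) * a * 1 * b * vv v m := by noncomm_ring
    _ = star (vv v m) * a * (vv v m * star (vv v m)) * b * vv v m := by rw [h1]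
    _ = star (vv v m) * a * vv v m * (star (vv v m) * b * vv v m) := by noncomm_ring

theorem cj_sub (v : ℕ → Elt M) (m : ℕ) (a b : Elt M) :
    cj v m (a - b) = cj v m a - cj v m b := by
  unfold cj
  noncomm_ring

theorem cj_one (v : ℕ → Elt M) (hv : ∀ m, Uni (v m)) (m : ℕ) : cj v m 1 = 1 := by
  unfold cj
  rw [mul_one, (vv_uni v hv m).1]

theorem cj_star (v : ℕ → Elt M) (m : ℕ) (a : Elt M) : star (cj v m a) = cj v m (star a) := by
  unfold cj
  rw [star_mul, star_mul, star_star, mul_assoc]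

theorem cj_pow (v : ℕ → Elt M) (hv : ∀ m, Uni (v m)) (m : ℕ) (a : Elt M) (l : ℕ) :
    cj v m a ^ l = cj v m (a ^ l) := by
  induction l with
  | zero => rw [pow_zero, pow_zero, cj_one v hv]
  | succ l ih => rw [pow_succ, pow_succ, ih, cj_mul v hv]

theorem cj_zero (v : ℕ → Elt M) (a : Elt M) : cj v 0 a = a := by
  simp [cj, vv]

theorem cj_succ (v : ℕ → Elt M) (m : ℕ) (a : Elt M) :
    cj v (m + 1) a = cj v m (star (v m) * a * v m) := by
  unfold cj
  rw [vv, star_mul]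
  noncomm_ring

theorem n2_cj (T : TracialState M) (v : ℕ → Elt M) (hv : ∀ m, Uni (v m)) (m : ℕ) (a : Elt M) :
    n2 T.τ (cj v m a) = n2 T.τ a :=
  n2_conj (trAlg T) (vv_uni v hv m).2 a

theorem tau_cj (T : TracialState M) (v : ℕ → Elt M) (hv : ∀ m, Uni (v m)) (m : ℕ) (a : Elt M) :
    T.τ (cj v m a) = T.τ a := by
  unfold cj
  rw [T.tracial, ← mul_assoc, (vv_uni v hv m).2, one_mul]

theorem uni_norm {u : Elt M} (hu : Uni u) : ‖u‖ ≤ 1 := by
  have h1 : ‖u‖ * ‖u‖ = ‖(1 : Elt M)‖ := by rw [← CStarRing.norm_star_mul_self, hu.1]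
  have h2 : ‖(1 : Elt M)‖ ≤ 1 := ContinuousLinearMap.norm_id_le
  nlinarith [norm_nonneg u]

theorem cj_norm (v : ℕ → Elt M) (hv : ∀ m, Uni (v m)) (m : ℕ) (a : Elt M) :
    ‖cj v m a‖ ≤ ‖a‖ := by
  unfold cj
  have h1 := uni_norm (vv_uni v hv m)
  have h2 : ‖star (vv v m)‖ ≤ 1 := by rw [norm_star]; exact h1
  calc ‖star (vv v m) * a * vv v m‖ ≤ ‖star (vv v m) * a‖ * ‖vv v m‖ := norm_mul_le _ _
    _ ≤ ‖star (vv v m) * a‖ * 1 := by gcongr
    _ ≤ ‖star (vv v m)‖ * ‖a‖ * 1 := by gcongr; exact norm_mul_le _ _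
    _ ≤ 1 * ‖a‖ * 1 := by gcongr
    _ = ‖a‖ := by ring

theorem n2_mul_le1 (T : TracialState M) {a : Elt M} {C : ℝ} (ha : ‖a‖ ≤ C) (x : Elt M) :
    n2 T.τ (a * x) ≤ C * n2 T.τ x :=
  (n2_mul_le T a x).trans (mul_le_mul_of_nonneg_right ha (n2_nonneg _ _))

theorem n2_mul_le2 (T : TracialState M) {a : Elt M} {C : ℝ} (ha : ‖a‖ ≤ C) (x : Elt M) :
    n2 T.τ (x * a) ≤ C * n2 T.τ x :=
  (n2_mul_le' T x a).trans (mul_le_mul_of_nonneg_right ha (n2_nonneg _ _))

theorem comm_eq {a v : Elt M} (T : TracialState M) (hv : Uni v) :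
    n2 T.τ (star v * a * v - a) = n2 T.τ (v * a - a * v) := by
  have h1 : star v * a * v - a = - (star v * (v * a - a * v)) := by
    rw [mul_sub, ← mul_assoc (star v) v, hv.1, one_mul]
    noncomm_ring
  rw [h1, (trAlg T).n2_neg, n2_uni_mul (by rw [star_star]; exact hv.2)]

theorem le_of_tendsto_add {x : ℝ} {f : ℕ → ℝ} (hf : Tendsto f atTop (𝓝 0))
    (h : ∀ᶠ n in atTop, x ≤ f n) : x ≤ 0 :=
  ge_of_tendsto hf h

theorem ma3b_aux (hG0 : StG0) (T : TracialState M) (F : Set (Elt M)) (ε : ℝ) (hε : 0 < ε)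
    (hε1 : ε ≤ 1) (q : (m : ℕ) → Fin (2 ^ m) → Elt M) (v : ℕ → Elt M)
    (hq : ∀ m, GoodPVM T F m (ε / 8 ^ (m + 1)) (q m)) (hv : ∀ m, Uni (v m))
    (hF : ∀ m, ∀ a ∈ F, n2 T.τ (v m * a - a * v m) ≤ ε / 8 ^ (m + 1))
    (hcoh : ∀ (m : ℕ) (k : Fin (2 ^ m)) (k0 k1 : Fin (2 ^ (m + 1))), (k0 : ℕ) = 2 * k →
        (k1 : ℕ) = 2 * k + 1 →
        n2 T.τ (star (v m) * (q (m + 1) k0 + q (m + 1) k1) * v m - q m k) ≤ ε / 8 ^ (m + 1)) :
    ∃ y : Elt M, Uni y ∧ (∀ k : ℕ, 1 ≤ k → T.τ (y ^ k) = 0) ∧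
      ∀ a ∈ F, ∃ c : Elt M, c * y = y * c ∧ n2 T.τ (a - c) ≤ ε := by
  have ht := trAlg T
  have h8 : ∀ m : ℕ, (2 : ℝ) ^ m * (ε / 8 ^ (m + 1)) ≤ 1 / 2 ^ m := by
    intro m
    have h1 : (8 : ℝ) ^ (m + 1) = 8 * (2 ^ m * (2 ^ m * 2 ^ m)) := by
      rw [← mul_pow, ← mul_pow, pow_succ]; norm_num; ring
    have h2 : (0 : ℝ) < 2 ^ m := by positivity
    have h3 : (1 : ℝ) ≤ 2 ^ m := one_le_pow₀ (by norm_num)
    rw [h1, mul_div_assoc', div_le_div_iff₀ (by positivity) (by positivity)]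
    nlinarith [mul_pos h2 h2, mul_pos h2 (mul_pos h2 h2)]
  have h9 : ∀ m : ℕ, ε / 8 ^ (m + 1) ≤ (ε / 8) / 2 ^ m := by
    intro m
    rw [pow_succ, mul_comm, ← div_div]
    gcongr
    norm_num
  -- the unitaries
  let y : ℕ → Elt M := fun m => ∑ k : Fin (2 ^ m), (zt m ^ (k : ℕ)) • q m k
  have hyu : ∀ m, Uni (y m) := fun m =>
    comb_uni (hq m).pvm _ (fun k => by rw [norm_pow, zt_norm, one_pow])
  have hyl : ∀ m l : ℕ, l ≠ 0 → l < 2 ^ m → T.τ (y m ^ l) = 0 := by
    intro m l h1 h2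
    have h3 : y m ^ l = ∑ k : Fin (2 ^ m), ((zt m ^ (k : ℕ)) ^ l) • q m k :=
      comb_pow (hq m).pvm _ l
    rw [h3, map_sum]
    simp only [map_smul, (hq m).tr, smul_eq_mul]
    rw [← Finset.sum_mul, zt_sum m l h1 h2, zero_mul]
  let z : ℕ → Elt M := fun m => cj v m (y m)
  have hzu : ∀ m, Uni (z m) := by
    intro m
    constructor
    · show star (cj v m (y m)) * cj v m (y m) = 1
      rw [cj_star, ← cj_mul v hv, (hyu m).1, cj_one v hv]
    · show cj v m (y m) * star (cj v m (y m)) = 1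
      rw [cj_star, ← cj_mul v hv, (hyu m).2, cj_one v hv]
  have hzn : ∀ m, ‖z m‖ ≤ 1 := fun m => uni_norm (hzu m)
  have hzl : ∀ m l : ℕ, l ≠ 0 → l < 2 ^ m → T.τ (z m ^ l) = 0 := by
    intro m l h1 h2
    show T.τ (cj v m (y m) ^ l) = 0
    rw [cj_pow v hv, tau_cj T v hv, hyl m l h1 h2]
  have hstep : ∀ m, n2 T.τ (z (m + 1) - z m) ≤ 5 / 2 ^ m := by
    intro m
    let yt : Elt M := ∑ i : Fin (2 ^ (m + 1)), (zt m ^ ((i : ℕ) / 2)) • q (m + 1) i
    have e1 : z (m + 1) - z m = cj v m (star (v m) * y (m + 1) * v m - y m) := by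
      show cj v (m + 1) (y (m + 1)) - cj v m (y m) = _
      rw [cj_succ, cj_sub]
    have e2 : star (v m) * y (m + 1) * v m - y m =
        star (v m) * (y (m + 1) - yt) * v m + (star (v m) * yt * v m - y m) := by
      noncomm_ring
    have b1 : n2 T.τ (star (v m) * (y (m + 1) - yt) * v m) ≤ 2 * Real.pi / 2 ^ (m + 1) := by
      rw [n2_conj ht (hv m).2]
      have e3 : y (m + 1) - yt = ∑ i : Fin (2 ^ (m + 1)),
          (zt (m + 1) ^ (i : ℕ) - zt m ^ ((i : ℕ) / 2)) • q (m + 1) i := by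
        simp only [sub_smul, Finset.sum_sub_distrib, y, yt]
      rw [e3]
      exact comb_n2 ht (hq (m + 1)).pvm (hq (m + 1)).tr _ _ (by positivity)
        (fun i => zt_coef m i)
    have b2 : n2 T.τ (star (v m) * yt * v m - y m) ≤ 2 ^ m * (ε / 8 ^ (m + 1)) := by
      have e4 : star (v m) * yt * v m - y m = ∑ k : Fin (2 ^ m), (zt m ^ (k : ℕ)) •
          (star (v m) * (q (m + 1) ⟨2 * k, by have := k.2; rw [pow_succ]; omega⟩ +
            q (m + 1) ⟨2 * k + 1, by have := k.2; rw [pow_succ]; omega⟩) * v m - q m k) := by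
        have e5 : yt = ∑ k : Fin (2 ^ m), (zt m ^ (k : ℕ)) •
            (q (m + 1) ⟨2 * k, by have := k.2; rw [pow_succ]; omega⟩ +
            q (m + 1) ⟨2 * k + 1, by have := k.2; rw [pow_succ]; omega⟩) := by
          show ∑ i : Fin (2 ^ (m + 1)), (zt m ^ ((i : ℕ) / 2)) • q (m + 1) i = _
          rw [sum_split m]
          refine Finset.sum_congr rfl fun k _ => ?_
          have h1 : 2 * (k : ℕ) / 2 = k := by omega
          have h2 : (2 * (k : ℕ) + 1) / 2 = k := by omega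
          simp only [h1, h2]
          rw [smul_add]
        rw [e5, Finset.mul_sum, Finset.sum_mul, ← Finset.sum_sub_distrib]
        refine Finset.sum_congr rfl fun k _ => ?_
        rw [smul_sub, mul_smul_comm, smul_mul_assoc]
      rw [e4]
      refine (n2_sum_le ht _ _).trans ?_
      have h1 : ∀ k ∈ (Finset.univ : Finset (Fin (2 ^ m))), n2 T.τ ((zt m ^ (k : ℕ)) •
          (star (v m) * (q (m + 1) ⟨2 * k, by have := k.2; rw [pow_succ]; omega⟩ +
            q (m + 1) ⟨2 * k + 1, by have := k.2; rw [pow_succ]; omega⟩) * v m - q m k)) ≤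
          ε / 8 ^ (m + 1) := by
        intro k _
        rw [n2_smul ht, norm_pow, zt_norm, one_pow, one_mul]
        exact hcoh m k _ _ rfl rfl
      refine (Finset.sum_le_sum h1).trans ?_
      rw [Finset.sum_const, Finset.card_univ, Fintype.card_fin, nsmul_eq_mul]
      push_cast
      exact le_rfl
    rw [e1, n2_cj T v hv, e2]
    refine (ht.n2_add_le _ _).trans ?_
    have h1 := h8 m
    have h2 : 2 * Real.pi / 2 ^ (m + 1) ≤ 4 / 2 ^ m := by
      rw [pow_succ, div_le_div_iff₀ (by positivity) (by positivity)]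
      have := Real.pi_le_four
      have h3 : (0 : ℝ) < 2 ^ m := by positivity
      nlinarith
    have h3 : (4 : ℝ) / 2 ^ m + 1 / 2 ^ m = 5 / 2 ^ m := by ring
    linarith
  obtain ⟨Y, hY1, hY2⟩ := hG0 T 1 z hzn (cauchy_of ht z 5 (by norm_num) hstep)
  have hYs : ‖star Y‖ ≤ 1 := by rw [norm_star]; exact hY1
  have hzs : ∀ m, ‖star (z m)‖ ≤ 1 := fun m => by rw [norm_star]; exact hzn m
  have hYz : ∀ m, n2 T.τ (star (z m) - star Y) = n2 T.τ (z m - Y) := fun m => by
    rw [← star_sub, ht.n2_star]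
  -- the limit is unitary
  have hu1 : star Y * Y = 1 := by
    refine sub_eq_zero.1 (eq_zero_of_n2 ht _ ?_)
    have h1 : Tendsto (fun m => 2 * n2 T.τ (z m - Y)) atTop (𝓝 0) := by
      simpa using hY2.const_mul 2
    refine le_of_tendsto_add h1 (Eventually.of_forall fun m => ?_)
    have e : star Y * Y - 1 = - (star Y * (z m - Y)) + -((star (z m) - star Y) * z m) := by
      rw [← (hzu m).1]
      noncomm_ring
    rw [e]
    refine (ht.n2_add_le _ _).trans ?_
    rw [ht.n2_neg, ht.n2_neg]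
    have h2 := n2_mul_le1 T hYs (z m - Y)
    have h3 := n2_mul_le2 T (hzn m) (star (z m) - star Y)
    rw [hYz] at h3
    linarith
  have hu2 : Y * star Y = 1 := by
    refine sub_eq_zero.1 (eq_zero_of_n2 ht _ ?_)
    have h1 : Tendsto (fun m => 2 * n2 T.τ (z m - Y)) atTop (𝓝 0) := by
      simpa using hY2.const_mul 2
    refine le_of_tendsto_add h1 (Eventually.of_forall fun m => ?_)
    have e : Y * star Y - 1 = - (Y * (star (z m) - star Y)) + -((z m - Y) * star (z m)) := by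
      rw [← (hzu m).2]
      noncomm_ring
    rw [e]
    refine (ht.n2_add_le _ _).trans ?_
    rw [ht.n2_neg, ht.n2_neg]
    have h2 := n2_mul_le1 T hY1 (star (z m) - star Y)
    have h3 := n2_mul_le2 T (hzs m) (z m - Y)
    rw [hYz] at h2
    linarith
  have hpn : ∀ l : ℕ, ‖Y ^ l‖ ≤ 1 := by
    intro l
    induction l with
    | zero => rw [pow_zero]; exact ContinuousLinearMap.norm_id_le
    | succ l ih =>
      rw [pow_succ]
      calc ‖Y ^ l * Y‖ ≤ ‖Y ^ l‖ * ‖Y‖ := norm_mul_le _ _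
        _ ≤ 1 * 1 := by gcongr
        _ = 1 := by ring
  have hpow : ∀ l m : ℕ, n2 T.τ (z m ^ l - Y ^ l) ≤ l * n2 T.τ (z m - Y) := by
    intro l m
    induction l with
    | zero => simp [ht.n2_zero]
    | succ l ih =>
      have e : z m ^ (l + 1) - Y ^ (l + 1) = (z m ^ l - Y ^ l) * z m + Y ^ l * (z m - Y) := by
        rw [pow_succ, pow_succ]
        noncomm_ring
      rw [e]
      refine (ht.n2_add_le _ _).trans ?_
      have h2 := n2_mul_le1 T (hpn l) (z m - Y)
      have h3 := n2_mul_le2 T (hzn m) (z m ^ l - Y ^ l)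
      push_cast
      linarith
  refine ⟨Y, ⟨hu1, hu2⟩, ?_, ?_⟩
  · -- moments
    intro l hl
    have h0 : ‖T.τ (Y ^ l)‖ ≤ 0 := by
      have h1 : Tendsto (fun m => (l : ℝ) * n2 T.τ (z m - Y)) atTop (𝓝 0) := by
        simpa using hY2.const_mul (l : ℝ)
      refine le_of_tendsto_add h1 ?_
      filter_upwards [eventually_ge_atTop l] with m hm
      have h2 : T.τ (z m ^ l) = 0 := hzl m l (by omega) (lt_of_le_of_lt hm Nat.lt_two_pow_self)
      have h3 : T.τ (Y ^ l) = - T.τ (z m ^ l - Y ^ l) := by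
        rw [map_sub, h2]; ring
      rw [h3, norm_neg]
      have h4 := ht.cauchy' 1 (z m ^ l - Y ^ l)
      rw [one_mul] at h4
      have h5 : n2 T.τ (1 : Elt M) = 1 := by
        unfold n2
        rw [star_one, one_mul, T.map_one]
        simp
      rw [h5, one_mul] at h4
      exact h4.trans (hpow l m)
    exact norm_le_zero_iff.1 h0
  · -- the elements of F
    intro a ha
    have hstepa : ∀ m, n2 T.τ (cj v (m + 1) a - cj v m a) ≤ (ε / 8) / 2 ^ m := by
      intro m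
      rw [cj_succ, ← cj_sub, n2_cj T v hv, comm_eq T (hv m)]
      exact (hF m a ha).trans (h9 m)
    obtain ⟨c, hc1, hc2⟩ := hG0 T ‖a‖ (fun m => cj v m a) (fun m => cj_norm v hv m a)
      (cauchy_of ht (fun m => cj v m a) (ε / 8) (by positivity) hstepa)
    refine ⟨c, ?_, ?_⟩
    · refine sub_eq_zero.1 (eq_zero_of_n2 ht _ ?_)
      have h2m : Tendsto (fun m : ℕ => (1 : ℝ) / 2 ^ m) atTop (𝓝 0) := by
        have := tendsto_pow_atTop_nhds_zero_of_lt_one (r := (1 / 2 : ℝ)) (by norm_num)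
          (by norm_num)
        simpa [one_div] using this
      have h1 : Tendsto (fun m => 2 * n2 T.τ (cj v m a - c) + 2 * (‖a‖ * n2 T.τ (z m - Y)) +
          1 / 2 ^ m) atTop (𝓝 0) := by
        have := ((hc2.const_mul 2).add ((hY2.const_mul ‖a‖).const_mul 2)).add h2m
        simpa using this
      refine le_of_tendsto_add h1 (Eventually.of_forall fun m => ?_)
      have e : c * Y - Y * c = -((cj v m a - c) * Y) + -(cj v m a * (z m - Y)) +
          (cj v m a * z m - z m * cj v m a) + (z m - Y) * cj v m a + Y * (cj v m a - c) := by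
        noncomm_ring
      rw [e]
      have t1 := ht.n2_add_le (-((cj v m a - c) * Y) + -(cj v m a * (z m - Y)) +
          (cj v m a * z m - z m * cj v m a) + (z m - Y) * cj v m a) (Y * (cj v m a - c))
      have t2 := ht.n2_add_le (-((cj v m a - c) * Y) + -(cj v m a * (z m - Y)) +
          (cj v m a * z m - z m * cj v m a)) ((z m - Y) * cj v m a)
      have t3 := ht.n2_add_le (-((cj v m a - c) * Y) + -(cj v m a * (z m - Y)))
          (cj v m a * z m - z m * cj v m a)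
      have t4 := ht.n2_add_le (-((cj v m a - c) * Y)) (-(cj v m a * (z m - Y)))
      rw [ht.n2_neg, ht.n2_neg] at t4
      have u1 := n2_mul_le2 T hY1 (cj v m a - c)
      have u2 := n2_mul_le1 T (cj_norm v hv m a) (z m - Y)
      have u3 := n2_mul_le2 T (cj_norm v hv m a) (z m - Y)
      have u4 := n2_mul_le1 T hY1 (cj v m a - c)
      have u5 : n2 T.τ (cj v m a * z m - z m * cj v m a) ≤ 1 / 2 ^ m := by
        have e6 : cj v m a * z m - z m * cj v m a = cj v m (a * y m - y m * a) := by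
          show cj v m a * cj v m (y m) - cj v m (y m) * cj v m a = _
          rw [cj_sub, cj_mul v hv, cj_mul v hv]
        rw [e6, n2_cj T v hv]
        have e7 : a * y m - y m * a = ∑ k : Fin (2 ^ m), (zt m ^ (k : ℕ)) •
            (-(q m k * a - a * q m k)) := by
          show a * (∑ k : Fin (2 ^ m), (zt m ^ (k : ℕ)) • q m k) -
            (∑ k : Fin (2 ^ m), (zt m ^ (k : ℕ)) • q m k) * a = _
          rw [Finset.mul_sum, Finset.sum_mul, ← Finset.sum_sub_distrib]
          refine Finset.sum_congr rfl fun k _ => ?_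
          rw [neg_sub, smul_sub, mul_smul_comm, smul_mul_assoc]
        rw [e7]
        refine (n2_sum_le ht _ _).trans ?_
        have h1 : ∀ k ∈ (Finset.univ : Finset (Fin (2 ^ m))), n2 T.τ ((zt m ^ (k : ℕ)) •
            (-(q m k * a - a * q m k))) ≤ ε / 8 ^ (m + 1) := by
          intro k _
          rw [n2_smul ht, norm_pow, zt_norm, one_pow, one_mul, ht.n2_neg]
          exact (hq m).com k a ha
        refine (Finset.sum_le_sum h1).trans ?_
        rw [Finset.sum_const, Finset.card_univ, Fintype.card_fin, nsmul_eq_mul]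
        push_cast
        exact h8 m
      linarith
    · -- distance
      have h1 : Tendsto (fun m => ε / 4 + n2 T.τ (cj v m a - c)) atTop (𝓝 (ε / 4 + 0)) :=
        hc2.const_add _
      have h2 : n2 T.τ (a - c) ≤ ε / 4 + 0 := by
        refine ge_of_tendsto h1 (Eventually.of_forall fun m => ?_)
        have h3 := tele ht (fun m => cj v m a) (ε / 8) hstepa 0 m (Nat.zero_le m)
        simp only [cj_zero] at h3
        have h4 := ht.n2_tri a (cj v m a) c
        rw [ht.n2_sub_comm a (cj v m a)] at h4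
        have h5 : 0 ≤ 2 * (ε / 8) / 2 ^ m := by positivity
        have h6 : 2 * (ε / 8) / 2 ^ 0 = ε / 4 := by ring
        linarith
      linarith

end main

end MA3b

theorem ma3b_holds (hG0 : StG0) : StMA3b := by
  intro H _ _ _ M T F ε hε hε1 h
  obtain ⟨q, v, hq, hv, hF, hcoh⟩ := h
  exact MA3b.ma3b_aux hG0 T F ε hε hε1 q v hq hv hF hcoh

end Pool.Agent.H811R4.SD
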