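import Mathlib
import Pool.Agent.H811R4.SD.Stubs
import Pool.Agent.Helper278.KLift
import Pool.Agent.Helper278.RadLift

set_option autoImplicit false

open scoped InnerProductSpace BoundedContinuousFunction Topology ComplexOrder
open Filter

namespace Pool.Agent.H811R4.SD

open Pool.Agent.Helper278

theorem ma4_holds (hPL : StPL) (hWEAK : StWEAK) : StMA4 := by
  classical
  intro H _ _ _ M T _hII U Q _ _ _ _ π σ hπ hU F _hF _hfin hIrr z hz hz0 hz1 hzN hzc
  have hA := trAlg T
  have hS := sigma_trAlg hπ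
  obtain ⟨e, he, hez⟩ := hPL T hπ z hz
  have hnorm : ∀ n, ‖e n‖ ≤ ‖e‖ := fun n => e.norm_coe_le_norm n
  -- commutation with F
  have hcom : ∀ a ∈ F, Tendsto (fun n => n2 T.τ (e n * a - a * e n)) U (𝓝 0) := by
    intro a ha
    have h1 := hzN a ha
    rw [← hez, ← map_mul, ← map_mul] at h1
    have h2 := (pi_eq_iff hπ (e * BoundedContinuousFunction.const ℕ a)
      (BoundedContinuousFunction.const ℕ a * e)).1 h1.symm
    simpa only [BoundedContinuousFunction.mul_apply, BoundedContinuousFunction.const_apply] using h2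
  -- the weak limit
  obtain ⟨b, hb⟩ := hWEAK T U ‖e‖ (fun n => e n) hnorm
  have hbRC : b ∈ RC F := by
    intro a ha
    have key : ∀ x : Elt M, T.τ ((a * b - b * a) * x) = 0 := by
      intro x
      have t1 := (hb (x * a)).sub (hb (a * x))
      have t2 : Tendsto (fun n => T.τ ((a * e n - e n * a) * x)) U (𝓝 0) := by
        have h1 := (hcom a ha).mul_const (n2 T.τ x)
        rw [zero_mul] at h1
        refine squeeze_zero_norm (fun n => ?_) h1
        have h2 := hA.cauchy' (a * e n - e n * a) x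
        rwa [hA.n2_sub_comm] at h2
      have t3 : ∀ n, T.τ ((a * e n - e n * a) * x) = T.τ (e n * (x * a)) - T.τ (e n * (a * x)) := by
        intro n
        rw [sub_mul, map_sub, mul_assoc a, hA.comm a, mul_assoc, mul_assoc]
      have t4 : Tendsto (fun n => T.τ ((a * e n - e n * a) * x)) U
          (𝓝 (T.τ (b * (x * a)) - T.τ (b * (a * x)))) := t1.congr fun n => (t3 n).symm
      have t5 := tendsto_nhds_unique t4 t2
      rw [sub_mul, map_sub, mul_assoc a, hA.comm a, mul_assoc, mul_assoc]
      exact t5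
    have h1 := key (star (a * b - b * a))
    rw [hA.comm] at h1
    have h2 := hA.faithful _ h1
    exact sub_eq_zero.1 h2
  obtain ⟨c, hc⟩ := hIrr b hbRC
  have hcz : c = σ z := by
    have h1 := hb 1
    have h2 := hπ.trace e
    rw [hez] at h2
    rw [hc] at h1
    have h3 : T.τ (c • (1 : Elt M) * 1) = c := by
      rw [mul_one, map_smul, hA.one, smul_eq_mul, mul_one]
    rw [h3] at h1
    refine tendsto_nhds_unique h1 (h2.congr fun n => ?_)
    rw [mul_one]
  -- positivity
  have hσz : σ z = σ (star z * z) := by rw [hz.sa, hz.idem]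
  have hn0 : 0 ≤ σ z := by
    rw [hσz]
    exact hS.nonneg z
  have hn0' : σ z ≠ 0 := by
    intro h
    rw [hσz] at h
    exact hz0 (hS.faithful z h)
  have hp1 : star (1 - z) * (1 - z) = 1 - z := by
    rw [star_sub, star_one, hz.sa, sub_mul, one_mul, mul_sub, mul_one, hz.idem, sub_self, sub_zero]
  have hσ1 : σ (1 - z) = 1 - σ z := by
    have h1 : sigmaL hπ (1 - z) = sigmaL hπ 1 - sigmaL hπ z := map_sub _ _ _
    rw [hS.one] at h1
    exact h1
  have hn1 : 0 ≤ 1 - σ z := by
    rw [← hσ1, ← hp1]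
    exact hS.nonneg (1 - z)
  have hn1' : 1 - σ z ≠ 0 := by
    intro h
    rw [← hσ1, ← hp1] at h
    exact hz1 (sub_eq_zero.1 (hS.faithful (1 - z) h)).symm
  have hre0 := (Complex.nonneg_iff.1 hn0).1
  have him0 := (Complex.nonneg_iff.1 hn0).2
  have hre1 := (Complex.nonneg_iff.1 hn1).1
  rw [Complex.sub_re, Complex.one_re] at hre1
  have hreal : ((σ z).re : ℂ) = σ z := by
    apply Complex.ext
    · simp
    · simp [← him0]
  have hpos : 0 < (σ z).re := by
    refine lt_of_le_of_ne hre0 fun h => hn0' ?_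
    rw [← hreal, ← h]
    simp
  have hlt : (σ z).re < 1 := by
    refine lt_of_le_of_ne (by linarith) fun h => hn1' ?_
    rw [← hreal, h]
    simp
  refine ⟨fun n => e n, (σ z).re, he, hpos, hlt, hcom, ?_, ?_⟩
  · intro x
    have h1 := hb x
    have h2 : T.τ (b * x) = ((σ z).re : ℂ) * T.τ x := by
      rw [hc, smul_mul_assoc, one_mul, map_smul, smul_eq_mul, hcz, hreal]
    rw [h2] at h1
    exact h1
  · by_contra hcon
    push Not at hcon
    obtain ⟨ε, hε, hcon⟩ := hcon
    let B : ℕ → ℕ → Prop := fun k n => ∃ y : Elt M, Uni y ∧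
      (∀ a ∈ F, n2 T.τ (y * a - a * y) ≤ 1 / ((k : ℝ) + 1)) ∧ ε < n2 T.τ (e n * y - y * e n)
    have hB : ∀ k, ∀ᶠ n in (U : Filter ℕ), B k n := by
      intro k
      have h1 := hcon (1 / ((k : ℝ) + 1)) (by positivity)
      exact h1
    have hspec : ∀ n, B 0 n → B (Nat.findGreatest (fun k => B k n) n) n := by
      intro n h0
      exact Nat.findGreatest_spec (P := fun k => B k n) (Nat.zero_le n) h0
    have hch : ∀ n, ∃ y : Elt M, Uni y ∧ (B 0 n →
        (∀ a ∈ F, n2 T.τ (y * a - a * y)
          ≤ 1 / (((Nat.findGreatest (fun k => B k n) n : ℕ) : ℝ) + 1)) ∧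
        ε < n2 T.τ (e n * y - y * e n)) := by
      intro n
      by_cases h0 : B 0 n
      · obtain ⟨y, hy, h1, h2⟩ := hspec n h0
        exact ⟨y, hy, fun _ => ⟨h1, h2⟩⟩
      · exact ⟨1, ⟨by rw [star_one, one_mul], by rw [star_one, one_mul]⟩, fun h => absurd h h0⟩
    choose y hy hy2 using hch
    let y' : ℕ → unitary (Elt M) := fun n => ⟨y n, Unitary.mem_iff.2 ⟨(hy n).1, (hy n).2⟩⟩
    have hY : π (mkB y') ∈ NQ π F := by
      intro a ha
      rw [← map_mul, ← map_mul, eq_comm]
      apply (pi_eq_iff hπ (mkB y' * BoundedContinuousFunction.const ℕ a)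
        (BoundedContinuousFunction.const ℕ a * mkB y')).2
      simp only [BoundedContinuousFunction.mul_apply, BoundedContinuousFunction.const_apply,
        mkB_apply]
      rw [Metric.tendsto_nhds]
      intro η hη
      obtain ⟨k, hk⟩ := exists_nat_one_div_lt hη
      filter_upwards [hB 0, hB k, eventually_ge hU k] with n h0 h1 h2
      have h3 : k ≤ Nat.findGreatest (fun k => B k n) n := Nat.le_findGreatest h2 h1
      have h4 := (hy2 n h0).1 a ha
      have h5 : (1 : ℝ) / (((Nat.findGreatest (fun k => B k n) n : ℕ) : ℝ) + 1)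
          ≤ 1 / ((k : ℝ) + 1) := by
        apply one_div_le_one_div_of_le (by positivity)
        have : (k : ℝ) ≤ ((Nat.findGreatest (fun k => B k n) n : ℕ) : ℝ) := by exact_mod_cast h3
        linarith
      rw [Real.dist_eq, sub_zero, abs_of_nonneg (n2_nonneg _ _)]
      exact lt_of_le_of_lt (h4.trans h5) hk
    have h1 := hzc _ hY
    rw [← hez, ← map_mul, ← map_mul] at h1
    have h2 := (pi_eq_iff hπ (e * mkB y') (mkB y' * e)).1 h1
    simp only [BoundedContinuousFunction.mul_apply, mkB_apply] at h2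
    obtain ⟨n, h4, h5⟩ := ((h2.eventually (gt_mem_nhds hε)).and (hB 0)).exists
    exact absurd ((hy2 n h5).2.trans h4) (lt_irrefl _)

end Pool.Agent.H811R4.SD
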