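import Pool.Agent.H811R4.SD.Stubs

/-!
# Solid and U-solid II₁ factors: task MA5 (by helper804, for the project of helper811)
-/

set_option autoImplicit false

open scoped InnerProductSpace BoundedContinuousFunction
open Filter

namespace Pool.Agent.H811R4.SD

open Pool.Agent.Helper278

section MA5

variable {H : Type} [NormedAddCommGroup H] [InnerProductSpace ℂ H] [CompleteSpace H]
variable {M : VonNeumannAlgebra H}

theorem MA5_n2_left (T : TracialState M) {u : Elt M} (hu : star u * u = 1) (x : Elt M) :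
    n2 T.τ (u * x) = n2 T.τ x := by
  unfold n2
  rw [star_mul]
  have : star x * star u * (u * x) = star x * x := by
    calc star x * star u * (u * x) = star x * (star u * u) * x := by simp only [mul_assoc]
      _ = star x * x := by rw [hu, mul_one]
  rw [this]

theorem MA5_n2_right (T : TracialState M) {u : Elt M} (hu : u * star u = 1) (x : Elt M) :
    n2 T.τ (x * u) = n2 T.τ x := by
  have h := trAlg T
  rw [← h.n2_star, star_mul, MA5_n2_left T (by rw [star_star]; exact hu), h.n2_star]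

theorem MA5_n2_conj (T : TracialState M) {u : Elt M} (hu : Uni u) (x : Elt M) :
    n2 T.τ (u * x * star u) = n2 T.τ x := by
  rw [MA5_n2_right T (by rw [star_star]; exact hu.1), MA5_n2_left T hu.1]

theorem MA5_n2_smul (T : TracialState M) (c : ℝ) (hc : 0 ≤ c) (x : Elt M) :
    n2 T.τ (c • x) = c * n2 T.τ x := by
  have h1 : c • x = (c : ℂ) • x := by
    apply Subtype.ext
    exact (Complex.coe_smul c (x : H →L[ℂ] H)).symm
  rw [h1]
  unfold n2
  have h2 : star ((c : ℂ) • x) * ((c : ℂ) • x) = ((c ^ 2 : ℝ) : ℂ) • (star x * x) := by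
    rw [star_smul, smul_mul_smul_comm, Complex.star_def, Complex.conj_ofReal]
    push_cast
    rw [sq]
  rw [h2, map_smul, smul_eq_mul, Complex.re_ofReal_mul, Real.sqrt_mul (by positivity),
    Real.sqrt_sq hc]

theorem MA5_norm_uni {u : Elt M} (hu : star u * u = 1) : ‖u‖ ≤ 1 := by
  have h1 : ‖star (u : H →L[ℂ] H) * (u : H →L[ℂ] H)‖ =
      ‖(u : H →L[ℂ] H)‖ * ‖(u : H →L[ℂ] H)‖ := CStarRing.norm_star_mul_self
  have h2 : star (u : H →L[ℂ] H) * (u : H →L[ℂ] H) = 1 := congrArg Subtype.val hu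
  rw [h2] at h1
  have h3 : ‖(1 : H →L[ℂ] H)‖ ≤ 1 := ContinuousLinearMap.norm_id_le
  have h4 : ‖u‖ = ‖(u : H →L[ℂ] H)‖ := rfl
  rw [h4]
  nlinarith [norm_nonneg (u : H →L[ℂ] H)]

theorem MA5_norm_proj {p : Elt M} (hp : Proj p) : ‖p‖ ≤ 1 := by
  have h1 : ‖star (p : H →L[ℂ] H) * (p : H →L[ℂ] H)‖ =
      ‖(p : H →L[ℂ] H)‖ * ‖(p : H →L[ℂ] H)‖ := CStarRing.norm_star_mul_self
  have h2 : star (p : H →L[ℂ] H) * (p : H →L[ℂ] H) = (p : H →L[ℂ] H) := by
    have : star p * p = p := by rw [hp.sa, hp.idem]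
    exact congrArg Subtype.val this
  rw [h2] at h1
  have h4 : ‖p‖ = ‖(p : H →L[ℂ] H)‖ := rfl
  rw [h4]
  nlinarith [norm_nonneg (p : H →L[ℂ] H)]

theorem MA5_uni_star {u : Elt M} (hu : Uni u) : Uni (star u) := by
  unfold Uni at *
  rw [star_star]
  exact ⟨hu.2, hu.1⟩

theorem MA5_uni_mul {u v : Elt M} (hu : Uni u) (hv : Uni v) : Uni (u * v) := by
  unfold Uni at *
  rw [star_mul]
  constructor
  · calc star v * star u * (u * v) = star v * (star u * u) * v := by simp only [mul_assoc]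
      _ = 1 := by rw [hu.1, mul_one, hv.1]
  · calc u * v * (star v * star u) = u * (v * star v) * star u := by simp only [mul_assoc]
      _ = 1 := by rw [hv.2, mul_one, hu.2]

/-- the conjugates of `e` -/
def MA5_D (T : TracialState M) (F : Set (Elt M)) (e : Elt M) (i : ℕ) : Set (Elt M) :=
  {z | ∃ y : Elt M, Uni y ∧ (∀ a ∈ F, n2 T.τ (y * a - a * y) ≤ (1 / 2) ^ i) ∧
    z = y * e * star y}

theorem MA5_ball (T : TracialState M) (e : Elt M) (r : ℝ) :
    Convex ℝ {w : Elt M | n2 T.τ (w - e) ≤ r} := by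
  intro w1 h1 w2 h2 a b ha hb hab
  have h := trAlg T
  have e1 : a • w1 + b • w2 - e = a • (w1 - e) + b • (w2 - e) := by
    rw [smul_sub, smul_sub]
    have : e = a • e + b • e := by rw [← add_smul, hab, one_smul]
    nth_rewrite 1 [this]
    abel
  show n2 T.τ (a • w1 + b • w2 - e) ≤ r
  rw [e1]
  refine (h.n2_add_le _ _).trans ?_
  rw [MA5_n2_smul T a ha, MA5_n2_smul T b hb]
  have h1' : n2 T.τ (w1 - e) ≤ r := h1
  have h2' : n2 T.τ (w2 - e) ≤ r := h2
  calc a * n2 T.τ (w1 - e) + b * n2 T.τ (w2 - e) ≤ a * r + b * r := by gcongr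
    _ = r := by rw [← add_mul, hab, one_mul]

theorem MA5_conj_hull (T : TracialState M) (F : Set (Elt M)) (e : Elt M) (i : ℕ) {y : Elt M}
    (hy : Uni y) (hyF : ∀ a ∈ F, n2 T.τ (y * a - a * y) ≤ (1 / 2) ^ (i + 1)) :
    convexHull ℝ (MA5_D T F e (i + 1)) ⊆
      {w : Elt M | y * w * star y ∈ convexHull ℝ (MA5_D T F e i)} := by
  have h := trAlg T
  refine convexHull_min ?_ ?_
  · rintro w ⟨y', hy', hyF', rfl⟩
    refine subset_convexHull ℝ _ ⟨y * y', MA5_uni_mul hy hy', fun a ha => ?_, ?_⟩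
    · have e1 : y * y' * a - a * (y * y') = y * (y' * a - a * y') + (y * a - a * y) * y' := by
        noncomm_ring
      rw [e1]
      refine (h.n2_add_le _ _).trans ?_
      rw [MA5_n2_left T hy.1, MA5_n2_right T hy'.2]
      calc _ ≤ (1 / 2 : ℝ) ^ (i + 1) + (1 / 2) ^ (i + 1) := add_le_add (hyF' a ha) (hyF a ha)
        _ = (1 / 2) ^ i := by rw [pow_succ]; ring
    · rw [star_mul]
      simp only [mul_assoc]
  · intro w1 h1 w2 h2 a b ha hb hab
    have e1 : y * (a • w1 + b • w2) * star y = a • (y * w1 * star y) + b • (y * w2 * star y) := by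
      rw [mul_add, add_mul, mul_smul_comm, mul_smul_comm, smul_mul_assoc, smul_mul_assoc]
    show y * (a • w1 + b • w2) * star y ∈ convexHull ℝ (MA5_D T F e i)
    rw [e1]
    exact convex_convexHull ℝ _ h1 h2 ha hb hab

end MA5

theorem ma5_holds (hMA5a : StMA5a) : StMA5 := by
  intro H _ _ _ M T U F e t _ hZ ε hε
  have h := trAlg T
  obtain ⟨δ, hδ, hcen⟩ := hZ.cen (ε / 2) (by linarith)
  refine hcen.mono fun n hn => ?_
  have hpe := hZ.proj n
  have hone : Uni (1 : Elt M) := by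
    unfold Uni
    rw [star_one, one_mul]
    exact ⟨rfl, rfl⟩
  obtain ⟨x, hxs, hx1, hxN, hxm⟩ := hMA5a T (MA5_D T F (e n))
    (by
      rintro i z ⟨y, hy, hyF, rfl⟩
      refine ⟨y, hy, fun a ha => (hyF a ha).trans ?_, rfl⟩
      exact pow_le_pow_of_le_one (by norm_num) (by norm_num) (Nat.le_succ i))
    (fun i => ⟨e n, 1, hone, fun a _ => by
      rw [one_mul, mul_one, sub_self, h.n2_zero]; positivity, by
      rw [star_one, one_mul, mul_one]⟩)
    (by
      rintro i z ⟨y, hy, -, rfl⟩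
      refine ⟨by rw [star_mul, star_mul, star_star, hpe.sa, mul_assoc], ?_⟩
      have n1 := MA5_norm_uni hy.1
      have n2' := MA5_norm_proj hpe
      have n3 := MA5_norm_uni (MA5_uni_star hy).1
      calc ‖y * e n * star y‖ ≤ ‖y * e n‖ * ‖star y‖ := norm_mul_le _ _
        _ ≤ (‖y‖ * ‖e n‖) * ‖star y‖ :=
            mul_le_mul_of_nonneg_right (norm_mul_le _ _) (norm_nonneg _)
        _ ≤ 1 := mul_le_one₀ (mul_le_one₀ n1 (norm_nonneg _) n2') (norm_nonneg _) n3)
  refine ⟨x, ?_, hxs, hx1, ?_⟩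
  · intro ε' hε'
    obtain ⟨i, η, hη, hi⟩ := hxm ε' hε'
    refine ⟨(1 / 2) ^ (i + 1), by positivity, fun y hy1 hy2 hyF => ?_⟩
    have hy : Uni y := ⟨hy1, hy2⟩
    have hz : y * x * star y ∈ NHull T (MA5_D T F (e n) i) := by
      intro ε'' hε''
      obtain ⟨w, hw, hxw⟩ := hxN (i + 1) ε'' hε''
      refine ⟨y * w * star y, MA5_conj_hull T F (e n) i hy hyF hw, ?_⟩
      have e1 : y * x * star y - y * w * star y = y * (x - w) * star y := by noncomm_ring
      rw [e1, MA5_n2_conj T hy]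
      exact hxw
    have h1 := hi _ hz (by rw [MA5_n2_conj T hy]; linarith)
    have e2 : x * y - y * x = -((y * x * star y - x) * y) := by
      rw [sub_mul, mul_assoc (y * x), hy1, mul_one]
      abel
    rw [e2, h.n2_neg, MA5_n2_right T hy2]
    exact h1
  · obtain ⟨i, hi⟩ := exists_pow_lt_of_lt_one hδ (show (1 / 2 : ℝ) < 1 by norm_num)
    have h1 : convexHull ℝ (MA5_D T F (e n) i) ⊆ {w : Elt M | n2 T.τ (w - e n) ≤ ε / 2} := by
      refine convexHull_min ?_ (MA5_ball T (e n) _)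
      rintro w ⟨y, hy, hyF, rfl⟩
      show n2 T.τ (y * e n * star y - e n) ≤ ε / 2
      have e3 : y * e n * star y - e n = -((e n * y - y * e n) * star y) := by
        rw [sub_mul, mul_assoc (e n), hy.2, mul_one]
        abel
      rw [e3, h.n2_neg, MA5_n2_right T (by rw [star_star]; exact hy.1)]
      exact hn y hy fun a ha => (hyF a ha).trans hi.le
    obtain ⟨w, hw, hxw⟩ := hxN i (ε / 2) (by linarith)
    have h2 : n2 T.τ (w - e n) ≤ ε / 2 := h1 hw
    have h3 := h.n2_tri x w (e n)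
    linarith

end Pool.Agent.H811R4.SD
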