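import Pool.Agent.H811R4.SD.Stubs

set_option autoImplicit false

/-!
# Elements of minimal norm in decreasing convex sets
-/

open scoped InnerProductSpace BoundedContinuousFunction Topology
open Filter

namespace Pool.Agent.H811R4.SD

open Pool.Agent.Helper278

namespace TMA5a

section alg

variable {A : Type*} [Ring A] [StarRing A] [Algebra ℂ A] [StarModule ℂ A] {τ : A →ₗ[ℂ] ℂ}

theorem parallelogram (h : TrAlg τ) (x y : A) :
    n2 τ (x - y) ^ 2 + n2 τ (x + y) ^ 2 = 2 * n2 τ x ^ 2 + 2 * n2 τ y ^ 2 := by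
  rw [h.n2_sq, h.n2_sq, h.n2_sq, h.n2_sq]
  have e : star (x - y) * (x - y) + star (x + y) * (x + y) =
      (star x * x + star x * x) + (star y * y + star y * y) := by
    rw [star_sub, star_add]; noncomm_ring
  have e2 := congrArg (fun z => (τ z).re) e
  simp only [map_add, Complex.add_re] at e2
  linarith

theorem n2_smul (h : TrAlg τ) (c : ℂ) (x : A) : n2 τ (c • x) = ‖c‖ * n2 τ x := by
  have h1 : n2 τ (c • x) ^ 2 = (‖c‖ * n2 τ x) ^ 2 := by
    rw [mul_pow, h.n2_sq, h.n2_sq, star_smul, smul_mul_smul_comm, map_smul, smul_eq_mul]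
    have : star c * c = ((‖c‖ ^ 2 : ℝ) : ℂ) := by
      rw [Complex.star_def, ← Complex.normSq_eq_conj_mul_self, Complex.normSq_eq_norm_sq]
    rw [this, Complex.re_ofReal_mul]
  exact (pow_left_inj₀ (n2_nonneg _ _) (mul_nonneg (norm_nonneg _) (n2_nonneg _ _))
    two_ne_zero).1 h1

theorem eq_zero_of_n2 (h : TrAlg τ) {x : A} (hx : n2 τ x = 0) : x = 0 := by
  apply h.faithful
  apply Complex.ext
  · rw [← h.n2_sq, hx]; simp
  · rw [h.im_zero]; rfl

theorem eq_zero_of_le (h : TrAlg τ) {x : A} (C : ℝ) (hx : ∀ ε : ℝ, 0 < ε → n2 τ x ≤ C * ε) :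
    x = 0 := by
  apply eq_zero_of_n2 h
  apply le_antisymm _ (n2_nonneg _ _)
  by_contra hcon
  push Not at hcon
  have hC : 0 < |C| + 1 := by positivity
  have h1 := hx (n2 τ x / (2 * (|C| + 1))) (by positivity)
  have h2 : C * (n2 τ x / (2 * (|C| + 1))) ≤ (|C| + 1) * (n2 τ x / (2 * (|C| + 1))) :=
    mul_le_mul_of_nonneg_right (by linarith [le_abs_self C]) (by positivity)
  have h3 : (|C| + 1) * (n2 τ x / (2 * (|C| + 1))) = n2 τ x / 2 := by
    field_simp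
  linarith

end alg

section

variable {H : Type} [NormedAddCommGroup H] [InnerProductSpace ℂ H] [CompleteSpace H]
  {M : VonNeumannAlgebra H}

theorem n2_half (T : TracialState M) (x : Elt M) : n2 T.τ ((2⁻¹ : ℂ) • x) = n2 T.τ x / 2 := by
  rw [n2_smul (trAlg T)]
  rw [norm_inv, Complex.norm_ofNat]
  ring

theorem n2_le_norm (T : TracialState M) (x : Elt M) : n2 T.τ x ≤ ‖x‖ := by
  have h1 := n2_mul_le T x 1
  have h2 : n2 T.τ (1 : Elt M) = 1 := by
    unfold n2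
    rw [star_one, one_mul, T.map_one]
    simp
  rw [mul_one, h2, mul_one] at h1
  exact h1

/-- the unit ball of the selfadjoint part -/
theorem hull_sub {D : Set (Elt M)} (hD : ∀ x ∈ D, star x = x ∧ ‖x‖ ≤ 1) :
    ∀ w ∈ convexHull ℝ D, star w = w ∧ ‖w‖ ≤ 1 := by
  have hc : Convex ℝ {w : Elt M | star w = w ∧ ‖w‖ ≤ 1} := by
    intro x hx y hy a b ha hb hab
    refine ⟨?_, ?_⟩
    · rw [star_add, star_smul, star_smul, hx.1, hy.1]
      simp
    · calc ‖a • x + b • y‖ ≤ ‖a • x‖ + ‖b • y‖ := norm_add_le _ _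
        _ = a * ‖x‖ + b * ‖y‖ := by
          rw [norm_smul, norm_smul, Real.norm_of_nonneg ha, Real.norm_of_nonneg hb]
        _ ≤ a * 1 + b * 1 := by
          have := hx.2; have := hy.2
          gcongr
        _ = 1 := by linarith
  exact fun w hw => convexHull_min (fun x hx => hD x hx) hc hw

variable (T : TracialState M)

theorem sub_NHull (D : Set (Elt M)) : D ⊆ NHull T D := by
  intro x hx ε hε
  refine ⟨x, subset_convexHull ℝ D hx, ?_⟩
  rw [sub_self, (trAlg T).n2_zero]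
  exact hε.le

theorem NHull_closed (D : Set (Elt M)) (x : Elt M)
    (hx : ∀ ε : ℝ, 0 < ε → ∃ z ∈ NHull T D, n2 T.τ (x - z) ≤ ε) : x ∈ NHull T D := by
  intro ε hε
  obtain ⟨z, hz, h1⟩ := hx (ε / 2) (by positivity)
  obtain ⟨w, hw, h2⟩ := hz (ε / 2) (by positivity)
  refine ⟨w, hw, ?_⟩
  have := (trAlg T).n2_tri x z w
  linarith

theorem NHull_mid (D : Set (Elt M)) (x y : Elt M) (hx : x ∈ NHull T D) (hy : y ∈ NHull T D) :
    (2⁻¹ : ℂ) • (x + y) ∈ NHull T D := by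
  intro ε hε
  obtain ⟨w, hw, h1⟩ := hx ε hε
  obtain ⟨w', hw', h2⟩ := hy ε hε
  refine ⟨(2⁻¹ : ℝ) • w + (2⁻¹ : ℝ) • w', (convex_convexHull ℝ D) hw hw' (by norm_num)
    (by norm_num) (by norm_num), ?_⟩
  have e : (2⁻¹ : ℂ) • (x + y) - ((2⁻¹ : ℝ) • w + (2⁻¹ : ℝ) • w') =
      (2⁻¹ : ℂ) • ((x - w) + (y - w')) := by
    have e1 : ∀ v : Elt M, (2⁻¹ : ℝ) • v = (2⁻¹ : ℂ) • v := by
      intro v
      have : ((2⁻¹ : ℝ) : ℂ) = (2⁻¹ : ℂ) := by push_cast; rfl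
      rw [← this]
      rfl
    rw [e1, e1, smul_add, smul_add, smul_sub, smul_sub]
    abel
  rw [e, n2_half]
  have := (trAlg T).n2_add_le (x - w) (y - w')
  linarith

theorem NHull_mono {D D' : Set (Elt M)} (h : D ⊆ D') : NHull T D ⊆ NHull T D' := by
  intro x hx ε hε
  obtain ⟨w, hw, h1⟩ := hx ε hε
  exact ⟨w, convexHull_mono h hw, h1⟩

theorem NHull_sub (hG0 : StG0) {D : Set (Elt M)} (hD : ∀ x ∈ D, star x = x ∧ ‖x‖ ≤ 1)
    (z : Elt M) (hz : z ∈ NHull T D) : star z = z ∧ ‖z‖ ≤ 1 := by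
  have h := trAlg T
  constructor
  · have : z - star z = 0 := by
      apply eq_zero_of_le h 2
      intro ε hε
      obtain ⟨w, hw, h1⟩ := hz ε hε
      have h2 := h.n2_tri z w (star z)
      have h3 : w - star z = star (w - z) := by
        rw [star_sub, (hull_sub hD w hw).1]
      rw [h3, h.n2_star, h.n2_sub_comm w z] at h2
      linarith
    exact (sub_eq_zero.1 this).symm
  · have hex : ∀ n : ℕ, ∃ w ∈ convexHull ℝ D, n2 T.τ (z - w) ≤ 1 / ((n : ℝ) + 1) :=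
      fun n => hz _ (by positivity)
    choose w hw h1 using hex
    have hlim : Tendsto (fun n : ℕ => 1 / ((n : ℝ) + 1)) atTop (𝓝 0) :=
      tendsto_one_div_add_atTop_nhds_zero_nat
    obtain ⟨y, hy, hy2⟩ := hG0 T 1 w (fun n => (hull_sub hD (w n) (hw n)).2) (by
      intro ε hε
      obtain ⟨n0, hn0⟩ := (hlim.eventually (ge_mem_nhds (show (0 : ℝ) < ε / 2 by positivity))).exists_forall_of_atTop
      refine ⟨n0, fun n hn m hm => ?_⟩
      have h3 := h.n2_tri (w n) z (w m)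
      rw [h.n2_sub_comm (w n) z] at h3
      have h4 := h1 n
      have h5 := h1 m
      have h6 := hn0 n hn
      have h7 := hn0 m hm
      linarith)
    have h8 : Tendsto (fun n => n2 T.τ (z - w n) + n2 T.τ (w n - y)) atTop (𝓝 0) := by
      have h9 : Tendsto (fun n => n2 T.τ (z - w n)) atTop (𝓝 0) :=
        squeeze_zero (fun n => n2_nonneg _ _) h1 hlim
      simpa using h9.add hy2
    have h10 : n2 T.τ (z - y) ≤ 0 :=
      ge_of_tendsto' h8 fun n => h.n2_tri z (w n) y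
    have h11 : z - y = 0 := eq_zero_of_n2 h (le_antisymm h10 (n2_nonneg _ _))
    rw [sub_eq_zero.1 h11]
    exact hy

end

end TMA5a

open TMA5a in
theorem ma5a_holds (hG0 : StG0) : StMA5a := by
  intro H _ _ _ M T D hmono hne hD
  have h := trAlg T
  have hanti : Antitone D := antitone_nat_of_succ_le hmono
  set C : ℕ → Set (Elt M) := fun i => NHull T (D i) with hC
  have hCanti : ∀ i k, i ≤ k → C k ⊆ C i := fun i k hik => NHull_mono T (hanti hik)
  have hCprop : ∀ i, ∀ z ∈ C i, star z = z ∧ ‖z‖ ≤ 1 := fun i z hz => NHull_sub T hG0 (hD i) z hz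
  have hCne : ∀ i, (C i).Nonempty := fun i => (hne i).mono (sub_NHull T (D i))
  set m : ℕ → ℝ := fun i => sInf (n2 T.τ '' C i) with hm
  have hbdd : ∀ i, BddBelow (n2 T.τ '' C i) := fun i => ⟨0, by
    rintro _ ⟨z, _, rfl⟩; exact n2_nonneg _ _⟩
  have hmle : ∀ i, ∀ z ∈ C i, m i ≤ n2 T.τ z := fun i z hz => csInf_le (hbdd i) ⟨z, hz, rfl⟩
  have hm0 : ∀ i, 0 ≤ m i := fun i => le_csInf ((hCne i).image _) (by
    rintro _ ⟨z, _, rfl⟩; exact n2_nonneg _ _)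
  have hm1 : ∀ i, m i ≤ 1 := by
    intro i
    obtain ⟨z, hz⟩ := hCne i
    exact ((hmle i z hz).trans (n2_le_norm T z)).trans (hCprop i z hz).2
  have hmmono : Monotone m := by
    intro i k hik
    apply le_csInf ((hCne k).image _)
    rintro _ ⟨z, hz, rfl⟩
    exact hmle i z (hCanti i k hik hz)
  obtain ⟨μ, hμ⟩ : ∃ μ, Tendsto m atTop (𝓝 μ) :=
    ⟨_, tendsto_atTop_ciSup hmmono ⟨1, by rintro _ ⟨i, rfl⟩; exact hm1 i⟩⟩
  have hmμ : ∀ i, m i ≤ μ := fun i => hmmono.ge_of_tendsto hμ i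
  have hμ0 : 0 ≤ μ := (hm0 0).trans (hmμ 0)
  have hlim : Tendsto (fun n : ℕ => 1 / ((n : ℝ) + 1)) atTop (𝓝 0) :=
    tendsto_one_div_add_atTop_nhds_zero_nat
  have hz : ∀ i, ∃ z ∈ C i, n2 T.τ z ≤ m i + 1 / ((i : ℝ) + 1) := by
    intro i
    obtain ⟨_, ⟨z, hz, rfl⟩, h2⟩ := exists_lt_of_csInf_lt ((hCne i).image (n2 T.τ))
      (show sInf (n2 T.τ '' C i) < m i + 1 / ((i : ℝ) + 1) by
        have : (0 : ℝ) < 1 / ((i : ℝ) + 1) := by positivity
        show m i < _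
        linarith)
    exact ⟨z, hz, h2.le⟩
  choose z hzC hzn using hz
  -- the parallelogram estimate
  have hpar : ∀ i, ∀ x ∈ C i, ∀ y ∈ C i, n2 T.τ (x - y) ^ 2 ≤
      2 * n2 T.τ x ^ 2 + 2 * n2 T.τ y ^ 2 - 4 * m i ^ 2 := by
    intro i x hx y hy
    have h1 := parallelogram h x y
    have h2 := hmle i _ (NHull_mid T (D i) x y hx hy)
    rw [n2_half] at h2
    have h3 : (2 * m i) ^ 2 ≤ n2 T.τ (x + y) ^ 2 :=
      pow_le_pow_left₀ (by have := hm0 i; positivity) (by linarith) 2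
    nlinarith
  set β : ℕ → ℝ := fun i => 2 * (m i + 1 / ((i : ℝ) + 1)) ^ 2 + 2 * (μ + 1 / ((i : ℝ) + 1)) ^ 2
    - 4 * m i ^ 2 with hβ
  have hβlim : Tendsto β atTop (𝓝 0) := by
    have h1 : Tendsto β atTop (𝓝 (2 * (μ + 0) ^ 2 + 2 * (μ + 0) ^ 2 - 4 * μ ^ 2)) :=
      ((((hμ.add hlim).pow 2).const_mul 2).add (((tendsto_const_nhds.add hlim).pow 2).const_mul 2)).sub
        ((hμ.pow 2).const_mul 4)
    have h2 : 2 * (μ + 0) ^ 2 + 2 * (μ + 0) ^ 2 - 4 * μ ^ 2 = 0 := by ring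
    rwa [h2] at h1
  have hzz : ∀ i k, i ≤ k → n2 T.τ (z i - z k) ^ 2 ≤ β i := by
    intro i k hik
    refine (hpar i (z i) (hzC i) (z k) (hCanti i k hik (hzC k))).trans ?_
    have h1 : n2 T.τ (z i) ^ 2 ≤ (m i + 1 / ((i : ℝ) + 1)) ^ 2 :=
      pow_le_pow_left₀ (n2_nonneg _ _) (hzn i) 2
    have h2 : n2 T.τ (z k) ≤ μ + 1 / ((i : ℝ) + 1) := by
      have h3 := hzn k
      have h4 := hmμ k
      have h5 : 1 / ((k : ℝ) + 1) ≤ 1 / ((i : ℝ) + 1) := by
        apply one_div_le_one_div_of_le (by positivity)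
        have : (i : ℝ) ≤ k := by exact_mod_cast hik
        linarith
      linarith
    have h3 : n2 T.τ (z k) ^ 2 ≤ (μ + 1 / ((i : ℝ) + 1)) ^ 2 :=
      pow_le_pow_left₀ (n2_nonneg _ _) h2 2
    simp only [hβ]
    linarith
  obtain ⟨x, hx1, hx2⟩ := hG0 T 1 z (fun n => (hCprop n _ (hzC n)).2) (by
    intro ε hε
    obtain ⟨n0, hn0⟩ := (hβlim.eventually (ge_mem_nhds
      (show (0 : ℝ) < (ε / 2) ^ 2 by positivity))).exists_forall_of_atTop
    refine ⟨n0, fun n hn k hk => ?_⟩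
    have h1 : ∀ k ≥ n0, n2 T.τ (z n0 - z k) ≤ ε / 2 := fun k hk =>
      (pow_le_pow_iff_left₀ (n2_nonneg _ _) (by positivity) two_ne_zero).1
        ((hzz n0 k hk).trans (hn0 n0 le_rfl))
    have h2 := h.n2_tri (z n) (z n0) (z k)
    rw [h.n2_sub_comm (z n) (z n0)] at h2
    have h3 := h1 n hn
    have h4 := h1 k hk
    linarith)
  have hxC : ∀ i, x ∈ C i := by
    intro i
    apply NHull_closed T (D i)
    intro ε hε
    obtain ⟨n, hn⟩ := ((hx2.eventually (ge_mem_nhds hε)).and (eventually_ge_atTop i)).exists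
    refine ⟨z n, hCanti i n hn.2 (hzC n), ?_⟩
    rw [h.n2_sub_comm]
    exact hn.1
  have hxμ : n2 T.τ x ≤ μ := by
    have h1 : Tendsto (fun n : ℕ => n2 T.τ (z n - x) + (m n + 1 / ((n : ℝ) + 1))) atTop
        (𝓝 (0 + (μ + 0))) := hx2.add (hμ.add hlim)
    rw [zero_add, add_zero] at h1
    refine ge_of_tendsto' h1 fun n => ?_
    have h2 := h.n2_add_le (x - z n) (z n)
    rw [sub_add_cancel, h.n2_sub_comm] at h2
    have h3 := hzn n
    linarith
  refine ⟨x, (hCprop 0 x (hxC 0)).1, hx1, hxC, ?_⟩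
  intro ε hε
  have hβ' : Tendsto (fun i : ℕ => 2 * (μ + 1 / ((i : ℝ) + 1)) ^ 2 + 2 * μ ^ 2 - 4 * m i ^ 2) atTop
      (𝓝 0) := by
    have h1 : Tendsto (fun i : ℕ => 2 * (μ + 1 / ((i : ℝ) + 1)) ^ 2 + 2 * μ ^ 2 - 4 * m i ^ 2)
        atTop (𝓝 (2 * (μ + 0) ^ 2 + 2 * μ ^ 2 - 4 * μ ^ 2)) :=
      ((((tendsto_const_nhds.add hlim).pow 2).const_mul 2).add tendsto_const_nhds).sub
        ((hμ.pow 2).const_mul 4)
    have h2 : 2 * (μ + 0) ^ 2 + 2 * μ ^ 2 - 4 * μ ^ 2 = 0 := by ring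
    rwa [h2] at h1
  obtain ⟨i, hi⟩ := (hβ'.eventually (ge_mem_nhds (show (0 : ℝ) < ε ^ 2 by positivity))).exists
  refine ⟨i, 1 / ((i : ℝ) + 1), by positivity, fun y hy hyn => ?_⟩
  have h1 := hpar i y hy x (hxC i)
  have h2 : n2 T.τ y ^ 2 ≤ (μ + 1 / ((i : ℝ) + 1)) ^ 2 :=
    pow_le_pow_left₀ (n2_nonneg _ _) (by linarith) 2
  have h4 : n2 T.τ x ^ 2 ≤ μ ^ 2 := pow_le_pow_left₀ (n2_nonneg _ _) hxμ 2
  exact (pow_le_pow_iff_left₀ (n2_nonneg _ _) hε.le two_ne_zero).1 (by linarith)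

end Pool.Agent.H811R4.SD
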