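import Pool.Agent.H811R4.SD.Stubs

/-! StMA6: projections of `PP` that behave like the central projection (helper493) -/

set_option autoImplicit false

open scoped InnerProductSpace BoundedContinuousFunction Topology
open Filter

namespace Pool.Agent.H811R4.SD

open Pool.Agent.Helper278

namespace MA6

variable {H : Type} [NormedAddCommGroup H] [InnerProductSpace ℂ H] [CompleteSpace H]
  {M : VonNeumannAlgebra H}

theorem norm_proj_le (p : Elt M) (hp : Proj p) : ‖(p : H →L[ℂ] H)‖ ≤ 1 := by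
  have h3 : ‖star (p : H →L[ℂ] H) * (p : H →L[ℂ] H)‖ = ‖(p : H →L[ℂ] H)‖ * ‖(p : H →L[ℂ] H)‖ :=
    CStarRing.norm_star_mul_self
  have h4 : star (p : H →L[ℂ] H) * (p : H →L[ℂ] H) = (p : H →L[ℂ] H) := by
    have : star p * p = p := by rw [hp.sa, hp.idem]
    exact congrArg Subtype.val this
  rw [h4] at h3
  by_contra hc
  push Not at hc
  nlinarith

theorem n2_two (T : TracialState M) (x : Elt M) : n2 T.τ (2 * x) = 2 * n2 T.τ x := by
  have h := trAlg T
  unfold n2
  have e1 : star (2 * x) * (2 * x) = (4 : ℂ) • (star x * x) := by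
    rw [star_mul, star_ofNat]
    have : (4 : ℂ) • (star x * x) = 4 * (star x * x) := by
      rw [Algebra.smul_def, map_ofNat]
    rw [this]
    noncomm_ring
  rw [e1, map_smul, smul_eq_mul]
  have e2 : ((4 : ℂ) * T.τ (star x * x)).re = 2 ^ 2 * (T.τ (star x * x)).re := by
    rw [Complex.mul_re]
    norm_num
  rw [e2, Real.sqrt_mul (by positivity), Real.sqrt_sq (by norm_num)]

theorem com_zero (T : TracialState M) (U : Ultrafilter ℕ) (F : Set (Elt M)) (e : ℕ → Elt M)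
    (t : ℝ) (hF : F.Finite) (hz : ZSeq T U F e t) (x : Elt M) (hx : x ∈ PP T F) (ε : ℝ)
    (hε : 0 < ε) : ∀ᶠ n in (U : Filter ℕ), n2 T.τ (e n * x - x * e n) ≤ ε := by
  have h := trAlg T
  obtain ⟨δ, hδ, hxδ⟩ := hx ε hε
  have h1 : ∀ᶠ n in (U : Filter ℕ), ∀ a ∈ F, n2 T.τ (e n * a - a * e n) ≤ δ / 2 := by
    refine (Filter.eventually_all_finite hF).2 fun a ha => ?_
    exact ((hz.com a ha).eventually (gt_mem_nhds (half_pos hδ))).mono fun n hn => hn.le
  refine h1.mono fun n hn => ?_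
  have hp := hz.proj n
  have hy : star (1 - 2 * e n) = 1 - 2 * e n := by
    rw [star_sub, star_one, star_mul, hp.sa, star_ofNat]
    noncomm_ring
  have hyy : (1 - 2 * e n) * (1 - 2 * e n) = 1 := by
    have : (1 - 2 * e n) * (1 - 2 * e n) = 1 - 4 * e n + 4 * (e n * e n) := by noncomm_ring
    rw [this, hp.idem]
    noncomm_ring
  have h2 := hxδ (1 - 2 * e n) (by rw [hy, hyy]) (by rw [hy, hyy]) (by
    intro a ha
    have e1 : (1 - 2 * e n) * a - a * (1 - 2 * e n) = -(2 * (e n * a - a * e n)) := by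
      noncomm_ring
    rw [e1, h.n2_neg, n2_two]
    have := hn a ha
    linarith)
  have e1 : x * (1 - 2 * e n) - (1 - 2 * e n) * x = 2 * (e n * x - x * e n) := by
    noncomm_ring
  rw [e1, n2_two] at h2
  have := n2_nonneg T.τ (e n * x - x * e n)
  linarith

theorem poly_mem (T : TracialState M) (F : Set (Elt M)) (hPP : (1 : Elt M) ∈ PP T F ∧
    (∀ x ∈ PP T F, ∀ y ∈ PP T F, x + y ∈ PP T F) ∧
    (∀ x ∈ PP T F, ∀ y ∈ PP T F, x * y ∈ PP T F) ∧
    (∀ (c : ℂ), ∀ x ∈ PP T F, c • x ∈ PP T F)) (x : Elt M) (hx : x ∈ PP T F)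
    (P : Polynomial ℂ) : Polynomial.aeval x P ∈ PP T F := by
  obtain ⟨h1, h2, h3, h4⟩ := hPP
  induction P using Polynomial.induction_on' with
  | add p q hp hq =>
    rw [map_add]
    exact h2 _ hp _ hq
  | monomial n c =>
    rw [Polynomial.aeval_monomial, Algebra.algebraMap_eq_smul_one, smul_mul_assoc, one_mul]
    apply h4
    induction n with
    | zero => rw [pow_zero]; exact h1
    | succ n ih => rw [pow_succ]; exact h3 _ ih _ hx

end MA6

open MA6

theorem ma6_holds (hMA5 : StMA5) (hPP : StPP) (hG1 : StG1) : StMA6 := by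
  intro H _ _ _ M T U F e t hFs hFf hz X hX hXP ε hε
  have h := trAlg T
  obtain ⟨p1, p2, p3, p4, p5, p6, p7⟩ := hPP T F hFs
  obtain ⟨B, hB⟩ : ∃ B : ℝ, 0 ≤ B ∧ ∀ x ∈ X, ‖(x : H →L[ℂ] H)‖ ≤ B ∧ n2 T.τ x ≤ B := by
    have hb : BddAbove ((fun x : Elt M => ‖(x : H →L[ℂ] H)‖ + n2 T.τ x) '' X) :=
      (hX.image _).bddAbove
    obtain ⟨B, hB⟩ := hb
    refine ⟨max B 0, le_max_right _ _, fun x hx => ?_⟩
    have h1 := hB ⟨x, hx, rfl⟩
    simp only at h1
    have h2 := norm_nonneg (x : H →L[ℂ] H)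
    have h3 := n2_nonneg T.τ x
    have h4 := le_max_left B 0
    constructor <;> linarith
  obtain ⟨hB0, hB⟩ := hB
  set ε' : ℝ := ε / (1 + 14 * B) with hε'
  have hε'0 : 0 < ε' := by positivity
  have hεB : ε' + 14 * B * ε' = ε := by
    rw [hε']
    field_simp
  have c1 : ∀ᶠ n in (U : Filter ℕ), ∀ x ∈ X, n2 T.τ (e n * x - x * e n) ≤ ε' :=
    (Filter.eventually_all_finite hX).2 fun x hx => com_zero T U F e t hFf hz x (hXP hx) ε' hε'0
  have c2 : ∀ᶠ n in (U : Filter ℕ), ∀ x ∈ X, ‖T.τ (e n * x) - (t : ℂ) * T.τ x‖ ≤ ε' := by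
    refine (Filter.eventually_all_finite hX).2 fun x _ => ?_
    have h1 := (hz.tr x).sub (tendsto_const_nhds (x := (t : ℂ) * T.τ x))
    rw [sub_self] at h1
    have h2 := h1.norm
    rw [norm_zero] at h2
    exact (h2.eventually (gt_mem_nhds hε'0)).mono fun n hn => hn.le
  have c3 := hMA5 T U F e t hFs hz ε' hε'0
  obtain ⟨n, hn1, hn2, x', hx'P, hx's, hx'n, hx'e⟩ := (c1.and (c2.and c3)).exists
  have hp := hz.proj n
  obtain ⟨f, hf, hfx, hfP⟩ := hG1 T x' hx's
  have hfPP : f ∈ PP T F := by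
    apply p7
    intro η hη
    obtain ⟨P, hP⟩ := hfP η hη
    exact ⟨_, poly_mem T F ⟨p2, p4, p5, p6⟩ x' hx'P P, hP⟩
  have hsq : n2 T.τ (x' * x' - x') ≤ 3 * ε' := by
    have e1 : x' * x' - x' = x' * (x' - e n) + (x' - e n) * e n + (e n - x') := by
      have : x' * (x' - e n) + (x' - e n) * e n + (e n - x') =
          x' * x' - e n * e n + (e n - x') := by noncomm_ring
      rw [this, hp.idem]
      noncomm_ring
    rw [e1]
    have a1 := h.n2_add_le (x' * (x' - e n) + (x' - e n) * e n) (e n - x')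
    have a2 := h.n2_add_le (x' * (x' - e n)) ((x' - e n) * e n)
    have a3 := n2_mul_le T x' (x' - e n)
    have a4 := n2_mul_le' T (x' - e n) (e n)
    have a5 : n2 T.τ (e n - x') = n2 T.τ (x' - e n) := h.n2_sub_comm _ _
    have a6 : ‖(x' : H →L[ℂ] H)‖ ≤ 1 := hx'n
    have a7 := norm_proj_le _ hp
    have a8 := n2_nonneg T.τ (x' - e n)
    have a9 : ‖(x' : H →L[ℂ] H)‖ * n2 T.τ (x' - e n) ≤ 1 * n2 T.τ (x' - e n) :=
      mul_le_mul_of_nonneg_right a6 a8
    have a10 : ‖(e n : H →L[ℂ] H)‖ * n2 T.τ (x' - e n) ≤ 1 * n2 T.τ (x' - e n) :=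
      mul_le_mul_of_nonneg_right a7 a8
    linarith
  have hfe : n2 T.τ (f - e n) ≤ 7 * ε' := by
    have := h.n2_tri f x' (e n)
    linarith
  refine ⟨f, hfPP, hf, fun x hx => ?_, fun x hx => ?_⟩
  · have e1 : f * x - x * f = (f - e n) * x + (e n * x - x * e n) + x * (e n - f) := by
      noncomm_ring
    rw [e1]
    have a1 := h.n2_add_le ((f - e n) * x + (e n * x - x * e n)) (x * (e n - f))
    have a2 := h.n2_add_le ((f - e n) * x) (e n * x - x * e n)
    have a3 := n2_mul_le' T (f - e n) x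
    have a4 := n2_mul_le T x (e n - f)
    have a5 : n2 T.τ (e n - f) = n2 T.τ (f - e n) := h.n2_sub_comm _ _
    have a6 := (hB x hx).1
    have a7 := hn1 x hx
    have a8 := n2_nonneg T.τ (f - e n)
    have a9 : ‖(x : H →L[ℂ] H)‖ * n2 T.τ (f - e n) ≤ B * (7 * ε') :=
      mul_le_mul a6 hfe a8 hB0
    rw [a5] at a4
    nlinarith
  · have e1 : T.τ (f * x) - (t : ℂ) * T.τ x =
        T.τ ((f - e n) * x) + (T.τ (e n * x) - (t : ℂ) * T.τ x) := by
      rw [sub_mul, map_sub]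
      ring
    rw [e1]
    have a1 := norm_add_le (T.τ ((f - e n) * x)) (T.τ (e n * x) - (t : ℂ) * T.τ x)
    have a2 := h.cauchy' (f - e n) x
    have a3 := hn2 x hx
    have a4 := (hB x hx).2
    have a5 : n2 T.τ (f - e n) * n2 T.τ x ≤ (7 * ε') * B :=
      mul_le_mul hfe a4 (n2_nonneg _ _) (by positivity)
    have a6 : 0 ≤ B * ε' := by positivity
    nlinarith

end Pool.Agent.H811R4.SD
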