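import Mathlib
import Pool.Agent.H811R4.SD.Stubs

/-!
# Task MA7: splitting a partition
-/

set_option autoImplicit false

open scoped InnerProductSpace BoundedContinuousFunction Topology
open Filter

namespace Pool.Agent.H811R4.SD

open Pool.Agent.Helper278

namespace MA7

section

variable {H : Type} [NormedAddCommGroup H] [InnerProductSpace ℂ H] [CompleteSpace H]
variable {M : VonNeumannAlgebra H}

theorem norm_proj_le (q : Elt M) (h1 : star q = q) (h2 : q * q = q) :
    ‖(q : H →L[ℂ] H)‖ ≤ 1 := by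
  have e : star (q : H →L[ℂ] H) * (q : H →L[ℂ] H) = (q : H →L[ℂ] H) := by
    have h3 : star q * q = q := by rw [h1, h2]
    exact congrArg (Subtype.val) h3
  have e2 := CStarRing.norm_star_mul_self (x := (q : H →L[ℂ] H))
  rw [e] at e2
  by_contra hc
  push Not at hc
  nlinarith

theorem n2_one (T : TracialState M) : n2 T.τ (1 : Elt M) = 1 := by
  unfold n2
  rw [star_one, one_mul, T.map_one]
  simp

theorem n2_le_norm (T : TracialState M) (x : Elt M) : n2 T.τ x ≤ ‖(x : H →L[ℂ] H)‖ := by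
  have h := n2_mul_le T x 1
  rwa [mul_one, n2_one, mul_one] at h

theorem n2_sum_le (T : TracialState M) {ι : Type} (s : Finset ι) (g : ι → Elt M) (b : ℝ)
    (hb : ∀ i, n2 T.τ (g i) ≤ b) : n2 T.τ (∑ i ∈ s, g i) ≤ s.card * b := by
  classical
  have h := trAlg T
  induction s using Finset.induction_on with
  | empty => simp [h.n2_zero]
  | insert a s ha ih =>
    rw [Finset.sum_insert ha, Finset.card_insert_of_notMem ha]
    refine (h.n2_add_le _ _).trans ?_
    push_cast
    linarith [hb a]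

theorem norm_sum_le' {ι : Type} (s : Finset ι) (g : ι → Elt M)
    (hb : ∀ i, ‖((g i : Elt M) : H →L[ℂ] H)‖ ≤ 1) :
    ‖((∑ i ∈ s, g i : Elt M) : H →L[ℂ] H)‖ ≤ s.card := by
  classical
  induction s using Finset.induction_on with
  | empty => simp
  | insert a s ha ih =>
    rw [Finset.sum_insert ha, Finset.card_insert_of_notMem ha]
    have e : ‖((g a + ∑ i ∈ s, g i : Elt M) : H →L[ℂ] H)‖ ≤
      ‖((g a : Elt M) : H →L[ℂ] H)‖ + ‖((∑ i ∈ s, g i : Elt M) : H →L[ℂ] H)‖ :=
      norm_add_le ((g a : Elt M) : H →L[ℂ] H) ((∑ i ∈ s, g i : Elt M) : H →L[ℂ] H)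
    refine e.trans ?_
    rw [Nat.cast_add, Nat.cast_one, add_comm]
    exact add_le_add ih (hb a)

theorem aeval_comm (x y : Elt M) (h : y * x = x * y) (P : Polynomial ℂ) :
    y * Polynomial.aeval x P = Polynomial.aeval x P * y := by
  have h' : Commute y x := h
  have : Commute y (Polynomial.aeval x P) := by
    induction P using Polynomial.induction_on' with
    | add p q hp hq => rw [map_add]; exact hp.add_right hq
    | monomial n c =>
      rw [Polynomial.aeval_monomial]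
      have h1 : Commute y (algebraMap ℂ (Elt M) c) := (Algebra.commutes c y).symm
      exact h1.mul_right (h'.pow_right n)
  exact this

theorem aeval_mem (T : TracialState M) (F : Set (Elt M)) (x : Elt M) (hx : x ∈ PP T F)
    (h1 : (1 : Elt M) ∈ PP T F)
    (hadd : ∀ x ∈ PP T F, ∀ y ∈ PP T F, x + y ∈ PP T F)
    (hmul : ∀ x ∈ PP T F, ∀ y ∈ PP T F, x * y ∈ PP T F)
    (hsm : ∀ (c : ℂ), ∀ x ∈ PP T F, c • x ∈ PP T F) (P : Polynomial ℂ) :
    Polynomial.aeval x P ∈ PP T F := by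
  induction P using Polynomial.induction_on' with
  | add p q hp hq => rw [map_add]; exact hadd _ hp _ hq
  | monomial n c =>
    rw [Polynomial.aeval_monomial, ← Algebra.smul_def]
    refine hsm _ _ ?_
    induction n with
    | zero => rw [pow_zero]; exact h1
    | succ n ih => rw [pow_succ]; exact hmul _ ih _ hx

theorem eq_zero_of_n2 (T : TracialState M) (x : Elt M) (h : n2 T.τ x ≤ 0) : x = 0 := by
  have hT := trAlg T
  have h0 : n2 T.τ x = 0 := le_antisymm h (n2_nonneg _ _)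
  refine T.faithful x ?_
  apply Complex.ext
  · rw [← hT.n2_sq, h0]; simp
  · rw [hT.im_zero]; simp

end

end MA7

open MA7

theorem ma7_holds (hPP : StPP) (hG1 : StG1) : StMA7 := by
  intro H _ _ _ M T F t hF hFin ht0 ht1 hS ι _ q hq hqP ε hε
  classical
  have hT := trAlg T
  obtain ⟨hFP, h1P, hstar, hadd, hmul, hsm, hcl⟩ := hPP T F hF
  set k : ℝ := (Fintype.card ι : ℝ) with hk
  have hk0 : 0 ≤ k := Nat.cast_nonneg _
  obtain ⟨A, hA0, hA⟩ : ∃ A : ℝ, 0 ≤ A ∧ ∀ a ∈ F, ‖(a : H →L[ℂ] H)‖ ≤ A := by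
    obtain ⟨B, hB⟩ := (hFin.image (fun a : Elt M => ‖(a : H →L[ℂ] H)‖)).bddAbove
    refine ⟨max B 0, le_max_right _ _, fun a ha => (hB ⟨a, ha, rfl⟩).trans (le_max_left _ _)⟩
  set C : ℝ := 2 * ((k + 2) * k) + k with hC
  have hC0 : 0 ≤ C := by positivity
  set D : ℝ := 1 + C + 2 * A * C with hD
  have hD0 : 0 < D := by positivity
  obtain ⟨f0, hf0P, hf0, hcom, htr⟩ := hS (Set.range q ∪ F) ((Set.finite_range q).union hFin)
    (by rintro x (⟨i, rfl⟩ | hx)
        · exact hqP i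
        · exact hFP hx) (ε / D) (by positivity)
  set δ : ℝ := ε / D with hδ
  have hδ0 : 0 < δ := by positivity
  have hnq : ∀ i, ‖((q i : Elt M) : H →L[ℂ] H)‖ ≤ 1 := fun i =>
    norm_proj_le _ (hq.star_eq i) (hq.idem i)
  have hnf0 : ‖(f0 : H →L[ℂ] H)‖ ≤ 1 := norm_proj_le _ hf0.sa hf0.idem
  set f1 : Elt M := ∑ i, q i * f0 * q i with hf1
  have hf1P : f1 ∈ PP T F := by
    have h0 : (0 : Elt M) ∈ PP T F := by
      have := hsm 0 1 h1P
      rwa [zero_smul] at this
    rw [hf1]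
    refine Finset.sum_induction _ (fun x => x ∈ PP T F) (fun a b ha hb => hadd a ha b hb) h0 ?_
    intro i _
    exact hmul _ (hmul _ (hqP i) _ hf0P) _ (hqP i)
  have hf1s : star f1 = f1 := by
    rw [hf1, star_sum]
    refine Finset.sum_congr rfl fun i _ => ?_
    rw [star_mul, star_mul, hq.star_eq, hf0.sa, mul_assoc]
  have hc1 : ∀ i, q i * f1 = q i * f0 * q i := by
    intro i
    rw [hf1, Finset.mul_sum, Finset.sum_eq_single i]
    · rw [← mul_assoc, ← mul_assoc, hq.idem]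
    · intro j _ hj
      rw [← mul_assoc, ← mul_assoc, hq.orth i j (Ne.symm hj), zero_mul, zero_mul]
    · intro h; exact absurd (Finset.mem_univ i) h
  have hc2 : ∀ i, f1 * q i = q i * f0 * q i := by
    intro i
    rw [hf1, Finset.sum_mul, Finset.sum_eq_single i]
    · rw [mul_assoc (q i * f0), hq.idem]
    · intro j _ hj
      rw [mul_assoc (q j * f0), hq.orth j i hj, mul_zero]
    · intro h; exact absurd (Finset.mem_univ i) h
  have hcc : ∀ i, q i * f1 = f1 * q i := fun i => by rw [hc1, hc2]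
  have hdiff : f1 - f0 = ∑ i, (q i * f0 - f0 * q i) * q i := by
    have e : f0 = ∑ i, f0 * q i * q i := by
      have : ∀ i, f0 * q i * q i = f0 * q i := fun i => by rw [mul_assoc, hq.idem]
      simp only [this]
      rw [← Finset.mul_sum, hq.sum, mul_one]
    rw [hf1]
    nth_rewrite 2 [e]
    rw [← Finset.sum_sub_distrib]
    refine Finset.sum_congr rfl fun i _ => ?_
    rw [sub_mul]
  have hn10 : n2 T.τ (f1 - f0) ≤ k * δ := by
    rw [hdiff]
    refine n2_sum_le T _ _ δ fun i => ?_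
    refine (n2_mul_le' T _ _).trans ?_
    have h2 := hcom (q i) (Or.inl ⟨i, rfl⟩)
    rw [hT.n2_sub_comm] at h2
    have h3 := n2_nonneg T.τ (q i * f0 - f0 * q i)
    calc ‖((q i : Elt M) : H →L[ℂ] H)‖ * n2 T.τ (q i * f0 - f0 * q i)
        ≤ 1 * n2 T.τ (q i * f0 - f0 * q i) := mul_le_mul_of_nonneg_right (hnq i) h3
      _ ≤ δ := by rw [one_mul]; exact h2
  have hnf1 : ‖(f1 : H →L[ℂ] H)‖ ≤ k := by
    rw [hf1]
    refine (norm_sum_le' _ _ fun i => ?_).trans (le_of_eq rfl)
    have e : ((q i * f0 * q i : Elt M) : H →L[ℂ] H) =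
      ((q i : Elt M) : H →L[ℂ] H) * (f0 : H →L[ℂ] H) * ((q i : Elt M) : H →L[ℂ] H) := rfl
    rw [e]
    calc ‖((q i : Elt M) : H →L[ℂ] H) * (f0 : H →L[ℂ] H) * ((q i : Elt M) : H →L[ℂ] H)‖
        ≤ ‖((q i : Elt M) : H →L[ℂ] H)‖ * ‖(f0 : H →L[ℂ] H)‖ * ‖((q i : Elt M) : H →L[ℂ] H)‖ :=
          norm_mul₃_le
      _ ≤ 1 * 1 * 1 := by
          have := hnq i
          gcongr
      _ = 1 := by norm_num
  have hsq : f1 * f1 - f1 = f1 * (f1 - f0) + (f1 - f0) * f0 - (f1 - f0) := by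
    have := hf0.idem
    rw [mul_sub, sub_mul, this]
    abel
  have hn11 : n2 T.τ (f1 * f1 - f1) ≤ (k + 2) * k * δ := by
    rw [hsq]
    refine (hT.n2_sub_le _ _).trans ?_
    have a1 := hT.n2_add_le (f1 * (f1 - f0)) ((f1 - f0) * f0)
    have a2 := n2_mul_le T f1 (f1 - f0)
    have a3 := n2_mul_le' T (f1 - f0) f0
    have a0 := n2_nonneg T.τ (f1 - f0)
    have a4 : ‖(f1 : H →L[ℂ] H)‖ * n2 T.τ (f1 - f0) ≤ k * (k * δ) := by gcongr
    have a5 : ‖(f0 : H →L[ℂ] H)‖ * n2 T.τ (f1 - f0) ≤ 1 * (k * δ) := by gcongr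
    nlinarith
  obtain ⟨f, hf, hff1, hpol⟩ := hG1 T f1 hf1s
  have hnf : n2 T.τ (f - f0) ≤ C * δ := by
    have := hT.n2_tri f f1 f0
    rw [hC]
    nlinarith
  refine ⟨f, ?_, hf, ?_, ?_, ?_⟩
  · refine hcl f fun η hη => ?_
    obtain ⟨P, hP⟩ := hpol η hη
    exact ⟨_, aeval_mem T F f1 hf1P h1P hadd hmul hsm P, hP⟩
  · intro i
    rw [← sub_eq_zero]
    refine eq_zero_of_n2 T _ ?_
    refine le_of_forall_pos_le_add fun η hη => ?_
    obtain ⟨P, hP⟩ := hpol (η / 2) (by positivity)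
    have hcP : q i * Polynomial.aeval f1 P = Polynomial.aeval f1 P * q i :=
      aeval_comm f1 (q i) (hcc i) P
    have e : f * q i - q i * f = (f - Polynomial.aeval f1 P) * q i -
        q i * (f - Polynomial.aeval f1 P) := by
      rw [sub_mul, mul_sub, hcP]; abel
    rw [e]
    refine (hT.n2_sub_le _ _).trans ?_
    have a1 := n2_mul_le' T (f - Polynomial.aeval f1 P) (q i)
    have a2 := n2_mul_le T (q i) (f - Polynomial.aeval f1 P)
    have a3 : ‖((q i : Elt M) : H →L[ℂ] H)‖ * n2 T.τ (f - Polynomial.aeval f1 P) ≤ 1 * (η / 2) := by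
      have := hnq i
      have := n2_nonneg T.τ (f - Polynomial.aeval f1 P)
      gcongr
    linarith
  · intro i
    have e : T.τ (f * q i) - (t : ℂ) * T.τ (q i) = (T.τ (f0 * q i) - (t : ℂ) * T.τ (q i)) +
        T.τ ((f - f0) * q i) := by
      rw [sub_mul, map_sub]; ring
    rw [e]
    refine (norm_add_le _ _).trans ?_
    have a1 := htr (q i) (Or.inl ⟨i, rfl⟩)
    have a2 := hT.cauchy' (f - f0) (q i)
    have a3 := (n2_le_norm T (q i)).trans (hnq i)
    have a4 : n2 T.τ (f - f0) * n2 T.τ (q i) ≤ C * δ * 1 := by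
      have := n2_nonneg T.τ (q i)
      gcongr
    have a5 : D * δ = ε := by rw [hδ]; field_simp
    have a6 : 0 ≤ 2 * A * C * δ := by positivity
    rw [hD] at a5
    nlinarith
  · intro a ha
    have e : f * a - a * f = (f0 * a - a * f0) + ((f - f0) * a - a * (f - f0)) := by
      rw [sub_mul, mul_sub]; abel
    rw [e]
    refine (hT.n2_add_le _ _).trans ?_
    have a1 := hcom a (Or.inr ha)
    have a2 := hT.n2_sub_le ((f - f0) * a) (a * (f - f0))
    have a3 := n2_mul_le' T (f - f0) a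
    have a4 := n2_mul_le T a (f - f0)
    have a5 : ‖(a : H →L[ℂ] H)‖ * n2 T.τ (f - f0) ≤ A * (C * δ) := by
      have := hA a ha
      have := n2_nonneg T.τ (f - f0)
      gcongr
    have a6 : D * δ = ε := by rw [hδ]; field_simp
    have a7 : 0 ≤ C * δ := by positivity
    rw [hD] at a6
    nlinarith

end Pool.Agent.H811R4.SD
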