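import Pool.Agent.H811R4.SD.Stubs

/-! MA8: the nonfactorial case -/

set_option autoImplicit false

namespace Pool.Agent.H811R4.SD

open Pool.Agent.Helper278

theorem ma8_holds (h7 : StMA7) (h8a : StMA8a) (h8b : StMA8b) : StMA8 := by
  intro H _ _ _ M T F t hF hfin ht0 ht1 hS ε hε
  obtain ⟨f, hp, hc, hcom, hat⟩ := h8a T F t hF hfin ht0 ht1
    (fun ι _ q hq hqP ε hε => h7 T F t hF hfin ht0 ht1 hS ι q hq hqP ε hε) ε hε
  obtain ⟨h1, h2, h3⟩ := h8b T F ε f hε hp hc hcom hat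
  exact ⟨Set.range f, h1, h2, h3⟩

end Pool.Agent.H811R4.SD
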