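import Mathlib
import Pool.Agent.H811R4.SD.Stubs

/-!
# Task MA8a: a commuting sequence of projections
-/

set_option autoImplicit false

open scoped InnerProductSpace BoundedContinuousFunction Topology
open Filter

namespace Pool.Agent.H811R4.SD

open Pool.Agent.Helper278

namespace MA8aaux

variable {H : Type} [NormedAddCommGroup H] [InnerProductSpace ℂ H] [CompleteSpace H]
  {M : VonNeumannAlgebra H}

/-- one factor of an atom -/
noncomputable def fac (f : ℕ → Elt M) (b : Bool) (i : ℕ) : Elt M := if b then f i else 1 - f i

theorem atom_cons (f : ℕ → Elt M) (b : Bool) (l : List Bool) :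
    atom f (b :: l) = atom f l * fac f b l.length := rfl

theorem atom_congr (f g : ℕ → Elt M) (l : List Bool) (h : ∀ i < l.length, f i = g i) :
    atom f l = atom g l := by
  induction l with
  | nil => rfl
  | cons b l ih =>
    rw [atom_cons, atom_cons, ih (fun i hi => h i (by simp; omega))]
    unfold fac
    rw [h l.length (by simp)]

theorem fac_comm (f : ℕ → Elt M) (x : Elt M) (i : ℕ) (b : Bool) (h : x * f i = f i * x) :
    x * fac f b i = fac f b i * x := by
  unfold fac
  split_ifs
  · exact h
  · rw [mul_sub, sub_mul, h, mul_one, one_mul]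

theorem atom_comm (f : ℕ → Elt M) (x : Elt M) (h : ∀ i, x * f i = f i * x) (l : List Bool) :
    x * atom f l = atom f l * x := by
  induction l with
  | nil =>
    show x * 1 = 1 * x
    rw [mul_one, one_mul]
  | cons b l ih =>
    rw [atom_cons, ← mul_assoc, ih, mul_assoc, fac_comm f x _ b (h _), mul_assoc]

theorem fac_proj (f : ℕ → Elt M) (hf : ∀ i, Proj (f i)) (b : Bool) (i : ℕ) : Proj (fac f b i) := by
  unfold fac
  split_ifs
  · exact hf i
  · refine ⟨?_, ?_⟩
    · rw [star_sub, star_one, (hf i).sa]
    · have := (hf i).idem
      rw [mul_sub, sub_mul, sub_mul, one_mul, mul_one, one_mul, this]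
      abel

variable (f : ℕ → Elt M) (hf : ∀ i, Proj (f i)) (hc : ∀ i k, f i * f k = f k * f i)

include hc in
theorem fac_atom (b : Bool) (i : ℕ) (l : List Bool) :
    fac f b i * atom f l = atom f l * fac f b i := by
  apply atom_comm
  intro k
  exact (fac_comm f (f k) i b (hc k i)).symm

include hf hc in
theorem atom_proj (l : List Bool) : Proj (atom f l) := by
  induction l with
  | nil => exact ⟨star_one _, mul_one _⟩
  | cons b l ih =>
    have h1 := fac_proj f hf b l.length
    have h2 := fac_atom f hc b l.length l
    refine ⟨?_, ?_⟩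
    · rw [atom_cons, star_mul, ih.sa, h1.sa, h2]
    · rw [atom_cons, mul_assoc, ← mul_assoc (fac f b l.length), h2, mul_assoc, h1.idem,
        ← mul_assoc, ih.idem]

include hf in
theorem fac_orth (b b' : Bool) (h : b ≠ b') (i : ℕ) : fac f b i * fac f b' i = 0 := by
  have := (hf i).idem
  unfold fac
  cases b <;> cases b'
  · exact absurd rfl h
  · simp only [Bool.false_eq_true, if_false, if_true]
    rw [sub_mul, one_mul, this, sub_self]
  · simp only [Bool.false_eq_true, if_false, if_true]
    rw [mul_sub, mul_one, this, sub_self]
  · exact absurd rfl h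

include hf hc in
theorem atom_orth (l : List Bool) : ∀ l' : List Bool, l.length = l'.length → l ≠ l' →
    atom f l * atom f l' = 0 := by
  induction l with
  | nil =>
    intro l' h1 h2
    cases l' with
    | nil => exact absurd rfl h2
    | cons b l => simp at h1
  | cons b l ih =>
    intro l' h1 h2
    cases l' with
    | nil => simp at h1
    | cons b' l' =>
      have hl : l.length = l'.length := by simpa using h1
      rw [atom_cons, atom_cons]
      have e : atom f l * fac f b l.length * (atom f l' * fac f b' l'.length) =
          (atom f l * atom f l') * (fac f b l.length * fac f b' l'.length) := by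
        rw [mul_assoc, ← mul_assoc (fac f b l.length), fac_atom f hc b l.length l', mul_assoc,
          ← mul_assoc (atom f l)]
      rw [e]
      by_cases h3 : l = l'
      · subst h3
        have hb : b ≠ b' := fun h => h2 (by rw [h])
        rw [fac_orth f hf b b' hb, mul_zero]
      · rw [ih l' hl h3, zero_mul]

theorem atom_sum (m : ℕ) : ∑ v : Fin m → Bool, atom f (List.ofFn v) = 1 := by
  induction m with
  | zero =>
    rw [Fintype.sum_unique]
    rfl
  | succ m ih =>
    rw [← (Fin.consEquiv (fun _ : Fin (m + 1) => Bool)).sum_comp, Fintype.sum_prod_type,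
      Fintype.sum_bool, ← Finset.sum_add_distrib]
    rw [← ih]
    apply Finset.sum_congr rfl
    intro v _
    have e : ∀ b : Bool, List.ofFn ((Fin.consEquiv (fun _ : Fin (m + 1) => Bool)) (b, v)) =
        b :: List.ofFn v := by
      intro b
      rw [List.ofFn_succ]
      rfl
    rw [e, e, atom_cons, atom_cons, List.length_ofFn, ← mul_add]
    unfold fac
    simp

include hf hc in
theorem pvm (m : ℕ) : PVM (fun v : Fin m → Bool => atom f (List.ofFn v)) where
  star_eq := fun v => (atom_proj f hf hc _).sa
  idem := fun v => (atom_proj f hf hc _).idem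
  orth := fun v v' h => atom_orth f hf hc _ _ (by simp) (fun h' => h (List.ofFn_injective h'))
  sum := atom_sum f m

include hf hc in
theorem fmul (i : ℕ) (l : List Bool) (hi : i < l.length) :
    f i * atom f l = atom f l ∨ f i * atom f l = 0 := by
  induction l with
  | nil => simp at hi
  | cons b l ih =>
    rw [atom_cons]
    by_cases h : i = l.length
    · subst h
      have h1 : f l.length * atom f l = atom f l * f l.length := atom_comm f _ (fun k => hc _ k) l
      rw [← mul_assoc, h1, mul_assoc]
      unfold fac
      cases b
      · right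
        simp only [Bool.false_eq_true, if_false]
        rw [mul_sub, mul_one, (hf l.length).idem, sub_self, mul_zero]
      · left
        simp only [if_true]
        rw [(hf l.length).idem]
    · have hi' : i < l.length := by
        simp only [List.length_cons] at hi
        omega
      rcases ih hi' with h1 | h1
      · left; rw [← mul_assoc, h1]
      · right; rw [← mul_assoc, h1, zero_mul]

include hf hc in
theorem comm_of_atoms (m : ℕ) (e : Elt M)
    (he : ∀ v : Fin m → Bool, e * atom f (List.ofFn v) = atom f (List.ofFn v) * e) (i : ℕ)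
    (hi : i < m) : e * f i = f i * e := by
  have h1 : ∀ v : Fin m → Bool, e * (f i * atom f (List.ofFn v)) =
      (f i * atom f (List.ofFn v)) * e := by
    intro v
    rcases fmul f hf hc i (List.ofFn v) (by simpa using hi) with h | h
    · rw [h, he]
    · rw [h, mul_zero, zero_mul]
  have h2 : f i = ∑ v : Fin m → Bool, f i * atom f (List.ofFn v) := by
    rw [← Finset.mul_sum, atom_sum, mul_one]
  rw [h2, Finset.mul_sum, Finset.sum_mul]
  exact Finset.sum_congr rfl fun v _ => h1 v

/-- the state after `m` steps -/
structure Inv (T : TracialState M) (F : Set (Elt M)) (ε r : ℝ) (m : ℕ) (f : ℕ → Elt M) : Prop where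
  proj : ∀ i, Proj (f i)
  mem : ∀ i, f i ∈ PP T F
  comm : ∀ i k, f i * f k = f k * f i
  near : ∀ i, ∀ a ∈ F, n2 T.τ (f i * a - a * f i) ≤ ε / 2 ^ (i + 1)
  zero : ∀ i, m ≤ i → f i = 0
  small : ∀ l : List Bool, l.length ≤ m → (T.τ (atom f l)).re ≤ r ^ l.length

theorem atom_mem (hPP : StPP) (T : TracialState M) (F : Set (Elt M)) (hF : StarClosed F)
    (hm : ∀ i, f i ∈ PP T F) (l : List Bool) : atom f l ∈ PP T F := by
  obtain ⟨-, h1, -, hadd, hmul, hsm, -⟩ := hPP T F hF
  induction l with
  | nil => exact h1
  | cons b l ih =>
    rw [atom_cons]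
    refine hmul _ ih _ ?_
    unfold fac
    split_ifs
    · exact hm _
    · have h2 := hadd _ h1 _ (hsm (-1) _ (hm l.length))
      rw [neg_one_smul, ← sub_eq_add_neg] at h2
      exact h2

end MA8aaux

open MA8aaux in
theorem ma8a_holds (hPP : StPP) : StMA8a := by
  intro H _ _ _ M T F t hF hFf ht0 ht1 hstep ε hε
  set s : ℝ := max t (1 - t) with hs
  have hs0 : 0 < s := lt_of_lt_of_le ht0 (le_max_left _ _)
  have hs1 : s < 1 := max_lt ht1 (by linarith)
  set r : ℝ := (1 + s) / 2 with hr
  have hr0 : 0 < r := by positivity
  have hr1 : r < 1 := by rw [hr]; linarith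
  have hn20 : n2 T.τ (0 : Elt M) = 0 := by
    unfold n2
    simp
  obtain ⟨-, hP1, -, hadd, hmul, hsm, -⟩ := hPP T F hF
  have hP0 : (0 : Elt M) ∈ PP T F := by
    have := hsm 0 _ hP1
    rwa [zero_smul] at this
  have h0 : Inv T F ε r 0 (fun _ => (0 : Elt M)) := by
    refine ⟨fun _ => ⟨star_zero _, mul_zero _⟩, fun _ => hP0, fun _ _ => rfl, ?_, fun _ _ => rfl, ?_⟩
    · intro i a _
      rw [zero_mul, mul_zero, sub_zero, hn20]
      positivity
    · intro l hl
      have : l = [] := List.length_eq_zero_iff.1 (by omega)
      subst this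
      show (T.τ 1).re ≤ _
      rw [T.map_one]
      simp
  have hE : ∀ (m : ℕ) (f : ℕ → Elt M), Inv T F ε r m f →
      ∃ e : Elt M, Inv T F ε r (m + 1) (Function.update f m e) := by
    intro m f hf
    set δ : ℝ := min (ε / 2 ^ (m + 1)) (r ^ m * ((1 - s) / 2)) with hδ
    have hδ0 : 0 < δ := by
      refine lt_min (by positivity) (mul_pos (by positivity) (by linarith))
    obtain ⟨e, heP, hep, hec, het, hea⟩ := hstep (Fin m → Bool)
      (fun v => atom f (List.ofFn v)) (pvm f hf.proj hf.comm m)
      (fun v => atom_mem f hPP T F hF hf.mem _) δ hδ0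
    refine ⟨e, ?_⟩
    have hcomm : ∀ i, e * f i = f i * e := by
      intro i
      by_cases hi : i < m
      · exact comm_of_atoms f hf.proj hf.comm m e hec i hi
      · rw [hf.zero i (by omega), mul_zero, zero_mul]
    have hu : ∀ i, i ≠ m → Function.update f m e i = f i := fun i hi =>
      Function.update_of_ne hi _ _
    have hum : Function.update f m e m = e := Function.update_self _ _ _
    have hat : ∀ l : List Bool, l.length ≤ m → atom (Function.update f m e) l = atom f l :=
      fun l hl => atom_congr _ _ l (fun i hi => hu i (by omega))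
    refine ⟨?_, ?_, ?_, ?_, ?_, ?_⟩
    · intro i
      by_cases hi : i = m
      · rw [hi, hum]; exact hep
      · rw [hu i hi]; exact hf.proj i
    · intro i
      by_cases hi : i = m
      · rw [hi, hum]; exact heP
      · rw [hu i hi]; exact hf.mem i
    · intro i k
      by_cases hi : i = m
      · by_cases hk : k = m
        · rw [hi, hk]
        · rw [hi, hum, hu k hk]; exact hcomm k
      · by_cases hk : k = m
        · rw [hk, hum, hu i hi]; exact (hcomm i).symm
        · rw [hu i hi, hu k hk]; exact hf.comm i k
    · intro i a ha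
      by_cases hi : i = m
      · rw [hi, hum]
        exact (hea a ha).trans (min_le_left _ _)
      · rw [hu i hi]; exact hf.near i a ha
    · intro i hi
      rw [hu i (by omega)]
      exact hf.zero i (by omega)
    · intro l hl
      by_cases hlm : l.length ≤ m
      · rw [hat l hlm]; exact hf.small l hlm
      · cases l with
        | nil => simp at hlm
        | cons b l =>
          have hll : l.length = m := by
            simp only [List.length_cons] at hl hlm
            omega
          rw [atom_cons, hat l hll.le, List.length_cons, hll]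
          have hq1 : (T.τ (atom f l)).re ≤ r ^ m := by
            have := hf.small l hll.le
            rwa [hll] at this
          have hrm : 0 < r ^ m := by positivity
          have hv : ∃ v : Fin m → Bool, List.ofFn v = l := by
            subst hll
            exact ⟨l.get, List.ofFn_get l⟩
          obtain ⟨v, hv⟩ := hv
          have h1 := het v
          rw [hv] at h1
          have h2 : |(T.τ (e * atom f l)).re - t * (T.τ (atom f l)).re| ≤ δ := by
            have h3 := (Complex.abs_re_le_norm _).trans h1
            rwa [Complex.sub_re, Complex.re_ofReal_mul] at h3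
          have h4 := abs_le.1 h2
          have h5 : δ ≤ r ^ m * ((1 - s) / 2) := min_le_right _ _
          have h6 : r ^ (m + 1) = r ^ m * s + r ^ m * ((1 - s) / 2) := by
            rw [pow_succ, hr]; ring
          rw [h6]
          have ht : t * (T.τ (atom f l)).re ≤ r ^ m * s := by
            calc t * (T.τ (atom f l)).re ≤ t * r ^ m := mul_le_mul_of_nonneg_left hq1 ht0.le
              _ ≤ s * r ^ m := mul_le_mul_of_nonneg_right (le_max_left _ _) hrm.le
              _ = r ^ m * s := mul_comm _ _
          have ht' : (1 - t) * (T.τ (atom f l)).re ≤ r ^ m * s := by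
            calc (1 - t) * (T.τ (atom f l)).re ≤ (1 - t) * r ^ m :=
                  mul_le_mul_of_nonneg_left hq1 (by linarith)
              _ ≤ s * r ^ m := mul_le_mul_of_nonneg_right (le_max_right _ _) hrm.le
              _ = r ^ m * s := mul_comm _ _
          unfold fac
          rw [hum]
          split_ifs
          · rw [T.tracial]
            linarith [h4.2]
          · rw [mul_sub, mul_one, map_sub, T.tracial (atom f l) e, Complex.sub_re]
            linarith [h4.1]
  choose E hE' using hE
  set S : (n : ℕ) → {f : ℕ → Elt M // Inv T F ε r n f} := fun n =>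
    Nat.rec (motive := fun n => {f : ℕ → Elt M // Inv T F ε r n f}) ⟨fun _ => 0, h0⟩
      (fun n x => ⟨Function.update x.1 n (E n x.1 x.2), hE' n x.1 x.2⟩) n with hS
  have hSs : ∀ n, (S (n + 1)).1 = Function.update (S n).1 n (E n (S n).1 (S n).2) := fun n => rfl
  have hagr : ∀ i n, (S (i + 1 + n)).1 i = (S (i + 1)).1 i := by
    intro i n
    induction n with
    | zero => rfl
    | succ n ih =>
      have : i + 1 + (n + 1) = (i + 1 + n) + 1 := by ring
      rw [this, hSs, Function.update_of_ne (by omega), ih]
  have hagr' : ∀ i n, i < n → (S (i + 1)).1 i = (S n).1 i := by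
    intro i n hin
    obtain ⟨k, rfl⟩ : ∃ k, n = i + 1 + k := ⟨n - (i + 1), by omega⟩
    exact (hagr i k).symm
  refine ⟨fun i => (S (i + 1)).1 i, fun i => (S (i + 1)).2.proj i, ?_,
    fun i => (S (i + 1)).2.near i, ?_⟩
  · intro i k
    show (S (i + 1)).1 i * (S (k + 1)).1 k = (S (k + 1)).1 k * (S (i + 1)).1 i
    rw [hagr' i (max i k + 1) (by omega), hagr' k (max i k + 1) (by omega)]
    exact (S (max i k + 1)).2.comm i k
  · intro η hη
    obtain ⟨m, hm⟩ := exists_pow_lt_of_lt_one hη hr1
    refine ⟨m, fun l hl => ?_⟩
    have h1 : atom (fun i => (S (i + 1)).1 i) l = atom (S m).1 l :=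
      atom_congr _ _ l (fun i hi => hagr' i m (by omega))
    rw [h1]
    have h2 := (S m).2.small l hl.le
    rw [hl] at h2
    linarith

end Pool.Agent.H811R4.SD
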