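import Pool.Agent.H811R4.SD.Stubs
import Pool.Agent.Helper278.Model

/-! MAIN: assembly of the algebraic part. -/

set_option autoImplicit false

open scoped InnerProductSpace BoundedContinuousFunction
open Filter

namespace Pool.Agent.H811R4.SD

open Pool.Agent.Helper278

theorem main_holds (h1 : StMA1) (h2 : StMA2) (h3 : StMA3) (h4 : StMA4) (h6 : StMA6)
    (h8 : StMA8) : StMAIN := by
  intro H _ _ _ M T hM F hFs hFf hirr hG
  let U : Ultrafilter ℕ := hyperfilter ℕ
  have hU : ∀ n : ℕ, {n} ∉ U := fun n h =>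
    (notMem_hyperfilter_of_finite (Set.finite_singleton n)) h
  obtain ⟨Q, i1, i2, i3, i4, π, σ, hQ⟩ := exists_ultrapower T U
  rcases h1 T hM hQ hU F hFs with ⟨z, hz, hz0, hz1, hzF, hzc⟩ | hconj
  · obtain ⟨e, t, hZ⟩ := h4 T hM hQ hU F hFs hFf hirr z hz hz0 hz1 hzF hzc
    exact h8 T F t hFs hFf hZ.pos hZ.lt (h6 T U F e t hFs hFf hZ)
  · exact h3 T F hFf (h2 T hQ hU F hFs hFf hconj) hG

end Pool.Agent.H811R4.SD
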