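import Mathlib
import Pool.Agent.H811R4.SD.Stubs

/-!
# MINC: the case of a minimal projection (helper896)
-/

set_option autoImplicit false

open scoped InnerProductSpace BoundedContinuousFunction
open Filter

namespace Pool.Agent.H811R4.SD

open Pool.Agent.Helper278

theorem minc_holds (hCORN : StCORN) (hE0M : StE0M) (hGOOD : StGOOD) (hMAIN : StMAIN)
    (hCALG : StCALG) : StMINC := by
  intro H _ _ _ M T K _ _ _ j lam hStd hM hSol U Q _ _ _ _ π σ hQ hU D F hD hF hFD hFfin hdiff
    p hpF hp hp0 hmin ε hε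
  obtain ⟨H', i1, i2, i3, N, T', ι, hC, hN⟩ := hCORN T hM p hp hp0
  have hpl : ∀ x : Elt N, p * ι x = ι x := fun x => by
    rw [← hC.one, ← map_mul, one_mul]
  have hpr : ∀ x : Elt N, ι x * p = ι x := fun x => by
    rw [← hC.one, ← map_mul, mul_one]
  have hstar : StarClosed {y : Elt N | ∃ a ∈ F, ι y = a * p} := by
    rintro y ⟨a, ha, hy⟩
    refine ⟨star a, hF a ha, ?_⟩
    rw [map_star, hy, star_mul, hp.sa]
    exact (hpF (star a) (hF a ha)).symm
  have hfin : {y : Elt N | ∃ a ∈ F, ι y = a * p}.Finite := by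
    refine ((hFfin.image (fun a => a * p)).preimage hC.inj.injOn).subset ?_
    rintro y ⟨a, ha, hy⟩
    exact ⟨a, ha, hy.symm⟩
  have hirr : Irr {y : Elt N | ∃ a ∈ F, ι y = a * p} := by
    intro x hx
    have hιx : ι x ∈ RC F := by
      intro a ha
      have hap : a * p = p * a := hpF a ha
      have h1 : p * (a * p) * p = a * p := by
        calc p * (a * p) * p = (p * a) * (p * p) := by simp only [mul_assoc]
          _ = (a * p) * p := by rw [← hap, hp.idem]
          _ = a * (p * p) := by rw [mul_assoc]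
          _ = a * p := by rw [hp.idem]
      obtain ⟨y, hy⟩ := hC.surj _ h1
      have h2 : y * x = x * y := hx y ⟨a, ha, hy⟩
      calc a * ι x = a * (p * ι x) := by rw [hpl]
        _ = (a * p) * ι x := by rw [mul_assoc]
        _ = ι y * ι x := by rw [hy]
        _ = ι x * ι y := by rw [← map_mul, h2, map_mul]
        _ = ι x * (p * a) := by rw [hy, hap]
        _ = (ι x * p) * a := by rw [mul_assoc]
        _ = ι x * a := by rw [hpr]
    obtain ⟨c, hc⟩ := hmin _ hιx
    refine ⟨c, hC.inj ?_⟩
    rw [map_smul, hC.one, ← hc, hpl, hpr]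
  have hgood := hGOOD T hp hp0 hC F hpF
    (fun m δ hδ => hE0M T hM hQ hU D F hD hF hFD hFfin hdiff p hpF hp m δ hδ)
  have hAlg := hMAIN T' hN _ hstar hfin hirr hgood
  exact hCALG T hStd hM hSol hp hp0 hC F hpF hAlg ε hε

end Pool.Agent.H811R4.SD
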