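import Pool.Agent.H811R4.SD.Stubs
import Pool.Agent.Helper278.GroupMain

set_option autoImplicit false

open scoped InnerProductSpace BoundedContinuousFunction Topology
open Filter

namespace Pool.Agent.H811R4.SD

open Pool.Agent.Helper278

theorem nomin_holds (hCOND : StCOND) : StNOMIN := by
  intro H _ _ _ M T K _ _ _ j lam hStd hM hSolid F hF p hpF hp hmin
  obtain ⟨S, hS⟩ : ∃ S : Set (Elt M), S = {z | (∃ x ∈ RC F, z = p * x * p) ∨
    ∃ y : Elt M, z = (1 - p) * y * (1 - p)} := ⟨_, rfl⟩
  have hpp : p * p = p := hp.idem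
  have hps : star p = p := hp.sa
  have hp1 : p * (1 - p) = 0 := by rw [mul_sub, mul_one, hpp, sub_self]
  have hp2 : (1 - p) * p = 0 := by rw [sub_mul, one_mul, hpp, sub_self]
  have hFp : ∀ a ∈ F, a * p = p * a := hpF
  have hmem1 : ∀ x ∈ RC F, p * x * p ∈ S := by
    intro x hx
    rw [hS]
    exact Or.inl ⟨x, hx, rfl⟩
  have hmem2 : ∀ y : Elt M, (1 - p) * y * (1 - p) ∈ S := by
    intro y
    rw [hS]
    exact Or.inr ⟨y, rfl⟩
  have hstar : ∀ x ∈ RC F, star x ∈ RC F := by
    intro x hx a ha
    have h1 := hx (star a) (hF a ha)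
    have h2 := congrArg star h1
    rw [star_mul, star_mul, star_star] at h2
    exact h2.symm
  have hSs : StarClosed S := by
    intro s hs
    rw [hS] at hs
    rcases hs with ⟨x, hx, rfl⟩ | ⟨y, rfl⟩
    · rw [star_mul, star_mul, hps, ← mul_assoc]
      exact hmem1 _ (hstar x hx)
    · rw [star_mul, star_mul, star_sub, star_one, hps, ← mul_assoc]
      exact hmem2 _
  have hcom : ∀ a ∈ F, a * p ∈ RC S := by
    intro a ha s hs
    have hap := hFp a ha
    rw [hS] at hs
    rcases hs with ⟨x, hx, rfl⟩ | ⟨y, rfl⟩
    · have hax : a * x = x * a := hx a ha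
      calc p * x * p * (a * p) = p * x * (p * a) * p := by noncomm_ring
        _ = p * x * (a * p) * p := by rw [hap]
        _ = p * (x * a) * (p * p) := by noncomm_ring
        _ = p * (a * x) * p := by rw [hpp, hax]
        _ = (p * a) * x * p := by noncomm_ring
        _ = a * (p * p) * x * p := by rw [← hap, hpp]
        _ = a * p * (p * x * p) := by noncomm_ring
    · calc (1 - p) * y * (1 - p) * (a * p) = (1 - p) * y * ((1 - p) * (a * p)) := by noncomm_ring
        _ = (1 - p) * y * ((1 - p) * p * a) := by rw [hap]; noncomm_ring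
        _ = 0 := by rw [hp2]; simp
        _ = a * (p * (1 - p)) * y * (1 - p) := by rw [hp1]; simp
        _ = a * p * ((1 - p) * y * (1 - p)) := by noncomm_ring
  have h1F : (1 : Elt M) ∈ RC F := fun a _ => by rw [mul_one, one_mul]
  have hpS : p ∈ S := by
    have := hmem1 1 h1F
    rwa [mul_one, hpp] at this
  have hpRS : p ∈ RC S := by
    intro s hs
    rw [hS] at hs
    rcases hs with ⟨x, hx, rfl⟩ | ⟨y, rfl⟩
    · calc p * x * p * p = p * x * (p * p) := by noncomm_ring
        _ = p * p * x * p := by rw [hpp]
        _ = p * (p * x * p) := by noncomm_ring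
    · calc (1 - p) * y * (1 - p) * p = (1 - p) * y * ((1 - p) * p) := by noncomm_ring
        _ = p * (1 - p) * y * (1 - p) := by rw [hp1, hp2]; simp
        _ = p * ((1 - p) * y * (1 - p)) := by noncomm_ring
  have hSRR : ∀ s ∈ S, s ∈ RC (RC S) := fun s hs a ha => (ha s hs).symm
  have hdiffM : IsDiffuse M := diffuse_of_factor T hM.center hM.infinite
  have hdiff : DiffuseIn (RC (RC S)) := by
    intro r hr hrr hrs hr0
    have hpr : p * r = r * p := hr p hpRS
    by_cases hA : r * p = 0
    · -- r = (1 - p) r (1 - p)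
      have e1 : r * (1 - p) = r := by rw [mul_sub, mul_one, hA, sub_zero]
      have e2 : (1 - p) * r = r := by rw [sub_mul, one_mul, hpr, hA, sub_zero]
      obtain ⟨y, hy, hyc⟩ := hdiffM r.1 r.2 (congrArg Subtype.val hrr) (congrArg Subtype.val hrs)
        (fun h => hr0 (Subtype.ext h))
      refine ⟨(1 - p) * ⟨y, hy⟩ * (1 - p), hSRR _ (hmem2 _), ?_⟩
      intro c hc
      apply hyc c
      have e3 : r * ((1 - p) * (⟨y, hy⟩ : Elt M) * (1 - p)) * r = r * (⟨y, hy⟩ : Elt M) * r := by
        calc r * ((1 - p) * (⟨y, hy⟩ : Elt M) * (1 - p)) * r =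
            (r * (1 - p)) * (⟨y, hy⟩ : Elt M) * ((1 - p) * r) := by noncomm_ring
          _ = r * (⟨y, hy⟩ : Elt M) * r := by rw [e1, e2]
      rw [e3] at hc
      exact congrArg Subtype.val hc
    · by_cases hB : r * (1 - p) = 0
      · have e1 : r * p = r := by
          rw [mul_sub, mul_one, sub_eq_zero] at hB
          exact hB.symm
        have e2 : p * r = r := by rw [hpr, e1]
        have hrF : r ∈ RC F := by
          intro a ha
          have h1 : a * p * r = r * (a * p) := hr (a * p) (hcom a ha)
          calc a * r = a * (p * r) := by rw [e2]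
            _ = a * p * r := by rw [mul_assoc]
            _ = r * (a * p) := h1
            _ = r * (p * a) := by rw [hFp a ha]
            _ = r * p * a := by rw [mul_assoc]
            _ = r * a := by rw [e1]
        obtain ⟨x, hx, hxc⟩ := hmin r hrF ⟨hrs, hrr⟩ hr0 e1
        refine ⟨p * x * p, hSRR _ (hmem1 x hx), ?_⟩
        intro c hc
        apply hxc c
        rw [← hc]
        calc r * x * r = (r * p) * x * (p * r) := by rw [e1, e2]
          _ = r * (p * x * p) * r := by noncomm_ring
      · refine ⟨p, hSRR _ hpS, ?_⟩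
        intro c hc
        have e1 : r * p = c • r := by
          rw [← hc, mul_assoc, hpr, ← mul_assoc, hrr]
        have e2 : r * p = c • (r * p) := by
          calc r * p = r * (p * p) := by rw [hpp]
            _ = (r * p) * p := by rw [mul_assoc]
            _ = (c • r) * p := by rw [e1]
            _ = c • (r * p) := by rw [smul_mul_assoc]
        have e3 : (1 - c) • (r * p) = 0 := by
          rw [sub_smul, one_smul, ← e2, sub_self]
        have e4 : c = 1 := by
          rcases smul_eq_zero.mp e3 with h | h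
          · exact (sub_eq_zero.mp h).symm
          · exact absurd h hA
        apply hB
        rw [mul_sub, mul_one, e1, e4, one_smul, sub_self]
  have h := hCOND T hStd hSolid F S p 0 hp hFp hSs hdiff (fun a ha => ⟨a * p, hcom a ha, by
    rw [sub_self]
    unfold n2
    simp⟩)
  rw [mul_zero] at h
  exact h

end Pool.Agent.H811R4.SD
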