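import Pool.Agent.H811R4.SD.Stubs
import Pool.Agent.Helper278.TraceUniq

set_option autoImplicit false

open scoped InnerProductSpace BoundedContinuousFunction Topology
open Filter

namespace Pool.Agent.H811R4.SD

open Pool.Agent.Helper278

theorem pl_holds (hG1 : StG1) : StPL := by
  intro H _ _ _ M T U Q _ _ _ _ π σ hπ z hz
  obtain ⟨x, rfl⟩ := hπ.surj z
  set y : ℕ →ᵇ Elt M := (1 / 2 : ℂ) • (x + star x) with hydef
  have hyn : ∀ n, y n = (1 / 2 : ℂ) • (x n + star (x n)) := fun n => rfl
  have hy : ∀ n, star (y n) = y n := by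
    intro n
    rw [hyn, star_smul, star_add, star_star, add_comm (star (x n)) (x n)]
    congr 1
    simp
  have hπy : π y = π x := by
    rw [hydef, map_smul, map_add, map_star, hz.sa, ← two_smul ℂ (π x), smul_smul]
    norm_num
  choose f hf hfn using fun n => hG1 T (y n) (hy n)
  have hf1 : ∀ n, ‖f n‖ ≤ 1 := fun n => norm_proj_le (f n) (hf n).sa (hf n).idem
  refine ⟨mkB' f hf1, fun n => hf n, ?_⟩
  rw [← hπy, pi_eq_iff hπ]
  have h2 : π (y * y) = π y := by rw [map_mul, hπy, hz.idem]
  rw [pi_eq_iff hπ] at h2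
  have h3 := h2.const_mul 2
  rw [mul_zero] at h3
  exact squeeze_zero (fun n => n2_nonneg _ _) (fun n => (hfn n).1) h3

end Pool.Agent.H811R4.SD
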