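import Mathlib
import Pool.Agent.H811R4.SD.Stubs

/-!
# Task PP: the set PP is a closed star algebra
-/

set_option autoImplicit false

open scoped InnerProductSpace BoundedContinuousFunction Topology
open Filter

namespace Pool.Agent.H811R4.SD

open Pool.Agent.Helper278

namespace TPP

variable {H : Type} [NormedAddCommGroup H] [InnerProductSpace ℂ H] [CompleteSpace H]
  {M : VonNeumannAlgebra H}

theorem norm_uni (y : Elt M) (hy : star y * y = 1) : ‖(y : H →L[ℂ] H)‖ ≤ 1 := by
  have h1 : star (y : H →L[ℂ] H) * (y : H →L[ℂ] H) = 1 := congrArg Subtype.val hy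
  have h2 : ‖star (y : H →L[ℂ] H) * (y : H →L[ℂ] H)‖ = ‖(y : H →L[ℂ] H)‖ * ‖(y : H →L[ℂ] H)‖ :=
    CStarRing.norm_star_mul_self
  rw [h1] at h2
  have h3 : ‖(1 : H →L[ℂ] H)‖ ≤ 1 := ContinuousLinearMap.norm_id_le
  nlinarith [norm_nonneg (y : H →L[ℂ] H)]

theorem n2_le_left (T : TracialState M) (a x : Elt M) (ha : ‖(a : H →L[ℂ] H)‖ ≤ 1) :
    n2 T.τ (a * x) ≤ n2 T.τ x := by
  refine le_trans (n2_mul_le T a x) ?_
  have := n2_nonneg T.τ x
  nlinarith

theorem n2_le_right (T : TracialState M) (x a : Elt M) (ha : ‖(a : H →L[ℂ] H)‖ ≤ 1) :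
    n2 T.τ (x * a) ≤ n2 T.τ x := by
  refine le_trans (n2_mul_le' T x a) ?_
  have := n2_nonneg T.τ x
  nlinarith

end TPP

open TPP in
theorem pp_holds : StPP := by
  intro H _ _ _ M T F hF
  have h := trAlg T
  refine ⟨?_, ?_, ?_, ?_, ?_, ?_, ?_⟩
  · intro a ha ε hε
    refine ⟨ε, hε, fun y _ _ hc => ?_⟩
    rw [h.n2_sub_comm]
    exact hc a ha
  · intro ε hε
    refine ⟨1, one_pos, fun y _ _ _ => ?_⟩
    rw [one_mul, mul_one, sub_self, h.n2_zero]
    exact hε.le
  · intro x hx ε hε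
    obtain ⟨δ, hδ, hd⟩ := hx ε hε
    refine ⟨δ, hδ, fun y hy1 hy2 hc => ?_⟩
    have hs1 : star (star y) * star y = 1 := by rw [star_star]; exact hy2
    have hs2 : star y * star (star y) = 1 := by rw [star_star]; exact hy1
    have hn : ‖((star y : Elt M) : H →L[ℂ] H)‖ ≤ 1 := norm_uni (star y) hs1
    have key := hd (star y) hs1 hs2 ?_
    · have e : star (star x * y - y * star x) = -(x * star y - star y * x) := by
        rw [star_sub, star_mul, star_mul, star_star]
        abel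
      rw [← h.n2_star, e, h.n2_neg]
      exact key
    · intro a ha
      have e : star y * a - a * star y = star y * (a * y - y * a) * star y := by
        have e1 : star y * (a * y - y * a) * star y =
            star y * a * (y * star y) - (star y * y) * a * star y := by noncomm_ring
        rw [e1, hy1, hy2, mul_one, one_mul]
      rw [e]
      refine le_trans (n2_le_right T _ _ hn) (le_trans (n2_le_left T _ _ hn) ?_)
      rw [h.n2_sub_comm]
      exact hc a ha
  · intro x hx x' hx' ε hε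
    obtain ⟨δ, hδ, hd⟩ := hx (ε / 2) (by positivity)
    obtain ⟨δ', hδ', hd'⟩ := hx' (ε / 2) (by positivity)
    refine ⟨min δ δ', lt_min hδ hδ', fun y hy1 hy2 hc => ?_⟩
    have k1 := hd y hy1 hy2 (fun a ha => (hc a ha).trans (min_le_left _ _))
    have k2 := hd' y hy1 hy2 (fun a ha => (hc a ha).trans (min_le_right _ _))
    have e : (x + x') * y - y * (x + x') = (x * y - y * x) + (x' * y - y * x') := by noncomm_ring
    rw [e]
    refine le_trans (h.n2_add_le _ _) ?_
    linarith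
  · intro x hx x' hx' ε hε
    set C : ℝ := ‖(x : H →L[ℂ] H)‖ + ‖(x' : H →L[ℂ] H)‖ + 1 with hC
    have hx0 := norm_nonneg (x : H →L[ℂ] H)
    have hx0' := norm_nonneg (x' : H →L[ℂ] H)
    have hCpos : 0 < C := by positivity
    obtain ⟨δ, hδ, hd⟩ := hx (ε / (2 * C)) (by positivity)
    obtain ⟨δ', hδ', hd'⟩ := hx' (ε / (2 * C)) (by positivity)
    refine ⟨min δ δ', lt_min hδ hδ', fun y hy1 hy2 hc => ?_⟩
    have k1 := hd y hy1 hy2 (fun a ha => (hc a ha).trans (min_le_left _ _))
    have k2 := hd' y hy1 hy2 (fun a ha => (hc a ha).trans (min_le_right _ _))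
    have e : x * x' * y - y * (x * x') = x * (x' * y - y * x') + (x * y - y * x) * x' := by
      noncomm_ring
    rw [e]
    refine le_trans (h.n2_add_le _ _) ?_
    have m1 := n2_mul_le T x (x' * y - y * x')
    have m2 := n2_mul_le' T (x * y - y * x) x'
    have m3 : ‖(x : H →L[ℂ] H)‖ * n2 T.τ (x' * y - y * x') ≤ C * (ε / (2 * C)) := by
      apply mul_le_mul _ k2 (n2_nonneg _ _) hCpos.le
      linarith
    have m4 : ‖(x' : H →L[ℂ] H)‖ * n2 T.τ (x * y - y * x) ≤ C * (ε / (2 * C)) := by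
      apply mul_le_mul _ k1 (n2_nonneg _ _) hCpos.le
      linarith
    have m5 : C * (ε / (2 * C)) = ε / 2 := by field_simp
    linarith
  · intro c x hx ε hε
    have hc0 := norm_nonneg c
    obtain ⟨δ, hδ, hd⟩ := hx (ε / (‖c‖ + 1)) (by positivity)
    refine ⟨δ, hδ, fun y hy1 hy2 hc => ?_⟩
    have k1 := hd y hy1 hy2 hc
    have e : (c • x) * y - y * (c • x) = (c • (1 : Elt M)) * (x * y - y * x) := by
      rw [smul_mul_assoc, mul_smul_comm, smul_mul_assoc, one_mul, smul_sub]
    rw [e]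
    refine le_trans (n2_mul_le T _ _) ?_
    have hn : ‖((c • (1 : Elt M) : Elt M) : H →L[ℂ] H)‖ ≤ ‖c‖ + 1 := by
      have e1 : ((c • (1 : Elt M) : Elt M) : H →L[ℂ] H) = c • (1 : H →L[ℂ] H) := rfl
      rw [e1, norm_smul]
      have h3 : ‖(1 : H →L[ℂ] H)‖ ≤ 1 := ContinuousLinearMap.norm_id_le
      nlinarith
    have m3 : ‖((c • (1 : Elt M) : Elt M) : H →L[ℂ] H)‖ * n2 T.τ (x * y - y * x) ≤
        (‖c‖ + 1) * (ε / (‖c‖ + 1)) := by
      apply mul_le_mul hn k1 (n2_nonneg _ _) (by positivity)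
    have m5 : (‖c‖ + 1) * (ε / (‖c‖ + 1)) = ε := by field_simp
    linarith
  · intro x hx ε hε
    obtain ⟨x', hx', hxx⟩ := hx (ε / 3) (by positivity)
    obtain ⟨δ, hδ, hd⟩ := hx' (ε / 3) (by positivity)
    refine ⟨δ, hδ, fun y hy1 hy2 hc => ?_⟩
    have k1 := hd y hy1 hy2 hc
    have hn := norm_uni y hy1
    have e : x * y - y * x = (x * y - y * x - (x' * y - y * x')) + (x' * y - y * x') := by abel
    have e2 : x * y - y * x - (x' * y - y * x') = (x - x') * y - y * (x - x') := by noncomm_ring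
    rw [e, e2]
    refine le_trans (h.n2_add_le _ _) ?_
    have m1 := h.n2_sub_le ((x - x') * y) (y * (x - x'))
    have m2 := n2_le_right T (x - x') y hn
    have m3 := n2_le_left T y (x - x') hn
    linarith

end Pool.Agent.H811R4.SD
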