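import Pool.Agent.H811R4.SD.Stubs
import Pool.Agent.Helper278.CEMod

/-! Task QMOD: the ultrapower of a II₁ factor is a II₁ factor. -/

set_option autoImplicit false

open scoped InnerProductSpace BoundedContinuousFunction
open Filter

namespace Pool.Agent.H811R4.SD

open Pool.Agent.Helper278 Pool.Agent.Helper278.CE

theorem qmod_holds : StQMOD := by
  intro H _ _ _ M T hM U Q _ _ _ _ π σ hπ hU
  have hS := sigma_trAlg hπ
  obtain ⟨K, i1, i2, i3, j, hd, hj⟩ := exists_gns hS
  have hB := ball_ultra hU hπ
  have hdiff : IsDiffuse M := diffuse_of_factor T hM.center hM.infinite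
  have hL := lyapProp T hdiff
  have hII := isIIOne_MM hS hd hj hB (fun z hz => central_scalar hπ hL hM.center z hz)
    (infinite_Q hπ hM.infinite)
  refine ⟨K, i1, i2, i3, MM j, LmEquiv hS hd hj hB, mkState _ _ hII.normal hII.trace, ?_, ?_⟩
  · exact hII
  · intro q
    exact tauM_LmEquiv hS hd hj hB q

end Pool.Agent.H811R4.SD
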