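import Pool.Agent.H811R4.SD.Stubs

set_option autoImplicit false

namespace Pool.Agent.H811R4.SD

open Pool.Agent.Helper278

theorem rcv_holds : StRCV := by
  intro H _ _ _ M S hS
  let C : Set (H →L[ℂ] H) := (M.commutant : Set (H →L[ℂ] H)) ∪ ((fun a : Elt M => (a : H →L[ℂ] H)) '' S)
  let A : VonNeumannAlgebra H :=
    { toStarSubalgebra := StarSubalgebra.centralizer ℂ C
      centralizer_centralizer' := by
        show Set.centralizer (Set.centralizer ((StarSubalgebra.centralizer ℂ C :
          StarSubalgebra ℂ (H →L[ℂ] H)) : Set (H →L[ℂ] H))) =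
          ((StarSubalgebra.centralizer ℂ C : StarSubalgebra ℂ (H →L[ℂ] H)) : Set (H →L[ℂ] H))
        rw [StarSubalgebra.coe_centralizer, Set.centralizer_centralizer_centralizer] }
  have hA : ∀ x : H →L[ℂ] H, x ∈ A ↔ ∀ g ∈ C, g * x = x * g ∧ star g * x = x * star g := by
    intro x
    exact StarSubalgebra.mem_centralizer_iff ℂ
  refine ⟨A, fun x => ?_⟩
  rw [hA]
  constructor
  · intro h
    have hx : x ∈ M := by
      rw [← VonNeumannAlgebra.commutant_commutant M, VonNeumannAlgebra.mem_commutant_iff]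
      intro g hg
      exact (h g (Or.inl hg)).1
    refine ⟨hx, fun a ha => Subtype.ext ?_⟩
    exact (h (a : H →L[ℂ] H) (Or.inr ⟨a, ha, rfl⟩)).1
  · rintro ⟨hx, hc⟩ g (hg | ⟨a, ha, rfl⟩)
    · have hg' := VonNeumannAlgebra.mem_commutant_iff.1 hg
      have hsg : star g ∈ M.commutant := star_mem hg
      have hsg' := VonNeumannAlgebra.mem_commutant_iff.1 hsg
      exact ⟨(hg' x hx).symm, (hsg' x hx).symm⟩
    · refine ⟨congrArg Subtype.val (hc a ha), ?_⟩
      exact congrArg Subtype.val (hc (star a) (hS a ha))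

end Pool.Agent.H811R4.SD
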