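import Pool.Agent.H811R4.SD.Stubs

/-! Restriction of a trace (helper298). -/

set_option autoImplicit false

open scoped InnerProductSpace BoundedContinuousFunction
open Filter

namespace Pool.Agent.H811R4.SD

open Pool.Agent.Helper278

theorem res_holds : StRES := by
  intro H _ _ _ M T A h
  have hinj : ∀ a : Elt A, inc h a = 0 → a = 0 := by
    intro a ha
    have h1 : (inc h a).1 = 0 := by rw [ha]; rfl
    exact Subtype.ext h1
  obtain ⟨ξ, hξ, hn⟩ := T.normal
  refine ⟨⟨⟨⟨fun a => T.τ (inc h a), ?_⟩, ?_⟩, ?_, ?_, ?_, ?_⟩, fun a => rfl⟩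
  · intro a b
    have e : inc h (a + b) = inc h a + inc h b := rfl
    rw [e, map_add]
  · intro c a
    have e : inc h (c • a) = c • inc h a := rfl
    show T.τ (inc h (c • a)) = (RingHom.id ℂ) c • T.τ (inc h a)
    rw [e, map_smul]
    rfl
  · exact ⟨ξ, hξ, fun a => hn (inc h a)⟩
  · show T.τ (inc h 1) = 1
    have e : inc h (1 : Elt A) = 1 := rfl
    rw [e, T.map_one]
  · intro a b
    show T.τ (inc h (a * b)) = T.τ (inc h (b * a))
    have e1 : inc h (a * b) = inc h a * inc h b := rfl
    have e2 : inc h (b * a) = inc h b * inc h a := rfl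
    rw [e1, e2, T.tracial]
  · intro a ha
    have ha' : T.τ (inc h (star a * a)) = 0 := ha
    have e1 : inc h (star a * a) = star (inc h a) * inc h a := rfl
    rw [e1] at ha'
    exact hinj a (T.faithful _ ha')

end Pool.Agent.H811R4.SD
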