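import Pool.Agent.H811R4.SD.Stubs
import Pool.Agent.Helper278.CEStd

/-!
# The standard representation (task STD, helper92)
-/

set_option autoImplicit false

open scoped InnerProductSpace BoundedContinuousFunction
open Filter

namespace Pool.Agent.H811R4.SD

open Pool.Agent.Helper278

namespace STDh

variable {H : Type} [NormedAddCommGroup H] [InnerProductSpace ℂ H] [CompleteSpace H]
  {M : VonNeumannAlgebra H} (T : TracialState M)
  {K : Type} [NormedAddCommGroup K] [InnerProductSpace ℂ K] [CompleteSpace K]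
  {j : Elt M →ₗ[ℂ] K} (hd : DenseRange j)
  (hj : ∀ x y, ⟪j x, j y⟫_ℂ = T.τ (star x * y))

include hj hd in
theorem lam_j (a b : Elt M) : CE.Lm j a (j b) = j (a * b) := by
  unfold CE.Lm
  rw [LinearMap.extendOfNorm_eq hd ⟨‖(a : H →L[ℂ] H)‖, fun x => ?_⟩]
  · rfl
  · show ‖j (a * x)‖ ≤ _
    rw [CE.norm_j hj, CE.norm_j hj]
    exact n2_mul_le T a x

include hj hd in
theorem star_lam (a : Elt M) : star (CE.Lm j a) = CE.Lm j (star a) := by
  apply CE.ext_j hd
  intro y
  refine hd.eq_of_inner_right ℂ ?_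
  intro x
  rw [ContinuousLinearMap.star_eq_adjoint, ContinuousLinearMap.adjoint_inner_right,
    lam_j T hd hj, lam_j T hd hj, hj, hj, star_mul, mul_assoc]

/-- the homomorphism -/
noncomputable def lamHom : Elt M →⋆ₐ[ℂ] (K →L[ℂ] K) where
  toFun a := CE.Lm j a
  map_one' := by
    apply CE.ext_j hd
    intro x
    show CE.Lm j 1 (j x) = j x
    rw [lam_j T hd hj, one_mul]
  map_mul' a b := by
    apply CE.ext_j hd
    intro x
    show CE.Lm j (a * b) (j x) = CE.Lm j a (CE.Lm j b (j x))
    rw [lam_j T hd hj, lam_j T hd hj, lam_j T hd hj, mul_assoc]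
  map_zero' := by
    apply CE.ext_j hd
    intro x
    show CE.Lm j 0 (j x) = 0
    rw [lam_j T hd hj, zero_mul, map_zero]
  map_add' a b := by
    apply CE.ext_j hd
    intro x
    show CE.Lm j (a + b) (j x) = CE.Lm j a (j x) + CE.Lm j b (j x)
    rw [lam_j T hd hj, lam_j T hd hj, lam_j T hd hj, add_mul, map_add]
  commutes' c := by
    apply CE.ext_j hd
    intro x
    show CE.Lm j (algebraMap ℂ (Elt M) c) (j x) = c • j x
    rw [lam_j T hd hj, Algebra.algebraMap_eq_smul_one, smul_mul_assoc, one_mul, map_smul]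
  map_star' a := (star_lam T hd hj a).symm

end STDh

theorem std_holds : StSTD := by
  intro H _ _ _ M T
  obtain ⟨K, i1, i2, i3, j, hd, hj⟩ := CE.exists_gns (trAlg T)
  exact ⟨K, i1, i2, i3, j, STDh.lamHom T hd hj, hj, hd, STDh.lam_j T hd hj⟩

end Pool.Agent.H811R4.SD
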