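import Pool.Agent.H811R4.SD.Stubs

/-!
# Task TOAM: central functionals give amenability
-/

set_option autoImplicit false

open scoped InnerProductSpace BoundedContinuousFunction ENNReal
open Filter

namespace Pool.Agent.H811R4.SD

open Pool.Agent.Helper278

namespace TOAM

variable {I : Type} {K KA : Type} [NormedAddCommGroup K] [InnerProductSpace ℂ K]
  [CompleteSpace K] [NormedAddCommGroup KA] [InnerProductSpace ℂ KA] [CompleteSpace KA]

/-- the direct sum of copies of `KA` -/
abbrev L2 (I KA : Type) [NormedAddCommGroup KA] := lp (fun _ : I => KA) 2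

theorem memlp_iff (x : I → KA) : Memℓp x 2 ↔ Summable fun i => ‖x i‖ ^ 2 := by
  rw [memℓp_gen_iff (by norm_num)]
  simp

theorem summable_sq (x : L2 I KA) : Summable fun i => ‖x i‖ ^ 2 := (memlp_iff _).1 (lp.memℓp x)

theorem norm_sq (x : L2 I KA) : ‖x‖ ^ 2 = ∑' i, ‖x i‖ ^ 2 := by
  have h := lp.norm_rpow_eq_tsum (p := 2) (by norm_num) x
  simpa using h

/-- the diagonal operator -/
theorem mem_diag (S : KA →L[ℂ] KA) (x : L2 I KA) : Memℓp (fun i => S (x i)) 2 := by
  rw [memlp_iff]
  refine Summable.of_nonneg_of_le (fun i => sq_nonneg _) (fun i => ?_)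
    ((summable_sq x).mul_left (‖S‖ ^ 2))
  rw [← mul_pow]
  exact pow_le_pow_left₀ (norm_nonneg _) (S.le_opNorm _) 2

noncomputable def diag (S : KA →L[ℂ] KA) : L2 I KA →L[ℂ] L2 I KA :=
  LinearMap.mkContinuous
    { toFun := fun x => ⟨fun i => S (x i), mem_diag S x⟩
      map_add' := fun x y => by
        ext i
        first
        | (simp; done)
        | (simp; rfl)
      map_smul' := fun c x => by
        ext i
        simp } ‖S‖ (fun x => by
      refine le_of_sq_le_sq ?_ (by positivity) |> fun h => h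
      rw [norm_sq, mul_pow, norm_sq, ← tsum_mul_left]
      refine Summable.tsum_le_tsum (fun i => ?_) ((memlp_iff _).1 (mem_diag S x))
        ((summable_sq x).mul_left _)
      rw [← mul_pow]
      exact pow_le_pow_left₀ (norm_nonneg _) (S.le_opNorm _) 2)

@[simp] theorem diag_apply (S : KA →L[ℂ] KA) (x : L2 I KA) (i : I) : diag S x i = S (x i) := rfl

theorem diag_mul (S S' : KA →L[ℂ] KA) : diag (I := I) (S * S') = diag S ∘L diag S' := by
  ext x i
  rfl

theorem diag_one : diag (I := I) (1 : KA →L[ℂ] KA) = 1 := by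
  ext x i
  rfl

theorem diag_add (S S' : KA →L[ℂ] KA) : diag (I := I) (S + S') = diag S + diag S' := by
  ext x i
  rfl

theorem diag_smul (c : ℂ) (S : KA →L[ℂ] KA) : diag (I := I) (c • S) = c • diag S := by
  ext x i
  rfl

theorem diag_star (S : KA →L[ℂ] KA) :
    diag (I := I) (star S) = ContinuousLinearMap.adjoint (diag S) := by
  rw [ContinuousLinearMap.eq_adjoint_iff]
  intro x y
  rw [lp.inner_eq_tsum, lp.inner_eq_tsum]
  refine tsum_congr fun i => ?_
  rw [diag_apply, diag_apply, ContinuousLinearMap.star_eq_adjoint,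
    ContinuousLinearMap.adjoint_inner_left]

/-- the isometry -/
noncomputable def W (R : I → (K →L[ℂ] KA)) (hR : ∀ ξ : K, HasSum (fun i => ‖R i ξ‖ ^ 2) (‖ξ‖ ^ 2)) :
    K →ₗᵢ[ℂ] L2 I KA where
  toFun ξ := ⟨fun i => R i ξ, (memlp_iff _).2 (hR ξ).summable⟩
  map_add' x y := by
    ext i
    first
    | (simp; done)
    | (simp; rfl)
  map_smul' c x := by
    ext i
    simp
  norm_map' ξ := by
    have h : ‖(⟨fun i => R i ξ, (memlp_iff _).2 (hR ξ).summable⟩ : L2 I KA)‖ ^ 2 = ‖ξ‖ ^ 2 := by
      rw [norm_sq]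
      exact (hR ξ).tsum_eq
    exact (pow_left_inj₀ (norm_nonneg _) (norm_nonneg _) two_ne_zero).1 h

theorem W_apply (R : I → (K →L[ℂ] KA)) (hR : ∀ ξ : K, HasSum (fun i => ‖R i ξ‖ ^ 2) (‖ξ‖ ^ 2))
    (ξ : K) (i : I) : W R hR ξ i = R i ξ := rfl

/-- the compression -/
noncomputable def Th (w : K →L[ℂ] L2 I KA) : (KA →L[ℂ] KA) →ₗ[ℂ] (K →L[ℂ] K) where
  toFun S := ContinuousLinearMap.adjoint w ∘L (diag S ∘L w)
  map_add' S S' := by
    rw [diag_add, ContinuousLinearMap.add_comp, ContinuousLinearMap.comp_add]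
  map_smul' c S := by
    rw [diag_smul, ContinuousLinearMap.smul_comp, ContinuousLinearMap.comp_smul, RingHom.id_apply]

theorem Th_apply (w : K →L[ℂ] L2 I KA) (S : KA →L[ℂ] KA) :
    Th w S = ContinuousLinearMap.adjoint w ∘L (diag S ∘L w) := rfl

theorem Th_pos (w : K →L[ℂ] L2 I KA) (S : KA →L[ℂ] KA) :
    ∃ Z : K →L[ℂ] K, Th w (star S * S) = star Z * Z := by
  have h1 : Th w (star S * S) =
      ContinuousLinearMap.adjoint (diag S ∘L w) ∘L (diag S ∘L w) := by
    rw [Th_apply, diag_mul, diag_star, ContinuousLinearMap.adjoint_comp]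
    rfl
  have h2 : (0 : K →L[ℂ] K) ≤ Th w (star S * S) := by
    rw [h1, ContinuousLinearMap.nonneg_iff_isPositive]
    exact ContinuousLinearMap.isPositive_adjoint_comp_self _
  obtain ⟨Z, hZ⟩ := CStarAlgebra.nonneg_iff_eq_star_mul_self.1 h2
  exact ⟨Z, hZ⟩

end TOAM

open TOAM in
theorem toam_holds (hRES : StRES) (hSTD : StSTD) (hAM2 : StAM2) (hISO : StISO) : StTOAM := by
  intro H _ _ _ M T K _ _ _ j lam hStd A h ψ hψ hc
  obtain ⟨TA, hTA⟩ := hRES T h
  obtain ⟨KA, iKA1, iKA2, iKA3, jA, lamA, hStdA⟩ := hSTD TA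
  obtain ⟨I, R, hRa, hR⟩ := hISO T h TA hTA hStd hStdA
  set w : K →L[ℂ] L2 I KA := (W R hR).toContinuousLinearMap with hw
  have hwi : ContinuousLinearMap.adjoint w ∘L w = 1 := by
    rw [hw]
    exact LinearIsometry.adjoint_comp_self _
  have hd : ∀ a : Elt A, diag (lamA a) ∘L w = w ∘L lam (inc h a) := by
    intro a
    ext ξ i
    change lamA a (R i ξ) = R i (lam (inc h a) ξ)
    have := congrArg (fun f => f ξ) (hRa i a)
    exact this.symm
  have hd' : ∀ a : Elt A, ContinuousLinearMap.adjoint w ∘L diag (lamA a) =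
      lam (inc h a) ∘L ContinuousLinearMap.adjoint w := by
    intro a
    have h1 := congrArg ContinuousLinearMap.adjoint (hd (star a))
    rw [ContinuousLinearMap.adjoint_comp, ContinuousLinearMap.adjoint_comp, ← diag_star,
      ← ContinuousLinearMap.star_eq_adjoint (lam (inc h (star a))), ← map_star, ← map_star,
      star_star] at h1
    rw [h1]
    have h2 : star (inc h (star a)) = inc h a := by
      apply Subtype.ext
      change star (star a.1) = a.1
      rw [star_star]
    rw [h2]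
  have hT1 : ∀ (a : Elt A) (S : KA →L[ℂ] KA), Th w (lamA a * S) = lam (inc h a) * Th w S := by
    intro a S
    rw [Th_apply, Th_apply, diag_mul, ContinuousLinearMap.comp_assoc,
      ← ContinuousLinearMap.comp_assoc, hd' a, ContinuousLinearMap.comp_assoc]
    rfl
  have hT2 : ∀ (a : Elt A) (S : KA →L[ℂ] KA), Th w (S * lamA a) = Th w S * lam (inc h a) := by
    intro a S
    rw [Th_apply, Th_apply, diag_mul, ContinuousLinearMap.comp_assoc, hd a]
    rfl
  have hT3 : ∀ a : Elt A, Th w (lamA a) = lam (inc h a) := by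
    intro a
    have h1 := hT1 a 1
    rw [mul_one] at h1
    rw [h1, Th_apply, diag_one]
    change lam (inc h a) * (ContinuousLinearMap.adjoint w ∘L w) = _
    rw [hwi, mul_one]
  have hF : Fun TA lamA 1 (ψ ∘ₗ Th w) := by
    constructor
    · intro X
      obtain ⟨Z, hZ⟩ := Th_pos w X
      rw [LinearMap.comp_apply, hZ]
      exact hψ.pos Z
    · intro x
      rw [LinearMap.comp_apply, hT3, hψ.tr, one_mul, mul_one, one_mul, mul_one, hTA]
  have hAC : ACen lamA Set.univ 0 (ψ ∘ₗ Th w) := by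
    intro a _ X
    rw [LinearMap.comp_apply, LinearMap.comp_apply, hT1, hT2, zero_mul]
    have h1 := hc (inc h a) a.2 (Th w X)
    rw [zero_mul] at h1
    exact h1
  have hfin := hAM2 TA hStdA _ hF hAC
  have he : (fun a : Elt A => TA.τ a) = resTr (fun x => T.τ x) h := by
    funext a
    exact hTA a
  rw [he] at hfin
  exact hfin

end Pool.Agent.H811R4.SD
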