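import Mathlib
import Pool.Agent.H811R4.SD.Stubs

set_option autoImplicit false

open scoped InnerProductSpace BoundedContinuousFunction Topology
open Filter

namespace Pool.Agent.H811R4.SD

open Pool.Agent.Helper278

/-- inclusion is a linear map -/
noncomputable def vst_incL {H : Type} [NormedAddCommGroup H] [InnerProductSpace ℂ H]
    [CompleteSpace H] {M A : VonNeumannAlgebra H} (h : ∀ x ∈ A, x ∈ M) : Elt A →ₗ[ℂ] Elt M where
  toFun a := inc h a
  map_add' _ _ := rfl
  map_smul' _ _ := rfl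

theorem vst_inc_star {H : Type} [NormedAddCommGroup H] [InnerProductSpace ℂ H]
    [CompleteSpace H] {M A : VonNeumannAlgebra H} (h : ∀ x ∈ A, x ∈ M) (a : Elt A) :
    inc h (star a) = star (inc h a) := rfl

theorem vst_inc_mul {H : Type} [NormedAddCommGroup H] [InnerProductSpace ℂ H]
    [CompleteSpace H] {M A : VonNeumannAlgebra H} (h : ∀ x ∈ A, x ∈ M) (a b : Elt A) :
    inc h (a * b) = inc h a * inc h b := rfl

theorem vst_ext {X K KA : Type} [NormedAddCommGroup K] [InnerProductSpace ℂ K]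
    [NormedAddCommGroup KA] [InnerProductSpace ℂ KA] {jA : X → KA} (hd : DenseRange jA)
    {F G : KA →L[ℂ] K} (h : ∀ a, F (jA a) = G (jA a)) : F = G := by
  have h1 : (F : KA → K) = G :=
    hd.equalizer F.continuous G.continuous (funext h)
  exact DFunLike.coe_injective h1

theorem vst_ext_inner {X KA : Type}
    [NormedAddCommGroup KA] [InnerProductSpace ℂ KA] {jA : X → KA} (hd : DenseRange jA)
    {x y : KA} (h : ∀ a, ⟪x, jA a⟫_ℂ = ⟪y, jA a⟫_ℂ) : x = y := by
  have h1 : (fun z : KA => ⟪x, z⟫_ℂ) = fun z : KA => ⟪y, z⟫_ℂ :=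
    hd.equalizer (by fun_prop) (by fun_prop) (funext h)
  exact ext_inner_right ℂ (fun v => congrFun h1 v)

theorem vst_holds : StVST := by
  intro H _ _ _ M T A h TA hTA K _ _ _ j lam KA _ _ _ jA lamA hS hSA
  have hin : ∀ a b : Elt A, ⟪j (inc h a), j (inc h b)⟫_ℂ = ⟪jA a, jA b⟫_ℂ := by
    intro a b
    rw [hS.inner, hSA.inner, hTA, vst_inc_mul, vst_inc_star]
  have hn : ∀ a : Elt A, ‖j (inc h a)‖ = ‖jA a‖ := by
    intro a
    rw [@norm_eq_sqrt_re_inner ℂ, @norm_eq_sqrt_re_inner ℂ, hin a a]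
  let f : Elt A →ₗ[ℂ] K := j ∘ₗ vst_incL h
  have hf : ∀ a, f a = j (inc h a) := fun a => rfl
  let V : KA →L[ℂ] K := f.extendOfNorm jA
  have hV : ∀ a, V (jA a) = j (inc h a) := by
    intro a
    have := LinearMap.extendOfNorm_eq (f := f) (e := jA) hSA.dense
      ⟨1, fun x => by rw [one_mul, hf]; exact (hn x).le⟩ a
    rw [← hf]
    exact this
  have hVV : ContinuousLinearMap.adjoint V ∘L V = ContinuousLinearMap.id ℂ KA := by
    apply vst_ext hSA.dense
    intro a
    apply vst_ext_inner hSA.dense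
    intro b
    simp only [ContinuousLinearMap.comp_apply, ContinuousLinearMap.id_apply]
    rw [ContinuousLinearMap.adjoint_inner_left, hV, hV, hin]
  have hlam : ∀ a : Elt A, lam (inc h a) ∘L V = V ∘L lamA a := by
    intro a
    apply vst_ext hSA.dense
    intro b
    simp only [ContinuousLinearMap.comp_apply]
    rw [hV, hS.lam_j, hSA.lam_j, hV, vst_inc_mul]
  refine ⟨V, hV, hVV, hlam, ?_⟩
  intro a
  have h1 := congrArg ContinuousLinearMap.adjoint (hlam (star a))
  rw [ContinuousLinearMap.adjoint_comp, ContinuousLinearMap.adjoint_comp,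
    ← ContinuousLinearMap.star_eq_adjoint (lam _), ← map_star, ← vst_inc_star, star_star,
    ← ContinuousLinearMap.star_eq_adjoint (lamA _), ← map_star, star_star] at h1
  exact h1.symm

end Pool.Agent.H811R4.SD
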