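import Pool.Agent.H811R4.SD.Stubs
import Pool.Agent.Helper278.Wot

/-! Task WEAK (helper265): weak limits along an ultrafilter. -/

set_option autoImplicit false

open scoped InnerProductSpace Topology
open Filter

namespace Pool.Agent.H811R4.SD

open Pool.Agent.Helper278

theorem weak_holds : StWEAK := by
  intro H _ _ _ M T U C x hx
  obtain ⟨ξ, hξ, hT⟩ := T.normal
  have hC' : 0 < |C| + 1 := by positivity
  obtain ⟨D, hD0, hD⟩ : ∃ D : ℝ, 0 < D ∧ ∀ n, ‖(x n : H →L[ℂ] H)‖ ≤ D :=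
    ⟨|C| + 1, hC', fun n => (hx n).trans ((le_abs_self C).trans (by linarith))⟩
  have hDc : (D : ℂ) ≠ 0 := by exact_mod_cast hD0.ne'
  -- scaled sequence
  let z : ℕ → H →L[ℂ] H := fun n => (D : ℂ)⁻¹ • (x n : H →L[ℂ] H)
  have hz : ∀ n, ‖z n‖ ≤ 1 := by
    intro n
    show ‖(D : ℂ)⁻¹ • (x n : H →L[ℂ] H)‖ ≤ 1
    rw [norm_smul, norm_inv, Complex.norm_real, Real.norm_of_nonneg hD0.le]
    calc D⁻¹ * ‖(x n : H →L[ℂ] H)‖ ≤ D⁻¹ * D :=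
          mul_le_mul_of_nonneg_left (hD n) (inv_nonneg.2 hD0.le)
      _ = 1 := inv_mul_cancel₀ hD0.ne'
  let W : ℕ → (H →WOT[ℂ] H) := fun n => ContinuousLinearMapWOT.ofCLM (z n)
  have hW : ∀ n, ‖(W n).toCLM‖ ≤ 1 := hz
  have h1 : (U.map W : Ultrafilter (H →WOT[ℂ] H)) ≤
      𝓟 {T : H →WOT[ℂ] H | ‖T.toCLM‖ ≤ 1} := by
    rw [Ultrafilter.coe_map, le_principal_iff, mem_map]
    exact Filter.univ_mem' hW
  obtain ⟨B, hB1, hB2⟩ := (isCompact_iff_ultrafilter_le_nhds.1 isCompact_wot_ball) _ h1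
  have hlim : ∀ a c : H, Tendsto (fun n => ⟪a, z n c⟫_ℂ) U (𝓝 ⟪a, B.toCLM c⟫_ℂ) := by
    intro a c
    have h2 := (ContinuousLinearMapWOT.le_nhds_iff_forall_inner_apply_le_nhds.1 hB2) c a
    exact h2
  have hUne : (U : Filter ℕ).NeBot := U.neBot'
  -- the limit belongs to `M`
  have hzM : ∀ n, z n ∈ M := by
    intro n
    exact M.toStarSubalgebra.smul_mem (x n).2 _
  have hBM : B.toCLM ∈ M := by
    rw [← M.commutant_commutant, VonNeumannAlgebra.mem_commutant_iff]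
    intro g hg
    rw [VonNeumannAlgebra.mem_commutant_iff] at hg
    ext c
    refine ext_inner_left ℂ fun a => ?_
    have h3 : Tendsto (fun n => ⟪a, g (z n c)⟫_ℂ) U (𝓝 ⟪a, g (B.toCLM c)⟫_ℂ) := by
      have h4 := hlim (ContinuousLinearMap.adjoint g a) c
      simp only [ContinuousLinearMap.adjoint_inner_left] at h4
      exact h4
    have h5 : Tendsto (fun n => ⟪a, g (z n c)⟫_ℂ) U (𝓝 ⟪a, B.toCLM (g c)⟫_ℂ) := by
      refine (hlim a (g c)).congr fun n => ?_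
      have h6 := hg (z n) (hzM n)
      have h7 : (z n * g) c = (g * z n) c := by rw [h6]
      exact congrArg (fun v => ⟪a, v⟫_ℂ) h7
    exact tendsto_nhds_unique h3 h5
  refine ⟨(D : ℂ) • (⟨B.toCLM, hBM⟩ : Elt M), ?_⟩
  intro y
  have hBn : ‖B.toCLM‖ ≤ 1 := hB1
  -- convergence of the scaled sequence
  have hmain : Tendsto (fun n => ∑' k, ⟪ξ k, z n ((y : H →L[ℂ] H) (ξ k))⟫_ℂ) U
      (𝓝 (∑' k, ⟪ξ k, B.toCLM ((y : H →L[ℂ] H) (ξ k))⟫_ℂ)) := by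
    refine tendsto_tsum_of_dominated_convergence
      (bound := fun k => ‖(y : H →L[ℂ] H)‖ * ‖ξ k‖ ^ 2) (hξ.mul_left _) ?_ ?_
    · intro k
      exact hlim _ _
    · refine Filter.Eventually.of_forall fun n k => ?_
      calc ‖⟪ξ k, z n ((y : H →L[ℂ] H) (ξ k))⟫_ℂ‖
          ≤ ‖ξ k‖ * ‖z n ((y : H →L[ℂ] H) (ξ k))‖ := norm_inner_le_norm _ _
        _ ≤ ‖ξ k‖ * (1 * (‖(y : H →L[ℂ] H)‖ * ‖ξ k‖)) := by
            refine mul_le_mul_of_nonneg_left ?_ (norm_nonneg _)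
            exact ((z n).le_opNorm _).trans (mul_le_mul (hz n)
              ((y : H →L[ℂ] H).le_opNorm _) (norm_nonneg _) zero_le_one)
        _ = ‖(y : H →L[ℂ] H)‖ * ‖ξ k‖ ^ 2 := by ring
  have hfin : ∀ n, T.τ (x n * y) =
      (D : ℂ) * ∑' k, ⟪ξ k, z n ((y : H →L[ℂ] H) (ξ k))⟫_ℂ := by
    intro n
    rw [hT, ← tsum_mul_left]
    congr 1
    funext k
    show ⟪ξ k, (x n : H →L[ℂ] H) ((y : H →L[ℂ] H) (ξ k))⟫_ℂ =
      (D : ℂ) * ⟪ξ k, (D : ℂ)⁻¹ • (x n : H →L[ℂ] H) ((y : H →L[ℂ] H) (ξ k))⟫_ℂ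
    rw [inner_smul_right, mul_inv_cancel_left₀ hDc]
  have hfin2 : T.τ ((D : ℂ) • (⟨B.toCLM, hBM⟩ : Elt M) * y) =
      (D : ℂ) * ∑' k, ⟪ξ k, B.toCLM ((y : H →L[ℂ] H) (ξ k))⟫_ℂ := by
    rw [smul_mul_assoc, map_smul, smul_eq_mul, hT]
    rfl
  rw [hfin2]
  exact (hmain.const_mul (D : ℂ)).congr fun n => (hfin n).symm

end Pool.Agent.H811R4.SD
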