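import Mathlib
import Pool.Agent.H811R4.SD.TG0
import Pool.Agent.H811R4.SD.TWEAK
import Pool.Agent.H811R4.SD.TG1
import Pool.Agent.H811R4.SD.TPL
import Pool.Agent.H811R4.SD.TDIF
import Pool.Agent.H811R4.SD.TG3
import Pool.Agent.H811R4.SD.TRCV
import Pool.Agent.H811R4.SD.TRES
import Pool.Agent.H811R4.SD.TDPVM
import Pool.Agent.H811R4.SD.TSTD
import Pool.Agent.H811R4.SD.TCOMM
import Pool.Agent.H811R4.SD.TVST
import Pool.Agent.H811R4.SD.TEXP
import Pool.Agent.H811R4.SD.TAM1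
import Pool.Agent.H811R4.SD.TAM2
import Pool.Agent.H811R4.SD.TFROM
import Pool.Agent.H811R4.SD.TISO
import Pool.Agent.H811R4.SD.TTOAM
import Pool.Agent.H811R4.SD.TFB
import Pool.Agent.H811R4.SD.TCPT
import Pool.Agent.H811R4.SD.TEXH
import Pool.Agent.H811R4.SD.TCOND
import Pool.Agent.H811R4.SD.TCORN
import Pool.Agent.H811R4.SD.TCORNS
import Pool.Agent.H811R4.SD.TCALG
import Pool.Agent.H811R4.SD.TNOMIN
import Pool.Agent.H811R4.SD.TQMOD
import Pool.Agent.H811R4.SD.TE0Q
import Pool.Agent.H811R4.SD.TLIFT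
import Pool.Agent.H811R4.SD.TE0M
import Pool.Agent.H811R4.SD.TGOOD
import Pool.Agent.H811R4.SD.TMA1
import Pool.Agent.H811R4.SD.TMA2
import Pool.Agent.H811R4.SD.TMA3a
import Pool.Agent.H811R4.SD.TMA3b
import Pool.Agent.H811R4.SD.TMA3
import Pool.Agent.H811R4.SD.TMA4
import Pool.Agent.H811R4.SD.TMA5a
import Pool.Agent.H811R4.SD.TMA5
import Pool.Agent.H811R4.SD.TPP
import Pool.Agent.H811R4.SD.TMA6
import Pool.Agent.H811R4.SD.TMA7
import Pool.Agent.H811R4.SD.TMA8a
import Pool.Agent.H811R4.SD.TMA8b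
import Pool.Agent.H811R4.SD.TMA8
import Pool.Agent.H811R4.SD.TMAIN
import Pool.Agent.H811R4.SD.TMINC
import Pool.Agent.H811R4.SD.TBACK
import Pool.Agent.H811R4.SD.TFWD
import Pool.Agent.H811R4.SD.Fin

/-! Assembly of the tasks. -/

set_option autoImplicit false

namespace Pool.Agent.H811R4.SD

theorem pG0 : StG0 := g0_holds
theorem pWEAK : StWEAK := weak_holds
theorem pG1 : StG1 := g1_holds pG0
theorem pPL : StPL := pl_holds pG1
theorem pDIF : StDIF := dif_holds
theorem pG3 : StG3 := g3_holds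
theorem pRCV : StRCV := rcv_holds
theorem pRES : StRES := res_holds
theorem pDPVM : StDPVM := dpvm_holds pRCV pRES
theorem pSTD : StSTD := std_holds
theorem pCOMM : StCOMM := comm_holds pG0
theorem pVST : StVST := vst_holds
theorem pEXP : StEXP := exp_holds pCOMM
theorem pAM1 : StAM1 := am1_holds
theorem pAM2 : StAM2 := am2_holds
theorem pFROM : StFROM := from_holds pRES pSTD pAM1 pVST pEXP
theorem pISO : StISO := iso_holds pVST
theorem pTOAM : StTOAM := toam_holds pRES pSTD pAM2 pISO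
theorem pFB : StFB := fb_holds
theorem pCPT : StCPT := cpt_holds pFB
theorem pEXH : StEXH := exh_holds pG0
theorem pCOND : StCOND := cond_holds pRCV pFROM pFB
theorem pCORN : StCORN := corn_holds
theorem pCORNS : StCORNS := corns_holds
theorem pCALG : StCALG := calg_holds pCORNS pCOND
theorem pNOMIN : StNOMIN := nomin_holds pCOND
theorem pQMOD : StQMOD := qmod_holds
theorem pE0Q : StE0Q := e0q_holds pQMOD pDPVM pDIF
theorem pLIFT : StLIFT := lift_holds pQMOD pCORN pDPVM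
theorem pE0M : StE0M := e0m_holds pE0Q pLIFT
theorem pGOOD : StGOOD := good_holds
theorem pMA1 : StMA1 := ma1_holds pQMOD pRCV pRES
theorem pMA2 : StMA2 := ma2_holds
theorem pMA3a : StMA3a := ma3a_holds
theorem pMA3b : StMA3b := ma3b_holds pG0
theorem pMA3 : StMA3 := ma3_holds pG3 pMA3a pMA3b
theorem pMA4 : StMA4 := ma4_holds pPL pWEAK
theorem pMA5a : StMA5a := ma5a_holds pG0
theorem pMA5 : StMA5 := ma5_holds pMA5a
theorem pPP : StPP := pp_holds
theorem pMA6 : StMA6 := ma6_holds pMA5 pPP pG1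
theorem pMA7 : StMA7 := ma7_holds pPP pG1
theorem pMA8a : StMA8a := ma8a_holds pPP
theorem pMA8b : StMA8b := ma8b_holds pG0 pDIF
theorem pMA8 : StMA8 := ma8_holds pMA7 pMA8a pMA8b
theorem pMAIN : StMAIN := main_holds pMA1 pMA2 pMA3 pMA4 pMA6 pMA8
theorem pMINC : StMINC := minc_holds pCORN pE0M pGOOD pMAIN pCALG
theorem pBACK : StBACK := back_holds pQMOD pDPVM pDIF
theorem pFWD : StFWD := fwd_holds pSTD pTOAM pCPT pEXH pMINC pNOMIN

end Pool.Agent.H811R4.SD
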