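import Mathlib
import Pool.Agent.Helper278.DefsG

/-!
# Solid and U-solid II₁ factors: the definitions of the statement
-/

set_option autoImplicit false

open scoped InnerProductSpace BoundedContinuousFunction
open Filter

namespace Pool.Agent.H811R4.SolidStmt

open Pool.Agent.Helper278

universe u

/-- The star algebra `S` of elements of `R` is diffuse: it has no minimal projection, that is, no
nonzero projection `r` in `S` such that `r S r = ℂ r`. -/
def Diffuse {R : Type u} [Ring R] [StarRing R] [Algebra ℂ R] (S : Set R) : Prop :=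
  ∀ r ∈ S, r * r = r → star r = r → r ≠ 0 → ∃ x ∈ S, ∀ c : ℂ, r * x * r ≠ c • r

/-- `K` with the map `j : A → K` is the Hilbert space `L²(A, τ)`, the completion of `A` for the
inner product `⟨x, y⟩ = τ(x* y)`, and `lam a` is the left multiplication by `a` on it. -/
structure IsLTwo {A : Type u} [Ring A] [StarRing A] [Algebra ℂ A] (τ : A → ℂ) {K : Type u}
    [NormedAddCommGroup K] [InnerProductSpace ℂ K] (j : A →ₗ[ℂ] K) (lam : A → K →L[ℂ] K) :
    Prop where
  inner : ∀ x y, ⟪j x, j y⟫_ℂ = τ (star x * y)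
  dense : DenseRange j
  left : ∀ a b, lam a (j b) = j (a * b)

/-- `φ` is a hypertrace: a positive linear functional on `B(L²(A, τ))` with
`φ(λ_a X) = φ(X λ_a)` and `φ(λ_a) = τ(a)` for all `a` in `A` and `X` in `B(L²(A, τ))`. -/
structure IsHyperTrace {A : Type u} (τ : A → ℂ) {K : Type u} [NormedAddCommGroup K]
    [InnerProductSpace ℂ K] [CompleteSpace K] (lam : A → K →L[ℂ] K)
    (φ : (K →L[ℂ] K) →ₗ[ℂ] ℂ) : Prop where
  pos : ∀ X : K →L[ℂ] K, ∃ t : ℝ, 0 ≤ t ∧ φ (star X * X) = t
  central : ∀ a X, φ (lam a * X) = φ (X * lam a)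
  trace : ∀ a, φ (lam a) = τ a

/-- The tracial von Neumann algebra `(A, τ)` is amenable: it has a hypertrace. -/
def IsAmenable {A : Type u} [Ring A] [StarRing A] [Algebra ℂ A] (τ : A → ℂ) : Prop :=
  ∃ (K : Type u) (_ : NormedAddCommGroup K) (_ : InnerProductSpace ℂ K) (_ : CompleteSpace K)
    (j : A →ₗ[ℂ] K) (lam : A → K →L[ℂ] K) (φ : (K →L[ℂ] K) →ₗ[ℂ] ℂ),
    IsLTwo τ j lam ∧ IsHyperTrace τ lam φ

/-- The relative commutant of `D ⊆ M` in the tracial ultrapower `M^U` (taken in some model `Q` of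
`M^U`; `M` is embedded by constant sequences) is diffuse. -/
def UCommDiffuse {M : Type u} [NormedRing M] [StarRing M] [CStarRing M] [NormedAlgebra ℂ M]
    [StarModule ℂ M] (τ : M → ℂ) (U : Ultrafilter ℕ) (D : Set M) : Prop :=
  ∃ (Q : Type u) (_ : Ring Q) (_ : StarRing Q) (_ : Algebra ℂ Q) (_ : StarModule ℂ Q)
    (π : (ℕ →ᵇ M) →⋆ₐ[ℂ] Q) (σ : Q → ℂ), IsTracialUltrapower τ U π σ ∧
    Diffuse {q : Q | ∀ a ∈ D, π (BoundedContinuousFunction.const ℕ a) * q =
      q * π (BoundedContinuousFunction.const ℕ a)}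

section vonNeumann

variable {H : Type u} [NormedAddCommGroup H] [InnerProductSpace ℂ H] [CompleteSpace H]

/-- The restriction of the trace `τ` of `M` to a von Neumann subalgebra `A` of `M`. -/
def restr {M : VonNeumannAlgebra H} (τ : Elt M → ℂ) {A : VonNeumannAlgebra H}
    (h : ∀ x ∈ A, x ∈ M) (a : Elt A) : ℂ := τ ⟨a.1, h a.1 a.2⟩

/-- The elements of `M` that lie in the subalgebra `A`. -/
def elts (M A : VonNeumannAlgebra H) : Set (Elt M) := {x | (x : H →L[ℂ] H) ∈ A}

/-- `M` is solid: every von Neumann subalgebra `A` of `M` whose relative commutant `A' ∩ M` is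
diffuse is amenable. -/
def IsSolid (M : VonNeumannAlgebra H) (τ : Elt M → ℂ) : Prop :=
  ∀ (A : VonNeumannAlgebra H) (h : ∀ x ∈ A, x ∈ M),
    Diffuse {x : Elt M | ∀ a ∈ elts M A, a * x = x * a} → IsAmenable (restr τ h)

/-- `M` is `U`-solid: every von Neumann subalgebra `A` of `M` whose relative commutant
`A' ∩ M^U` in the tracial ultrapower `M^U` is diffuse is amenable. -/
def IsUSolid (M : VonNeumannAlgebra H) (τ : Elt M → ℂ) (U : Ultrafilter ℕ) : Prop :=
  ∀ (A : VonNeumannAlgebra H) (h : ∀ x ∈ A, x ∈ M),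
    UCommDiffuse τ U (elts M A) → IsAmenable (restr τ h)

end vonNeumann

end Pool.Agent.H811R4.SolidStmt
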