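import Mathlib
import Pool.Agent.H811R4.SD.Fin
import Pool.Agent.H811R4.SD.Stmt

set_option autoImplicit false

open scoped InnerProductSpace BoundedContinuousFunction Topology
open Filter

namespace Pool.Agent.H811R4.SD

open Pool.Agent.Helper278 Pool.Agent.H811R4.SolidStmt

universe u

theorem amenable_iff {A : Type u} [Ring A] [StarRing A] [Algebra ℂ A] (τ : A → ℂ) :
    IsAmenable τ ↔ Amenable τ := by
  constructor
  · rintro ⟨K, i1, i2, i3, j, lam, φ, h1, h2⟩
    refine ⟨K, i1, i2, i3, j, lam, φ, h1.inner, h1.dense, h1.left, ?_, h2.central, h2.trace⟩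
    intro X
    obtain ⟨t, ht, he⟩ := h2.pos X
    rw [he]
    exact ⟨by simpa using ht, by simp⟩
  · rintro ⟨K, i1, i2, i3, j, lam, φ, h1, h2, h3, h4, h5, h6⟩
    refine ⟨K, i1, i2, i3, j, lam, φ, ⟨h1, h2, h3⟩, ⟨?_, h5, h6⟩⟩
    intro X
    refine ⟨(φ (star X * X)).re, (h4 X).1, ?_⟩
    apply Complex.ext
    · simp
    · simpa using (h4 X).2

section

variable {H : Type u} [NormedAddCommGroup H] [InnerProductSpace ℂ H] [CompleteSpace H]

theorem comm_eq {M A : VonNeumannAlgebra H} (h : ∀ x ∈ A, x ∈ M) :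
    {x : Elt M | ∀ a ∈ elts M A, a * x = x * a} =
      {x : Elt M | ∀ a ∈ A, a * (x : H →L[ℂ] H) = (x : H →L[ℂ] H) * a} := by
  ext x
  constructor
  · intro hx a ha
    exact congrArg Subtype.val (hx ⟨a, h a ha⟩ ha)
  · intro hx a ha
    exact Subtype.ext (hx a.1 ha)

theorem solid_iff' (M : VonNeumannAlgebra H) (τ : Elt M → ℂ) : IsSolid M τ ↔ Solid M τ := by
  constructor
  · intro hs A h hd
    rw [← comm_eq h] at hd
    exact (amenable_iff _).1 (hs A h hd)
  · intro hs A h hd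
    rw [comm_eq h] at hd
    exact (amenable_iff _).2 (hs A h hd)

theorem usolid_iff' (M : VonNeumannAlgebra H) (τ : Elt M → ℂ) (U : Ultrafilter ℕ) :
    IsUSolid M τ U ↔ USolid M τ U := by
  constructor
  · intro hs Q i1 i2 i3 i4 π σ hπ A h hd
    exact (amenable_iff _).1 (hs A h ⟨Q, i1, i2, i3, i4, π, σ, hπ, hd⟩)
  · rintro hs A h ⟨Q, i1, i2, i3, i4, π, σ, hπ, hd⟩
    exact (amenable_iff _).2 (hs Q π σ hπ A h hd)

end

end Pool.Agent.H811R4.SD
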