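import Pool.Agent.H811R4.SD.Stubs

/-! Task AM1: amenability in a given standard representation. -/

set_option autoImplicit false

open scoped InnerProductSpace BoundedContinuousFunction
open Filter

namespace Pool.Agent.H811R4.SD

open Pool.Agent.Helper278

theorem am1_holds : StAM1 := by
  intro H _ _ _ M T K _ _ _ j lam hS hA
  obtain ⟨K', _, _, _, j', lam', φ', hi, hd, hl, hpos, hcen, htr⟩ := hA
  have hnorm : ∀ x : Elt M, ‖j x‖ = ‖j' x‖ := by
    intro x
    have h1 : (‖j x‖ : ℂ) ^ 2 = (‖j' x‖ : ℂ) ^ 2 := by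
      have e1 := inner_self_eq_norm_sq_to_K (𝕜 := ℂ) (j x)
      have e2 := inner_self_eq_norm_sq_to_K (𝕜 := ℂ) (j' x)
      rw [hS.inner x x] at e1
      rw [hi x x] at e2
      exact e1.symm.trans e2
    have h2 : ‖j x‖ ^ 2 = ‖j' x‖ ^ 2 := by exact_mod_cast h1
    exact (sq_eq_sq₀ (norm_nonneg _) (norm_nonneg _)).1 h2
  let W : K' ≃ₗᵢ[ℂ] K :=
    (LinearEquiv.refl ℂ (Elt M)).extendOfIsometry j' j hd hS.dense (fun x => hnorm x)
  have hW : ∀ x, W (j' x) = j x := fun x =>
    LinearEquiv.extendOfIsometry_eq (LinearEquiv.refl ℂ (Elt M)) j' j hd hS.dense (fun x => hnorm x) x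
  let D : (K →L[ℂ] K) ≃⋆ₐ[ℂ] (K' →L[ℂ] K') := W.symm.conjStarAlgEquiv
  have hDapp : ∀ (X : K →L[ℂ] K) (v : K'), D X v = W.symm (X (W v)) := fun X v => rfl
  have hDl : ∀ a, D (lam a) = lam' a := by
    intro a
    apply ContinuousLinearMap.coeFn_injective
    apply hd.equalizer (D (lam a)).continuous (lam' a).continuous
    funext b
    simp only [Function.comp]
    rw [hDapp, hW, hS.lam_j, hl, ← hW, LinearIsometryEquiv.symm_apply_apply]
  let Dl : (K →L[ℂ] K) →ₗ[ℂ] (K' →L[ℂ] K') :=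
    { toFun := fun X => D X
      map_add' := fun X Y => map_add D X Y
      map_smul' := fun c X => map_smul D c X }
  refine ⟨φ' ∘ₗ Dl, ⟨?_, ?_⟩, ?_⟩
  · intro X
    have : D (star X * X) = star (D X) * D X := by rw [map_mul, map_star]
    change 0 ≤ (φ' (D (star X * X))).re ∧ (φ' (D (star X * X))).im = 0
    rw [this]
    exact hpos _
  · intro x
    change φ' (D (lam x)) = _
    rw [hDl, htr, one_mul, mul_one]
  · intro a _ X
    change ‖φ' (D (lam a * X)) - φ' (D (X * lam a))‖ ≤ _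
    have e1 : D (lam a * X) = lam' a * D X := by rw [← hDl]; exact map_mul D _ _
    have e2 : D (X * lam a) = D X * lam' a := by rw [← hDl]; exact map_mul D _ _
    rw [e1, e2, hcen, sub_self, norm_zero, zero_mul]

end Pool.Agent.H811R4.SD
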