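import Mathlib
import Pool.Agent.H811R4.SD.Stubs
import Pool.Agent.Helper278.Factor
import Pool.Agent.Helper278.Conj
import Pool.Agent.Helper278.UnitLift
import Pool.Agent.Helper278.Lift
import Pool.Agent.Helper278.KLift
import Pool.Agent.Helper278.GroupMain

/-!
# Task LIFT: lifting partitions of a projection of `M`
-/

set_option autoImplicit false

open scoped InnerProductSpace BoundedContinuousFunction Topology
open Filter

namespace Pool.Agent.H811R4.SD

open Pool.Agent.Helper278

namespace LiftAux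

section alg

variable {R : Type*} [Ring R] [StarRing R]

theorem sum_mul_proj {ι : Type*} [Fintype ι] [DecidableEq ι] (q : ι → R) (hq : ∀ i, Proj (q i))
    (ho : ∀ i k, i ≠ k → q i * q k = 0) {p : R} (hs : ∑ i, q i = p) (i : ι) :
    p * q i = q i ∧ q i * p = q i := by
  constructor
  · rw [← hs, Finset.sum_mul, Finset.sum_eq_single i]
    · exact (hq i).idem
    · intro j _ hj
      exact ho j i hj
    · intro h
      exact absurd (Finset.mem_univ i) h
  · rw [← hs, Finset.mul_sum, Finset.sum_eq_single i]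
    · exact (hq i).idem
    · intro j _ hj
      exact ho i j (Ne.symm hj)
    · intro h
      exact absurd (Finset.mem_univ i) h

/-- the PVM obtained by adding the complement -/
def ext {ι : Type*} (q : ι → R) (p : R) : Option ι → R
  | none => 1 - p
  | some i => q i

theorem pvm_ext [Algebra ℂ R] [StarModule ℂ R] {ι : Type*} [Fintype ι] [DecidableEq ι] (q : ι → R)
    (hq : ∀ i, Proj (q i)) (ho : ∀ i k, i ≠ k → q i * q k = 0) {p : R} (hp : Proj p)
    (hs : ∑ i, q i = p) : PVM (ext q p) := by
  refine ⟨?_, ?_, ?_, ?_⟩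
  · rintro (_ | i)
    · show star (1 - p) = 1 - p
      rw [star_sub, star_one, hp.sa]
    · exact (hq i).sa
  · rintro (_ | i)
    · show (1 - p) * (1 - p) = 1 - p
      have : (1 - p) * (1 - p) = 1 - p - p + p * p := by noncomm_ring
      rw [this, hp.idem]; abel
    · exact (hq i).idem
  · rintro (_ | i) (_ | k) h
    · exact absurd rfl h
    · show (1 - p) * q k = 0
      rw [sub_mul, one_mul, (sum_mul_proj q hq ho hs k).1, sub_self]
    · show q i * (1 - p) = 0
      rw [mul_sub, mul_one, (sum_mul_proj q hq ho hs i).2, sub_self]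
    · exact ho i k (fun h' => h (by rw [h']))
  · rw [Fintype.sum_option]
    show (1 - p) + ∑ i, q i = 1
    rw [hs]; abel

end alg

section cst

variable {H : Type} [NormedAddCommGroup H] [InnerProductSpace ℂ H] [CompleteSpace H]
variable {M : VonNeumannAlgebra H}

theorem norm_proj_le {p : Elt M} (hp : Proj p) : ‖p‖ ≤ 1 := by
  have h1 : ‖star p * p‖ = ‖p‖ * ‖p‖ := CStarRing.norm_star_mul_self
  rw [hp.sa, hp.idem] at h1
  by_contra h
  push Not at h
  nlinarith [norm_nonneg p]

theorem norm_le_of_star_mul {x p : Elt M} (hp : Proj p) (hx : star x * x = p) : ‖x‖ ≤ 1 := by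
  have h1 : ‖star x * x‖ = ‖x‖ * ‖x‖ := CStarRing.norm_star_mul_self
  rw [hx] at h1
  have h2 := norm_proj_le hp
  by_contra h
  push Not at h
  nlinarith [norm_nonneg x]

end cst

end LiftAux

open LiftAux

theorem lift_holds (hQMOD : StQMOD) (hCORN : StCORN) (hDPVM : StDPVM) : StLIFT := by
  intro H _ _ _ M T hM U Q _ _ _ _ π σ hπ hU p hp m q hq ho hs
  classical
  have hA := trAlg T
  have hB := sigma_trAlg hπ
  have hσc : ∀ x : Elt M, σ (π (BoundedContinuousFunction.const ℕ x)) = T.τ x := by
    intro x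
    refine tendsto_nhds_unique (hπ.trace (BoundedContinuousFunction.const ℕ x)) ?_
    exact tendsto_const_nhds
  by_cases hp0 : p = 0
  · subst hp0
    have hq0 : ∀ i, q i = 0 := by
      intro i
      apply hB.faithful
      show σ (star (q i) * q i) = 0
      rw [(hq i).1.sa, (hq i).1.idem, (hq i).2, map_zero, zero_div]
    refine ⟨fun _ => 0, fun i => by rw [map_zero, hq0], fun n => ⟨fun i => ⟨⟨?_, ?_⟩, ?_⟩, ?_, ?_⟩⟩
    · simp
    · simp
    · simp
    · intro i k _
      simp
    · simp
  -- the partition in `M`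
  have hd : IsDiffuse M := diffuse_of_factor T hM.center hM.infinite
  have hd' : DiffuseIn (RC (∅ : Set (Elt M))) := by
    intro r _ hrr hrs hr0
    obtain ⟨x, hx, hc⟩ := hd (r : H →L[ℂ] H) r.2 (congrArg Subtype.val hrr)
      (congrArg Subtype.val hrs) (fun h => hr0 (Subtype.ext h))
    refine ⟨⟨x, hx⟩, fun a ha => absurd ha (Set.notMem_empty a), fun c h => hc c ?_⟩
    exact congrArg Subtype.val h
  obtain ⟨q0, hq0, ho0, hs0⟩ := hDPVM T ∅ (fun a ha => absurd ha (Set.notMem_empty a)) hd' p
    (fun a ha => absurd ha (Set.notMem_empty a)) hp m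
  let cst : Elt M → (ℕ →ᵇ Elt M) := fun x => BoundedContinuousFunction.const ℕ x
  have cst_mul : ∀ x y, π (cst x) * π (cst y) = π (cst (x * y)) := by
    intro x y
    rw [← map_mul]
    rfl
  have cst_star : ∀ x, star (π (cst x)) = π (cst (star x)) := by
    intro x
    rw [← map_star]
    rfl
  have hP : Proj (π (cst p)) := by
    refine ⟨?_, ?_⟩
    · rw [cst_star, hp.sa]
    · rw [cst_mul, hp.idem]
  have hQ0 : ∀ i, Proj (π (cst (q0 i))) := by
    intro i
    refine ⟨?_, ?_⟩
    · rw [cst_star, (hq0 i).1.sa]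
    · rw [cst_mul, (hq0 i).1.idem]
  have hO0 : ∀ i k, i ≠ k → π (cst (q0 i)) * π (cst (q0 k)) = 0 := by
    intro i k hik
    rw [cst_mul, ho0 i k hik]
    have : cst 0 = 0 := rfl
    rw [this, map_zero]
  have hS0 : ∑ i, π (cst (q0 i)) = π (cst p) := by
    rw [← map_sum]
    congr 1
    ext1 n
    rw [BoundedContinuousFunction.coe_sum, Finset.sum_apply]
    exact hs0
  -- the unitary in `Q`
  obtain ⟨K, _, _, _, N, e, T', hN, hT'⟩ := hQMOD T hM hπ hU
  have pv1 := pvm_ext (fun i => π (cst (q0 i))) hQ0 hO0 hP hS0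
  have pv2 := pvm_ext q (fun i => (hq i).1) ho hP hs
  have pe : ∀ {ι : Type} [Fintype ι] (r : ι → Q), PVM r → PVM (fun i => e (r i)) := by
    intro ι _ r hr
    refine ⟨fun i => ?_, fun i => ?_, fun i k hik => ?_, ?_⟩
    · rw [← map_star, hr.star_eq]
    · rw [← map_mul, hr.idem]
    · rw [← map_mul, hr.orth i k hik, map_zero]
    · rw [← map_sum, hr.sum, map_one]
  have hw : ∃ w : Q, star w * w = 1 ∧ w * star w = 1 ∧
      ∀ i, w * ext (fun i => π (cst (q0 i))) (π (cst p)) i * star w = ext q (π (cst p)) i := by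
    have hA' := trAlg T'
    obtain ⟨w, hw1, hw2, hw3⟩ := hA'.conj_pvm _ _ (pe _ pv1) (pe _ pv2) (fun i =>
      exists_equiv T' hN.center _ _ ((pe _ pv1).star_eq i) ((pe _ pv1).idem i)
        ((pe _ pv2).star_eq i) ((pe _ pv2).idem i) (by
          rw [hT', hT']
          rcases i with _ | i
          · rfl
          · show σ (π (cst (q0 i))) = σ (q i)
            rw [(hq i).2, ← (hq0 i).2.2]
            exact hσc _))
    have einj : ∀ x y : Q, e x = e y → x = y := fun x y h => e.injective h
    refine ⟨e.symm w, einj _ _ ?_, einj _ _ ?_, fun i => einj _ _ ?_⟩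
    · rw [map_mul, map_star, StarAlgEquiv.apply_symm_apply, hw1, map_one]
    · rw [map_mul, map_star, StarAlgEquiv.apply_symm_apply, hw2, map_one]
    · rw [map_mul, map_mul, map_star, StarAlgEquiv.apply_symm_apply, hw3]
  obtain ⟨w, hw1, hw2, hw3⟩ := hw
  have hwq : ∀ i, w * π (cst (q0 i)) * star w = q i := fun i => hw3 (some i)
  have hwp : w * π (cst p) * star w = π (cst p) := by
    have h1 := hw3 none
    have h1' : w * (1 - π (cst p)) * star w = 1 - π (cst p) := h1
    have h2 : w * (1 - π (cst p)) * star w = w * star w - w * π (cst p) * star w := by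
      noncomm_ring
    rw [h2, hw2] at h1'
    exact sub_right_injective h1'
  obtain ⟨a, ha⟩ := exists_unitary_lift hπ w (Unitary.mem_iff.2 ⟨hw1, hw2⟩)
  -- the corner
  obtain ⟨H', _, _, _, Np, Tp, ι, hC, hNp⟩ := hCORN T hM p hp hp0
  have hx : ∀ n, ∃ x : Elt Np, ι x = p * (a n : Elt M) * p := by
    intro n
    apply hC.surj
    calc p * (p * (a n : Elt M) * p) * p = (p * p) * (a n : Elt M) * (p * p) := by noncomm_ring
      _ = p * (a n : Elt M) * p := by rw [hp.idem]
  choose x hx using hx
  choose u hu hun using fun n => exists_unitary_near Tp (x n)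
  have hu1 : ∀ n, star (ι (u n)) * ι (u n) = p := by
    intro n
    rw [← map_star, ← map_mul, (Unitary.mem_iff.1 (hu n)).1, hC.one]
  have hu2 : ∀ n, ι (u n) * star (ι (u n)) = p := by
    intro n
    rw [← map_star, ← map_mul, (Unitary.mem_iff.1 (hu n)).2, hC.one]
  have hup : ∀ n, ι (u n) * p = ι (u n) := by
    intro n
    rw [← hC.one, ← map_mul, mul_one]
  have hpu : ∀ n, p * ι (u n) = ι (u n) := by
    intro n
    rw [← hC.one, ← map_mul, one_mul]
  -- norms
  have hTp : T.τ p = ((T.τ p).re : ℂ) := by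
    apply Complex.ext
    · simp
    · have := hA.im_zero p
      rw [hp.sa, hp.idem] at this
      simp [this]
  have hTp0 : 0 < (T.τ p).re := by
    have h1 := hA.re_nonneg p
    rw [hp.sa, hp.idem] at h1
    refine lt_of_le_of_ne h1 fun h3 => hp0 ?_
    apply hA.faithful
    rw [hp.sa, hp.idem, hTp, ← h3, Complex.ofReal_zero]
  set s := Real.sqrt (T.τ p).re with hsdef
  have hs_pos : 0 < s := Real.sqrt_pos.2 hTp0
  have hn2 : ∀ y : Elt Np, n2 T.τ (ι y) = s * n2 Tp.τ y := by
    intro y
    unfold n2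
    rw [hsdef, ← Real.sqrt_mul hTp0.le, ← map_star, ← map_mul, hC.tr, hTp, Complex.re_ofReal_mul]
    simp
  let Bq : ℕ →ᵇ Elt M := BoundedContinuousFunction.ofNormedAddCommGroupDiscrete
    (fun n => ι (u n)) 1 (fun n => norm_le_of_star_mul hp (hu1 n))
  have hBq : ∀ n, Bq n = ι (u n) := fun n => rfl
  have hPw : π (cst p) * w = w * π (cst p) := by
    calc π (cst p) * w = (w * π (cst p) * star w) * w := by rw [hwp]
      _ = w * π (cst p) * (star w * w) := by noncomm_ring
      _ = w * π (cst p) := by rw [hw1, mul_one]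
  have hkey : π (star (cst p * mkB a * cst p) * (cst p * mkB a * cst p)) = π (cst p) := by
    have hPw' : star w * π (cst p) = π (cst p) * star w := by
      have := congrArg star hPw
      rwa [star_mul, star_mul, hP.sa] at this
    rw [map_mul, map_star, map_mul, map_mul, ha, star_mul, star_mul, hP.sa]
    calc π (cst p) * (star w * π (cst p)) * (π (cst p) * w * π (cst p))
        = π (cst p) * (star w * (π (cst p) * π (cst p)) * w) * π (cst p) := by noncomm_ring
      _ = π (cst p) * ((star w * π (cst p)) * w) * π (cst p) := by rw [hP.idem]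
      _ = π (cst p) * (π (cst p) * (star w * w)) * π (cst p) := by rw [hPw']; noncomm_ring
      _ = π (cst p) := by rw [hw1, mul_one, hP.idem, hP.idem]
  have hkey2 := (pi_eq_iff hπ _ _).1 hkey
  have hsq : ∀ g : ℕ → ℝ, Tendsto g U (𝓝 0) →
      Tendsto (fun n => s * Real.sqrt ((1 / s) * g n)) U (𝓝 0) := by
    intro g hg
    have h1 := hg.const_mul (1 / s)
    rw [mul_zero] at h1
    have h4 := (Real.continuous_sqrt.tendsto 0).comp h1
    rw [Real.sqrt_zero] at h4
    have h5 := h4.const_mul s
    rw [mul_zero] at h5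
    exact h5
  have hBp : π Bq = π (cst p * mkB a * cst p) := by
    rw [pi_eq_iff hπ]
    have h3 := hsq _ hkey2
    refine squeeze_zero (fun n => n2_nonneg _ _) (fun n => ?_) h3
    have e1 : (cst p * mkB a * cst p) n = ι (x n) := by
      rw [hx]
      rfl
    have e2 : (star (cst p * mkB a * cst p) * (cst p * mkB a * cst p)) n - (cst p) n
        = ι (star (x n) * x n - 1) := by
      rw [map_sub, hC.one, map_mul, map_star, ← e1]
      rfl
    rw [e1, e2, hBq, ← map_sub, hn2, hn2, ← mul_assoc, one_div, inv_mul_cancel₀ hs_pos.ne',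
      one_mul]
    refine mul_le_mul_of_nonneg_left ?_ hs_pos.le
    rw [(trAlg Tp).n2_sub_comm]
    apply Real.le_sqrt_of_sq_le
    exact hun n
  have hq0p : ∀ i, p * q0 i = q0 i ∧ q0 i * p = q0 i :=
    sum_mul_proj q0 (fun i => (hq0 i).1) ho0 hs0
  have hqp : ∀ i, π (cst p) * q i = q i ∧ q i * π (cst p) = q i :=
    sum_mul_proj q (fun i => (hq i).1) ho hs
  refine ⟨fun i => Bq * cst (q0 i) * star Bq, fun i => ?_, fun n => ⟨fun i => ⟨⟨?_, ?_⟩, ?_⟩, ?_, ?_⟩⟩
  · rw [map_mul, map_mul, map_star, hBp, map_mul, map_mul, ha, star_mul, star_mul, hP.sa]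
    have e3 : π (cst p) * π (cst (q0 i)) * π (cst p) = π (cst (q0 i)) := by
      rw [cst_mul, cst_mul, (hq0p i).1, (hq0p i).2]
    calc π (cst p) * w * π (cst p) * π (cst (q0 i)) * (π (cst p) * (star w * π (cst p)))
        = π (cst p) * (w * (π (cst p) * π (cst (q0 i)) * π (cst p)) * star w) * π (cst p) := by
          noncomm_ring
      _ = q i := by rw [e3, hwq, (hqp i).1, (hqp i).2]
  · show star (ι (u n) * q0 i * star (ι (u n))) = ι (u n) * q0 i * star (ι (u n))
    rw [star_mul, star_mul, star_star, (hq0 i).1.sa, mul_assoc]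
  · show ι (u n) * q0 i * star (ι (u n)) * (ι (u n) * q0 i * star (ι (u n))) =
      ι (u n) * q0 i * star (ι (u n))
    calc ι (u n) * q0 i * star (ι (u n)) * (ι (u n) * q0 i * star (ι (u n)))
        = ι (u n) * (q0 i * (star (ι (u n)) * ι (u n)) * q0 i) * star (ι (u n)) := by noncomm_ring
      _ = ι (u n) * q0 i * star (ι (u n)) := by rw [hu1, (hq0p i).2, (hq0 i).1.idem]
  · show T.τ (ι (u n) * q0 i * star (ι (u n))) = T.τ p / 2 ^ m
    rw [hA.comm, ← mul_assoc, hu1, (hq0p i).1]
    exact (hq0 i).2.2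
  · intro i k hik
    show ι (u n) * q0 i * star (ι (u n)) * (ι (u n) * q0 k * star (ι (u n))) = 0
    calc ι (u n) * q0 i * star (ι (u n)) * (ι (u n) * q0 k * star (ι (u n)))
        = ι (u n) * (q0 i * (star (ι (u n)) * ι (u n)) * q0 k) * star (ι (u n)) := by noncomm_ring
      _ = 0 := by rw [hu1, (hq0p i).2, ho0 i k hik, mul_zero, zero_mul]
  · show ∑ i, ι (u n) * q0 i * star (ι (u n)) = p
    rw [← Finset.sum_mul, ← Finset.mul_sum, hs0, hup, hu2]

end Pool.Agent.H811R4.SD
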