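import Mathlib
import Pool.Agent.H811R4.SD.Stubs
import Pool.Agent.Helper278.Lift

/-!
# Task MA8b: the algebra generated by a commuting sequence of projections
-/

set_option autoImplicit false

open scoped InnerProductSpace BoundedContinuousFunction Topology
open Filter

namespace Pool.Agent.H811R4.SD

open Pool.Agent.Helper278

namespace MA8bx

section ring

variable {R : Type*} [Ring R] [Algebra ℂ R]

/-- conjugation average -/
noncomputable def Av (u x : R) : R := (1 / 2 : ℂ) • (x + u * x * u)

theorem Av_comm (u x : R) (hu : u * u = 1) : u * Av u x = Av u x * u := by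
  unfold Av
  rw [mul_smul_comm, smul_mul_assoc, mul_add, add_mul]
  have h1 : u * (u * x * u) = x * u := by
    rw [← mul_assoc, ← mul_assoc, hu, one_mul]
  have h2 : u * x * u * u = u * x := by rw [mul_assoc, hu, mul_one]
  rw [h1, h2, add_comm]

theorem Av_lin (u x y : R) (hy : y * u = u * y) : y * Av u x - Av u x * y =
    Av u (y * x - x * y) := by
  unfold Av
  rw [mul_smul_comm, smul_mul_assoc, ← smul_sub, mul_add, add_mul]
  congr 1
  have h1 : y * (u * x * u) = u * (y * x) * u := by
    rw [← mul_assoc, ← mul_assoc, hy, mul_assoc u y x]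
  have h2 : u * x * u * y = u * (x * y) * u := by
    rw [mul_assoc (u * x) u y, ← hy, ← mul_assoc, mul_assoc u x y]
  rw [h1, h2, mul_sub, sub_mul]
  abel

end ring

section vn

variable {H : Type} [NormedAddCommGroup H] [InnerProductSpace ℂ H] [CompleteSpace H]
variable {M : VonNeumannAlgebra H}

/-- the symmetry `1 - 2 f` -/
noncomputable def uu (f : Elt M) : Elt M := 1 - (f + f)

theorem uu_sq (f : Elt M) (hf : Proj f) : uu f * uu f = 1 := by
  unfold uu
  have := hf.idem
  rw [sub_mul, one_mul, mul_sub, mul_one, add_mul, mul_add, this]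
  abel

theorem uu_star (f : Elt M) (hf : Proj f) : star (uu f) = uu f := by
  unfold uu
  rw [star_sub, star_add, star_one, hf.sa]

theorem uu_norm (f : Elt M) (hf : Proj f) : ‖((uu f : Elt M) : H →L[ℂ] H)‖ ≤ 1 := by
  have h1 : uu f ∈ unitary (Elt M) := by
    rw [Unitary.mem_iff, uu_star f hf, uu_sq f hf]
    exact ⟨rfl, rfl⟩
  exact norm_unitary_le ⟨uu f, h1⟩

theorem comm_uu (f g : Elt M) (h : f * g = g * f) : f * uu g = uu g * f := by
  unfold uu
  rw [mul_sub, sub_mul, mul_one, one_mul, mul_add, add_mul, h]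

theorem uu_comm (f x : Elt M) : uu f * x - x * uu f = -(f * x - x * f + (f * x - x * f)) := by
  unfold uu
  rw [sub_mul, mul_sub, one_mul, mul_one, add_mul, mul_add]
  abel

theorem of_uu (f x : Elt M) (h : uu f * x = x * uu f) : f * x = x * f := by
  have h1 := uu_comm f x
  rw [h, sub_self] at h1
  have h2 : (2 : ℂ) • (f * x - x * f) = 0 := by
    rw [two_smul]
    exact neg_eq_zero.1 h1.symm
  have h3 := (smul_eq_zero.1 h2).resolve_left two_ne_zero
  exact sub_eq_zero.1 h3

variable (T : TracialState M)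

theorem n2_smul (c : ℂ) (x : Elt M) : n2 T.τ (c • x) ≤ ‖c‖ * n2 T.τ x := by
  have hA := trAlg T
  have h1 : n2 T.τ (c • x) ^ 2 = (‖c‖ * n2 T.τ x) ^ 2 := by
    rw [hA.n2_sq, mul_pow, hA.n2_sq, star_smul, smul_mul_smul_comm, map_smul, smul_eq_mul]
    have h2 : star c * c = ((‖c‖ ^ 2 : ℝ) : ℂ) := by
      rw [Complex.star_def, Complex.conj_mul']
      push_cast
      rfl
    rw [h2, Complex.re_ofReal_mul]
  exact ((pow_le_pow_iff_left₀ (n2_nonneg _ _) (mul_nonneg (norm_nonneg _) (n2_nonneg _ _))
    two_ne_zero).1 h1.le)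

theorem n2_conj (f x : Elt M) (hf : Proj f) : n2 T.τ (uu f * x * uu f) ≤ n2 T.τ x := by
  have h1 := n2_mul_le' T (uu f * x) (uu f)
  have h2 := n2_mul_le T (uu f) x
  have h3 := uu_norm f hf
  have h4 := n2_nonneg T.τ (uu f * x)
  have h5 := n2_nonneg T.τ x
  have h6 : ‖((uu f : Elt M) : H →L[ℂ] H)‖ * n2 T.τ (uu f * x) ≤ 1 * n2 T.τ (uu f * x) :=
    mul_le_mul_of_nonneg_right h3 h4
  have h7 : ‖((uu f : Elt M) : H →L[ℂ] H)‖ * n2 T.τ x ≤ 1 * n2 T.τ x :=
    mul_le_mul_of_nonneg_right h3 h5
  linarith

theorem n2_Av (f x : Elt M) (hf : Proj f) : n2 T.τ (Av (uu f) x) ≤ n2 T.τ x := by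
  have hA := trAlg T
  unfold Av
  have h1 := n2_smul T (1 / 2 : ℂ) (x + uu f * x * uu f)
  have h2 : ‖(1 / 2 : ℂ)‖ = 1 / 2 := by norm_num
  rw [h2] at h1
  have h3 := hA.n2_add_le x (uu f * x * uu f)
  have h4 := n2_conj T f x hf
  linarith

theorem norm_Av (f x : Elt M) (hf : Proj f) : ‖Av (uu f) x‖ ≤ ‖x‖ := by
  unfold Av
  have h3 : ‖(uu f : Elt M)‖ ≤ 1 := uu_norm f hf
  have h1 : ‖uu f * x * uu f‖ ≤ ‖x‖ := by
    refine (norm_mul_le _ _).trans ?_
    have h4 : ‖uu f * x‖ ≤ ‖uu f‖ * ‖x‖ := norm_mul_le _ _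
    have h5 := norm_nonneg (uu f * x)
    have h6 := norm_nonneg x
    have h7 := norm_nonneg (uu f : Elt M)
    nlinarith
  rw [norm_smul]
  have h2 : ‖(1 / 2 : ℂ)‖ = 1 / 2 := by norm_num
  rw [h2]
  have h8 := norm_add_le x (uu f * x * uu f)
  linarith

/-- one step changes the element by the commutator -/
theorem n2_step (f x : Elt M) (hf : Proj f) :
    n2 T.τ (Av (uu f) x - x) ≤ n2 T.τ (f * x - x * f) := by
  have hA := trAlg T
  have h1 : Av (uu f) x - x = (1 / 2 : ℂ) • ((uu f * x - x * uu f) * uu f) := by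
    unfold Av
    rw [sub_mul, mul_assoc x, uu_sq f hf, mul_one, smul_add, smul_sub]
    have h2 : x = (1 / 2 : ℂ) • x + (1 / 2 : ℂ) • x := by
      rw [← add_smul]
      norm_num
    nth_rewrite 3 [h2]
    abel
  rw [h1]
  have h2 := n2_smul T (1 / 2 : ℂ) ((uu f * x - x * uu f) * uu f)
  have h3 : ‖(1 / 2 : ℂ)‖ = 1 / 2 := by norm_num
  rw [h3] at h2
  have h4 := n2_mul_le' T (uu f * x - x * uu f) (uu f)
  have h5 := uu_norm f hf
  have h6 := n2_nonneg T.τ (uu f * x - x * uu f)
  have h7 : ‖((uu f : Elt M) : H →L[ℂ] H)‖ * n2 T.τ (uu f * x - x * uu f) ≤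
      1 * n2 T.τ (uu f * x - x * uu f) := mul_le_mul_of_nonneg_right h5 h6
  have h8 : n2 T.τ (uu f * x - x * uu f) ≤ 2 * n2 T.τ (f * x - x * f) := by
    rw [uu_comm, hA.n2_neg]
    have := hA.n2_add_le (f * x - x * f) (f * x - x * f)
    linarith
  linarith

/-- the sequence of averages -/
noncomputable def cc (f : ℕ → Elt M) (a : Elt M) : ℕ → Elt M
  | 0 => a
  | n + 1 => Av (uu (f n)) (cc f a n)

/-! ### atoms -/

theorem atom_comm (f : ℕ → Elt M) (y : Elt M)
    (hy : ∀ i, y * f i = f i * y) : ∀ l : List Bool, y * atom f l = atom f l * y := by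
  intro l
  induction l with
  | nil => simp [atom]
  | cons b l ih =>
    unfold atom
    have h1 : y * (if b then f l.length else 1 - f l.length) =
        (if b then f l.length else 1 - f l.length) * y := by
      cases b
      · simp only [Bool.false_eq_true, if_false]
        rw [mul_sub, sub_mul, mul_one, one_mul, hy]
      · simp only [if_true]
        exact hy _
    rw [← mul_assoc, ih, mul_assoc, h1, mul_assoc]

theorem atom_proj (f : ℕ → Elt M) (hf : ∀ i, Proj (f i)) (hc : ∀ i k, f i * f k = f k * f i) :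
    ∀ l : List Bool, Proj (atom f l) := by
  intro l
  induction l with
  | nil => exact ⟨by simp [atom], by simp [atom]⟩
  | cons b l ih =>
    have hg : Proj (if b then f l.length else 1 - f l.length) := by
      cases b
      · simp only [Bool.false_eq_true, if_false]
        refine ⟨?_, ?_⟩
        · rw [star_sub, star_one, (hf _).sa]
        · rw [sub_mul, one_mul, mul_sub, mul_one, (hf _).idem]
          abel
      · simp only [if_true]
        exact hf _
    have h2 : (if b then f l.length else 1 - f l.length) * atom f l =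
        atom f l * (if b then f l.length else 1 - f l.length) := by
      refine atom_comm f _ (fun i => ?_) l
      cases b
      · simp only [Bool.false_eq_true, if_false]
        rw [mul_sub, sub_mul, mul_one, one_mul, hc]
      · simp only [if_true]
        exact hc _ _
    constructor
    · show star (atom f l * (if b then f l.length else 1 - f l.length)) = _
      rw [star_mul, ih.sa, hg.sa, h2]
      rfl
    · show atom f l * (if b then f l.length else 1 - f l.length) *
        (atom f l * (if b then f l.length else 1 - f l.length)) = _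
      rw [mul_assoc, ← mul_assoc _ (atom f l), h2, mul_assoc, hg.idem, ← mul_assoc, ih.idem]
      rfl

theorem atom_partition (f : ℕ → Elt M) (m : ℕ) : ∃ (k : ℕ) (q : Fin k → Elt M),
    (∀ i, ∃ l : List Bool, l.length = m ∧ q i = atom f l) ∧ ∑ i, q i = 1 := by
  induction m with
  | zero => exact ⟨1, fun _ => 1, fun _ => ⟨[], rfl, rfl⟩, by simp⟩
  | succ m ih =>
    obtain ⟨k, q, h1, h2⟩ := ih
    refine ⟨k + k, Fin.append (fun i => q i * f m) (fun i => q i * (1 - f m)), ?_, ?_⟩
    · intro i
      refine Fin.addCases (fun j => ?_) (fun j => ?_) i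
      · obtain ⟨l, hl, hq⟩ := h1 j
        refine ⟨true :: l, by simp [hl], ?_⟩
        rw [Fin.append_left, hq]
        simp [atom, hl]
      · obtain ⟨l, hl, hq⟩ := h1 j
        refine ⟨false :: l, by simp [hl], ?_⟩
        rw [Fin.append_right, hq]
        simp [atom, hl]
    · rw [Fin.sum_univ_add]
      simp only [Fin.append_left, Fin.append_right]
      rw [← Finset.sum_mul, ← Finset.sum_mul, h2, one_mul, one_mul]
      abel

end vn

end MA8bx

open MA8bx in
theorem ma8b_holds (hG0 : StG0) (hDIF : StDIF) : StMA8b := by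
  intro H _ _ _ M T F ε f hε hf hc hcom hat
  have hA := trAlg T
  refine ⟨?_, ?_, ?_⟩
  · rintro _ ⟨i, rfl⟩
    exact ⟨i, (hf i).sa.symm⟩
  · refine hDIF T (RC (Set.range f)) fun η hη => ?_
    obtain ⟨m, hm⟩ := hat η hη
    obtain ⟨k, q, h1, h2⟩ := atom_partition f m
    refine ⟨k, q, fun i => ?_, h2⟩
    obtain ⟨l, hl, hq⟩ := h1 i
    rw [hq]
    refine ⟨atom_proj f hf hc l, ?_, hm l hl⟩
    intro a ha
    refine atom_comm f a (fun i => ?_) l
    exact (ha (f i) ⟨i, rfl⟩).symm
  · intro a ha
    -- commutators along the sequence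
    have hcomk : ∀ (m k : ℕ), n2 T.τ (f m * cc f a k - cc f a k * f m) ≤
        n2 T.τ (f m * a - a * f m) := by
      intro m k
      induction k with
      | zero => exact le_rfl
      | succ k ih =>
        have h1 : f m * cc f a (k + 1) - cc f a (k + 1) * f m =
            Av (uu (f k)) (f m * cc f a k - cc f a k * f m) :=
          Av_lin (uu (f k)) (cc f a k) (f m) (comm_uu (f m) (f k) (hc m k))
        rw [h1]
        exact (n2_Av T (f k) _ (hf k)).trans ih
    have hstep : ∀ m, n2 T.τ (cc f a (m + 1) - cc f a m) ≤ ε / 2 ^ (m + 1) := fun m =>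
      ((n2_step T (f m) (cc f a m) (hf m)).trans (hcomk m m)).trans (hcom m a ha)
    have hdist : ∀ m k, n2 T.τ (cc f a (m + k) - cc f a m) ≤ ε / 2 ^ m - ε / 2 ^ (m + k) := by
      intro m k
      induction k with
      | zero =>
        rw [add_zero, sub_self, sub_self, hA.n2_zero]
      | succ k ih =>
        have h1 := hA.n2_tri (cc f a (m + (k + 1))) (cc f a (m + k)) (cc f a m)
        have h2 := hstep (m + k)
        have h3 : ε / 2 ^ (m + k) = ε / 2 ^ (m + k + 1) + ε / 2 ^ (m + k + 1) := by
          rw [pow_succ]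
          field_simp
          ring
        have h4 : m + (k + 1) = m + k + 1 := by ring
        rw [h4] at h1 ⊢
        linarith
    have hnorm : ∀ k, ‖cc f a k‖ ≤ ‖a‖ := by
      intro k
      induction k with
      | zero => exact le_rfl
      | succ k ih => exact (norm_Av (f k) (cc f a k) (hf k)).trans ih
    have hpow : Tendsto (fun m : ℕ => ε / 2 ^ m) atTop (𝓝 0) := by
      have h1 := (tendsto_pow_atTop_nhds_zero_of_lt_one (r := (1 / 2 : ℝ)) (by norm_num)
        (by norm_num)).const_mul ε
      rw [mul_zero] at h1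
      refine h1.congr fun m => ?_
      rw [one_div, inv_pow]
      rfl
    have hle : ∀ m n, m ≤ n → n2 T.τ (cc f a n - cc f a m) ≤ ε / 2 ^ m := by
      intro m n hmn
      obtain ⟨k, rfl⟩ := Nat.exists_eq_add_of_le hmn
      have h1 := hdist m k
      have h2 : 0 ≤ ε / 2 ^ (m + k) := by positivity
      linarith
    obtain ⟨c, -, hcl⟩ := hG0 T ‖a‖ (cc f a) hnorm (by
      intro η hη
      obtain ⟨n0, hn0⟩ := (hpow.eventually_lt_const (show (0 : ℝ) < η / 2 by positivity)).exists
      refine ⟨n0, fun n hn m hm => ?_⟩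
      have h1 := hA.n2_tri (cc f a n) (cc f a n0) (cc f a m)
      have h2 := hle n0 n hn
      have h3 := hle n0 m hm
      rw [hA.n2_sub_comm (cc f a n0)] at h1
      linarith)
    -- commutation
    have hcu : ∀ m k, k < m → uu (f k) * cc f a m = cc f a m * uu (f k) := by
      intro m
      induction m with
      | zero =>
        intro k hk
        exact absurd hk (Nat.not_lt_zero k)
      | succ m ih =>
        intro k hk
        rcases Nat.lt_succ_iff_lt_or_eq.1 hk with h1 | h1
        · have h2 := Av_lin (uu (f m)) (cc f a m) (uu (f k))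
            (comm_uu (uu (f k)) (f m) (comm_uu (f m) (f k) (hc m k)).symm)
          rw [ih k h1, sub_self] at h2
          have h3 : Av (uu (f m)) (0 : Elt M) = 0 := by
            unfold Av
            rw [mul_zero, zero_mul, add_zero, smul_zero]
          rw [h3] at h2
          exact sub_eq_zero.1 h2
        · subst h1
          exact Av_comm (uu (f k)) (cc f a k) (uu_sq (f k) (hf k))
    refine ⟨c, ?_, ?_⟩
    · rintro _ ⟨k, rfl⟩
      have h1 : ∀ m, k < m → n2 T.τ (f k * c - c * f k) ≤
          2 * ‖((f k : Elt M) : H →L[ℂ] H)‖ * n2 T.τ (cc f a m - c) := by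
        intro m hm
        have h2 : f k * cc f a m = cc f a m * f k := of_uu (f k) _ (hcu m k hm)
        have h3 : f k * c - c * f k = (cc f a m - c) * f k - f k * (cc f a m - c) := by
          rw [sub_mul, mul_sub, h2]
          abel
        rw [h3]
        have h4 := hA.n2_sub_le ((cc f a m - c) * f k) (f k * (cc f a m - c))
        have h5 := n2_mul_le T (f k) (cc f a m - c)
        have h6 := n2_mul_le' T (cc f a m - c) (f k)
        linarith
      have h2 : n2 T.τ (f k * c - c * f k) ≤ 0 := by
        have h3 := hcl.const_mul (2 * ‖((f k : Elt M) : H →L[ℂ] H)‖)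
        rw [mul_zero] at h3
        refine ge_of_tendsto h3 ?_
        filter_upwards [eventually_gt_atTop k] with m hm
        exact h1 m hm
      have h3 : n2 T.τ (f k * c - c * f k) = 0 := le_antisymm h2 (n2_nonneg _ _)
      have h4 : T.τ (star (f k * c - c * f k) * (f k * c - c * f k)) = 0 := by
        rw [hA.eq_sq, h3]
        norm_num
      exact sub_eq_zero.1 (hA.faithful _ h4)
    · have h1 : ∀ m, n2 T.τ (a - c) ≤ ε + n2 T.τ (cc f a m - c) := by
        intro m
        have h2 := hA.n2_tri a (cc f a m) c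
        have h3 := hle 0 m (Nat.zero_le m)
        rw [hA.n2_sub_comm] at h3
        have h4 : cc f a 0 = a := rfl
        rw [h4, pow_zero, div_one] at h3
        linarith
      have h2 := hcl.const_add ε
      rw [add_zero] at h2
      exact ge_of_tendsto' h2 h1

end Pool.Agent.H811R4.SD
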